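import Pool.Agent.H11.PS1

set_option autoImplicit false
set_option linter.dupNamespace false

namespace Pool.Agent.H11.PT

/-- triples of pairwise distinct variables -/
def Dist3 (φ : List (ℕ × ℕ × ℕ)) : Prop := ∀ c ∈ φ, c.1 ≠ c.2.1 ∧ c.1 ≠ c.2.2 ∧ c.2.1 ≠ c.2.2

/-- positive 1-in-3-SAT -/
def ONE3 (φ : List (ℕ × ℕ × ℕ)) : Prop :=
  ∃ σ : ℕ → Bool, ∀ c ∈ φ, (σ c.1).toNat + (σ c.2.1).toNat + (σ c.2.2).toNat = 1

/-- positive NAE-3-SAT -/
def NAE3 (φ : List (ℕ × ℕ × ℕ)) : Prop :=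
  ∃ σ : ℕ → Bool, ∀ c ∈ φ, ¬ (σ c.1 = σ c.2.1 ∧ σ c.2.1 = σ c.2.2)

def lv (l : Lit) : ℕ := 4 + 6 * l.1 + (bif l.2 then 0 else 1)
def lv' (l : Lit) : ℕ := 4 + 6 * l.1 + (bif l.2 then 1 else 0)

def toOne (φ : List (Lit × Lit × Lit)) : List (ℕ × ℕ × ℕ) :=
  (0, 1, 2) :: (0, 1, 3) :: (0, 2, 3) :: φ.zipIdx.flatMap fun p =>
    [(lv p.1.1, lv' p.1.1, 1), (lv p.1.2.1, lv' p.1.2.1, 1), (lv p.1.2.2, lv' p.1.2.2, 1),
     (lv' p.1.1, 6 + 6 * p.2, 7 + 6 * p.2), (7 + 6 * p.2, lv p.1.2.1, 8 + 6 * p.2),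
     (8 + 6 * p.2, 9 + 6 * p.2, lv' p.1.2.2)]

theorem hard_ONE3 : HardFor InNP Dist3 ONE3 := by
  refine hard_SAT3.hardFor.red toOne (by unfold toOne lv lv'; fun_prop) fun φ _ => ⟨?_, ?_, ?_⟩
  · intro c hc
    simp only [toOne, List.mem_cons, List.mem_flatMap, List.not_mem_nil, or_false] at hc
    rcases hc with rfl | rfl | rfl | ⟨⟨⟨⟨a, a'⟩, ⟨b, b'⟩, ⟨c, c'⟩⟩, i⟩, _, h⟩
    · decide
    · decide
    · decide
    · rcases h with rfl | rfl | rfl | rfl | rfl | rfl <;> simp only [lv, lv'] <;>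
        cases a' <;> cases b' <;> cases c' <;> simp only [cond] <;> omega
  · rintro ⟨σ, hσ⟩
    let d : Lit × Lit × Lit := ((0, true), (0, true), (0, true))
    let X : ℕ → Bool := fun i => σ (φ.getD i d).1.1 == (φ.getD i d).1.2
    let Y : ℕ → Bool := fun i => σ (φ.getD i d).2.1.1 == (φ.getD i d).2.1.2
    let Z : ℕ → Bool := fun i => σ (φ.getD i d).2.2.1 == (φ.getD i d).2.2.2
    let F : ℕ → ℕ → Bool := fun i r =>
      if r = 0 then σ i else if r = 1 then !σ i else if r = 2 then X i && Y i else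
      if r = 3 then X i && !Y i else if r = 4 then !X i && !Y i else Z i && (X i || Y i)
    let τ : ℕ → Bool := fun v => if v < 4 then v == 0 else F ((v - 4) / 6) ((v - 4) % 6)
    have e : ∀ i r, r < 6 → τ (4 + 6 * i + r) = F i r := by
      intro i r h
      have e1 : (4 + 6 * i + r - 4) % 6 = r := by omega
      have e2 : (4 + 6 * i + r - 4) / 6 = i := by omega
      simp only [τ]
      rw [if_neg (by omega), e1, e2]
    have t1 : ∀ l : Lit, τ (lv l) = (σ l.1 == l.2) := by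
      rintro ⟨a, b⟩; cases b <;> simp only [lv, cond] <;> rw [e _ _ (by omega)] <;> simp [F]
    have t2 : ∀ l : Lit, τ (lv' l) = !(σ l.1 == l.2) := by
      rintro ⟨a, b⟩; cases b <;> simp only [lv', cond] <;> rw [e _ _ (by omega)] <;> simp [F]
    have t3 : ∀ i, τ (6 + 6 * i) = (X i && Y i) := by
      intro i; rw [show 6 + 6 * i = 4 + 6 * i + 2 by omega, e _ _ (by omega)]; rfl
    have t4 : ∀ i, τ (7 + 6 * i) = (X i && !Y i) := by
      intro i; rw [show 7 + 6 * i = 4 + 6 * i + 3 by omega, e _ _ (by omega)]; rfl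
    have t5 : ∀ i, τ (8 + 6 * i) = (!X i && !Y i) := by
      intro i; rw [show 8 + 6 * i = 4 + 6 * i + 4 by omega, e _ _ (by omega)]; rfl
    have t6 : ∀ i, τ (9 + 6 * i) = (Z i && (X i || Y i)) := by
      intro i; rw [show 9 + 6 * i = 4 + 6 * i + 5 by omega, e _ _ (by omega)]; rfl
    have t7 : τ 1 = false := rfl
    refine ⟨τ, fun c hc => ?_⟩
    simp only [toOne, List.mem_cons, List.mem_flatMap, List.not_mem_nil, or_false] at hc
    rcases hc with rfl | rfl | rfl | ⟨⟨cl, i⟩, hp, h⟩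
    · rfl
    · rfl
    · rfl
    · rw [List.mem_zipIdx_iff_getElem?] at hp
      simp only at hp h
      have hg : φ.getD i d = cl := by simp [List.getD_eq_getElem?_getD, hp]
      have hs := hσ cl (List.mem_of_getElem? hp)
      have hs' : (σ cl.1.1 == cl.1.2) = true ∨ (σ cl.2.1.1 == cl.2.1.2) = true ∨
        (σ cl.2.2.1 == cl.2.2.2) = true := by simpa using hs
      rcases h with rfl | rfl | rfl | rfl | rfl | rfl <;>
        simp only [t1, t2, t3, t4, t5, t6, t7, X, Y, Z, hg] <;> revert hs' <;>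
        cases (σ cl.1.1 == cl.1.2) <;> cases (σ cl.2.1.1 == cl.2.1.2) <;>
        cases (σ cl.2.2.1 == cl.2.2.2) <;> simp
  · rintro ⟨τ, hτ⟩
    have a1 := hτ (0, 1, 2) (by simp [toOne])
    have a2 := hτ (0, 1, 3) (by simp [toOne])
    have a3 := hτ (0, 2, 3) (by simp [toOne])
    have t7 : τ 1 = false := by
      simp only at a1 a2 a3
      revert a1 a2 a3
      cases τ 0 <;> cases τ 1 <;> cases τ 2 <;> cases τ 3 <;> simp
    refine ⟨fun v => τ (4 + 6 * v), fun cl hcl => ?_⟩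
    obtain ⟨i, hi, rfl⟩ := List.getElem_of_mem hcl
    have hm : (φ[i], i) ∈ φ.zipIdx := by rw [List.mem_zipIdx_iff_getElem?]; simp [hi]
    have key : ∀ c ∈ [(lv φ[i].1, lv' φ[i].1, 1), (lv φ[i].2.1, lv' φ[i].2.1, 1),
        (lv φ[i].2.2, lv' φ[i].2.2, 1), (lv' φ[i].1, 6 + 6 * i, 7 + 6 * i),
        (7 + 6 * i, lv φ[i].2.1, 8 + 6 * i), (8 + 6 * i, 9 + 6 * i, lv' φ[i].2.2)],
        (τ c.1).toNat + (τ c.2.1).toNat + (τ c.2.2).toNat = 1 := fun c hc => hτ c (by
      simp only [toOne, List.mem_cons, List.mem_flatMap]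
      exact Or.inr (Or.inr (Or.inr ⟨_, hm, by simpa using hc⟩)))
    simp only [List.forall_mem_cons, t7] at key
    obtain ⟨k1, k2, k3, k4, k5, k6, -⟩ := key
    have f : ∀ l : Lit, (τ (lv l)).toNat + (τ (lv' l)).toNat + false.toNat = 1 →
        (τ (4 + 6 * l.1) = l.2 ↔ τ (lv l) = true) ∧ τ (lv' l) = !τ (lv l) := by
      rintro ⟨a, b⟩
      cases b <;> simp only [lv, lv', cond, Nat.add_zero] <;>
        cases τ (4 + 6 * a) <;> cases τ (4 + 6 * a + 1) <;> simp
    rw [(f _ k1).1, (f _ k2).1, (f _ k3).1]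
    rw [(f _ k1).2] at k4
    rw [(f _ k3).2] at k6
    revert k4 k5 k6
    cases τ (lv φ[i].1) <;> cases τ (lv φ[i].2.1) <;> cases τ (lv φ[i].2.2) <;>
      cases τ (6 + 6 * i) <;> cases τ (7 + 6 * i) <;> cases τ (8 + 6 * i) <;>
      cases τ (9 + 6 * i) <;> simp

/-- binary digits (least significant first, possibly with leading zeros) -/
def toBin (n : ℕ) : List ℕ := (List.range n).map fun i => (fun m => m / 2)^[i] n % 2

theorem PT.toBin {α : Type} [Enc α] {f : α → ℕ} (hf : PT f) : PT fun x => toBin (f x) := by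
  unfold H11.PT.toBin
  refine PT.map (by fun_prop) (PT.mod ?_ (by fun_prop))
  exact PT.iterate_add (g := fun _ m => m / 2) (by fun_prop) (by fun_prop) (by fun_prop)
    (fun _ => ()) 0 (by fun_prop) (fun _ c => by simp; omega)

theorem ofDigits_toBin (n : ℕ) : Nat.ofDigits 2 (toBin n) = n := by
  have : ∀ k m, m < 2 ^ k →
      Nat.ofDigits 2 ((List.range k).map fun i => (fun m => m / 2)^[i] m % 2) = m := by
    intro k
    induction k with
    | zero => intro m h; simp at h ⊢; omega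
    | succ k ih =>
      intro m h
      rw [List.range_succ_eq_map, List.map_cons, List.map_map, Nat.ofDigits_cons]
      have := ih (m / 2) (by omega)
      simp only [Function.comp_def, Function.iterate_succ_apply] at this ⊢
      rw [this]; simp; omega
  exact this n n Nat.lt_two_pow_self

/-- binary digits as Booleans -/
def toBits (n : ℕ) : List Bool := (toBin n).map fun d => d == 1

theorem PT.toBits {α : Type} [Enc α] {f : α → ℕ} (hf : PT f) : PT fun x => toBits (f x) := by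
  unfold H11.PT.toBits
  exact PT.map hf.toBin (by fun_prop)

theorem ofDigits_toBits (n : ℕ) : Nat.ofDigits 2 ((toBits n).map Bool.toNat) = n := by
  conv_rhs => rw [← ofDigits_toBin n]
  congr 1
  simp only [toBits, toBin, List.map_map]
  apply List.map_congr_left
  intro i _
  simp only [Function.comp]
  rcases Nat.mod_two_eq_zero_or_one ((fun m => m / 2)^[i] n) with h | h <;> simp [h]

end Pool.Agent.H11.PT
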