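import Pool.Agent.H11.PTDefs

set_option autoImplicit false

namespace Pool.Agent.H11.PT

/-- a literal: variable and required truth value -/
abbrev Lit := ℕ × Bool

/-- satisfiability of a CNF formula (list of clauses, each a list of literals) -/
def SAT (φ : List (List Lit)) : Prop := ∃ σ : ℕ → Bool, ∀ c ∈ φ, ∃ l ∈ c, σ l.1 = l.2

/-- satisfiability of a 3-CNF formula -/
def SAT3 (φ : List (Lit × Lit × Lit)) : Prop :=
  ∃ σ : ℕ → Bool, ∀ c ∈ φ, σ c.1.1 = c.1.2 ∨ σ c.2.1.1 = c.2.1.2 ∨ σ c.2.2.1 = c.2.2.2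

end Pool.Agent.H11.PT
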