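import Pool.Agent.H11.PT3
import Pool.Agent.H11.SatDefs

set_option autoImplicit false
set_option linter.dupNamespace false

namespace Pool.Agent.H11.PT

open Polynomial

/-- abstract row system -/
structure Rows (S : Type) where
  D : ℕ
  N : ℕ
  hD : 1 ≤ D
  row : S → ℕ → ℕ
  nxt : S → S
  Valid : S → Prop
  val_nxt : ∀ c, Valid c → Valid (nxt c)
  lt : ∀ c, Valid c → ∀ j, row c j < N
  loc : ∀ c c' j j', Valid c → Valid c' → min j D = min j' D → (∀ i < D, row c i = row c' i) →
    (∀ i ≤ 2 * D, row c (j + i - D) = row c' (j' + i - D)) → row (nxt c) j = row (nxt c') j'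

abbrev Ent := ℕ × List ℕ × List ℕ × ℕ

namespace Rows

variable {S : Type} (R : Rows S)

def view (c : S) : List ℕ := (List.range R.D).map (R.row c)
def win (c : S) (j : ℕ) : List ℕ := (List.range (2 * R.D + 1)).map fun i => R.row c (j + i - R.D)
def entry (c : S) (j : ℕ) : Ent := (min j R.D, R.view c, R.win c j, R.row (R.nxt c) j)

theorem fin_lists (N n : ℕ) : {l : List ℕ | l.length = n ∧ ∀ a ∈ l, a < N}.Finite := by
  have h := (List.finite_length_eq (Fin N) n).image (fun l => l.map Fin.val)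
  refine h.subset ?_
  rintro l ⟨h1, h2⟩
  refine ⟨l.attach.map fun a => ⟨a.1, h2 a.1 a.2⟩, by simpa using h1, ?_⟩
  simp [List.map_map, Function.comp_def]

theorem exists_tab : ∃ tab : List Ent, ∀ e, e ∈ tab ↔ ∃ c j, R.Valid c ∧ e = R.entry c j := by
  have h : {e : Ent | ∃ c j, R.Valid c ∧ e = R.entry c j}.Finite := by
    refine ((Set.finite_le_nat R.D).prod ((fin_lists R.N R.D).prod
      ((fin_lists R.N (2 * R.D + 1)).prod (Set.finite_lt_nat R.N)))).subset ?_
    rintro e ⟨c, j, hc, rfl⟩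
    refine ⟨by simp [entry], ⟨by simp [entry, view], ?_⟩, ⟨by simp [entry, win], ?_⟩, R.lt _ (R.val_nxt c hc) _⟩
    · intro a ha
      simp only [entry, view, List.mem_map] at ha
      obtain ⟨i, _, rfl⟩ := ha
      exact R.lt c hc _
    · intro a ha
      simp only [entry, win, List.mem_map] at ha
      obtain ⟨i, _, rfl⟩ := ha
      exact R.lt c hc _
  exact ⟨h.toFinset.toList, fun e => by simp⟩

end Rows

def vr (t j a : ℕ) : ℕ := Nat.pair t (Nat.pair j a)

def stepClause (D t j : ℕ) (e : Ent) : List Lit :=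
  (e.2.1.zipIdx.map fun p => (vr t p.2 p.1, false)) ++
    (e.2.2.1.zipIdx.map fun p => (vr t (j + p.2 - D) p.1, false)) ++ [(vr (t + 1) j e.2.2.2, true)]

/-- `al j` lists the values allowed in cell `j` at time 0, `rej` the values forbidden at the end -/
def tableau (D : ℕ) (tab : List Ent) (rej : List ℕ) (T : ℕ) (al : List (List ℕ)) :
    List (List Lit) :=
  (al.zipIdx.map fun p => p.1.map fun a => (vr 0 p.2 a, true)) ++
  ((List.range T).flatMap fun t => (List.range ((T + 1) * D)).flatMap fun j =>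
    (tab.filter fun e => e.1 == min j D).map fun e => stepClause D t j e) ++
  rej.map fun a => [(vr T 0 a, false)]

theorem PT.tableau (D : ℕ) (tab : List Ent) (rej : List ℕ) {α : Type} [Enc α] {T : α → ℕ}
    {al : α → List (List ℕ)} (hT : PT T) (hal : PT al) :
    PT fun x => tableau D tab rej (T x) (al x) := by
  unfold H11.PT.tableau stepClause vr
  fun_prop

theorem mem_zipIdx_map {β : Type} (f : ℕ → β) (n : ℕ) (p : β × ℕ) :
    p ∈ ((List.range n).map f).zipIdx ↔ p.2 < n ∧ p.1 = f p.2 := by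
  obtain ⟨a, i⟩ := p
  rw [List.mem_zipIdx_iff_getElem?]
  by_cases h : i < n
  · simp [h, eq_comm]
  · simp [h]

theorem tableau_complete {S : Type} (R : Rows S) (tab : List Ent)
    (htab : ∀ e, e ∈ tab ↔ ∃ c j, R.Valid c ∧ e = R.entry c j) (rej : List ℕ) (T : ℕ)
    (al : List (List ℕ)) (c : S) (hc : R.Valid c)
    (h0 : ∀ j (h : j < al.length), R.row c j ∈ al[j]) (h1 : R.row (R.nxt^[T] c) 0 ∉ rej) :
    SAT (tableau R.D tab rej T al) := by
  have hv : ∀ t, R.Valid (R.nxt^[t] c) := by
    intro t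
    induction t with
    | zero => exact hc
    | succ t ih => rw [Function.iterate_succ_apply']; exact R.val_nxt _ ih
  let σ : ℕ → Bool := fun v =>
    decide (R.row (R.nxt^[v.unpair.1] c) v.unpair.2.unpair.1 = v.unpair.2.unpair.2)
  have hσ : ∀ t j a, σ (vr t j a) = decide (R.row (R.nxt^[t] c) j = a) := by
    intro t j a; simp [σ, vr]
  refine ⟨σ, fun cl hcl => ?_⟩
  simp only [tableau, List.mem_append, List.mem_map, List.mem_flatMap, List.mem_filter] at hcl
  rcases hcl with (⟨p, hp, rfl⟩ | ⟨t, _, j, _, e, ⟨he, hm⟩, rfl⟩) | ⟨a, ha, rfl⟩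
  · obtain ⟨l, j⟩ := p
    rw [List.mem_zipIdx_iff_getElem?] at hp
    simp only [List.getElem?_eq_some_iff] at hp
    obtain ⟨hj, rfl⟩ := hp
    exact ⟨(vr 0 j (R.row c j), true), List.mem_map.2 ⟨_, h0 j hj, rfl⟩, by simp [hσ]⟩
  · obtain ⟨c', j', hc', rfl⟩ := (htab e).1 he
    by_contra hn
    push Not at hn
    simp only [stepClause, List.mem_append, List.mem_map, List.mem_singleton] at hn
    have a1 : ∀ i < R.D, R.row (R.nxt^[t] c) i = R.row c' i := by
      intro i hi
      have := hn (vr t i (R.row c' i), false) (Or.inl (Or.inl ⟨(R.row c' i, i), by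
        simp only [Rows.entry, Rows.view]; rw [mem_zipIdx_map]; exact ⟨hi, rfl⟩, rfl⟩))
      simpa [hσ] using this
    have a2 : ∀ i ≤ 2 * R.D, R.row (R.nxt^[t] c) (j + i - R.D) = R.row c' (j' + i - R.D) := by
      intro i hi
      have := hn (vr t (j + i - R.D) (R.row c' (j' + i - R.D)), false) (Or.inl (Or.inr
        ⟨(R.row c' (j' + i - R.D), i), by
          simp only [Rows.entry, Rows.win]; rw [mem_zipIdx_map]; exact ⟨by omega, rfl⟩, rfl⟩))
      simpa [hσ] using this
    have a3 := hn _ (Or.inr rfl)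
    have a4 := R.loc _ _ j j' (hv t) hc' (eq_of_beq hm).symm a1 a2
    apply a3
    simp only [hσ, Function.iterate_succ_apply', Rows.entry, a4, decide_true]
  · refine ⟨_, List.mem_singleton.2 rfl, ?_⟩
    simp only [hσ, decide_eq_false_iff_not]
    rintro rfl; exact h1 ha

theorem tableau_sound {S : Type} (R : Rows S) (tab : List Ent)
    (htab : ∀ e, e ∈ tab ↔ ∃ c j, R.Valid c ∧ e = R.entry c j) (rej : List ℕ) (T : ℕ)
    (al : List (List ℕ)) (σ : ℕ → Bool)
    (hσ : ∀ cl ∈ tableau R.D tab rej T al, ∃ l ∈ cl, σ l.1 = l.2) (c : S) (hc : R.Valid c)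
    (h0 : ∀ j < (T + 1) * R.D, σ (vr 0 j (R.row c j)) = true) : R.row (R.nxt^[T] c) 0 ∉ rej := by
  have hv : ∀ t, R.Valid (R.nxt^[t] c) := by
    intro t
    induction t with
    | zero => exact hc
    | succ t ih => rw [Function.iterate_succ_apply']; exact R.val_nxt _ ih
  have key : ∀ t ≤ T, ∀ j < (T - t + 1) * R.D, σ (vr t j (R.row (R.nxt^[t] c) j)) = true := by
    intro t
    induction t with
    | zero => intro _ j hj; exact h0 j (by simpa using hj)
    | succ t ih =>
      intro ht j hj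
      have ih := ih (by omega)
      have e1 : (T - t + 1) * R.D = (T - (t + 1) + 1) * R.D + R.D := by
        rw [show T - t + 1 = (T - (t + 1) + 1) + 1 by omega]; ring
      have e2 : (T - (t + 1) + 1) * R.D ≤ (T + 1) * R.D := Nat.mul_le_mul_right _ (by omega)
      obtain ⟨l, hl, hs⟩ := hσ (stepClause R.D t j (R.entry (R.nxt^[t] c) j)) (by
        simp only [tableau, List.mem_append, List.mem_map, List.mem_flatMap, List.mem_filter]
        refine Or.inl (Or.inr ⟨t, by simp; omega, j, by simp; omega, _, ⟨(htab _).2 ⟨_, j, hv t, rfl⟩,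
          by simp [Rows.entry]⟩, rfl⟩))
      simp only [stepClause, List.mem_append, List.mem_map, List.mem_singleton] at hl
      rcases hl with (⟨p, hp, rfl⟩ | ⟨p, hp, rfl⟩) | rfl
      · simp only [Rows.entry, Rows.view] at hp
        rw [mem_zipIdx_map] at hp
        rw [hp.2, ih p.2 (by omega)] at hs
        exact absurd hs (by simp)
      · simp only [Rows.entry, Rows.win] at hp
        rw [mem_zipIdx_map] at hp
        rw [hp.2, ih _ (by omega)] at hs
        exact absurd hs (by simp)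
      · rw [Function.iterate_succ_apply']; exact hs
  intro hr
  obtain ⟨l, hl, hs⟩ := hσ [(vr T 0 (R.row (R.nxt^[T] c) 0), false)] (by
    simp only [tableau, List.mem_append, List.mem_map]
    exact Or.inr ⟨_, hr, rfl⟩)
  rw [List.mem_singleton.1 hl] at hs
  have := key T le_rfl 0 (by have := R.hD; simp; omega)
  simp [this] at hs

theorem tableau_init (D : ℕ) (tab : List Ent) (rej : List ℕ) (T : ℕ) (al : List (List ℕ))
    (σ : ℕ → Bool) (hσ : ∀ cl ∈ tableau D tab rej T al, ∃ l ∈ cl, σ l.1 = l.2) (j : ℕ)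
    (hj : j < al.length) : ∃ a ∈ al[j], σ (vr 0 j a) = true := by
  obtain ⟨l, hl, hs⟩ := hσ (al[j].map fun a => (vr 0 j a, true)) (by
    simp only [tableau, List.mem_append, List.mem_map]
    exact Or.inl (Or.inl ⟨(al[j], j), by rw [List.mem_zipIdx_iff_getElem?]; simp [hj], rfl⟩))
  obtain ⟨a, ha, rfl⟩ := List.mem_map.1 hl
  exact ⟨a, ha, hs⟩

end Pool.Agent.H11.PT
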