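import Pool.Agent.H11.CL1

set_option autoImplicit false
set_option linter.dupNamespace false

namespace Pool.Agent.H11.PT

open Polynomial Turing Turing.TM2

section
variable {K : Type} [DecidableEq K] {Γ : K → Type} {Λ σ : Type}

def dep : Stmt Γ Λ σ → ℕ
  | .push _ _ q => dep q + 1
  | .peek _ _ q => dep q + 1
  | .pop _ _ q => dep q + 1
  | .load _ q => dep q
  | .branch _ p q => max (dep p) (dep q)
  | .goto _ => 0
  | .halt => 0

theorem take_le {β : Type} {l l' : List β} {a b : ℕ} (h : l.take a = l'.take a) (hb : b ≤ a) :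
    l.take b = l'.take b := by
  have := congrArg (List.take b) h
  simpa [List.take_take, min_eq_left hb] using this

theorem head_take {β : Type} {l l' : List β} {a : ℕ} (h : l.take (a + 1) = l'.take (a + 1)) :
    l.head? = l'.head? := by
  cases l <;> cases l' <;> simp at h ⊢
  exact h.1

theorem stepAux_loc (q : Stmt Γ Λ σ) : ∀ (v : σ) (S S' : ∀ k, List (Γ k)) (D : ℕ), dep q ≤ D →
    (∀ k, (S k).take D = (S' k).take D) →
    (stepAux q v S).l = (stepAux q v S').l ∧ (stepAux q v S).var = (stepAux q v S').var ∧
      ∀ k, ∃ (u : List (Γ k)) (r : ℕ), u.length ≤ D ∧ r ≤ D ∧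
        (stepAux q v S).stk k = u ++ (S k).drop r ∧ (stepAux q v S').stk k = u ++ (S' k).drop r := by
  induction q with
  | push k f q ih =>
    intro v S S' D hD h
    simp only [dep] at hD
    obtain ⟨D, rfl⟩ : ∃ E, D = E + 1 := ⟨D - 1, by omega⟩
    obtain ⟨a, b, c⟩ := ih v (Function.update S k (f v :: S k)) (Function.update S' k (f v :: S' k))
      D (by omega) (fun j => by
        by_cases hj : j = k
        · subst hj
          simp only [Function.update_self]
          exact take_le (a := D + 2) (by simp [h j]) (by omega)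
        · simp only [Function.update_of_ne hj]; exact take_le (h j) (by omega))
    refine ⟨a, b, fun j => ?_⟩
    obtain ⟨u, r, h1, h2, h3, h4⟩ := c j
    simp only [stepAux]
    by_cases hj : j = k
    · subst hj
      simp only [Function.update_self] at h3 h4
      cases r with
      | zero => exact ⟨u ++ [f v], 0, by simp; omega, by omega, by simpa using h3, by simpa using h4⟩
      | succ r => exact ⟨u, r, by omega, by omega, by simpa using h3, by simpa using h4⟩
    · simp only [Function.update_of_ne hj] at h3 h4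
      exact ⟨u, r, by omega, by omega, h3, h4⟩
  | peek k f q ih =>
    intro v S S' D hD h
    simp only [dep] at hD
    obtain ⟨D, rfl⟩ : ∃ E, D = E + 1 := ⟨D - 1, by omega⟩
    simp only [stepAux]
    rw [← head_take (h k)]
    exact ih _ S S' (D + 1) (by omega) h
  | pop k f q ih =>
    intro v S S' D hD h
    simp only [dep] at hD
    obtain ⟨D, rfl⟩ : ∃ E, D = E + 1 := ⟨D - 1, by omega⟩
    simp only [stepAux]
    rw [← head_take (h k)]
    obtain ⟨a, b, c⟩ := ih (f v (S k).head?) (Function.update S k (S k).tail)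
      (Function.update S' k (S' k).tail) D (by omega) (fun j => by
        by_cases hj : j = k
        · subst hj
          simp only [Function.update_self]
          have := h j
          revert this
          cases S j <;> cases S' j <;> simp
        · simp only [Function.update_of_ne hj]; exact take_le (h j) (by omega))
    refine ⟨a, b, fun j => ?_⟩
    obtain ⟨u, r, h1, h2, h3, h4⟩ := c j
    by_cases hj : j = k
    · subst hj
      simp only [Function.update_self] at h3 h4
      exact ⟨u, r + 1, by omega, by omega, by simpa using h3, by simpa using h4⟩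
    · simp only [Function.update_of_ne hj] at h3 h4
      exact ⟨u, r, by omega, by omega, h3, h4⟩
  | load a q ih => intro v S S' D hD h; exact ih _ S S' D hD h
  | branch f p q ihp ihq =>
    intro v S S' D hD h
    simp only [dep, max_le_iff] at hD
    simp only [stepAux]
    cases f v
    · exact ihq v S S' D hD.2 h
    · exact ihp v S S' D hD.1 h
  | goto f => intro v S S' D _ _; exact ⟨rfl, rfl, fun k => ⟨[], 0, by simp, by simp, rfl, rfl⟩⟩
  | halt => intro v S S' D _ _; exact ⟨rfl, rfl, fun k => ⟨[], 0, by simp, by simp, rfl, rfl⟩⟩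

def syms : Stmt Γ Λ σ → Set (Σ k, Γ k)
  | .push k f q => Set.range (fun v => ⟨k, f v⟩) ∪ syms q
  | .peek _ _ q => syms q
  | .pop _ _ q => syms q
  | .load _ q => syms q
  | .branch _ p q => syms p ∪ syms q
  | .goto _ => ∅
  | .halt => ∅

omit [DecidableEq K] in
theorem syms_fin [Finite σ] (q : Stmt Γ Λ σ) : (syms q).Finite := by
  induction q with
  | push k f q ih => exact (Set.finite_range _).union ih
  | peek k f q ih => exact ih
  | pop k f q ih => exact ih
  | load a q ih => exact ih
  | branch f p q ihp ihq => exact ihp.union ihq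
  | goto f => exact Set.finite_empty
  | halt => exact Set.finite_empty

theorem stepAux_syms (A : Set (Σ k, Γ k)) (q : Stmt Γ Λ σ) : syms q ⊆ A → ∀ (v : σ)
    (S : ∀ k, List (Γ k)), (∀ k, ∀ a ∈ S k, (⟨k, a⟩ : Σ k, Γ k) ∈ A) →
      ∀ k, ∀ a ∈ (stepAux q v S).stk k, (⟨k, a⟩ : Σ k, Γ k) ∈ A := by
  induction q with
  | push k f q ih =>
    intro h v S hS
    simp only [syms, Set.union_subset_iff] at h
    refine ih h.2 _ _ fun j a ha => ?_
    by_cases hj : j = k
    · subst hj
      simp only [Function.update_self, List.mem_cons] at ha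
      rcases ha with rfl | ha
      · exact h.1 ⟨v, rfl⟩
      · exact hS _ _ ha
    · rw [Function.update_of_ne hj] at ha; exact hS _ _ ha
  | peek k f q ih => intro h v S hS; exact ih h _ _ hS
  | pop k f q ih =>
    intro h v S hS
    refine ih h _ _ fun j a ha => ?_
    by_cases hj : j = k
    · subst hj
      simp only [Function.update_self] at ha
      exact hS _ _ (List.mem_of_mem_tail ha)
    · rw [Function.update_of_ne hj] at ha; exact hS _ _ ha
  | load a q ih => intro h v S hS; exact ih h _ _ hS
  | branch f p q ihp ihq =>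
    intro h v S hS
    simp only [syms, Set.union_subset_iff] at h
    simp only [stepAux]
    cases f v
    · exact ihq h.2 _ _ hS
    · exact ihp h.1 _ _ hS
  | goto f => intro _ v S hS; exact hS
  | halt => intro _ v S hS; exact hS

def nxtC (M : Λ → Stmt Γ Λ σ) (c : Cfg Γ Λ σ) : Cfg Γ Λ σ := (step M c).getD c

abbrev Lay (Γ : K → Type) (Λ σ : Type) := Option (Option Λ × σ) × (∀ k, Option (Γ k))

def lay (c : Cfg Γ Λ σ) (j : ℕ) : Lay Γ Λ σ :=
  (if j = 0 then some (c.l, c.var) else none, fun k => (c.stk k)[j]?)

theorem lay_loc (M : Λ → Stmt Γ Λ σ) (D : ℕ) (hD : 1 ≤ D) (hM : ∀ l, dep (M l) ≤ D)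
    (c c' : Cfg Γ Λ σ) (j j' : ℕ) (hj : min j D = min j' D) (h1 : ∀ i < D, lay c i = lay c' i)
    (h2 : ∀ i ≤ 2 * D, lay c (j + i - D) = lay c' (j' + i - D)) :
    lay (nxtC M c) j = lay (nxtC M c') j' := by
  obtain ⟨l, v, S⟩ := c
  obtain ⟨l', v', S'⟩ := c'
  have h0 := congrArg Prod.fst (h1 0 hD)
  simp only [lay, if_true, Option.some.injEq, Prod.mk.injEq] at h0
  obtain ⟨rfl, rfl⟩ := h0
  cases l with
  | none => simpa [nxtC] using h2 D (by omega)
  | some l =>
    have hS : ∀ k, (S k).take D = (S' k).take D := by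
      intro k
      apply List.ext_getElem?
      intro i
      by_cases hi : i < D
      · have := congrFun (congrArg Prod.snd (h1 i hi)) k
        simpa [List.getElem?_take, hi, lay] using this
      · simp [List.getElem?_take, hi]
    obtain ⟨a, b, c⟩ := stepAux_loc (M l) v S S' D (hM l) hS
    simp only [nxtC, step, Option.getD_some, lay]
    refine Prod.ext ?_ (funext fun k => ?_)
    · have : j = 0 ↔ j' = 0 := by omega
      simp only [this, a, b]
    · obtain ⟨u, r, hu, hr, e1, e2⟩ := c k
      simp only [e1, e2, List.getElem?_append, List.getElem?_drop]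
      by_cases h : j < u.length
      · have : j' = j := by omega
        simp [h, this]
      · have h' : ¬ j' < u.length := by omega
        have := congrFun (congrArg Prod.snd (h2 (D - u.length + r) (by omega))) k
        simp only [lay] at this
        rw [if_neg h, if_neg h', show r + (j - u.length) = j + (D - u.length + r) - D by omega,
          show r + (j' - u.length) = j' + (D - u.length + r) - D by omega]
        exact this

theorem nxtC_of_evals (M : Λ → Stmt Γ Λ σ) : ∀ (n : ℕ) (c c' : Cfg Γ Λ σ),
    (flip bind (step M))^[n] (some c) = some c' → (nxtC M)^[n] c = c' := by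
  intro n
  induction n with
  | zero => intro c c' h; simpa using h
  | succ n ih =>
    intro c c' h
    rw [Function.iterate_succ_apply] at h ⊢
    cases hs : step M c with
    | none =>
      have : ∀ m, (flip bind (step M))^[m] (none : Option (Cfg Γ Λ σ)) = none := by
        intro m
        exact Function.iterate_fixed rfl m
      have e : flip bind (step M) (some c) = none := hs
      rw [e, this] at h
      exact absurd h (by simp)
    | some d =>
      have e : flip bind (step M) (some c) = some d := hs
      rw [e] at h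
      simp only [nxtC, hs, Option.getD_some]
      exact ih _ _ h

theorem nxtC_halt (M : Λ → Stmt Γ Λ σ) (c : Cfg Γ Λ σ) (h : c.l = none) (n : ℕ) :
    (nxtC M)^[n] c = c := by
  apply Function.iterate_fixed
  obtain ⟨l, v, S⟩ := c
  simp only at h
  subst h
  rfl

theorem lay_fin [Finite K] [Finite Λ] [Finite σ] (A : Set (Σ k, Γ k)) (hA : A.Finite) :
    {y : Lay Γ Λ σ | ∀ k a, y.2 k = some a → (⟨k, a⟩ : Σ k, Γ k) ∈ A}.Finite := by
  have h : ∀ k, (insert none (some '' {a : Γ k | (⟨k, a⟩ : Σ k, Γ k) ∈ A})).Finite := fun k =>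
    ((hA.preimage (f := fun a : Γ k => (⟨k, a⟩ : Σ k, Γ k))
      (sigma_mk_injective.injOn)).image _).insert _
  refine ((Set.finite_univ (α := Option (Option Λ × σ))).prod (Set.Finite.pi' h)).subset ?_
  rintro ⟨a, b⟩ hb
  refine ⟨trivial, fun k => ?_⟩
  cases e : b k with
  | none => simp [e]
  | some x => simpa [e] using hb k x e

end

/-- a row system for a bundled machine -/
theorem exists_rows (tm : FinTM2) : ∃ (R : Rows tm.Cfg) (e : Lay tm.Γ tm.Λ tm.σ → ℕ),
    R.nxt = nxtC tm.m ∧ (∀ c j, R.row c j = e (lay c j)) ∧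
    (∀ s, R.Valid (initList tm s)) ∧
    (∀ c c' j j', R.Valid c → R.row c j = R.row c' j' → lay c j = lay c' j') := by
  classical
  have := tm.kFin
  have := tm.ΛFin
  have := tm.σFin
  have := tm.Γk₀Fin
  let A : Set (Σ k, tm.Γ k) := (⋃ l, syms (tm.m l)) ∪ Set.range (fun a : tm.Γ tm.k₀ => ⟨tm.k₀, a⟩)
  have hA : A.Finite := (Set.finite_iUnion fun l => syms_fin _).union (Set.finite_range _)
  have hL := lay_fin (Λ := tm.Λ) (σ := tm.σ) A hA
  let cs := hL.toFinset.toList
  let V : tm.Cfg → Prop := fun c => ∀ k, ∀ a ∈ c.stk k, (⟨k, a⟩ : Σ k, tm.Γ k) ∈ A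
  have hV : ∀ c, V c → ∀ j, lay c j ∈ cs := by
    intro c hc j
    simp only [cs, Finset.mem_toList, Set.Finite.mem_toFinset, Set.mem_setOf_eq]
    intro k a h
    exact hc k a (List.mem_of_getElem? h)
  have hinj : ∀ c c' j j', V c → cs.idxOf (lay c j) = cs.idxOf (lay c' j') →
      lay c j = lay c' j' := fun c c' j j' h e => (List.idxOf_inj (hV c h j)).1 e
  let D := Finset.univ.sup (fun l => dep (tm.m l)) + 1
  have hD : ∀ l, dep (tm.m l) ≤ D := fun l =>
    (Finset.le_sup (f := fun l => dep (tm.m l)) (Finset.mem_univ l)).trans (Nat.le_succ _)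
  refine ⟨⟨D, cs.length, by omega, fun c j => cs.idxOf (lay c j), nxtC tm.m, V, ?_, ?_, ?_⟩,
    fun y => cs.idxOf y, rfl, fun _ _ => rfl, ?_, hinj⟩
  · rintro ⟨l, v, S⟩ hc
    cases l with
    | none => exact hc
    | some l =>
      exact stepAux_syms A _ (fun y hy => Or.inl (Set.mem_iUnion.2 ⟨l, hy⟩)) v S hc
  · intro c hc j
    exact List.idxOf_lt_length_of_mem (hV c hc j)
  · intro c c' j j' h h' hj h1 h2
    have := lay_loc tm.m D (by omega) hD c c' j j' hj (fun i hi => hinj _ _ _ _ h (h1 i hi))
      (fun i hi => hinj _ _ _ _ h (h2 i hi))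
    simp only [this]
  · intro s k a ha
    simp only [initList] at ha
    split_ifs at ha with hk
    · subst hk; exact Or.inr ⟨a, rfl⟩
    · simp at ha

end Pool.Agent.H11.PT
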