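import Pool.Agent.H11.CL2

set_option autoImplicit false
set_option linter.dupNamespace false

namespace Pool.Agent.H11.PT

open Polynomial Turing Turing.TM2

theorem PT.fin2 {α β : Type} [Enc α] [Enc β] (cd : Bool → Option Bool → β) {f : α → Bool}
    {g : α → Option Bool} (hf : PT f) (hg : PT g) : PT fun x => cd (f x) (g x) := by
  have : PT fun x => bif f x then (bif (g x).isSome then (bif (g x).getD false then cd true (some true)
    else cd true (some false)) else cd true none) else (bif (g x).isSome then
      (bif (g x).getD false then cd false (some true) else cd false (some false)) else cd false none) := by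
    fun_prop
  refine this.of_eq fun x => ?_
  rcases f x with _ | _ <;> rcases g x with _ | _ | _ <;> rfl

def ly (tm : FinTM2) (f : Bool → tm.Γ tm.k₀) (b : Bool) (o : Option Bool) : Lay tm.Γ tm.Λ tm.σ :=
  (if b then some (some tm.main, tm.initialState) else none,
    (lay (initList tm (o.toList.map f)) 0).2)

theorem lay_init (tm : FinTM2) (f : Bool → tm.Γ tm.k₀) (u : List Bool) (j : ℕ) :
    lay (initList tm (u.map f)) j = ly tm f (j == 0) u[j]? := by
  refine Prod.ext ?_ (funext fun k => ?_)
  · simp [lay, ly, initList]
  · simp only [lay, ly, initList]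
    split_ifs with hk
    · subst hk
      cases h : u[j]? <;> simp [h]
    · simp

theorem bits_len_pos {α : Type} [Enc α] (x : α) : 1 ≤ (bits x).length := sz_pos x

def alw (cd : Bool → Option Bool → ℕ) (u : List Bool) (m W : ℕ) : List (List ℕ) :=
  (List.range W).map fun j => if j < u.length then [cd (j == 0) u[j]?] else
    if j < u.length + m then [cd false (some true), cd false (some false)] else [cd false none]

theorem cook_gen {α : Type} [Enc α] (L : α → Prop) (hL : InNP L) :
    ∃ f : α → List (List Lit), PT f ∧ ∀ x, L x ↔ SAT (f x) := by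
  obtain ⟨V, q, ⟨h⟩, e⟩ := hL
  obtain ⟨R, en, hn, hr, hv, hi⟩ := exists_rows h.tm
  obtain ⟨tab, htab⟩ := R.exists_tab
  let cd : Bool → Option Bool → ℕ := fun b o => en (ly h.tm h.inputAlphabet.invFun b o)
  let fin : Bool → h.tm.Cfg := fun b => haltList h.tm [h.outputAlphabet.invFun b]
  let ini : List Bool → h.tm.Cfg := fun u => initList h.tm (u.map h.inputAlphabet.invFun)
  let TT : α → ℕ := fun x => h.time.eval (sz x + q.eval (sz x))
  have hrun : ∀ x (w : List Bool), w.length = q.eval (sz x) →
      R.nxt^[TT x] (ini (bits x ++ w)) = fin (V (x, w)) := by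
    intro x w hw
    obtain ⟨⟨n, h1⟩, h2⟩ := h.outputsFun (x, w)
    have h3 := nxtC_of_evals h.tm.m n _ _ h1
    simp only [List.length_append, hw] at h2
    obtain ⟨d, hd⟩ := Nat.exists_eq_add_of_le' h2
    have hd' : TT x = d + n := hd
    rw [hn, hd', Function.iterate_add_apply]
    exact (congrArg _ h3).trans (nxtC_halt _ _ rfl _)
  have hrow : ∀ u j, R.row (ini u) j = cd (j == 0) u[j]? := by
    intro u j; rw [hr, lay_init]
  have hval : ∀ t c, R.Valid c → R.Valid (R.nxt^[t] c) := by
    intro t c hc
    induction t with
    | zero => exact hc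
    | succ t ih => rw [Function.iterate_succ_apply']; exact R.val_nxt _ ih
  refine ⟨fun x => tableau R.D tab [R.row (fin false) 0] (TT x)
    (alw cd (bits x) (q.eval (sz x)) ((TT x + 1) * R.D)), ?_, fun x => (e x).trans ⟨?_, ?_⟩⟩
  · have hT : PT TT := by fun_prop
    refine PT.tableau _ _ _ hT ?_
    unfold alw
    refine PT.map (by fun_prop) (PT.ite (by fun_prop) ?_ (by fun_prop))
    exact PT.cons (PT.fin2 cd (by fun_prop) (by fun_prop)) (by fun_prop)
  · rintro ⟨w, hw, hV⟩
    refine tableau_complete R tab htab _ _ _ (ini (bits x ++ w)) (hv _) ?_ ?_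
    · intro j hj
      have := bits_len_pos x
      simp only [alw, List.getElem_map, List.getElem_range, hrow]
      split_ifs with h1 h2
      · simp [List.getElem?_append_left h1]
      · have a : (j == 0) = false := by simp; omega
        have b : j - (bits x).length < w.length := by rw [hw]; unfold sz at h2; omega
        rw [a, List.getElem?_append_right (by omega), List.getElem?_eq_getElem b]
        cases w[j - (bits x).length] <;> simp
      · have a : (j == 0) = false := by simp; omega
        rw [a, List.getElem?_eq_none (by simp only [List.length_append, hw]; unfold sz at h2; omega)]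
        simp
    · have h1 := hrun x w hw
      have h2 := hval (TT x) _ (hv ((bits x ++ w).map h.inputAlphabet.invFun))
      rw [h1, hV]
      erw [h1, hV] at h2
      intro h3
      have h4 := congrFun (congrArg Prod.snd (hi _ _ _ _ h2 (List.mem_singleton.1 h3))) h.tm.k₁
      simp [lay, fin, haltList] at h4
  · rintro ⟨σ, hσ⟩
    let w : List Bool := (List.range (q.eval (sz x))).map fun i =>
      σ (vr 0 ((bits x).length + i) (cd false (some true)))
    have hw : w.length = q.eval (sz x) := by simp [w]
    refine ⟨w, hw, ?_⟩
    have := tableau_sound R tab htab _ _ _ σ hσ (ini (bits x ++ w)) (hv _) ?_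
    · rw [hrun x w hw] at this
      cases hV : V (x, w)
      · rw [hV] at this; simp at this
      · rfl
    · intro j hj
      obtain ⟨a, ha, hs⟩ := tableau_init _ _ _ _ _ σ hσ j (by simpa [alw] using hj)
      have := bits_len_pos x
      simp only [alw, List.getElem_map, List.getElem_range] at ha
      rw [hrow]
      split_ifs at ha with h1 h2
      · rw [List.getElem?_append_left h1, ← List.mem_singleton.1 ha]; exact hs
      · have a' : (j == 0) = false := by simp; omega
        have b : j - (bits x).length < w.length := by rw [hw]; omega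
        rw [a', List.getElem?_append_right (by omega), List.getElem?_eq_getElem b]
        have c : w[j - (bits x).length] = σ (vr 0 j (cd false (some true))) := by
          simp only [w, List.getElem_map, List.getElem_range]
          congr 2; omega
        rw [c]
        cases hc : σ (vr 0 j (cd false (some true)))
        · simp only [List.mem_cons, List.not_mem_nil, or_false] at ha
          rcases ha with rfl | rfl
          · rw [hc] at hs; exact absurd hs (by simp)
          · exact hs
        · exact hc
      · have a' : (j == 0) = false := by simp; omega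
        rw [a', List.getElem?_eq_none (by simp only [List.length_append, hw]; omega),
          ← List.mem_singleton.1 ha]
        exact hs

theorem hard_SAT : Hard SAT := fun L hL => cook_gen L hL

/-- every NP problem reduces to a hard problem -/
theorem Hard.red_of_inNP {α β : Type} [Enc α] [Enc β] {X : β → Prop} (hX : ∃ g : List (List Lit) → β,
    PT g ∧ ∀ φ, SAT φ ↔ X (g φ)) {L : α → Prop} (hL : InNP L) :
    ∃ f : α → β, PT f ∧ ∀ x, L x ↔ X (f x) := by
  obtain ⟨f, hf, e⟩ := cook_gen L hL
  obtain ⟨g, hg, e'⟩ := hX
  exact ⟨fun x => g (f x), hg.comp hf, fun x => (e x).trans (e' _)⟩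

def yv (i j : ℕ) : ℕ := Nat.pair (i + 1) j

def to3 (φ : List (List Lit)) : List (Lit × Lit × Lit) :=
  φ.zipIdx.flatMap fun p =>
    ((yv p.2 0, true), (yv p.2 0, true), (yv p.2 0, true)) ::
    ((yv p.2 p.1.length, false), (yv p.2 p.1.length, false), (yv p.2 p.1.length, false)) ::
    p.1.zipIdx.map fun l => ((yv p.2 l.2, false), (Nat.pair 0 l.1.1, l.1.2), (yv p.2 (l.2 + 1), true))

theorem hard_SAT3 : Hard SAT3 := by
  refine hard_SAT.red to3 (by unfold to3 yv; fun_prop) fun φ => ⟨?_, ?_⟩
  · rintro ⟨σ, hσ⟩
    let τ : ℕ → Bool := fun v => if v.unpair.1 = 0 then σ v.unpair.2 else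
      ((φ.getD (v.unpair.1 - 1) []).drop v.unpair.2).any fun l => σ l.1 == l.2
    have h0 : ∀ v, τ (Nat.pair 0 v) = σ v := by intro v; simp [τ]
    have h1 : ∀ i j, τ (yv i j) = ((φ.getD i []).drop j).any fun l => σ l.1 == l.2 := by
      intro i j; simp [τ, yv]
    refine ⟨τ, fun c hc => ?_⟩
    simp only [to3, List.mem_flatMap, List.mem_cons, List.mem_map] at hc
    obtain ⟨⟨cl, i⟩, hp, hc⟩ := hc
    rw [List.mem_zipIdx_iff_getElem?] at hp
    simp only at hp hc
    have hg : φ.getD i [] = cl := by simp [List.getD_eq_getElem?_getD, hp]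
    rcases hc with rfl | rfl | ⟨⟨l, j⟩, hl, rfl⟩
    · left
      simp only [h1, hg, List.drop_zero, List.any_eq_true, beq_iff_eq]
      exact hσ cl (List.mem_of_getElem? hp)
    · left
      simp only [h1, hg]; simp
    · rw [List.mem_zipIdx_iff_getElem?] at hl
      simp only [List.getElem?_eq_some_iff] at hl
      obtain ⟨hj, rfl⟩ := hl
      simp only [h0, h1, hg]
      rw [List.drop_eq_getElem_cons hj, List.any_cons]
      cases ((cl.drop (j + 1)).any fun l => σ l.1 == l.2) <;> by_cases h : σ cl[j].1 = cl[j].2 <;>
        simp [h]
  · rintro ⟨τ, hτ⟩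
    refine ⟨fun v => τ (Nat.pair 0 v), fun cl hcl => ?_⟩
    obtain ⟨i, hi, rfl⟩ := List.getElem_of_mem hcl
    have hm : (φ[i], i) ∈ φ.zipIdx := by rw [List.mem_zipIdx_iff_getElem?]; simp [hi]
    have a0 : τ (yv i 0) = true := by
      have := hτ ((yv i 0, true), (yv i 0, true), (yv i 0, true)) (by
        simp only [to3, List.mem_flatMap]; exact ⟨_, hm, by simp⟩)
      simpa using this
    have a1 : τ (yv i φ[i].length) = false := by
      have := hτ ((yv i φ[i].length, false), (yv i φ[i].length, false), (yv i φ[i].length, false)) (by
        simp only [to3, List.mem_flatMap]; exact ⟨_, hm, by simp⟩)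
      simpa using this
    by_contra hn
    push Not at hn
    have : ∀ j ≤ φ[i].length, τ (yv i j) = true := by
      intro j
      induction j with
      | zero => intro _; exact a0
      | succ j ih =>
        intro hj
        have := hτ ((yv i j, false), (Nat.pair 0 φ[i][j].1, φ[i][j].2), (yv i (j + 1), true)) (by
          simp only [to3, List.mem_flatMap]
          refine ⟨_, hm, List.mem_cons_of_mem _ (List.mem_cons_of_mem _ (List.mem_map.2
            ⟨(φ[i][j], j), by rw [List.mem_zipIdx_iff_getElem?]; simp, rfl⟩))⟩)
        have h2 := hn φ[i][j] (List.getElem_mem _)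
        simpa [ih (by omega), h2] using this
    rw [this _ le_rfl] at a1
    exact absurd a1 (by simp)

end Pool.Agent.H11.PT
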