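import Mathlib
import Pool.Agent.H10.Dist

namespace Pool.Agent.H11.CupEight

/-- A cup stacking move from configuration `C` to configuration `C'`. -/
def Move {n : ℕ} (G : SimpleGraph (Fin n)) (C C' : Fin n → ℕ) : Prop :=
  ∃ u v, 1 ≤ C u ∧ 1 ≤ C v ∧ G.dist u v = C u ∧
    C' = Function.update (Function.update C u 0) v (C u + C v)

/-- `G` is `r`-stackable. -/
def Stackable {n : ℕ} (G : SimpleGraph (Fin n)) (r : Fin n) : Prop :=
  Relation.ReflTransGen (Move G) (fun _ => 1) (fun w => if w = r then n else 0)

def d : Fin 8 → Fin 8 → ℕ :=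
  ![![0, 2, 2, 3, 3, 2, 2, 1], ![2, 0, 2, 3, 3, 2, 2, 1], ![2, 2, 0, 3, 3, 2, 2, 1],
    ![3, 3, 3, 0, 2, 2, 1, 2], ![3, 3, 3, 2, 0, 2, 1, 2], ![2, 2, 2, 2, 2, 0, 1, 1],
    ![2, 2, 2, 1, 1, 1, 0, 1], ![1, 1, 1, 2, 2, 1, 1, 0]]

def G : SimpleGraph (Fin 8) where
  Adj a b := d a b = 1
  symm := ⟨by decide⟩
  loopless := ⟨by decide⟩

instance : DecidableRel G.Adj := fun a b => inferInstanceAs (Decidable (d a b = 1))

theorem dist_eq (u v : Fin 8) : G.dist u v = d u v :=
  Pool.Agent.H10.Dist.dist_eq G d (by decide) (by decide) (by decide) (by decide) u v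

def dead : ℕ → (Fin 8 → ℕ) → Bool
  | 0, _ => false
  | f + 1, C => (List.finRange 8).all fun u => C u != 8 && (C u == 0 ||
      (List.finRange 8).all fun v => C v == 0 || d u v != C u ||
        dead f (Function.update (Function.update C u 0) v (C u + C v)))

theorem dead_spec (C C' : Fin 8 → ℕ) (h : Relation.ReflTransGen (Move G) C C') :
    ∀ f, dead f C = true → ∀ r, C' r ≠ 8 := by
  induction h using Relation.ReflTransGen.head_induction_on with
  | refl =>
    intro f hf r
    cases f with
    | zero => simp [dead] at hf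
    | succ f =>
      simp only [dead, List.all_eq_true, List.mem_finRange, true_imp_iff, Bool.and_eq_true,
        bne_iff_ne] at hf
      exact (hf r).1
  | head hm _ ih =>
    intro f hf
    obtain ⟨u, v, hu, hv, hd, rfl⟩ := hm
    cases f with
    | zero => simp [dead] at hf
    | succ f =>
      simp only [dead, List.all_eq_true, List.mem_finRange, true_imp_iff, Bool.and_eq_true,
        bne_iff_ne, Bool.or_eq_true, beq_iff_eq] at hf
      rw [dist_eq] at hd
      rcases (hf u).2 with h | h
      · omega
      · rcases h v with (h | h) | h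
        · omega
        · exact absurd hd h
        · exact ih f h

theorem result : ∃ (n : ℕ) (G : SimpleGraph (Fin n)), G.Connected ∧ ¬ G.IsTree ∧
    ∀ r, ¬ Stackable G r := by
  refine ⟨8, G, Pool.Agent.H10.Dist.connected G d (by decide) (by decide), fun h => ?_,
    fun r h => ?_⟩
  · have := h.card_edgeFinset
    revert this; decide +kernel
  · exact dead_spec _ _ h 8 (by decide +kernel) r (by simp)

end Pool.Agent.H11.CupEight
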