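import Mathlib

namespace Pool.Agent.H11.DomGame

/-- `Win G k s t`: in the domatic number game on `G` with palette `Fin k`, from the partial
colouring `s` (`none` = not yet picked), with Alice to move if `t = true` and Bob to move if
`t = false`, Alice can force that at the end every closed neighbourhood contains all colours. -/
inductive Win {V : Type} [DecidableEq V] (G : SimpleGraph V) (k : ℕ) :
    (V → Option (Fin k)) → Bool → Prop
  | done (s : V → Option (Fin k)) (t : Bool) : (∀ v, s v ≠ none) →
      (∀ x c, ∃ y, (y = x ∨ G.Adj x y) ∧ s y = some c) → Win G k s t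
  | alice (s : V → Option (Fin k)) (v : V) (c : Fin k) : s v = none →
      Win G k (Function.update s v (some c)) false → Win G k s true
  | bob (s : V → Option (Fin k)) : (∃ v, s v = none) →
      (∀ v c, s v = none → Win G k (Function.update s v (some c)) true) → Win G k s false

/-- The game domatic number: the largest `k` for which Alice wins the A-game. -/
noncomputable def gammaA {V : Type} [DecidableEq V] (G : SimpleGraph V) : ℕ :=
  sSup {k | 1 ≤ k ∧ Win G k (fun _ => none) true}

/-- The delayed game domatic number: the largest `k` for which Alice wins the B-game. -/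
noncomputable def gammaB {V : Type} [DecidableEq V] (G : SimpleGraph V) : ℕ :=
  sSup {k | 1 ≤ k ∧ Win G k (fun _ => none) false}

section
variable {V : Type} [DecidableEq V] [Fintype V] (G : SimpleGraph V) [DecidableRel G.Adj] {k : ℕ}

def pot (s : V → Option (Fin k)) (x : V) : ℕ :=
  (Finset.univ.filter (fun c : Fin k => ∃ y, (y = x ∨ G.Adj x y) ∧ s y = some c)).card +
    (Finset.univ.filter (fun y => (y = x ∨ G.Adj x y) ∧ s y = none)).card

theorem pot_update (s : V → Option (Fin k)) (v : V) (c : Fin k) (hv : s v = none) (x : V) :
    pot G (Function.update s v (some c)) x ≤ pot G s x := by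
  unfold pot
  by_cases h : v = x ∨ G.Adj x v
  · have h1 : Finset.univ.filter (fun c' : Fin k => ∃ y, (y = x ∨ G.Adj x y) ∧
        Function.update s v (some c) y = some c') ⊆ insert c (Finset.univ.filter
        (fun c' : Fin k => ∃ y, (y = x ∨ G.Adj x y) ∧ s y = some c')) := by
      intro c' hc'
      simp only [Finset.mem_filter, Finset.mem_univ, true_and, Finset.mem_insert] at hc' ⊢
      obtain ⟨y, hy, hy'⟩ := hc'
      by_cases e : y = v
      · subst e; simp at hy'; exact Or.inl hy'.symm
      · rw [Function.update_of_ne e] at hy'; exact Or.inr ⟨y, hy, hy'⟩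
    have h2 : Finset.univ.filter (fun y => (y = x ∨ G.Adj x y) ∧
        Function.update s v (some c) y = none) =
        (Finset.univ.filter (fun y => (y = x ∨ G.Adj x y) ∧ s y = none)).erase v := by
      ext y
      by_cases e : y = v
      · subst e; simp
      · simp [e]
    have h3 := (Finset.card_le_card h1).trans (Finset.card_insert_le _ _)
    have h4 : v ∈ Finset.univ.filter (fun y => (y = x ∨ G.Adj x y) ∧ s y = none) := by
      simp [h, hv]
    have h5 := Finset.card_erase_add_one h4
    rw [h2]; omega
  · have e : ∀ y, (y = x ∨ G.Adj x y) → Function.update s v (some c) y = s y := by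
      intro y hy
      exact Function.update_of_ne (fun e : y = v => h (by rw [← e]; exact hy)) _ _
    apply le_of_eq
    congr 2
    · ext c'
      simp only [Finset.mem_filter, Finset.mem_univ, true_and]
      exact exists_congr (fun y => and_congr_right (fun hy => by rw [e y hy]))
    · ext y
      simp only [Finset.mem_filter, Finset.mem_univ, true_and]
      exact and_congr_right (fun hy => by rw [e y hy])

theorem Win.pot {s : V → Option (Fin k)} {t : Bool} (h : Win G k s t) (x : V) :
    k ≤ pot G s x := by
  induction h with
  | done s t _ h2 =>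
    unfold DomGame.pot
    rw [Finset.filter_true_of_mem (fun c _ => h2 x c)]
    simp
  | alice s v c hv _ ih => exact ih.trans (pot_update G s v c hv x)
  | bob s hs _ ih =>
    obtain ⟨v, hv⟩ := hs
    rcases Nat.eq_zero_or_pos k with h0 | h0
    · omega
    · exact (ih v ⟨0, h0⟩ hv).trans (pot_update G s v _ hv x)

def ev : ℕ → (V → Option (Fin k)) → Bool → Bool
  | 0, s, _ => decide (∀ x c, ∃ y, (y = x ∨ G.Adj x y) ∧ s y = some c)
  | f + 1, s, true => decide (∀ x, k ≤ pot G s x) &&
      decide (∃ v c, s v = none ∧ ev f (Function.update s v (some c)) false = true)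
  | f + 1, s, false => decide (∀ x, k ≤ pot G s x) &&
      decide (∀ v c, s v = none → ev f (Function.update s v (some c)) true = true)

omit [DecidableRel G.Adj] in
theorem free_update (s : V → Option (Fin k)) (v : V) (c : Fin k) (hv : s v = none) :
    (Finset.univ.filter (fun y => Function.update s v (some c) y = none)).card + 1 =
      (Finset.univ.filter (fun y => s y = none)).card := by
  have h2 : Finset.univ.filter (fun y => Function.update s v (some c) y = none) =
      (Finset.univ.filter (fun y => s y = none)).erase v := by
    ext y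
    by_cases e : y = v
    · subst e; simp
    · simp [e]
  rw [h2]
  exact Finset.card_erase_add_one (by simp [hv])

theorem ev_iff (f : ℕ) : ∀ (s : V → Option (Fin k)) (t : Bool),
    (Finset.univ.filter (fun y => s y = none)).card = f → (Win G k s t ↔ ev G f s t = true) := by
  induction f with
  | zero =>
    intro s t hs
    have hs' : ∀ v, s v ≠ none := by simpa using hs
    simp only [ev, decide_eq_true_eq]
    constructor
    · intro h
      cases h with
      | done _ _ _ h2 => exact h2
      | alice _ v c hv _ => exact absurd hv (hs' v)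
      | bob _ hv _ => obtain ⟨v, hv⟩ := hv; exact absurd hv (hs' v)
    · exact fun h => Win.done s t hs' h
  | succ f ih =>
    intro s t hs
    have hex : ∃ v, s v = none := by
      have : (Finset.univ.filter (fun y => s y = none)).Nonempty :=
        Finset.card_pos.mp (by omega)
      obtain ⟨v, hv⟩ := this
      exact ⟨v, by simpa using hv⟩
    have hu : ∀ v c t, s v = none → (Win G k (Function.update s v (some c)) t ↔
        ev G f (Function.update s v (some c)) t = true) := fun v c t hv =>
      ih _ t (by have := free_update s v c hv; omega)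
    cases t with
    | true =>
      simp only [ev, Bool.and_eq_true, decide_eq_true_eq]
      constructor
      · intro h
        refine ⟨h.pot G, ?_⟩
        cases h with
        | done _ _ h1 _ => obtain ⟨v, hv⟩ := hex; exact absurd hv (h1 v)
        | alice _ v c hv h2 => exact ⟨v, c, hv, (hu v c _ hv).mp h2⟩
      · rintro ⟨_, v, c, hv, h⟩
        exact Win.alice s v c hv ((hu v c _ hv).mpr h)
    | false =>
      simp only [ev, Bool.and_eq_true, decide_eq_true_eq]
      constructor
      · intro h
        refine ⟨h.pot G, ?_⟩
        cases h with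
        | done _ _ h1 _ => obtain ⟨v, hv⟩ := hex; exact absurd hv (h1 v)
        | bob _ _ h2 => exact fun v c hv => (hu v c _ hv).mp (h2 v c hv)
      · rintro ⟨_, h⟩
        exact Win.bob s hex (fun v c hv => (hu v c _ hv).mpr (h v c hv))

theorem win_iff (k : ℕ) (t : Bool) :
    Win G k (fun _ => none) t ↔ ev (k := k) G (Fintype.card V) (fun _ => none) t = true :=
  ev_iff G _ _ t (by simp)

theorem win_le {t : Bool} (h : Win G k (fun _ => none) t) (x : V) :
    k ≤ (Finset.univ.filter (fun y => y = x ∨ G.Adj x y)).card := by
  have := h.pot G x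
  simpa [pot] using this

omit [DecidableRel G.Adj] in
theorem bob_pair (μ : V → V) (h1 : ∀ v, μ (μ v) = v) (h2 : ∀ v, μ v ≠ v) (a : V)
    (ha : ∀ y, G.Adj a y → y = μ a) (f : ℕ) : ∀ s : V → Option (Fin 2),
    (Finset.univ.filter (fun y => s y = none)).card ≤ f → (∀ v, s (μ v) = s v) →
    ¬ Win G 2 s true := by
  induction f using Nat.strong_induction_on with
  | _ f ih =>
    intro s hs hinv h
    cases h with
    | done _ _ _ h4 =>
      have e : ∀ c, s a = some c := by
        intro c
        obtain ⟨y, hy, hy'⟩ := h4 a c
        rcases hy with rfl | hy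
        · exact hy'
        · rw [ha y hy, hinv] at hy'; exact hy'
      have := (e 0).symm.trans (e 1)
      simp at this
    | alice _ v c hv h4 =>
      have hv' : Function.update s v (some c) (μ v) = none := by
        rw [Function.update_of_ne (h2 v), hinv, hv]
      cases h4 with
      | done _ _ h5 _ => exact h5 _ hv'
      | bob _ _ h5 =>
        have e1 := free_update s v c hv
        have e2 := free_update _ (μ v) c hv'
        refine ih (f - 2) (by omega) _ (by omega) ?_ (h5 (μ v) c hv')
        intro u
        by_cases e : u = v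
        · subst e
          rw [Function.update_self, Function.update_of_ne (h2 u).symm, Function.update_self]
        · by_cases e' : u = μ v
          · subst e'
            rw [h1, Function.update_self, Function.update_of_ne (h2 v).symm, Function.update_self]
          · have n1 : μ u ≠ μ v := fun h => e (by rw [← h1 u, h, h1])
            have n2 : μ u ≠ v := fun h => e' (by rw [← h, h1])
            rw [Function.update_of_ne n1, Function.update_of_ne n2, Function.update_of_ne e',
              Function.update_of_ne e, hinv]

omit [DecidableRel G.Adj] in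
theorem alice_pair (μ : V → V) (h1 : ∀ v, μ (μ v) = v) (h2 : ∀ v, G.Adj v (μ v)) (f : ℕ) :
    ∀ s : V → Option (Fin 2), (Finset.univ.filter (fun y => s y = none)).card ≤ f →
    (∀ v, s (μ v) = (s v).map (· + 1)) → Win G 2 s false := by
  induction f using Nat.strong_induction_on with
  | _ f ih =>
    intro s hs hinv
    by_cases hex : ∃ v, s v = none
    · refine Win.bob s hex (fun v c hv => ?_)
      have hne : μ v ≠ v := (h2 v).ne'
      have hv' : Function.update s v (some c) (μ v) = none := by
        rw [Function.update_of_ne hne, hinv, hv]; rfl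
      refine Win.alice _ (μ v) (c + 1) hv' ?_
      have e1 := free_update s v c hv
      have e2 := free_update _ (μ v) (c + 1) hv'
      refine ih (f - 2) (by omega) _ (by omega) ?_
      intro u
      by_cases e : u = v
      · subst e
        rw [Function.update_self, Function.update_of_ne hne.symm, Function.update_self]; rfl
      · by_cases e' : u = μ v
        · subst e'
          rw [h1, Function.update_self, Function.update_of_ne hne.symm, Function.update_self]
          have : ∀ c : Fin 2, c + 1 + 1 = c := by decide
          simp [this]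
        · have n1 : μ u ≠ μ v := fun h => e (by rw [← h1 u, h, h1])
          have n2 : μ u ≠ v := fun h => e' (by rw [← h, h1])
          rw [Function.update_of_ne n1, Function.update_of_ne n2, Function.update_of_ne e',
            Function.update_of_ne e, hinv]
    · push Not at hex
      refine Win.done s _ hex (fun x c => ?_)
      obtain ⟨d, hd⟩ := Option.ne_none_iff_exists'.mp (hex x)
      have : ∀ c d : Fin 2, c = d ∨ c = d + 1 := by decide
      rcases this c d with rfl | rfl
      · exact ⟨x, Or.inl rfl, hd⟩
      · exact ⟨μ x, Or.inr (h2 x), by rw [hinv, hd]; rfl⟩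

end

theorem sSup_eq (P : ℕ → Prop) (m : ℕ) (h1 : 1 ≤ m) (h2 : P m) (h3 : ∀ k, P k → k ≤ m) :
    sSup {k | 1 ≤ k ∧ P k} = m :=
  IsGreatest.csSup_eq ⟨⟨h1, h2⟩, fun k hk => h3 k hk.2⟩

abbrev K2 : SimpleGraph (Fin 2) := ⊤
abbrev K3 : SimpleGraph (Fin 3) := ⊤
def K33 : SimpleGraph (Fin 6) where
  Adj i j := (i.val < 3 ∧ 3 ≤ j.val) ∨ (j.val < 3 ∧ 3 ≤ i.val)
  symm := ⟨fun _ _ h => h.symm⟩
  loopless := ⟨fun i h => by omega⟩

instance : DecidableRel K33.Adj := fun i j =>
  inferInstanceAs (Decidable ((i.val < 3 ∧ 3 ≤ j.val) ∨ (j.val < 3 ∧ 3 ≤ i.val)))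

instance sumDec {V W : Type} (G : SimpleGraph V) (H : SimpleGraph W) [DecidableRel G.Adj]
    [DecidableRel H.Adj] : DecidableRel (G ⊕g H).Adj := fun u v =>
  match u, v with
  | Sum.inl a, Sum.inl b => decidable_of_iff (G.Adj a b) (by simp)
  | Sum.inr a, Sum.inr b => decidable_of_iff (H.Adj a b) (by simp)
  | Sum.inl _, Sum.inr _ => isFalse (by simp)
  | Sum.inr _, Sum.inl _ => isFalse (by simp)

theorem K3_val (t : Bool) : sSup {k | 1 ≤ k ∧ Win K3 k (fun _ => none) t} = 2 := by
  refine sSup_eq _ 2 (by norm_num) ((win_iff K3 2 t).mpr (by revert t; decide +kernel))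
    (fun k hk => ?_)
  have h1 : k ≤ 3 := (win_le K3 hk 0).trans (by decide)
  by_contra h
  obtain rfl : k = 3 := by omega
  have := (win_iff K3 3 t).mp hk
  revert this; clear hk; revert t; decide +kernel

theorem K33_val (t : Bool) : sSup {k | 1 ≤ k ∧ Win K33 k (fun _ => none) t} = 2 := by
  refine sSup_eq _ 2 (by norm_num) ((win_iff K33 2 t).mpr (by revert t; decide +kernel))
    (fun k hk => ?_)
  have h1 : k ≤ 4 := (win_le K33 hk 0).trans (by decide)
  by_contra h
  obtain rfl | rfl : k = 3 ∨ k = 4 := by omega
  · have := (win_iff K33 3 t).mp hk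
    revert this; clear hk; revert t; decide +kernel
  · have := (win_iff K33 4 t).mp hk
    revert this; clear hk; revert t; decide +kernel

def mu : Fin 2 ⊕ Fin 6 → Fin 2 ⊕ Fin 6
  | Sum.inl a => Sum.inl (a + 1)
  | Sum.inr b => Sum.inr (b + 3)

theorem A_K2_K3 : gammaA (K2 ⊕g K3) = 2 :=
  sSup_eq _ 2 (by norm_num) ((win_iff _ 2 true).mpr (by decide +kernel))
    (fun _ hk => (win_le _ hk (Sum.inl 0)).trans (by decide))

theorem B_K2_K33 : gammaB (K2 ⊕g K33) = 2 :=
  sSup_eq _ 2 (by norm_num)
    (alice_pair _ mu (by decide) (by decide) _ _ le_rfl (fun _ => rfl))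
    (fun _ hk => (win_le _ hk (Sum.inl 0)).trans (by decide))

theorem A_K2_K33 : gammaA (K2 ⊕g K33) ≤ 1 := by
  refine csSup_le' (fun k hk => ?_)
  have h1 : k ≤ 2 := (win_le _ hk.2 (Sum.inl 0)).trans (by decide)
  by_contra h
  obtain rfl : k = 2 := by omega
  exact bob_pair _ mu (by decide) (by decide) (Sum.inl 0) (by decide) _ _ le_rfl
    (fun _ => rfl) hk.2

theorem B_K2_K3 : gammaB (K2 ⊕g K3) ≤ 1 := by
  refine csSup_le' (fun k hk => ?_)
  have h1 : k ≤ 2 := (win_le _ hk.2 (Sum.inl 0)).trans (by decide)
  by_contra h
  obtain rfl : k = 2 := by omega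
  have := (win_iff _ 2 false).mp hk.2
  revert this; decide +kernel

end Pool.Agent.H11.DomGame
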