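import Mathlib

namespace Pool.Agent.H11.Fcc

open Finset

abbrev E := EuclideanSpace ℝ (Fin 3)
abbrev P := ℤ × ℤ × ℤ

noncomputable def φ (p : P) : E := !₂[√2 * p.1, √2 * p.2.1, √2 * p.2.2]

def d2 (p q : P) : ℤ := (p.1 - q.1) ^ 2 + (p.2.1 - q.2.1) ^ 2 + (p.2.2 - q.2.2) ^ 2

theorem dist_φ (p q : P) : dist (φ p) (φ q) = √(2 * (d2 p q : ℝ)) := by
  rw [EuclideanSpace.dist_eq, Fin.sum_univ_three]
  congr 1
  have := Real.sq_sqrt (show (0 : ℝ) ≤ 2 by norm_num)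
  simp only [φ, d2, Real.dist_eq, sq_abs]
  simp
  linear_combination ((p.1 - q.1 : ℝ) ^ 2 + (p.2.1 - q.2.1) ^ 2 + (p.2.2 - q.2.2) ^ 2) * this

theorem four : √(2 * (((2 : ℤ)) : ℝ)) = 2 := by
  rw [Real.sqrt_eq_iff_mul_self_eq] <;> norm_num

def Par (R : ℤ) (p : P) : Prop := (p.1 + p.2.1 + p.2.2 + R) % 2 = 0

theorem sep {R : ℤ} {p q : P} (hp : Par R p) (hq : Par R q) (h : p ≠ q) :
    2 ≤ dist (φ p) (φ q) := by
  have h2 : 2 ≤ d2 p q := by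
    obtain ⟨a, b, c⟩ := p
    obtain ⟨d, e, f⟩ := q
    have h1 := Int.le_self_sq (a - d)
    have h2 := Int.le_self_sq (b - e)
    have h3 := Int.le_self_sq (c - f)
    have h4 := Int.le_self_sq (-(a - d))
    have h5 := Int.le_self_sq (-(b - e))
    have h6 := Int.le_self_sq (-(c - f))
    simp only [Par, d2, neg_sq, ne_eq, Prod.mk.injEq] at *
    generalize (a - d) ^ 2 = x at *
    generalize (b - e) ^ 2 = y at *
    generalize (c - f) ^ 2 = z at *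
    omega
  rw [dist_φ]
  refine four.symm.trans_le (Real.sqrt_le_sqrt ?_)
  have : ((2 : ℤ) : ℝ) ≤ d2 p q := Int.cast_le.2 h2
  linarith

theorem φ_inj : Function.Injective φ := by
  rintro ⟨a, b, c⟩ ⟨d, e, f⟩ h
  have h0 := congrArg (fun x : E => x 0) h
  have h1 := congrArg (fun x : E => x 1) h
  have h2 := congrArg (fun x : E => x 2) h
  simp [φ] at h0 h1 h2
  simp [h0, h1, h2]

open Classical in
theorem transfer {ι : Type} (R : ℤ) (S : Finset P) (hS : ∀ p ∈ S, Par R p) (n r : ℕ)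
    (hn : S.card ≤ n) (I : Finset ι) (g : ι → Finset P) (hg : Set.InjOn g I)
    (h1 : ∀ i ∈ I, g i ⊆ S ∧ (g i).card = r ∧ ∀ p ∈ g i, ∀ q ∈ g i, p ≠ q → d2 p q = 2) :
    ∃ C : Finset E, C.card = n ∧ (∀ x ∈ C, ∀ y ∈ C, x ≠ y → 2 ≤ dist x y) ∧
      I.card ≤ ((C.powersetCard r).filter
        (fun T => ∀ x ∈ T, ∀ y ∈ T, x ≠ y → dist x y = 2)).card := by
  have inf : {p | Par R p}.Infinite := Set.infinite_of_injective_forall_mem
    (f := fun m : ℤ => ((2 * m - R, 0, 0) : P)) (fun a b h => by simp at h; omega)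
    (fun m => by simp [Par])
  obtain ⟨t, h2, h3⟩ := (inf.sdiff S.finite_toSet).exists_subset_card_eq (n - S.card)
  have hd : Disjoint S t := disjoint_right.2 (fun p hp => (h2 hp).2)
  refine ⟨(S ∪ t).image φ, ?_, ?_, ?_⟩
  · rw [card_image_of_injective _ φ_inj, card_union_of_disjoint hd]; omega
  · intro x hx y hy h
    obtain ⟨p, hp, rfl⟩ := mem_image.1 hx
    obtain ⟨q, hq, rfl⟩ := mem_image.1 hy
    have : ∀ p ∈ S ∪ t, Par R p := fun p hp => (mem_union.1 hp).elim (hS p) (fun h => (h2 h).1)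
    exact sep (this p hp) (this q hq) (fun e => h (e ▸ rfl))
  · refine card_le_card_of_injOn (fun i => (g i).image φ) (fun i hi => ?_)
      (fun i hi j hj h => hg hi hj (image_injective φ_inj h))
    obtain ⟨a, b, c⟩ := h1 i hi
    refine mem_coe.2 (mem_filter.2 ⟨mem_powersetCard.2 ⟨image_subset_image
      (a.trans subset_union_left), by rw [card_image_of_injective _ φ_inj, b]⟩, ?_⟩)
    intro x hx y hy h
    obtain ⟨p, hp, rfl⟩ := mem_image.1 hx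
    obtain ⟨q, hq, rfl⟩ := mem_image.1 hy
    rw [dist_φ, c p hp q hq (fun e => h (e ▸ rfl)), four]

def lay (j : ℕ) (z : ℤ) : Finset P :=
  (range j ×ˢ range j).image (fun a => ((a.1 : ℤ) + a.2 - j + 1, (a.1 : ℤ) - a.2, z))

theorem lay_card (j : ℕ) (z : ℤ) : (lay j z).card = j ^ 2 := by
  rw [lay, card_image_of_injective _ (fun a b h => by
    simp only [Prod.mk.injEq] at h; ext <;> omega)]
  simp [sq]

theorem mem_lay {j : ℕ} {z : ℤ} {p : P} : p ∈ lay j z ↔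
    p.1.natAbs + p.2.1.natAbs + 1 ≤ j ∧ (p.1 + p.2.1 + j + 1) % 2 = 0 ∧ p.2.2 = z := by
  obtain ⟨x, y, w⟩ := p
  simp only [lay, mem_image, mem_product, mem_range, Prod.mk.injEq, Prod.exists]
  constructor
  · rintro ⟨a, b, ⟨h1, h2⟩, rfl, rfl, rfl⟩
    omega
  · rintro ⟨h1, h2, rfl⟩
    exact ⟨((x + y + j - 1) / 2).toNat, ((x - y + j - 1) / 2).toNat, by omega, by omega, by omega, rfl⟩

def Oct (k : ℕ) : Finset P :=
  (range (k + 1)).biUnion (fun j => lay j (k - j)) ∪ (range k).biUnion (fun j => lay j (j - k))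

theorem mem_Oct {k : ℕ} {p : P} : p ∈ Oct k ↔
    p.1.natAbs + p.2.1.natAbs + p.2.2.natAbs + 1 ≤ k ∧ (p.1 + p.2.1 + p.2.2 + k + 1) % 2 = 0 := by
  simp only [Oct, mem_union, mem_biUnion, mem_range, mem_lay]
  constructor
  · rintro (⟨j, h⟩ | ⟨j, h⟩) <;> omega
  · intro h
    rcases le_or_gt 0 p.2.2 with c | c
    · exact Or.inl ⟨k - p.2.2.natAbs, by omega⟩
    · exact Or.inr ⟨k - p.2.2.natAbs, by omega⟩

theorem sq_sum (k : ℕ) : 6 * ∑ j ∈ range (k + 1), j ^ 2 = k * (k + 1) * (2 * k + 1) := by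
  induction k with
  | zero => simp
  | succ k ih => rw [sum_range_succ, mul_add, ih]; ring

theorem Oct_card (k : ℕ) : 3 * (Oct k).card = 2 * k ^ 3 + k := by
  rw [Oct, card_union_of_disjoint, card_biUnion, card_biUnion]
  · simp only [lay_card]
    have h1 := sq_sum k
    have h2 := sum_range_succ (fun j => j ^ 2) k
    nlinarith
  · intro i _ j _ h
    exact disjoint_left.2 (fun p h1 h2 => by rw [mem_lay] at h1 h2; omega)
  · intro i _ j _ h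
    exact disjoint_left.2 (fun p h1 h2 => by rw [mem_lay] at h1 h2; omega)
  · refine disjoint_left.2 (fun p h1 h2 => ?_)
    simp only [mem_biUnion, mem_range, mem_lay] at h1 h2
    obtain ⟨i, h1⟩ := h1
    obtain ⟨j, h2⟩ := h2
    omega

def Sg : Finset P := {1, -1} ×ˢ {1, -1} ×ˢ {1, -1}

theorem mem_Sg {s : P} : s ∈ Sg ↔
    (s.1 = 1 ∨ s.1 = -1) ∧ (s.2.1 = 1 ∨ s.2.1 = -1) ∧ (s.2.2 = 1 ∨ s.2.2 = -1) := by simp [Sg]

def tri (c : P × P) : Finset P :=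
  {(c.1.1 + c.2.1, c.1.2.1, c.1.2.2), (c.1.1, c.1.2.1 + c.2.2.1, c.1.2.2),
    (c.1.1, c.1.2.1, c.1.2.2 + c.2.2.2)}

theorem tri_sum {c : P × P} (h : c.2 ∈ Sg) (f : P → ℤ) : ∑ p ∈ tri c, f p =
    f (c.1.1 + c.2.1, c.1.2.1, c.1.2.2) + (f (c.1.1, c.1.2.1 + c.2.2.1, c.1.2.2) +
      f (c.1.1, c.1.2.1, c.1.2.2 + c.2.2.2)) := by
  rw [mem_Sg] at h
  rw [tri, sum_insert, sum_pair]
  · simp only [ne_eq, Prod.mk.injEq]; omega
  · simp only [mem_insert, mem_singleton, Prod.mk.injEq]; omega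

theorem tri_inj {c d : P × P} (hc : c.2 ∈ Sg) (hd : d.2 ∈ Sg) (h : tri c = tri d) : c = d := by
  have h1 := (tri_sum hc (fun p => p.1)).symm.trans (h ▸ tri_sum hd (fun p => p.1))
  have h2 := (tri_sum hc (fun p => p.2.1)).symm.trans (h ▸ tri_sum hd (fun p => p.2.1))
  have h3 := (tri_sum hc (fun p => p.2.2)).symm.trans (h ▸ tri_sum hd (fun p => p.2.2))
  rw [mem_Sg] at hc hd
  dsimp only at h1 h2 h3
  obtain ⟨a1, a2, a3⟩ := hc
  obtain ⟨b1, b2, b3⟩ := hd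
  have : c.1.1 = d.1.1 ∧ c.2.1 = d.2.1 := by clear h2 h3 a2 a3 b2 b3; omega
  have : c.1.2.1 = d.1.2.1 ∧ c.2.2.1 = d.2.2.1 := by clear h1 h3 a1 a3 b1 b3; omega
  have : c.1.2.2 = d.1.2.2 ∧ c.2.2.2 = d.2.2.2 := by clear h1 h2 a1 a2 b1 b2; omega
  ext <;> tauto

theorem tri_ok {c : P × P} (h : c.2 ∈ Sg) :
    (tri c).card = 3 ∧ ∀ p ∈ tri c, ∀ q ∈ tri c, p ≠ q → d2 p q = 2 := by
  refine ⟨by have := tri_sum h (fun _ => 1); simp at this; exact_mod_cast this, ?_⟩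
  rw [mem_Sg] at h
  obtain ⟨h1, h2, h3⟩ := h
  have a1 : c.2.1 ^ 2 = 1 := by rcases h1 with h | h <;> simp [h]
  have a2 : c.2.2.1 ^ 2 = 1 := by rcases h2 with h | h <;> simp [h]
  have a3 : c.2.2.2 ^ 2 = 1 := by rcases h3 with h | h <;> simp [h]
  simp [tri, d2, a1, a2, a3]

def Outer (k : ℕ) : Finset (P × P) :=
  (((range k).sigma (fun m => range m)) ×ˢ Sg).image (fun c =>
    ((-c.2.1 * (c.1.2 + 1 : ℕ), -c.2.2.1 * (c.1.1 - c.1.2 : ℕ), -c.2.2.2 * (k - c.1.1 : ℕ)), c.2))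

theorem Outer_card (k : ℕ) : (Outer k).card = 4 * (k * (k - 1)) := by
  rw [Outer, card_image_of_injOn, card_product, card_sigma]
  · simp only [card_range]
    rw [← sum_range_id_mul_two, show Sg.card = 8 by decide]; ring
  · rintro ⟨⟨a, b⟩, s⟩ h ⟨⟨c, d⟩, t⟩ h' e
    simp only [coe_product, Set.mem_prod, mem_coe, mem_sigma, mem_range, mem_Sg,
      Prod.mk.injEq] at h h' e
    obtain ⟨⟨e1, -, e3⟩, rfl⟩ := e
    have : b = d := by rcases h.2.1 with h | h <;> simp [h] at e1 <;> omega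
    have : a = c := by rcases h.2.2.2 with h | h <;> simp [h] at e3 <;> omega
    subst a b
    rfl

theorem mem_Outer {k : ℕ} {c : P × P} (h : c ∈ Outer k) : c.2 ∈ Sg ∧ ∃ u v w : ℤ, 1 ≤ u ∧ 1 ≤ v ∧
    1 ≤ w ∧ u + v + w = k + 1 ∧ c.1.1 = -c.2.1 * u ∧ c.1.2.1 = -c.2.2.1 * v ∧
    c.1.2.2 = -c.2.2.2 * w := by
  obtain ⟨⟨⟨a, b⟩, x, y, z⟩, g, rfl⟩ := mem_image.1 h
  simp only [mem_product, mem_sigma, mem_range] at g
  exact ⟨g.2, (b + 1 : ℕ), (a - b : ℕ), (k - a : ℕ), by omega, by omega, by omega, by omega,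
    rfl, rfl, rfl⟩

theorem mem_Oct' {k : ℕ} {x y z : ℤ} : (x, y, z) ∈ Oct k ↔
    (x + y + z < k ∧ x + y - z < k ∧ x - y + z < k ∧ x - y - z < k ∧ -x + y + z < k ∧
      -x + y - z < k ∧ -x - y + z < k ∧ -x - y - z < k) ∧ (x + y + z + k + 1) % 2 = 0 := by
  rw [mem_Oct]
  exact and_congr_left (fun _ => by dsimp only; omega)

def N0 : Finset (P × P) :=
  {((1, 1, -1), (1, 1, 1)), ((1, 1, -1), (1, 1, -1)), ((1, 1, -1), (1, -1, 1)),
    ((1, 1, -1), (-1, 1, 1)), ((1, 1, -1), (1, -1, -1)), ((1, 1, -1), (-1, 1, -1)),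
    ((1, 1, -1), (-1, -1, 1)),
    ((2, 0, -1), (-1, 1, -1)), ((2, 1, -2), (-1, -1, 1)), ((0, 2, -1), (1, -1, -1)),
    ((1, 2, -2), (-1, -1, 1)), ((0, 1, 0), (1, -1, -1)), ((1, 0, 0), (-1, 1, -1))}

def New (k : ℕ) : Finset (P × P) := N0.image (fun c => (c.1 + (0, 0, (k : ℤ)), c.2))

def Bad (k : ℕ) : Finset (P × P) :=
  {(1 - (k : ℤ), 0, 0)} ×ˢ Sg.filter (fun s => s.1 = -1) ∪
    {(0, 1 - (k : ℤ), 0)} ×ˢ Sg.filter (fun s => s.2.1 = -1) ∪
    {(0, 0, 1 - (k : ℤ))} ×ˢ Sg.filter (fun s => s.2.2 = -1)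

def Apex (k : ℕ) : Finset P := {(-(k : ℤ), 0, 0), (0, -(k : ℤ), 0), (0, 0, -(k : ℤ))}

def Patch (k : ℕ) : Finset P := {(2, 1, (k : ℤ) - 1), (1, 2, (k : ℤ) - 1), (1, 1, (k : ℤ))}

theorem N0_Sg : ∀ c ∈ N0, c.2 ∈ Sg := by decide +kernel

theorem mem_New {k : ℕ} {x y z a b c : ℤ} (h : ((x, y, z), a, b, c) ∈ New k) :
    (a, b, c) ∈ Sg ∧ ((x, y, z - k), a, b, c) ∈ N0 := by
  obtain ⟨⟨⟨x, y, z⟩, a, b, c⟩, hc, e⟩ := mem_image.1 h
  simp only [Prod.mk_add_mk, Prod.mk.injEq, add_zero] at e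
  obtain ⟨⟨rfl, rfl, rfl⟩, rfl, rfl, rfl⟩ := e
  exact ⟨N0_Sg _ hc, by rw [add_sub_cancel_right]; exact hc⟩

theorem hNew1 {k : ℕ} (hk : 2 ≤ k) {x y z a b c : ℤ} (hc : ((x, y, z - k), a, b, c) ∈ N0) :
    tri ((x, y, z), a, b, c) ⊆ (Oct (k + 1) \ Apex k) ∪ Patch k := by
  simp only [N0, mem_insert, mem_singleton, Prod.mk.injEq] at hc
  simp only [tri, insert_subset_iff, singleton_subset_iff, mem_union, mem_sdiff, mem_Oct', Apex,
    Patch, mem_insert, mem_singleton, Prod.mk.injEq, not_or]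
  rcases hc with h | h | h | h | h | h | h | h | h | h | h | h | h <;>
    obtain ⟨⟨rfl, rfl, h⟩, rfl, rfl, rfl⟩ := h <;> refine ⟨?_, ?_, ?_⟩ <;>
    first | (right; omega) | (left; omega)

theorem hNew2 {k : ℕ} (hk : 2 ≤ k) {x y z a b c : ℤ} (hc : ((x, y, z - k), a, b, c) ∈ N0) :
    ¬ (((x, y, z), a, b, c) ∈ Oct k ×ˢ Sg ∨ ((x, y, z), a, b, c) ∈ Outer k) := by
  simp only [N0, mem_insert, mem_singleton, Prod.mk.injEq] at hc
  rintro (h | h)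
  · have := (mem_Oct'.1 (mem_product.1 h).1).1.1
    rcases hc with h | h | h | h | h | h | h | h | h | h | h | h | h <;> omega
  · obtain ⟨u, v, w, this⟩ := (mem_Outer h).2
    dsimp only at this
    rcases hc with h | h | h | h | h | h | h | h | h | h | h | h | h <;>
      obtain ⟨⟨rfl, rfl, h⟩, rfl, rfl, rfl⟩ := h <;> omega

theorem hNew {k : ℕ} (hk : 2 ≤ k) : ∀ c ∈ New k, c.2 ∈ Sg ∧
    tri c ⊆ (Oct (k + 1) \ Apex k) ∪ Patch k ∧ c ∉ Oct k ×ˢ Sg ∪ Outer k := by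
  rintro ⟨⟨x, y, z⟩, a, b, c⟩ hc
  obtain ⟨h1, h2⟩ := mem_New hc
  exact ⟨h1, hNew1 hk h2, mt mem_union.1 (hNew2 hk h2)⟩

theorem hOld {k : ℕ} {c : P × P} (h : c ∈ (Oct k ×ˢ Sg ∪ Outer k) \ Bad k) (h0 : c.2 ∈ Sg) :
    tri c ⊆ Oct (k + 1) \ Apex k := by
  obtain ⟨h, hb⟩ := mem_sdiff.1 h
  obtain ⟨⟨x, y, z⟩, a, b, c⟩ := c
  simp only [Bad, mem_union, mem_product, mem_singleton, mem_filter, h0, true_and,
    Prod.mk.injEq, not_or] at hb
  rw [mem_Sg] at h0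
  simp only [tri, insert_subset_iff, singleton_subset_iff, mem_sdiff, mem_Oct', Apex, mem_insert,
    mem_singleton, Prod.mk.injEq, not_or]
  obtain ⟨⟨b1, b2⟩, b3⟩ := hb
  dsimp only at h0
  rcases mem_union.1 h with h | h
  · have := mem_Oct'.1 (mem_product.1 h).1
    obtain ⟨h1, h2, h3⟩ := h0
    refine ⟨⟨?_, ?_, ?_, ?_⟩, ⟨?_, ?_, ?_, ?_⟩, ?_, ?_, ?_, ?_⟩ <;> omega
  · obtain ⟨u, v, w, this⟩ := (mem_Outer h).2
    clear b1 b2 b3
    dsimp only at this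
    obtain ⟨rfl | rfl, rfl | rfl, rfl | rfl⟩ := h0 <;>
      refine ⟨⟨?_, ?_, ?_, ?_⟩, ⟨?_, ?_, ?_, ?_⟩, ?_, ?_, ?_, ?_⟩ <;> omega

open Classical in
theorem triplets (k : ℕ) (hk : 2 ≤ k) : ∃ C : Finset E, 3 * C.card = 2 * (k + 1) ^ 3 + (k + 1) ∧
    (∀ x ∈ C, ∀ y ∈ C, x ≠ y → 2 ≤ dist x y) ∧
    4 * k * (k + 1) * (4 * k - 1) < 3 * ((C.powersetCard 3).filter
      (fun T => ∀ x ∈ T, ∀ y ∈ T, x ≠ y → dist x y = 2)).card := by
  have hB : (Bad k).card ≤ 12 := by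
    refine (card_union_le _ _).trans ((Nat.add_le_add_right (card_union_le _ _) _).trans ?_)
    simp only [card_product, card_singleton]
    decide
  have hN : (New k).card = 13 := by
    rw [New, card_image_of_injective _ (fun a b h => by
      simp only [Prod.mk.injEq, add_left_inj] at h; exact Prod.ext h.1 h.2)]
    decide
  have hA : (Apex k).card = 3 := card_eq_three.2 ⟨_, _, _, by simp; omega, by simp; omega,
    by simp; omega, rfl⟩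
  have hA2 : Apex k ⊆ Oct (k + 1) := by
    simp only [Apex, insert_subset_iff, singleton_subset_iff, mem_Oct]; omega
  have hNew := hNew hk
  have hs : ∀ c ∈ ((Oct k ×ˢ Sg ∪ Outer k) \ Bad k) ∪ New k, c.2 ∈ Sg := fun c hc =>
    (mem_union.1 hc).elim (fun h => (mem_union.1 (mem_sdiff.1 h).1).elim
      (fun h => (mem_product.1 h).2) (fun h => (mem_Outer h).1)) (fun h => (hNew c h).1)
  refine (transfer k ((Oct (k + 1) \ Apex k) ∪ Patch k) ?_ (Oct (k + 1)).card 3 ?_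
    (((Oct k ×ˢ Sg ∪ Outer k) \ Bad k) ∪ New k) tri ?_ ?_).elim (fun C ⟨h1, h2, h3⟩ => ?_)
  rotate_right
  · refine ⟨C, h1 ▸ Oct_card _, h2, lt_of_lt_of_le ?_ (Nat.mul_le_mul_left 3 h3)⟩
    rw [card_union_of_disjoint (disjoint_right.2 (fun c hc h => (hNew c hc).2.2 (mem_sdiff.1 h).1))]
    have a1 := le_card_sdiff (Bad k) (Oct k ×ˢ Sg ∪ Outer k)
    rw [card_union_of_disjoint (disjoint_left.2 (fun c h h' => by
      obtain ⟨⟨x, y, z⟩, a, b, c⟩ := c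
      have := (mem_Oct'.1 (mem_product.1 h).1).1
      obtain ⟨h0, u, v, w, _⟩ := mem_Outer h'
      dsimp only at *
      obtain ⟨rfl | rfl, rfl | rfl, rfl | rfl⟩ := mem_Sg.1 h0 <;> omega)), card_product, Outer_card, show Sg.card = 8 by decide] at a1
    have a2 := Oct_card k
    obtain ⟨m, rfl⟩ : ∃ m, k = m + 1 := ⟨k - 1, by omega⟩
    rw [show 4 * (m + 1) - 1 = 4 * m + 3 by omega]
    rw [Nat.add_sub_cancel] at a1
    have a3 : 4 * (m + 1) * (m + 1 + 1) * (4 * m + 3) =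
        8 * (2 * (m + 1) ^ 3 + (m + 1)) + 3 * (4 * ((m + 1) * m)) := by ring
    omega
  · intro p hp
    rcases mem_union.1 hp with h | h
    · have := mem_Oct.1 (mem_sdiff.1 h).1
      unfold Par; omega
    · simp only [Patch, mem_insert, mem_singleton] at h
      rcases h with rfl | rfl | rfl <;> simp only [Par] <;> omega
  · have a1 := card_union_le (Oct (k + 1) \ Apex k) (Patch k)
    have a2 := card_sdiff_add_card_eq_card hA2
    have a3 : (Patch k).card ≤ 3 := card_le_three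
    omega
  · exact fun c hc d hd h => tri_inj (hs c hc) (hs d hd) h
  · intro c hc
    refine ⟨?_, tri_ok (hs c hc)⟩
    exact (mem_union.1 hc).elim (fun h => (hOld h (hs c hc)).trans subset_union_left)
      (fun h => (hNew c h).2.1)

def tet (c : P) : Finset P :=
  {(c.1, c.2.1, c.2.2 + (c.1 + c.2.1 + c.2.2) % 2),
    (c.1 + 1, c.2.1 + 1, c.2.2 + (c.1 + c.2.1 + c.2.2) % 2),
    (c.1 + 1, c.2.1, c.2.2 + 1 - (c.1 + c.2.1 + c.2.2) % 2),
    (c.1, c.2.1 + 1, c.2.2 + 1 - (c.1 + c.2.1 + c.2.2) % 2)}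

theorem tet_sum (c : P) (f : P → ℤ) : ∑ p ∈ tet c, f p =
    f (c.1, c.2.1, c.2.2 + (c.1 + c.2.1 + c.2.2) % 2) +
    (f (c.1 + 1, c.2.1 + 1, c.2.2 + (c.1 + c.2.1 + c.2.2) % 2) +
    (f (c.1 + 1, c.2.1, c.2.2 + 1 - (c.1 + c.2.1 + c.2.2) % 2) +
    f (c.1, c.2.1 + 1, c.2.2 + 1 - (c.1 + c.2.1 + c.2.2) % 2))) := by
  rw [tet, sum_insert, sum_insert, sum_pair] <;> simp

theorem tet_inj : Function.Injective tet := fun c d h => by
  have h1 := (tet_sum c (fun p => p.1)).symm.trans (h ▸ tet_sum d (fun p => p.1))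
  have h2 := (tet_sum c (fun p => p.2.1)).symm.trans (h ▸ tet_sum d (fun p => p.2.1))
  have h3 := (tet_sum c (fun p => p.2.2)).symm.trans (h ▸ tet_sum d (fun p => p.2.2))
  dsimp only at h1 h2 h3
  ext <;> omega

theorem tet_ok (c : P) : (tet c).card = 4 ∧ ∀ p ∈ tet c, ∀ q ∈ tet c, p ≠ q → d2 p q = 2 := by
  refine ⟨by have := tet_sum c (fun _ => 1); simp at this; exact_mod_cast this, ?_⟩
  rcases Int.emod_two_eq_zero_or_one (c.1 + c.2.1 + c.2.2) with h | h <;> simp [tet, d2, h]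

open Classical in
theorem quads (j : ℕ) (hj : 1 ≤ j) : ∃ C : Finset E, C.card = 18 * j ^ 3 + j ∧
    (∀ x ∈ C, ∀ y ∈ C, x ≠ y → 2 ≤ dist x y) ∧
    (3 * j - 1) * ((3 * j - 1) * (4 * j - 1)) ≤ ((C.powersetCard 4).filter
      (fun T => ∀ x ∈ T, ∀ y ∈ T, x ≠ y → dist x y = 2)).card := by
  refine (transfer 0 ((Ico (0 : ℤ) (3 * j) ×ˢ Ico (0 : ℤ) (3 * j) ×ˢ Ico (0 : ℤ) (2 * j)).image
    (fun c => (c.1, c.2.1, 2 * c.2.2 + (c.1 + c.2.1) % 2))) ?_ (18 * j ^ 3 + j) 4 ?_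
    (Ico (0 : ℤ) (3 * j - 1) ×ˢ Ico (0 : ℤ) (3 * j - 1) ×ˢ Ico (0 : ℤ) (4 * j - 1)) tet
    tet_inj.injOn ?_).imp (fun C ⟨h1, h2, h3⟩ => ⟨h1, h2, le_of_eq_of_le ?_ h3⟩)
  · intro p hp
    obtain ⟨c, -, rfl⟩ := mem_image.1 hp
    simp only [Par]; omega
  · refine card_image_le.trans ?_
    simp only [card_product, Int.card_Ico]
    rw [show ((3 : ℤ) * j - 0).toNat = 3 * j by omega, show ((2 : ℤ) * j - 0).toNat = 2 * j by omega]
    nlinarith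
  · intro c hc
    refine ⟨?_, tet_ok c⟩
    simp only [mem_product, mem_Ico] at hc
    have key : ∀ x y z : ℤ, 0 ≤ x → x < 3 * j → 0 ≤ y → y < 3 * j → 0 ≤ z → z < 4 * j →
        (x + y + z) % 2 = 0 → (x, y, z) ∈ (Ico (0 : ℤ) (3 * j) ×ˢ Ico (0 : ℤ) (3 * j) ×ˢ
        Ico (0 : ℤ) (2 * j)).image (fun c => (c.1, c.2.1, 2 * c.2.2 + (c.1 + c.2.1) % 2)) := by
      intro x y z _ _ _ _ _ _ _
      refine mem_image.2 ⟨(x, y, z / 2), ?_, ?_⟩
      · simp only [mem_product, mem_Ico]; omega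
      · simp only [Prod.mk.injEq, true_and]; omega
    simp only [tet, insert_subset_iff, singleton_subset_iff]
    refine ⟨?_, ?_, ?_, ?_⟩ <;> apply key <;> omega
  · simp only [card_product, Int.card_Ico]
    rw [show ((3 : ℤ) * j - 1 - 0).toNat = 3 * j - 1 by omega,
      show ((4 : ℤ) * j - 1 - 0).toNat = 4 * j - 1 by omega]

end Pool.Agent.H11.Fcc
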