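import Pool.Agent.H11.PTDefs

set_option autoImplicit false

namespace Pool.Agent.H11.PT

/-- propositional formulas over the variables `0, 1, 2, …` -/
inductive Fm : Type
  | var : ℕ → Fm
  | neg : Fm → Fm
  | conj : Fm → Fm → Fm
  | disj : Fm → Fm → Fm

namespace Fm

/-- truth value under an assignment -/
def eval (σ : ℕ → Bool) : Fm → Bool
  | var n => σ n
  | neg a => !(eval σ a)
  | conj a b => eval σ a && eval σ b
  | disj a b => eval σ a || eval σ b

/-- the variables that occur -/
def vars : Fm → List ℕ
  | var n => [n]
  | neg a => vars a
  | conj a b => vars a ++ vars b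
  | disj a b => vars a ++ vars b

/-- simultaneous renaming of variables -/
def ren (π : ℕ → ℕ) : Fm → Fm
  | var n => var (π n)
  | neg a => neg (ren π a)
  | conj a b => conj (ren π a) (ren π b)
  | disj a b => disj (ren π a) (ren π b)

/-- reverse Polish form: 0 = not, 1 = and, 2 = or, n + 3 = variable n -/
def post : Fm → List ℕ
  | var n => [n + 3]
  | neg a => post a ++ [0]
  | conj a b => post a ++ post b ++ [1]
  | disj a b => post a ++ post b ++ [2]

end Fm

/-- formulas are written in reverse Polish form -/
instance encFm : Enc Fm := ⟨fun φ => Enc.tr φ.post⟩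

end Pool.Agent.H11.PT
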