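import Pool.Agent.H11.S2
import Pool.Agent.H11.FmDefs

set_option autoImplicit false
set_option linter.dupNamespace false

namespace Pool.Agent.H11.PT

variable {α : Type} [Enc α]

@[fun_prop] theorem PT.post {f : α → Fm} (hf : PT f) : PT fun x => (f x).post :=
  (PT.ofId (f := Fm.post) fun _ => rfl).comp hf

theorem PT.ofPost {f : α → Fm} (h : PT fun x => (f x).post) : PT f :=
  h.cast (fun x => x) (fun _ => rfl) (fun _ => rfl)

@[fun_prop] theorem PT.fvar {f : α → ℕ} (hf : PT f) : PT fun x => Fm.var (f x) :=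
  PT.ofPost (by unfold Fm.post; fun_prop)
@[fun_prop] theorem PT.fneg {f : α → Fm} (hf : PT f) : PT fun x => Fm.neg (f x) :=
  PT.ofPost (by unfold Fm.post; fun_prop)
@[fun_prop] theorem PT.fconj {f g : α → Fm} (hf : PT f) (hg : PT g) :
    PT fun x => Fm.conj (f x) (g x) := PT.ofPost (by unfold Fm.post; fun_prop)
@[fun_prop] theorem PT.fdisj {f g : α → Fm} (hf : PT f) (hg : PT g) :
    PT fun x => Fm.disj (f x) (g x) := PT.ofPost (by unfold Fm.post; fun_prop)

def Fm.tt : Fm := .disj (.var 0) (.neg (.var 0))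
def Fm.all (l : List Fm) : Fm := l.foldr .conj .tt
def Fm.any (l : List Fm) : Fm := l.foldr .disj (.neg .tt)

theorem Fm.post_all (l : List Fm) :
    (Fm.all l).post = l.flatMap Fm.post ++ Fm.tt.post ++ List.replicate l.length 1 := by
  induction l with
  | nil => simp [Fm.all]
  | cons a l ih =>
    simp only [Fm.all, List.foldr_cons, Fm.post] at ih ⊢
    simp [ih, List.replicate_succ']

theorem Fm.post_any (l : List Fm) :
    (Fm.any l).post = l.flatMap Fm.post ++ (Fm.neg .tt).post ++ List.replicate l.length 2 := by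
  induction l with
  | nil => simp [Fm.any]
  | cons a l ih =>
    simp only [Fm.any, List.foldr_cons, Fm.post] at ih ⊢
    simp [ih, List.replicate_succ']

@[fun_prop] theorem PT.fall {f : α → List Fm} (hf : PT f) : PT fun x => Fm.all (f x) :=
  PT.ofPost (by simp only [Fm.post_all]; fun_prop)
@[fun_prop] theorem PT.fany {f : α → List Fm} (hf : PT f) : PT fun x => Fm.any (f x) :=
  PT.ofPost (by simp only [Fm.post_any]; fun_prop)

@[simp] theorem Fm.eval_tt (σ : ℕ → Bool) : Fm.tt.eval σ = true := by simp [Fm.tt, Fm.eval]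
theorem Fm.eval_all (σ : ℕ → Bool) (l : List Fm) :
    (Fm.all l).eval σ = true ↔ ∀ a ∈ l, a.eval σ = true := by
  induction l with
  | nil => simp [Fm.all]
  | cons a l ih => simp only [Fm.all, List.foldr_cons, Fm.eval] at ih ⊢; simp [ih]
theorem Fm.eval_any (σ : ℕ → Bool) (l : List Fm) :
    (Fm.any l).eval σ = true ↔ ∃ a ∈ l, a.eval σ = true := by
  induction l with
  | nil => simp [Fm.any, Fm.eval]
  | cons a l ih => simp only [Fm.any, List.foldr_cons, Fm.eval] at ih ⊢; simp [ih]
theorem Fm.vars_all {l : List Fm} {a : Fm} (h : a ∈ l) {v : ℕ} (hv : v ∈ a.vars) :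
    v ∈ (Fm.all l).vars := by
  induction l with
  | nil => simp at h
  | cons b l ih =>
    simp only [Fm.all, List.foldr_cons, Fm.vars, List.mem_append] at ih ⊢
    rcases List.mem_cons.1 h with rfl | h
    · exact Or.inl hv
    · exact Or.inr (ih h)

theorem Fm.eval_ren (σ : ℕ → Bool) (π : ℕ → ℕ) (a : Fm) :
    (a.ren π).eval σ = a.eval fun v => σ (π v) := by
  induction a <;> simp_all [Fm.ren, Fm.eval]

theorem Fm.eval_congr {σ τ : ℕ → Bool} {a : Fm} (h : ∀ v ∈ a.vars, σ v = τ v) :
    a.eval σ = a.eval τ := by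
  induction a <;> simp_all [Fm.vars, Fm.eval, or_imp, forall_and]

theorem Fm.vars_post {a : Fm} {v : ℕ} : v ∈ a.vars ↔ v + 3 ∈ a.post := by
  induction a <;> simp_all [Fm.vars, Fm.post]

theorem Fm.vars_lt {a : Fm} {v : ℕ} (h : v ∈ a.vars) : v < sz a := by
  have := sz_mem (Fm.vars_post.1 h)
  have e : sz a = sz a.post := rfl
  simp at this; omega

def fstep (g : ℕ → Bool) (st : List Bool) (t : ℕ) : List Bool :=
  if t = 0 then (!st.headD false) :: st.tail
  else if t = 1 then (st.tail.headD false && st.headD false) :: st.tail.tail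
  else if t = 2 then (st.tail.headD false || st.headD false) :: st.tail.tail
  else g (t - 3) :: st

theorem fstep_post (g : ℕ → Bool) (a : Fm) :
    ∀ st, a.post.foldl (fstep g) st = a.eval g :: st := by
  induction a <;> simp_all [Fm.post, Fm.eval, fstep]

@[fun_prop] theorem PT.feval {f : α → Fm} {g : α → ℕ → Bool} (hf : PT f)
    (hg : PT fun p : α × ℕ => g p.1 p.2) : PT fun x => (f x).eval (g x) := by
  have h1 : PT fun p : α × List Bool × ℕ => g p.1 (p.2.2 - 3) :=
    hg.comp (g := fun p : α × List Bool × ℕ => (p.1, p.2.2 - 3)) (by fun_prop)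
  have := PT.foldl_add (l := fun x => (f x).post) (i := fun _ => ([] : List Bool))
    (g := fun x st t => fstep (g x) st t) (by fun_prop) (by fun_prop)
    (by unfold fstep; fun_prop) (fun _ _ => ()) 4 (by fun_prop) (fun x c b => by
      have h1 := sz_sublist (List.tail_sublist c)
      have h2 := sz_sublist (List.tail_sublist c.tail)
      have h3 := sz_bool
      unfold fstep
      split_ifs <;> simp only [sz_cons, sz_unit] <;> grind)
  exact (this.headD (PT.const false)).of_eq fun x => by simp [fstep_post]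

def Fm.lit (r : ℕ → ℕ) (l : Lit) : Fm := bif l.2 then .var (r l.1) else .neg (.var (r l.1))

theorem Fm.eval_cnf (σ : ℕ → Bool) (r : ℕ → ℕ) (φ : List (List Lit)) :
    (Fm.all (φ.map fun c => Fm.any (c.map (Fm.lit r)))).eval σ = true ↔ Sat (fun v => σ (r v)) φ := by
  have : ∀ l : Lit, (Fm.lit r l).eval σ = true ↔ σ (r l.1) = l.2 := by
    rintro ⟨v, _ | _⟩ <;> simp [Fm.lit, Fm.eval]
  simp only [Fm.eval_all, List.forall_mem_map, Fm.eval_any, Sat, ← this]
  simp only [List.mem_map, exists_exists_and_eq_and]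

end Pool.Agent.H11.PT
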