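import Mathlib

namespace Pool.Agent.H11.Mst1

open Finset Matrix

open Classical in
noncomputable def sk {V : Type} (Arc : V → V → Prop) : Matrix V V ℂ :=
  fun a b => if Arc a b then 1 else if Arc b a then -1 else 0

lemma sum_mul_range (φ : ℕ → ℕ) (d n : ℕ) :
    ∑ u ∈ range n, ∑ s ∈ range d, φ (u * d + s) = ∑ x ∈ range (n * d), φ x := by
  induction n with
  | zero => simp
  | succ n ih => rw [sum_range_succ, ih, Nat.succ_mul, sum_range_add]

def cnt (d m u v : ℕ) : ℕ := ∑ s ∈ range d, if (u * d + s) % m = v then 1 else 0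

lemma cnt_le (d m u v : ℕ) (h : d ≤ m) : cnt d m u v ≤ 1 := by
  rw [cnt, ← card_filter, card_le_one]
  intro s hs t ht
  rw [mem_filter, mem_range] at hs ht
  have : u * d + s ≡ u * d + t [MOD m] := hs.2.trans ht.2.symm
  exact Nat.ModEq.eq_of_lt_of_lt (Nat.ModEq.add_left_cancel' _ this) (by omega) (by omega)

lemma row (d m u : ℕ) (hm : 0 < m) : ∑ v : Fin m, cnt d m u v = d := by
  simp only [cnt]
  rw [sum_comm, sum_congr rfl (g := fun _ => 1)]
  · simp
  · intro s _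
    rw [sum_eq_single (⟨(u * d + s) % m, Nat.mod_lt _ hm⟩ : Fin m)]
    · simp
    · intro b _ hb
      exact if_neg fun e => hb (Fin.ext e.symm)
    · simp

lemma col (d m n d' v : ℕ) (h : n * d = d' * m) (hv : v < m) :
    ∑ u : Fin n, cnt d m u v = d' := by
  rw [Fin.sum_univ_eq_sum_range (fun u => cnt d m u v)]
  simp only [cnt]
  rw [sum_mul_range (fun x => if x % m = v then 1 else 0), h,
    ← sum_mul_range (fun x => if x % m = v then 1 else 0), sum_congr rfl (g := fun _ => 1)]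
  · simp
  · intro u _
    rw [sum_eq_single v]
    · rw [if_pos]; rw [add_comm, Nat.add_mul_mod_self_right, Nat.mod_eq_of_lt hv]
    · intro b hb hb'
      rw [if_neg]
      rwa [add_comm, Nat.add_mul_mod_self_right, Nat.mod_eq_of_lt (mem_range.1 hb)]
    · intro h; exact absurd (mem_range.2 hv) h

lemma blowup {I : Type} (n : I → ℕ) (hn : ∀ i, 0 < n i) (D : I → I → ℤ)
    (hs : ∀ i j, (n i : ℤ) * D i j = -(n j * D j i)) (hb : ∀ i j, |D i j| ≤ n j) :
    ∃ Arc : (Σ i, Fin (n i)) → (Σ i, Fin (n i)) → Prop, (∀ x y, Arc x y → ¬ Arc y x) ∧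
      ∀ x j, ∑ v : Fin (n j), sk Arc x ⟨j, v⟩ = (D x.1 j : ℂ) := by
  have sg : ∀ i j, 0 < D i j → D j i < 0 := by
    intro i j h
    have h1 := hs i j
    have h2 : (0 : ℤ) < n i := by exact_mod_cast hn i
    have h3 : (0 : ℤ) < n j := by exact_mod_cast hn j
    by_contra h4
    nlinarith [mul_pos h2 h, mul_nonneg h3.le (not_lt.1 h4)]
  have le : ∀ i j, (D i j).toNat ≤ n j := fun i j => by
    have := hb i j; have := le_abs_self (D i j); omega
  refine ⟨fun x y => 0 < D x.1 y.1 ∧ cnt (D x.1 y.1).toNat (n y.1) x.2 y.2 = 1,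
    fun x y h1 h2 => by have := sg _ _ h1.1; have := h2.1; omega, ?_⟩
  rintro ⟨i, u⟩ j
  simp only [sk]
  rcases lt_trichotomy 0 (D i j) with h | h | h
  · have e := congrArg (Nat.cast : ℕ → ℂ) (row (D i j).toNat (n j) u (hn j))
    have e2 : (((D i j).toNat : ℕ) : ℂ) = (D i j : ℂ) := by
      rw [← Int.cast_natCast, Int.toNat_of_nonneg h.le]
    rw [← e2, ← e]
    push_cast
    refine sum_congr rfl fun v _ => ?_
    have h1 := cnt_le (D i j).toNat (n j) u v (le i j)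
    have h2 := sg i j h
    by_cases c : cnt (D i j).toNat (n j) u v = 1
    · rw [if_pos ⟨h, c⟩, c]; simp
    · rw [if_neg fun x => c x.2, if_neg fun x => by have := x.1; omega,
        show cnt (D i j).toNat (n j) u v = 0 by omega]; simp
  · rw [← h, sum_eq_zero]
    · simp
    · intro v _
      rw [if_neg fun x => by have := x.1; omega,
        if_neg fun x => by have := sg _ _ x.1; omega]
  · have h0 : 0 < D j i := by
      have h1 := hs i j
      have h2 : (0 : ℤ) < n i := by exact_mod_cast hn i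
      have h3 : (0 : ℤ) < n j := by exact_mod_cast hn j
      by_contra h4
      nlinarith [mul_pos h2 (neg_pos.2 h), mul_nonneg h3.le (neg_nonneg.2 (not_lt.1 h4))]
    have e := congrArg (Nat.cast : ℕ → ℂ) (col (D j i).toNat (n i) (n j) (-D i j).toNat u (by
      have h1 := hs i j
      zify
      rw [Int.toNat_of_nonneg h0.le, Int.toNat_of_nonneg (by omega)]
      linarith) u.2)
    have e2 : (((-D i j).toNat : ℕ) : ℂ) = -(D i j : ℂ) := by
      rw [← Int.cast_natCast, Int.toNat_of_nonneg (by omega), Int.cast_neg]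
    rw [← neg_neg (D i j : ℂ), ← e2, ← e]
    push_cast
    rw [← sum_neg_distrib]
    refine sum_congr rfl fun v _ => ?_
    have h1 := cnt_le (D j i).toNat (n i) v u (le j i)
    rw [if_neg fun x => by have := x.1; omega]
    by_cases c : cnt (D j i).toNat (n i) v u = 1
    · rw [if_pos ⟨h0, c⟩, c]; simp
    · rw [if_neg fun x => c x.2, show cnt (D j i).toNat (n i) v u = 0 by omega]; simp

lemma ext_orth {E I : Type} [AddCommGroup E] [Module ℚ E] [FiniteDimensional ℚ E] [Fintype I]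
    (B : E →ₗ[ℚ] E →ₗ[ℚ] ℚ) (hs : ∀ x y, B x y = B y x) (hp : ∀ x, x ≠ 0 → 0 < B x x)
    (z : I → E) (ho : ∀ i j, i ≠ j → B (z i) (z j) = 0) (hz : ∀ i, 0 < B (z i) (z i)) :
    ∃ (k : ℕ) (Z : I ⊕ Fin k → E), (∀ i, Z (.inl i) = z i) ∧
      (∀ i j, i ≠ j → B (Z i) (Z j) = 0) ∧ (∀ i, 0 < B (Z i) (Z i)) ∧
      ∀ x, x = ∑ i, (B (Z i) x / B (Z i) (Z i)) • Z i := by
  classical
  let U : Submodule ℚ E := ⨅ i, LinearMap.ker (B (z i))
  have hU : ∀ x, x ∈ U ↔ ∀ i, B (z i) x = 0 := fun x => by simp [U]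
  obtain ⟨v, hv⟩ := LinearMap.BilinForm.exists_orthogonal_basis (K := ℚ) (V := U)
    (B := B.compl₁₂ U.subtype U.subtype) ⟨fun x y => hs _ _⟩
  have o : ∀ i j, i ≠ j → B (Sum.elim z (fun l => (v l : E)) i)
      (Sum.elim z (fun l => (v l : E)) j) = 0 := by
    rintro (i | i) (j | j) h
    · exact ho i j fun e => h (by rw [e])
    · exact (hU _).1 (v j).2 i
    · exact (hs _ _).trans ((hU _).1 (v i).2 j)
    · exact hv (fun e => h (by rw [e]) : i ≠ j)
  have p : ∀ i, 0 < B (Sum.elim z (fun l => (v l : E)) i) (Sum.elim z (fun l => (v l : E)) i) := by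
    rintro (i | i)
    · exact hz i
    · exact hp _ fun e => v.ne_zero i (Subtype.ext e)
  refine ⟨_, Sum.elim z (fun l => (v l : E)), fun _ => rfl, o, p, fun x => ?_⟩
  have hx : x - ∑ i, (B (z i) x / B (z i) (z i)) • z i ∈ U := by
    rw [hU]
    intro j
    rw [map_sub, map_sum, sum_eq_single j]
    · rw [map_smul, smul_eq_mul, div_mul_cancel₀ _ (hz j).ne', sub_self]
    · intro i _ h; rw [map_smul, ho j i h.symm, smul_zero]
    · simp
  have e := congrArg U.subtype (v.sum_repr ⟨_, hx⟩)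
  rw [map_sum] at e
  obtain ⟨c, hc⟩ : ∃ c : I ⊕ Fin (Module.finrank ℚ U) → ℚ,
      x = ∑ i, c i • Sum.elim z (fun l => (v l : E)) i := by
    refine ⟨Sum.elim (fun i => B (z i) x / B (z i) (z i)) (fun l => v.repr ⟨_, hx⟩ l), ?_⟩
    rw [Fintype.sum_sum_type]
    simp only [Sum.elim_inl, Sum.elim_inr]
    simp only [map_smul, Submodule.subtype_apply] at e
    rw [e]; abel
  refine hc.trans (sum_congr rfl fun j _ => ?_)
  congr 1
  rw [eq_div_iff (p j).ne']
  conv_rhs => rw [hc]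
  rw [map_sum, sum_eq_single j]
  · rw [map_smul, smul_eq_mul]
  · intro i _ h; rw [map_smul, o j i h.symm, smul_zero]
  · simp

lemma common {T : Type} [Fintype T] (f c : T → ℚ) :
    ∃ g : ℕ, 0 < g ∧ ∀ t, (∃ k : ℤ, (k : ℚ) = g * f t) ∧ c t ≤ g := by
  classical
  obtain ⟨N, hN⟩ := exists_nat_ge (∑ t, |c t|)
  have g0 : 0 < ∏ t, (f t).den := prod_pos fun t _ => (f t).den_pos
  refine ⟨(N + 1) * ∏ t, (f t).den, by positivity, fun t => ⟨?_, ?_⟩⟩
  · obtain ⟨r, hr⟩ : (f t).den ∣ ∏ t, (f t).den := dvd_prod_of_mem _ (mem_univ t)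
    refine ⟨(N + 1) * r * (f t).num, ?_⟩
    rw [hr]; push_cast
    rw [← Rat.mul_den_eq_num]; ring
  · have h1 : |c t| ≤ ∑ t, |c t| := single_le_sum (f := fun t => |c t|)
      (fun _ _ => abs_nonneg _) (mem_univ t)
    have h2 : N ≤ (N + 1) * ∏ t, (f t).den := by nlinarith
    have h3 : (N : ℚ) ≤ ((N + 1) * ∏ t, (f t).den : ℕ) := by exact_mod_cast h2
    linarith [le_abs_self (c t)]

lemma graph {E P : Type} [AddCommGroup E] [Module ℚ E] [FiniteDimensional ℚ E] [Fintype P]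
    (B : E →ₗ[ℚ] E →ₗ[ℚ] ℚ) (hs : ∀ x y, B x y = B y x) (hp : ∀ x, x ≠ 0 → 0 < B x x)
    (S : E →ₗ[ℚ] E) (hS : ∀ x y, B x (S y) = -B (S x) y) (a : P → E)
    (h1 : ∀ p, B (a p) (a p) = 1) (h2 : ∀ p q, p ≠ q → B (a p) (a q) = 0)
    (h3 : ∀ p q, B (a p) (S (a q)) = 0) (h4 : ∀ p q, p ≠ q → B (S (a p)) (S (a q)) = 0)
    (h5 : ∀ p, 0 < B (S (a p)) (S (a p))) :
    ∃ (V : Type) (_ : Fintype V) (_ : DecidableEq V) (Arc : V → V → Prop) (g : ℕ)
      (Φ : E →ₗ[ℚ] (V → ℂ)) (vtx : P → V), (∀ x y, Arc x y → ¬ Arc y x) ∧ 0 < g ∧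
      Function.Injective vtx ∧ (∀ x, sk Arc *ᵥ Φ x = (g : ℂ) • Φ (S x)) ∧
      (∀ p, Φ (a p) = Pi.single (vtx p) 1) ∧ ∀ p x, Φ x (vtx p) = B (a p) x := by
  classical
  obtain ⟨k, Z, Z0, o, pz, ex⟩ := ext_orth B hs hp (Sum.elim a fun p => S (a p))
    (by
      rintro (p | p) (q | q) h
      · exact h2 p q fun e => h (by rw [e])
      · exact h3 p q
      · exact (hs _ _).trans (h3 q p)
      · exact h4 p q fun e => h (by rw [e]))
    (by
      rintro (p | p)
      · simp [h1]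
      · exact h5 p)
  have Za : ∀ p, Z (.inl (.inl p)) = a p := fun p => Z0 _
  have Zy : ∀ p, Z (.inl (.inr p)) = S (a p) := fun p => Z0 _
  obtain ⟨g, g0, hg⟩ := common (T := (((P ⊕ P) ⊕ Fin k) × ((P ⊕ P) ⊕ Fin k)) ⊕ ((P ⊕ P) ⊕ Fin k))
    (Sum.elim (fun t => B (Z t.1) (S (Z t.2)) / B (Z t.1) (Z t.1)) fun i => B (Z i) (Z i))
    (Sum.elim (fun t => |B (Z t.1) (S (Z t.2)) / B (Z t.1) (Z t.1)| / B (Z t.2) (Z t.2)) 0)
  have gq : (0 : ℚ) < g := by exact_mod_cast g0
  obtain ⟨l, hl, hl'⟩ : ∃ l : (P ⊕ P) ⊕ Fin k → ℚ, (∀ p, l (.inl (.inl p)) = 1) ∧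
      ∀ i, (∀ p, i ≠ .inl (.inl p)) → l i = g :=
    ⟨fun i => if ∃ p, i = .inl (.inl p) then 1 else g, fun p => if_pos ⟨p, rfl⟩,
      fun i h => if_neg fun ⟨p, e⟩ => h p e⟩
  have cs : ∀ i : (P ⊕ P) ⊕ Fin k, (∃ p, i = .inl (.inl p)) ∨ ∀ p, i ≠ .inl (.inl p) :=
    fun i => (em _).imp id not_exists.1
  have l0 : ∀ i, 0 < l i := fun i => by
    rcases cs i with ⟨p, rfl⟩ | h
    · rw [hl]; exact one_pos
    · rw [hl' i h]; exact gq
  have hn : ∀ i, ∃ n : ℕ, (n : ℚ) = l i ^ 2 * B (Z i) (Z i) := fun i => by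
    rcases cs i with ⟨p, rfl⟩ | h
    · exact ⟨1, by rw [hl, Za, h1]; simp⟩
    · obtain ⟨r, hr⟩ := (hg (.inr i)).1
      have hr : (r : ℚ) = g * B (Z i) (Z i) := hr
      have r0 : 0 ≤ r := by
        have : (0 : ℚ) ≤ r := by rw [hr]; exact (mul_pos gq (pz i)).le
        exact_mod_cast this
      refine ⟨g * r.toNat, ?_⟩
      rw [hl' i h, Nat.cast_mul, ← Int.cast_natCast r.toNat, Int.toNat_of_nonneg r0, hr]; ring
  choose n hn using hn
  have n0 : ∀ i, 0 < n i := fun i => by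
    have : (0 : ℚ) < n i := by rw [hn]; exact mul_pos (pow_pos (l0 i) 2) (pz i)
    exact_mod_cast this
  have n1 : ∀ p, n (.inl (.inl p)) = 1 := fun p => by
    have := hn (.inl (.inl p))
    rw [hl, Za, h1, one_pow, one_mul] at this
    exact_mod_cast this
  have hD : ∀ i j, ∃ d : ℤ, (d : ℚ) = g * l j * B (Z i) (S (Z j)) / (l i * B (Z i) (Z i)) ∧
      |d| ≤ n j := by
    intro i j
    rcases cs i with ⟨p, rfl⟩ | h
    · by_cases e : j = .inl (.inr p)
      · subst e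
        refine ⟨-n (.inl (.inr p)), ?_, by simp⟩
        rw [hS, Za, hl, h1, ← Zy, Int.cast_neg, Int.cast_natCast, hn, hl' _ (by simp)]; ring
      · refine ⟨0, ?_, by simp⟩
        rw [hS, Za, ← Zy, o _ _ (Ne.symm e)]; simp
    · rcases cs j with ⟨q, rfl⟩ | h'
      · by_cases e : i = .inl (.inr q)
        · subst e
          refine ⟨1, ?_, by simp [n1]⟩
          have := pz (.inl (.inr q))
          rw [Za, hl, ← Zy, hl' _ h]; field_simp; simp
        · refine ⟨0, ?_, by simp⟩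
          rw [Za, ← Zy, o _ _ e]; simp
      · obtain ⟨⟨r, hr⟩, hc⟩ := hg (.inl (i, j))
        have hr : (r : ℚ) = g * (B (Z i) (S (Z j)) / B (Z i) (Z i)) := hr
        have hc : |B (Z i) (S (Z j)) / B (Z i) (Z i)| / B (Z j) (Z j) ≤ g := hc
        have := pz i
        refine ⟨r, by rw [hr, hl' i h, hl' j h']; field_simp, ?_⟩
        have : ((|r| : ℤ) : ℚ) ≤ ((n j : ℤ) : ℚ) := by
          rw [Int.cast_abs, hr, Int.cast_natCast, hn, hl' j h', abs_mul, abs_of_pos gq]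
          rw [div_le_iff₀ (pz j)] at hc
          nlinarith
        exact_mod_cast this
  choose D hD hD' using hD
  obtain ⟨Arc, asym, rs⟩ := blowup n n0 D (fun i j => by
    have : (((n i : ℤ) * D i j : ℤ) : ℚ) = ((-(n j * D j i) : ℤ) : ℚ) := by
      push_cast
      rw [hD, hD, hn, hn, hS (Z j), hs (S (Z j))]
      have := pz i; have := pz j; have := l0 i; have := l0 j
      field_simp
    exact_mod_cast this) hD'
  let Φ : E →ₗ[ℚ] ((Σ i, Fin (n i)) → ℂ) :=
    { toFun := fun x v => ((B (Z v.1) x / (l v.1 * B (Z v.1) (Z v.1)) : ℚ) : ℂ)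
      map_add' := fun x y => by funext v; simp [add_div]
      map_smul' := fun c x => by funext v; simp [Rat.smul_def, mul_div_assoc] }
  have hΦ : ∀ x v, Φ x v = ((B (Z v.1) x / (l v.1 * B (Z v.1) (Z v.1)) : ℚ) : ℂ) := fun _ _ => rfl
  refine ⟨Σ i, Fin (n i), inferInstance, inferInstance, Arc, g, Φ,
    fun p => ⟨.inl (.inl p), ⟨0, n0 _⟩⟩, asym, g0, ?_, ?_, ?_, ?_⟩
  · intro p q e
    simpa using congrArg Sigma.fst e
  · intro x
    funext v
    simp only [mulVec, dotProduct, Pi.smul_apply, smul_eq_mul, hΦ]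
    rw [Fintype.sum_sigma]
    simp only [← sum_mul, rs]
    have : ∑ j, (D v.1 j : ℚ) * (B (Z j) x / (l j * B (Z j) (Z j))) =
        g * (B (Z v.1) (S x) / (l v.1 * B (Z v.1) (Z v.1))) := by
      conv_rhs => rw [ex x]
      rw [map_sum, map_sum, sum_div, mul_sum]
      refine sum_congr rfl fun j _ => ?_
      have := pz v.1; have := pz j; have := l0 v.1; have := l0 j
      rw [hD, map_smul, map_smul, smul_eq_mul]; field_simp
    exact_mod_cast congrArg (Rat.cast : ℚ → ℂ) this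
  · intro p
    funext ⟨i, u⟩
    rw [hΦ]
    by_cases e : i = .inl (.inl p)
    · subst e
      have : u = ⟨0, n0 _⟩ := Fin.ext (by have := u.2; have := n1 p; simp only; omega)
      subst this
      simp [Za, hl, h1]
    · rw [Pi.single_eq_of_ne fun x => e (congrArg Sigma.fst x), ← Za, o _ _ e]; simp
  · intro p x
    rw [hΦ]; simp [Za, hl, h1]

end Pool.Agent.H11.Mst1
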