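import Mathlib
import Pool.Agent.H11.Mst1

namespace Pool.Agent.H11.Mst2

open Finset Matrix Polynomial Complex Pool.Agent.H11.Mst1

section
variable {V : Type} [Fintype V] [DecidableEq V]

set_option backward.isDefEq.respectTransparency false in
theorem hasSum_exp (A : Matrix V V ℂ) :
    HasSum (fun m : ℕ => ((m.factorial : ℂ)⁻¹) • A ^ m) (NormedSpace.exp A) :=
  open scoped Matrix.Norms.Operator in NormedSpace.exp_series_hasSum_exp' (𝕂 := ℂ) A

theorem hasSum_entry (A : Matrix V V ℂ) (u v : V) :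
    HasSum (fun m : ℕ => ((m.factorial : ℂ)⁻¹) * (A ^ m) u v) (NormedSpace.exp A u v) := by
  have h := hasSum_exp A
  have h1 := (Pi.hasSum.mp h) u
  have h2 := (Pi.hasSum.mp h1) v
  simpa using h2

theorem pow_eigen (A : Matrix V V ℂ) (x : V → ℂ) (s : ℂ) (h : A *ᵥ x = s • x) (m : ℕ) :
    (A ^ m) *ᵥ x = (s ^ m) • x := by
  induction m with
  | zero => simp
  | succ m ih =>
    rw [pow_succ, ← Matrix.mulVec_mulVec, h, Matrix.mulVec_smul, ih, smul_smul, pow_succ, mul_comm]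

theorem exp_eigen (A : Matrix V V ℂ) (x : V → ℂ) (s : ℂ) (h : A *ᵥ x = s • x) :
    (NormedSpace.exp A) *ᵥ x = (Complex.exp s) • x := by
  funext u
  have h1 : HasSum (fun m : ℕ => ∑ v, (((m.factorial : ℂ)⁻¹) * (A ^ m) u v) * x v)
      (∑ v, NormedSpace.exp A u v * x v) :=
    hasSum_sum (fun v _ => (hasSum_entry A u v).mul_right (x v))
  have h2 : HasSum (fun m : ℕ => (s ^ m / (m.factorial : ℂ)) * x u) (Complex.exp s * x u) := by
    rw [Complex.exp_eq_exp_ℂ]
    exact (NormedSpace.expSeries_div_hasSum_exp s).mul_right (x u)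
  have h3 : (fun m : ℕ => ∑ v, (((m.factorial : ℂ)⁻¹) * (A ^ m) u v) * x v)
      = (fun m : ℕ => (s ^ m / (m.factorial : ℂ)) * x u) := by
    funext m
    have h4 := congrFun (pow_eigen A x s h m) u
    simp only [Matrix.mulVec, dotProduct, Pi.smul_apply, smul_eq_mul] at h4
    have h5 : ∑ v, (((m.factorial : ℂ)⁻¹) * (A ^ m) u v) * x v
        = ((m.factorial : ℂ)⁻¹) * ∑ v, (A ^ m) u v * x v := by
      rw [Finset.mul_sum]
      exact Finset.sum_congr rfl (fun v _ => by ring)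
    rw [h5, h4]
    ring
  rw [h3] at h1
  have := h1.unique h2
  simpa [Matrix.mulVec, dotProduct] using this
end

def RQ (z : ℂ) : Prop := ∃ a b : ℚ, z = a + b * I

lemma RQ.mul {y z : ℂ} (h : RQ y) (h' : RQ z) : RQ (y * z) := by
  obtain ⟨a, b, rfl⟩ := h
  obtain ⟨c, d, rfl⟩ := h'
  exact ⟨a * c - b * d, a * d + b * c, by push_cast; linear_combination (b * d : ℂ) * I_mul_I⟩

lemma RQ.pow {y : ℂ} (h : RQ y) (n : ℕ) : RQ (y ^ n) := by
  induction n with
  | zero => exact ⟨1, 0, by simp⟩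
  | succ n ih => rw [pow_succ]; exact ih.mul h

lemma RQ.conj {y : ℂ} (h : RQ y) : RQ ((starRingEnd ℂ) y) := by
  obtain ⟨a, b, rfl⟩ := h
  exact ⟨a, -b, by simp⟩

def NN (P : ℚ[X]) : Prop := (∀ n, 0 ≤ P.coeff n) ∧ 0 < P.eval 1

lemma NN.mul {P Q : ℚ[X]} (h : NN P) (h' : NN Q) : NN (P * Q) :=
  ⟨fun n => by rw [coeff_mul]; exact sum_nonneg fun _ _ => mul_nonneg (h.1 _) (h'.1 _),
    by rw [eval_mul]; exact mul_pos h.2 h'.2⟩

lemma exists_neg (z : ℂ) (h : ‖z‖ = 1) (h1 : z ≠ 1) : ∃ k : ℕ, (z ^ k).re ≤ 0 := by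
  by_contra hc
  push Not at hc
  have sq : ∀ k : ℕ, (z ^ k).re ^ 2 + (z ^ k).im ^ 2 = 1 := fun k => by
    have := Complex.sq_norm (z ^ k)
    rw [norm_pow, h, one_pow, normSq_apply] at this
    nlinarith
  have r1 : 0 < 1 - z.re := by
    have := sq 1
    rw [pow_one] at this
    by_contra hh
    have e1 : z.re = 1 := by nlinarith [sq_nonneg z.im]
    have e2 : z.im = 0 := by rw [e1] at this; nlinarith
    exact h1 (Complex.ext e1 e2)
  have key : ∀ n : ℕ, 2 ^ n * (1 - z.re) ≤ 1 - (z ^ 2 ^ n).re := by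
    intro n
    induction n with
    | zero => simp
    | succ n ih =>
      have a := hc (2 ^ n)
      have b := sq (2 ^ n)
      rw [pow_succ 2 n, pow_succ 2 n, pow_mul, pow_two (z ^ 2 ^ n), mul_re]
      nlinarith [sq_nonneg (z ^ 2 ^ n).im]
  obtain ⟨n, hn⟩ := pow_unbounded_of_one_lt (1 / (1 - z.re)) (one_lt_two (α := ℝ))
  rw [div_lt_iff₀ r1] at hn
  have := key n
  have := hc (2 ^ n)
  linarith

lemma exists_H (z : ℂ) (h : ‖z‖ = 1) (h1 : z ≠ 1) (hq : RQ z) :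
    ∃ H : ℚ[X], NN H ∧ aeval z H = 0 := by
  obtain ⟨k, hk⟩ := exists_neg z h h1
  obtain ⟨a, b, e⟩ := hq.pow k
  have ha : a ≤ 0 := by
    rw [e] at hk
    have : (a : ℝ) ≤ 0 := by simpa using hk
    exact_mod_cast this
  have n1 : (a : ℂ) ^ 2 + (b : ℂ) ^ 2 = 1 := by
    have := Complex.sq_norm (z ^ k)
    rw [norm_pow, h, one_pow, normSq_apply, e] at this
    have h2 : (a : ℝ) ^ 2 + (b : ℝ) ^ 2 = 1 := by simp at this; nlinarith
    exact_mod_cast h2
  refine ⟨X ^ (2 * k) + C (-2 * a) * X ^ k + 1, ⟨fun n => ?_, ?_⟩, ?_⟩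
  · simp only [coeff_add, coeff_C_mul, coeff_X_pow, coeff_one]
    split_ifs <;> linarith
  · simp; linarith
  · simp only [map_add, map_mul, map_pow, aeval_X, aeval_C, map_one, mul_comm 2 k, pow_mul, e]
    simp only [eq_ratCast]
    push_cast
    linear_combination (b : ℂ) ^ 2 * I_mul_I - n1

lemma exists_F {T : Type} [Fintype T] (z : T → ℂ) (h : ∀ t, ‖z t‖ = 1) (h1 : ∀ t, z t ≠ 1)
    (hq : ∀ t, RQ (z t)) : ∃ (s : Finset ℕ) (w : ℕ → ℚ), (∀ j ∈ s, 0 < w j ∧ 0 < j) ∧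
      ∑ j ∈ s, w j = 1 ∧ ∀ t, ∑ j ∈ s, (w j : ℂ) * z t ^ j = 0 ∧
        ∑ j ∈ s, (w j : ℂ) * j * z t ^ j = 0 ∧ ∑ j ∈ s, (w j : ℂ) * j * j * z t ^ j = 0 := by
  classical
  choose H hH hz using fun t => exists_H (z t) (h t) (h1 t) (hq t)
  obtain ⟨G, hG, hGz⟩ : ∃ G : ℚ[X], NN G ∧ ∀ t, aeval (z t) G = 0 :=
    ⟨∏ t, H t, prod_induction _ NN (fun _ _ => NN.mul)
      ⟨fun n => by rw [coeff_one]; split_ifs <;> norm_num, by simp⟩ fun t _ => hH t,
      fun t => by rw [map_prod]; exact prod_eq_zero (mem_univ t) (hz t)⟩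
  obtain ⟨F, hF⟩ : ∃ F : ℚ[X], F = X * (G * G * G) := ⟨_, rfl⟩
  have nF : NN F := hF ▸ NN.mul ⟨fun n => by rw [coeff_X]; split_ifs <;> norm_num, by simp⟩
    ((hG.mul hG).mul hG)
  have d3 : G ^ 3 ∣ F := ⟨X, by rw [hF]; ring⟩
  have d2 : G ^ 2 ∣ X * derivative F :=
    Dvd.dvd.mul_left (pow_sub_one_dvd_derivative_of_pow_dvd d3) X
  have d1 : G ^ 1 ∣ X * derivative (X * derivative F) :=
    Dvd.dvd.mul_left (pow_sub_one_dvd_derivative_of_pow_dvd d2) X
  have th : ∀ (P : ℚ[X]) (j : ℕ), (X * derivative P).coeff j = P.coeff j * j := by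
    intro P j
    rcases j with _ | j
    · simp
    · rw [coeff_X_mul, coeff_derivative]; push_cast; ring
  have van : ∀ (P : ℚ[X]) (r : ℕ) (c : ℕ → ℚ), G ^ (r + 1) ∣ P →
      (∀ j, P.coeff j = F.coeff j * c j) → ∀ t,
      ∑ j ∈ F.support, ((F.coeff j / F.eval 1 : ℚ) : ℂ) * c j * z t ^ j = 0 := by
    rintro P r c ⟨Q, hQ⟩ hc t
    have e : aeval (z t) P = 0 := by rw [hQ, map_mul, map_pow, hGz]; simp
    rw [aeval_def, eval₂_eq_sum, Polynomial.sum_def, sum_subset (s₂ := F.support)] at e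
    · have : ∀ j ∈ F.support, ((F.coeff j / F.eval 1 : ℚ) : ℂ) * c j * z t ^ j =
          ((F.eval 1 : ℚ) : ℂ)⁻¹ * (algebraMap ℚ ℂ (P.coeff j) * z t ^ j) := by
        intro j _
        rw [hc, eq_ratCast]; push_cast; ring
      rw [sum_congr rfl this, ← mul_sum, e, mul_zero]
    · intro j hj
      rw [mem_support_iff] at hj ⊢
      intro e; rw [hc, e, zero_mul] at hj; exact hj rfl
    · intro j _ hj
      rw [notMem_support_iff.1 hj]; simp
  refine ⟨F.support, fun j => F.coeff j / F.eval 1, fun j hj => ⟨?_, ?_⟩, ?_, fun t => ⟨?_, ?_, ?_⟩⟩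
  · exact div_pos (lt_of_le_of_ne (nF.1 j) (mem_support_iff.1 hj).symm) nF.2
  · refine Nat.pos_of_ne_zero ?_
    rintro rfl
    exact mem_support_iff.1 hj (by rw [hF]; simp)
  · rw [← sum_div, div_eq_one_iff_eq nF.2.ne', eval_eq_sum, Polynomial.sum_def]; simp
  · simpa using van F 2 (fun _ => 1) d3 (fun j => by simp) t
  · simpa using van _ 1 (fun j => j) d2 (fun j => th F j) t
  · simpa [mul_assoc] using van _ 0 (fun j => j * j) d1 (fun j => by rw [th, th, mul_assoc]) t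

theorem main {P : Type} [Fintype P] (u : P → ℂ) (h : ∀ p, ‖u p‖ = 1)
    (hi : Function.Injective u) (hq : ∀ p, RQ (u p)) :
    ∃ (V : Type) (_ : Fintype V) (_ : DecidableEq V) (Arc : V → V → Prop) (g : ℕ)
      (vtx : P → V), (∀ x y, Arc x y → ¬ Arc y x) ∧ 0 < g ∧ Function.Injective vtx ∧
      (∀ p q (τ : ℝ), u q = exp (g * τ * I) * u p →
        NormedSpace.exp ((τ : ℂ) • sk Arc) *ᵥ Pi.single (vtx p) 1 = Pi.single (vtx q) 1) ∧
      ∃ (κ : ℕ) (w : ℂ) (X : V → ℂ), 0 < κ ∧ w ≠ 0 ∧ sk Arc *ᵥ X = (-(g * κ * I)) • X ∧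
        ∀ p, X (vtx p) = w * u p ^ κ := by
  classical
  have uu : ∀ p, u p * (starRingEnd ℂ) (u p) = 1 := fun p => by
    rw [mul_conj, normSq_eq_norm_sq, h]; simp
  obtain ⟨s, w, hw, hw1, hz⟩ := exists_F (T := {t : P × P // t.1 ≠ t.2})
    (fun t => u t.1.1 * (starRingEnd ℂ) (u t.1.2)) (fun t => by simp [h])
    (fun t e => t.2 (hi (by
      have := uu t.1.2
      linear_combination u t.1.2 * e - u t.1.1 * this))) fun t => (hq _).mul (hq _).conj
  choose c d hcd using fun p (j : ℕ) => (hq p).pow j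
  let B : ((s → ℚ) × (s → ℚ)) →ₗ[ℚ] ((s → ℚ) × (s → ℚ)) →ₗ[ℚ] ℚ :=
    LinearMap.mk₂ ℚ (fun x y => ∑ j : s, w j * (x.1 j * y.1 j + x.2 j * y.2 j))
      (fun x y z => by rw [← sum_add_distrib]; exact sum_congr rfl fun j _ => by simp; ring)
      (fun x y z => by rw [smul_eq_mul, mul_sum]; exact sum_congr rfl fun j _ => by simp; ring)
      (fun x y z => by rw [← sum_add_distrib]; exact sum_congr rfl fun j _ => by simp; ring)
      (fun x y z => by rw [smul_eq_mul, mul_sum]; exact sum_congr rfl fun j _ => by simp; ring)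
  have hB : ∀ x y, B x y = ∑ j : s, w j * (x.1 j * y.1 j + x.2 j * y.2 j) := fun _ _ => rfl
  let S : ((s → ℚ) × (s → ℚ)) →ₗ[ℚ] ((s → ℚ) × (s → ℚ)) :=
    { toFun := fun x => (fun j => -((j : ℕ) * x.2 j), fun j => (j : ℕ) * x.1 j)
      map_add' := fun x y => by ext j <;> simp <;> ring
      map_smul' := fun c x => by ext j <;> simp <;> ring }
  have hS : ∀ x, S x = (fun j : s => -(((j : ℕ) : ℚ) * x.2 j), fun j : s => (j : ℕ) * x.1 j) :=
    fun _ => rfl
  let a : P → (s → ℚ) × (s → ℚ) := fun p => (fun j => c p j, fun j => d p j)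
  have pw : ∀ p q (j : ℕ), (u p * (starRingEnd ℂ) (u q)) ^ j =
      ((c p j * c q j + d p j * d q j : ℚ) : ℂ) + ((d p j * c q j - c p j * d q j : ℚ) : ℂ) * I := by
    intro p q j
    rw [mul_pow, ← map_pow, hcd, hcd]
    simp only [map_add, map_mul, conj_I, map_ratCast]
    push_cast
    linear_combination (-(d p j * d q j) : ℂ) * I_mul_I
  have one : ∀ p (j : ℕ), c p j * c p j + d p j * d p j = 1 := by
    intro p j
    have := congrArg re (pw p p j)
    rw [uu, one_pow] at this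
    simp only [one_re, add_re, ratCast_re, mul_re, I_re, I_im, ratCast_im, mul_zero,
      zero_mul, sub_zero, add_zero] at this
    exact_mod_cast this.symm
  have sp : ∀ (α β γ : ℕ → ℚ), ∑ j ∈ s, (γ j : ℂ) * (α j + β j * I) = 0 →
      ∑ j : s, γ j * α j = 0 ∧ ∑ j : s, γ j * β j = 0 := by
    intro α β γ e
    rw [sum_coe_sort s fun j => γ j * α j, sum_coe_sort s fun j => γ j * β j]
    have e1 := congrArg re e
    have e2 := congrArg im e
    rw [re_sum] at e1; rw [im_sum] at e2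
    simp at e1 e2
    exact ⟨by exact_mod_cast e1, by exact_mod_cast e2⟩
  have pos : ∀ x, x ≠ 0 → 0 < B x x := by
    intro x hx
    rw [hB]
    have nn : ∀ j : s, 0 ≤ w j * (x.1 j * x.1 j + x.2 j * x.2 j) := fun j =>
      mul_nonneg (hw j j.2).1.le (add_nonneg (mul_self_nonneg _) (mul_self_nonneg _))
    refine lt_of_le_of_ne (sum_nonneg fun j _ => nn j) fun e => hx ?_
    have z := (sum_eq_zero_iff_of_nonneg fun j _ => nn j).1 e.symm
    have z' : ∀ j : s, x.1 j = 0 ∧ x.2 j = 0 := fun j =>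
      mul_self_add_mul_self_eq_zero.1
        ((mul_eq_zero.1 (z j (mem_univ j))).resolve_left (hw j j.2).1.ne')
    ext j
    · exact (z' j).1
    · exact (z' j).2
  obtain ⟨j0, hj0⟩ : s.Nonempty := by
    rw [nonempty_iff_ne_empty]; rintro rfl; simp at hw1
  obtain ⟨V, i1, i2, Arc, g, Φ, vtx, asym, g0, inj, hA, hΦ, hv⟩ := graph B
    (fun x y => by rw [hB, hB]; exact sum_congr rfl fun j _ => by ring) pos S
    (fun x y => by
      rw [hB, hB, hS, hS, ← sum_neg_distrib]; exact sum_congr rfl fun j _ => by simp only; ring) a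
    (fun p => by
      rw [hB]; simp only [a, one, mul_one]; rw [sum_coe_sort s w, hw1])
    (fun p q hpq => by
      have := (hz ⟨(p, q), hpq⟩).1
      simp only [pw] at this
      exact (sp _ _ w this).1)
    (fun p q => by
      by_cases hpq : p = q
      · subst hpq
        rw [hB, hS]; exact sum_eq_zero fun j _ => by simp only [a]; ring
      · have := (hz ⟨(p, q), hpq⟩).2.1
        simp only [pw] at this
        have e := (sp (fun j => c p j * c q j + d p j * d q j)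
          (fun j => d p j * c q j - c p j * d q j) (fun j => w j * j)
          (by simpa only [Rat.cast_mul (w _), Rat.cast_natCast] using this)).2
        rw [hB, hS, ← e]; exact sum_congr rfl fun j _ => by simp only [a]; ring)
    (fun p q hpq => by
      have := (hz ⟨(p, q), hpq⟩).2.2
      simp only [pw] at this
      have e := (sp (fun j => c p j * c q j + d p j * d q j)
        (fun j => d p j * c q j - c p j * d q j) (fun j => w j * j * j)
        (by simpa only [Rat.cast_mul (w _ * _), Rat.cast_mul (w _), Rat.cast_natCast] using this)).1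
      rw [hB, hS, hS, ← e]; exact sum_congr rfl fun j _ => by simp only [a]; ring)
    (fun p => pos _ fun e => by
      rw [hS] at e
      have e1 := congrFun (congrArg Prod.fst e) ⟨j0, hj0⟩
      have e2 := congrFun (congrArg Prod.snd e) ⟨j0, hj0⟩
      have := one p j0
      have j1 : (j0 : ℚ) ≠ 0 := by exact_mod_cast (hw j0 hj0).2.ne'
      simp [a, j1] at e1 e2
      rw [e1, e2] at this
      simp at this)
  let Cv : s → V → ℂ := fun j => Φ (Pi.single j 1, 0)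
  let Sv : s → V → ℂ := fun j => Φ (0, Pi.single j 1)
  have aC : ∀ j : s, sk Arc *ᵥ Cv j = ((g : ℂ) * (j : ℕ)) • Sv j := by
    intro j
    have : S (Pi.single j 1, 0) = ((j : ℕ) : ℚ) • ((0 : s → ℚ), (Pi.single j 1 : s → ℚ)) := by
      rw [hS]; ext i
      · simp
      · by_cases e : i = j <;> simp [e]
    simp only [Cv, Sv]
    rw [hA, this, map_smul]
    funext v
    simp only [Pi.smul_apply, smul_eq_mul, Rat.smul_def, Rat.cast_neg, Rat.cast_natCast]; ring
  have aS : ∀ j : s, sk Arc *ᵥ Sv j = (-((g : ℂ) * (j : ℕ))) • Cv j := by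
    intro j
    have : S (0, Pi.single j 1) = (-((j : ℕ) : ℚ)) • ((Pi.single j 1 : s → ℚ), (0 : s → ℚ)) := by
      rw [hS]; ext i
      · by_cases e : i = j <;> simp [e]
      · simp
    simp only [Cv, Sv]
    rw [hA, this, map_smul]
    funext v
    simp only [Pi.smul_apply, smul_eq_mul, Rat.smul_def, Rat.cast_neg, Rat.cast_natCast]; ring
  have eX : ∀ j : s, sk Arc *ᵥ (Cv j - I • Sv j) = ((g : ℂ) * (j : ℕ) * I) • (Cv j - I • Sv j) := by
    intro j
    rw [mulVec_sub, mulVec_smul, aC, aS]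
    funext v; simp only [Pi.sub_apply, Pi.smul_apply, smul_eq_mul]
    linear_combination ((g : ℂ) * (j : ℕ) * Sv j v) * I_mul_I
  have eY : ∀ j : s, sk Arc *ᵥ (Cv j + I • Sv j) =
      (-((g : ℂ) * (j : ℕ) * I)) • (Cv j + I • Sv j) := by
    intro j
    rw [mulVec_add, mulVec_smul, aC, aS]
    funext v; simp only [Pi.add_apply, Pi.smul_apply, smul_eq_mul]
    linear_combination ((g : ℂ) * (j : ℕ) * Sv j v) * I_mul_I
  have dec : ∀ p, (Pi.single (vtx p) 1 : V → ℂ) = ∑ j : s, ((u p ^ (j : ℕ) / 2) • (Cv j - I • Sv j) +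
      ((starRingEnd ℂ) (u p ^ (j : ℕ)) / 2) • (Cv j + I • Sv j)) := by
    intro p
    have : a p = ∑ j : s, (c p j • ((Pi.single j 1 : s → ℚ), (0 : s → ℚ)) +
        d p j • ((0 : s → ℚ), (Pi.single j 1 : s → ℚ))) := by
      ext i <;> simp [a, Prod.fst_sum, Prod.snd_sum, Finset.sum_apply, Pi.single_apply]
    rw [← hΦ, this, map_sum]
    refine sum_congr rfl fun j _ => ?_
    rw [map_add, map_smul, map_smul, hcd]
    funext v
    simp only [Cv, Sv, Pi.add_apply, Pi.sub_apply, Pi.smul_apply, smul_eq_mul, Rat.smul_def,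
      map_add, map_mul, conj_I, map_ratCast]
    linear_combination ((d p j : ℂ) * Φ (0, Pi.single j 1) v) * I_mul_I
  refine ⟨V, i1, i2, Arc, g, vtx, asym, g0, inj, fun p q τ e => ?_, j0, w j0,
    Cv ⟨j0, hj0⟩ + I • Sv ⟨j0, hj0⟩, (hw j0 hj0).2, by exact_mod_cast (hw j0 hj0).1.ne',
    eY ⟨j0, hj0⟩, fun p => ?_⟩
  · rw [dec p, dec q, mulVec_sum]
    refine sum_congr rfl fun j _ => ?_
    rw [mulVec_add, mulVec_smul, mulVec_smul,
      exp_eigen _ _ (τ * ((g : ℂ) * (j : ℕ) * I)) (by rw [smul_mulVec, eX, smul_smul]),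
      exp_eigen _ _ (τ * -((g : ℂ) * (j : ℕ) * I)) (by rw [smul_mulVec, eY, smul_smul]),
      smul_smul, smul_smul, e, mul_pow, ← exp_nat_mul, map_mul, ← Complex.exp_conj]
    simp only [map_mul, map_natCast, conj_ofReal, conj_I]
    congr 2
    · rw [show (τ : ℂ) * ((g : ℂ) * (j : ℕ) * I) = (j : ℕ) * (g * τ * I) by ring]; ring
    · rw [show (τ : ℂ) * -((g : ℂ) * (j : ℕ) * I) = (j : ℕ) * (g * τ * -I) by ring]; ring
  · simp only [Cv, Sv, Pi.add_apply, Pi.smul_apply, smul_eq_mul, hv, hB, hcd]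
    simp [a, Pi.single_apply]
    ring

noncomputable def ζ : ℂ := (3 + 4 * I) / 5

lemma ζ_norm : ‖ζ‖ = 1 := by
  have : ‖ζ‖ ^ 2 = 1 := by rw [Complex.sq_norm, normSq_apply]; simp [ζ]; norm_num
  nlinarith [norm_nonneg ζ]

lemma ζ_RQ : RQ ζ := ⟨3 / 5, 4 / 5, by simp [ζ]; ring⟩

lemma ζ_ne (n : ℕ) : ζ ^ (n + 1) ≠ 1 := by
  have key : ∀ n : ℕ, ∃ a b : ℤ, (3 + 4 * I : ℂ) ^ (n + 1) = a + b * I ∧ a % 5 = 3 ∧ b % 5 = 4 := by
    intro n
    induction n with
    | zero => exact ⟨3, 4, by simp, rfl, rfl⟩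
    | succ n ih =>
      obtain ⟨a, b, e, h1, h2⟩ := ih
      refine ⟨3 * a - 4 * b, 4 * a + 3 * b, ?_, by omega, by omega⟩
      rw [pow_succ, e]; push_cast
      linear_combination (4 * b : ℂ) * I_mul_I
  obtain ⟨a, b, e, -, h2⟩ := key n
  intro h
  rw [ζ, div_pow, e, div_eq_one_iff_eq (pow_ne_zero _ (by norm_num))] at h
  have := congrArg im h
  rw [show (5 : ℂ) ^ (n + 1) = ((5 ^ (n + 1) : ℝ) : ℂ) by push_cast; rfl, ofReal_im] at this
  simp at this
  omega

lemma ζ_inj : Function.Injective fun n : ℕ => ζ ^ n := by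
  have z0 : ζ ≠ 0 := fun e => by simpa [e] using ζ_norm
  have key : ∀ p q : ℕ, p < q → ζ ^ p ≠ ζ ^ q := by
    intro p q h e
    obtain ⟨r, rfl⟩ := Nat.exists_eq_add_of_lt h
    rw [add_assoc, pow_add] at e
    exact ζ_ne r (mul_left_cancel₀ (pow_ne_zero p z0) (e.symm.trans (mul_one _).symm))
  intro p q e
  rcases lt_trichotomy p q with h | h | h
  · exact absurd e (key _ _ h)
  · exact h
  · exact absurd e.symm (key _ _ h)

theorem main2 (m : ℕ) :
    ∃ (V : Type) (_ : Fintype V) (_ : DecidableEq V) (Arc : V → V → Prop)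
      (vtx : Fin m → V), (∀ x y, Arc x y → ¬ Arc y x) ∧ Function.Injective vtx ∧
      (∀ p q, ∃ τ : ℝ,
        NormedSpace.exp ((τ : ℂ) • sk Arc) *ᵥ Pi.single (vtx p) 1 = Pi.single (vtx q) 1) ∧
      ∃ (κ : ℕ) (w μ : ℂ) (X : V → ℂ), 0 < κ ∧ w ≠ 0 ∧ sk Arc *ᵥ X = μ • X ∧
        ∀ p, X (vtx p) = w * (ζ ^ p.val) ^ κ := by
  obtain ⟨V, i1, i2, Arc, g, vtx, asym, g0, inj, h1, κ, w, X, h2⟩ :=
    main (fun p : Fin m => ζ ^ p.val) (fun p => by simp [ζ_norm])
      (fun p q e => Fin.ext (ζ_inj e)) fun p => ζ_RQ.pow _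
  refine ⟨V, i1, i2, Arc, vtx, asym, inj, fun p q => ?_, κ, w, _, X, h2⟩
  have z0 : ζ ≠ 0 := fun e => by simpa [e] using ζ_norm
  refine ⟨arg (ζ ^ q.val / ζ ^ p.val) / g, h1 p q _ ?_⟩
  have e := norm_mul_exp_arg_mul_I (ζ ^ q.val / ζ ^ p.val)
  have g1 : (g : ℂ) ≠ 0 := by exact_mod_cast g0.ne'
  rw [norm_div, norm_pow, norm_pow, ζ_norm] at e
  push_cast
  rw [mul_div_cancel₀ _ g1]
  simp only [one_pow, div_one, ofReal_one, one_mul] at e
  rw [e, div_mul_cancel₀ _ (pow_ne_zero _ z0)]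

end Pool.Agent.H11.Mst2
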