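import Mathlib
import Pool.Agent.H11.Mst2

namespace Pool.Agent.H11.Fr

open Finset Matrix Complex Pool.Agent.H11.Mst1

lemma ublow {I : Type} [LinearOrder I] [Fintype I] (n : I → ℕ) (hn : ∀ i, 0 < n i)
    (D : I → I → ℕ) (hs : ∀ i j, n i * D i j = D j i * n j) (hb : ∀ i j, D i j ≤ n j)
    (h0 : ∀ i, D i i = 0) :
    ∃ (G : SimpleGraph (Σ i, Fin (n i))) (_ : DecidableRel G.Adj), ∀ f : I → ℝ,
      (G.adjMatrix ℝ *ᵥ fun v => f v.1) = fun x => ∑ j, (D x.1 j : ℝ) * f j := by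
  classical
  let G : SimpleGraph (Σ i, Fin (n i)) :=
    { Adj := fun x y => (x.1 < y.1 ∧ cnt (D x.1 y.1) (n y.1) x.2 y.2 = 1) ∨
        (y.1 < x.1 ∧ cnt (D y.1 x.1) (n x.1) y.2 x.2 = 1)
      symm := ⟨fun x y h => h.symm⟩
      loopless := ⟨fun x h => by simp at h⟩ }
  refine ⟨G, Classical.decRel _, fun f => ?_⟩
  funext ⟨i, u⟩
  simp only [mulVec, dotProduct, SimpleGraph.adjMatrix_apply]
  rw [Fintype.sum_sigma]
  refine sum_congr rfl fun j _ => ?_
  simp only [← sum_mul]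
  congr 1
  rcases lt_trichotomy i j with h | h | h
  · rw [← row (D i j) (n j) u (hn j)]
    push_cast
    refine sum_congr rfl fun v _ => ?_
    have h1 := cnt_le (D i j) (n j) u v (hb i j)
    by_cases c : cnt (D i j) (n j) u v = 1
    · rw [if_pos (Or.inl ⟨h, c⟩), c]; simp
    · rw [if_neg, show cnt (D i j) (n j) u v = 0 by omega]
      · simp
      · rintro (x | x)
        · exact c x.2
        · exact lt_asymm h x.1
  · subst h
    rw [h0, sum_eq_zero]
    · simp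
    · intro v _
      rw [if_neg]
      rintro (x | x) <;> exact lt_irrefl _ x.1
  · rw [← col (D j i) (n i) (n j) (D i j) u (hs j i) u.2]
    push_cast
    refine sum_congr rfl fun v _ => ?_
    have h1 := cnt_le (D j i) (n i) v u (hb j i)
    by_cases c : cnt (D j i) (n i) v u = 1
    · rw [if_pos (Or.inr ⟨h, c⟩), c]; simp
    · rw [if_neg, show cnt (D j i) (n i) v u = 0 by omega]
      · simp
      · rintro (x | x)
        · exact lt_asymm h x.1
        · exact c x.2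

def nn : Fin 10 → ℕ :=
  ![1, 1, 42875, 42875, 42875, 42875, 1457750, 1457750, 1457750, 1457750]

def DD : Fin 10 → Fin 10 → ℕ := ![![0, 0, 42875, 42875, 0, 0, 0, 0, 0, 0],
    ![0, 0, 0, 0, 42875, 42875, 0, 0, 0, 0],
    ![1, 0, 0, 838, 390, 0, 1632, 0, 0, 0],
    ![1, 0, 838, 0, 0, 390, 0, 1632, 0, 0],
    ![0, 1, 390, 0, 0, 58, 0, 0, 1632, 0],
    ![0, 1, 0, 390, 58, 0, 0, 0, 0, 1632],
    ![0, 0, 48, 0, 0, 0, 0, 1297, 65, 0],
    ![0, 0, 0, 48, 0, 0, 1297, 0, 0, 65],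
    ![0, 0, 0, 0, 48, 0, 65, 0, 0, 1167],
    ![0, 0, 0, 0, 0, 48, 0, 65, 1167, 0]]

def PP : Fin 2 → Fin 6 → Fin 10 → ℚ := ![![![63/160, 13/80, -149/392000, -149/392000, -13/78400, -13/78400, 3/196000, 3/196000, 0, 0],
    ![3/40, -1/10, 41/98000, 41/98000, -3/19600, -3/19600, -1/24500, -1/24500, 0, 0],
    ![1/32, -1/16, -3/78400, -3/78400, 1/3136, 1/3136, 1/39200, 1/39200, 0, 0],
    ![63/160, 13/80, -149/392000, -149/392000, -13/78400, -13/78400, 3/196000, 3/196000, 0, 0],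
    ![3/40, -1/10, 41/98000, 41/98000, -3/19600, -3/19600, -1/24500, -1/24500, 0, 0],
    ![1/32, -1/16, -3/78400, -3/78400, 1/3136, 1/3136, 1/39200, 1/39200, 0, 0]],
    ![![13/80, 11/160, -13/78400, -13/78400, -19/392000, -19/392000, 0, 0, 3/196000, 3/196000],
    ![-1/10, 11/40, -3/19600, -3/19600, 71/98000, 71/98000, 0, 0, -1/24500, -1/24500],
    ![-1/16, 5/32, 1/3136, 1/3136, -53/78400, -53/78400, 0, 0, 1/39200, 1/39200],
    ![13/80, 11/160, -13/78400, -13/78400, -19/392000, -19/392000, 0, 0, 3/196000, 3/196000],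
    ![-1/10, 11/40, -3/19600, -3/19600, 71/98000, 71/98000, 0, 0, -1/24500, -1/24500],
    ![-1/16, 5/32, 1/3136, 1/3136, -53/78400, -53/78400, 0, 0, 1/39200, 1/39200]]]

def QQ : Fin 2 → Fin 6 → Fin 10 → ℚ := ![![![89/320, 37/320, -107/392000, -107/392000, -3/28000, -3/28000, 3/392000, 3/392000, 3/392000, 3/392000],
    ![-1/80, 7/80, 13/98000, 13/98000, 1/3500, 1/3500, -1/49000, -1/49000, -1/49000, -1/49000],
    ![-1/64, 3/64, 11/78400, 11/78400, -1/5600, -1/5600, 1/78400, 1/78400, 1/78400, 1/78400],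
    ![-89/320, -37/320, 107/392000, 107/392000, 3/28000, 3/28000, -3/392000, -3/392000, -3/392000, -3/392000],
    ![1/80, -7/80, -13/98000, -13/98000, -1/3500, -1/3500, 1/49000, 1/49000, 1/49000, 1/49000],
    ![1/64, -3/64, -11/78400, -11/78400, 1/5600, 1/5600, -1/78400, -1/78400, -1/78400, -1/78400]],
    ![![37/320, 3/64, -3/28000, -3/28000, -23/392000, -23/392000, 3/392000, 3/392000, -3/392000, -3/392000],
    ![7/80, -3/16, 1/3500, 1/3500, -43/98000, -43/98000, -1/49000, -1/49000, 1/49000, 1/49000],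
    ![3/64, -7/64, -1/5600, -1/5600, 39/78400, 39/78400, 1/78400, 1/78400, -1/78400, -1/78400],
    ![-37/320, -3/64, 3/28000, 3/28000, 23/392000, 23/392000, -3/392000, -3/392000, 3/392000, 3/392000],
    ![-7/80, 3/16, -1/3500, -1/3500, 43/98000, 43/98000, 1/49000, 1/49000, -1/49000, -1/49000],
    ![-3/64, 7/64, 1/5600, 1/5600, -39/78400, -39/78400, -1/78400, -1/78400, 1/78400, 1/78400]]]


def ββ : Fin 6 → ℚ := ![-455, 245, 665, 455, -245, -665]

def sg : Fin 6 → ℚ := ![1, 1, 1, -1, -1, -1]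

def cc : Fin 2 → Fin 10 := ![0, 1]

def TT : Fin 2 → Fin 2 → ℚ := ![![1 / 2, 1 / 2], ![1 / 2, -1 / 2]]

lemma f1 : ∀ s k i, ∑ j, (DD i j : ℚ) * PP s k j = 560 * PP s k i + 2 * ββ k * QQ s k i := by
  decide +kernel

lemma f2 : ∀ s k i, ∑ j, (DD i j : ℚ) * QQ s k j = 560 * QQ s k i + ββ k * PP s k i := by
  decide +kernel

lemma f3 : ∀ s i, ∑ k, PP s k i = (if i = cc s then 1 else 0) ∧ ∑ k, QQ s k i = 0 ∧
    ∑ k, sg k * PP s k i = 0 ∧
    ∑ k, sg k * QQ s k i = (if i = 0 then TT s 0 else 0) + if i = 1 then TT s 1 else 0 := by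
  decide +kernel

noncomputable def θ (k : Fin 6) : ℝ := 560 + ββ k * √2

noncomputable def τ : ℝ := Real.pi / (70 * √2)

lemma τ_pos : 0 < τ := by unfold τ; positivity

lemma θ_inj : Function.Injective θ := by
  intro k l e
  have : (ββ k : ℝ) = ββ l := mul_right_cancel₀ (by positivity : √2 ≠ 0) (add_left_cancel e)
  have h : ββ k = ββ l := by exact_mod_cast this
  exact (by decide +kernel : ∀ k l, ββ k = ββ l → k = l) k l h

lemma phase (k : Fin 6) : exp (I * τ * θ k) = exp (I * τ * 560) * -I * sg k := by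
  have r0 : ((√2 : ℝ) : ℂ) ≠ 0 := by exact_mod_cast (by positivity : √2 ≠ 0)
  have e : I * τ * θ k = I * τ * 560 + (ββ k / 35 : ℚ) * (Real.pi / 2 * I) := by
    unfold τ θ; push_cast; field_simp; ring
  have g : ∀ (m : ℤ), exp (((4 * m + 3 : ℤ) : ℂ) * (Real.pi / 2 * I)) = -I := by
    intro m
    rw [exp_int_mul, exp_pi_div_two_mul_I, zpow_add₀ I_ne_zero, _root_.zpow_mul]
    simp [zpow_ofNat, pow_succ]
  have g' : ∀ (m : ℤ), exp (((4 * m + 1 : ℤ) : ℂ) * (Real.pi / 2 * I)) = I := by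
    intro m
    rw [exp_int_mul, exp_pi_div_two_mul_I, zpow_add₀ I_ne_zero, _root_.zpow_mul]
    simp [zpow_ofNat, pow_succ]
  rw [e, exp_add, mul_assoc (exp (I * τ * 560))]
  congr 1
  fin_cases k
  · have := g (-4); norm_num [ββ, sg] at this ⊢; exact this
  · have := g 1; norm_num [ββ, sg] at this ⊢; exact this
  · have := g 4; norm_num [ββ, sg] at this ⊢; exact this
  · have := g' 3; norm_num [ββ, sg] at this ⊢; exact this
  · have := g' (-2); norm_num [ββ, sg] at this ⊢; exact this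
  · have := g' (-5); norm_num [ββ, sg] at this ⊢; exact this

theorem main : ∃ (V : Type) (_ : Fintype V) (_ : DecidableEq V) (G : SimpleGraph V)
    (_ : DecidableRel G.Adj) (a : Fin 2 → V) (y : Fin 2 → Fin 6 → V → ℝ), a 0 ≠ a 1 ∧
    (∀ s k, G.adjMatrix ℝ *ᵥ y s k = θ k • y s k) ∧ (∀ s, ∑ k, y s k = Pi.single (a s) 1) ∧
    (∀ s k t, y s k (a t) = PP s k (cc t) + QQ s k (cc t) * √2) ∧
    ∀ s, NormedSpace.exp ((I * τ) • G.adjMatrix ℂ) *ᵥ Pi.single (a s) 1 =
      (exp (I * τ * 560) * -I * (√2 : ℝ) * TT s 0) • (Pi.single (a 0) 1 : V → ℂ) +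
      (exp (I * τ * 560) * -I * (√2 : ℝ) * TT s 1) • (Pi.single (a 1) 1 : V → ℂ) := by
  obtain ⟨n, hn, n1, G, iG, hG⟩ : ∃ n : Fin 10 → ℕ, (∀ i, 0 < n i) ∧ (∀ s, n (cc s) = 1) ∧
      ∃ (G : SimpleGraph (Σ i, Fin (n i))) (_ : DecidableRel G.Adj), ∀ f : Fin 10 → ℝ,
      (G.adjMatrix ℝ *ᵥ fun v => f v.1) = fun x => ∑ j, (DD x.1 j : ℝ) * f j :=
    ⟨nn, by decide, by decide, ublow nn (by decide) DD (by decide +kernel) (by decide +kernel)
      (by decide +kernel)⟩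
  have rr : √2 * √2 = 2 := Real.mul_self_sqrt (by norm_num)
  let a : Fin 2 → Σ i, Fin (n i) := fun s => ⟨cc s, ⟨0, hn _⟩⟩
  have ha : ∀ s (v : Σ i, Fin (n i)), v = a s ↔ v.1 = cc s := by
    rintro s ⟨i, u⟩
    refine ⟨fun e => congrArg Sigma.fst e, ?_⟩
    rintro rfl
    have : u = ⟨0, hn _⟩ := Fin.ext (by have := u.2; have := n1 s; simp only; omega)
    subst this; rfl
  let y : Fin 2 → Fin 6 → (Σ i, Fin (n i)) → ℝ := fun s k v => PP s k v.1 + QQ s k v.1 * √2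
  have h1 : ∀ s k, G.adjMatrix ℝ *ᵥ y s k = θ k • y s k := by
    intro s k
    refine (hG fun i => PP s k i + QQ s k i * √2).trans ?_
    funext x
    have e1 := congrArg (Rat.cast : ℚ → ℝ) (f1 s k x.1)
    have e2 := congrArg (Rat.cast : ℚ → ℝ) (f2 s k x.1)
    push_cast at e1 e2
    simp only [mul_add, sum_add_distrib, ← mul_assoc, ← sum_mul, e1, e2, Pi.smul_apply,
      smul_eq_mul, y, θ]
    linear_combination (-(ββ k : ℝ) * QQ s k x.1) * rr
  have h2 : ∀ s, ∑ k, y s k = Pi.single (a s) 1 := by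
    intro s
    funext x
    have e1 := congrArg (Rat.cast : ℚ → ℝ) (f3 s x.1).1
    have e2 := congrArg (Rat.cast : ℚ → ℝ) (f3 s x.1).2.1
    push_cast at e1 e2
    simp only [Finset.sum_apply, y, sum_add_distrib, ← sum_mul, e1, e2, Pi.single_apply, ha]
    split_ifs <;> simp
  refine ⟨_, inferInstance, inferInstance, G, iG, a, y, ?_, h1, h2, fun _ _ _ => rfl, fun s => ?_⟩
  · intro e
    exact absurd ((ha _ _).1 e) (show cc 0 ≠ cc 1 by decide)
  · have c1 : ∀ k, G.adjMatrix ℂ *ᵥ (fun v => (y s k v : ℂ)) =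
        (θ k : ℂ) • fun v => (y s k v : ℂ) := by
      intro k
      funext x
      have := congrArg ofReal (congrFun (h1 s k) x)
      simpa [SimpleGraph.adjMatrix_mulVec_apply] using this
    have c2 : (Pi.single (a s) 1 : (Σ i, Fin (n i)) → ℂ) = ∑ k, fun v => (y s k v : ℂ) := by
      funext x
      have := congrArg ofReal (congrFun (h2 s) x)
      rw [Finset.sum_apply, ofReal_sum] at this
      rw [Finset.sum_apply, this, Pi.single_apply, Pi.single_apply]
      split_ifs <;> simp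
    rw [c2, mulVec_sum, sum_congr rfl fun k _ => Pool.Agent.H11.Mst2.exp_eigen _ _
      (I * τ * θ k) (by rw [smul_mulVec, c1, smul_smul])]
    funext x
    have e1 := congrArg (Rat.cast : ℚ → ℂ) (f3 s x.1).2.2.1
    have e2 := congrArg (Rat.cast : ℚ → ℂ) (f3 s x.1).2.2.2
    push_cast at e1 e2
    have : ∀ k ∈ (univ : Finset (Fin 6)), (exp (I * τ * θ k) • fun v => (y s k v : ℂ)) x =
        exp (I * τ * 560) * -I * ((sg k : ℂ) * PP s k x.1) +
        exp (I * τ * 560) * -I * (√2 : ℝ) * ((sg k : ℂ) * QQ s k x.1) := by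
      intro k _
      simp only [Pi.smul_apply, smul_eq_mul, phase, y]
      push_cast; ring
    rw [Finset.sum_apply, sum_congr rfl this, sum_add_distrib, ← mul_sum, ← mul_sum, e1, e2]
    simp only [Pi.add_apply, Pi.smul_apply, smul_eq_mul, Pi.single_apply, ha,
      show cc 0 = 0 from rfl, show cc 1 = 1 from rfl]
    split_ifs <;> simp <;> ring

lemma orth {V : Type} [Fintype V] (A : Matrix V V ℝ) (hA : Aᵀ = A) (x y : V → ℝ) (s t : ℝ)
    (hx : A *ᵥ x = s • x) (hy : A *ᵥ y = t • y) (h : s ≠ t) : x ⬝ᵥ y = 0 := by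
  have e : x ⬝ᵥ (A *ᵥ y) = (A *ᵥ x) ⬝ᵥ y := by
    rw [dotProduct_mulVec, ← mulVec_transpose, hA]
  rw [hx, hy, dotProduct_smul, smul_dotProduct, smul_eq_mul, smul_eq_mul] at e
  have : (s - t) * (x ⬝ᵥ y) = 0 := by linarith
  exact (mul_eq_zero.1 this).resolve_left (sub_ne_zero.2 h)

lemma comp {V : Type} [Fintype V] (A : Matrix V V ℝ) (hA : Aᵀ = A) (y : Fin 6 → V → ℝ)
    (h : ∀ k, A *ᵥ y k = θ k • y k) (k : Fin 6) (w : V → ℝ) (hw : A *ᵥ w = θ k • w) :
    w ⬝ᵥ (∑ l, y l - y k) = 0 := by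
  rw [dotProduct_sub, dotProduct_sum, sum_eq_single k, sub_self]
  · intro l _ hl
    exact orth A hA _ _ _ _ hw (h l) fun e => hl (θ_inj e).symm
  · simp

end Pool.Agent.H11.Fr
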