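import Pool.Agent.H11.PTDefs

set_option autoImplicit false

namespace Pool.Agent.H11.PT

/-- the simple graph on `0, …, n-1` given by an edge list -/
def gr (n : ℕ) (E : List (ℕ × ℕ)) : SimpleGraph (Fin n) :=
  SimpleGraph.fromRel fun u v => (u.val, v.val) ∈ E

/-- the natural number with the given binary digits (least significant first) -/
def bin (l : List Bool) : ℕ := Nat.ofDigits 2 (l.map Bool.toNat)

end Pool.Agent.H11.PT
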