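import Pool.Agent.H11.S2
import Pool.Agent.H11.GDefs

set_option autoImplicit false
set_option linter.dupNamespace false

namespace Pool.Agent.H11.PT

/-- pairs of positions of related entries -/
def mkE {V : Type} (vs : List V) (adj : V → V → Bool) : List (ℕ × ℕ) :=
  ((vs.zipIdx ×ˢ vs.zipIdx).filter fun p => adj p.1.1 p.2.1).map fun p => (p.1.2, p.2.2)

theorem PT.mkE {α V : Type} [Enc α] [Enc V] {vs : α → List V} {adj : α → V → V → Bool} (h : PT vs)
    (h' : PT fun p : α × V × V => adj p.1 p.2.1 p.2.2) : PT fun x => mkE (vs x) (adj x) := by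
  unfold H11.PT.mkE
  refine PT.map (PT.filter (by fun_prop) ?_) (by fun_prop)
  exact h'.comp (g := fun p : α × (V × ℕ) × (V × ℕ) => (p.1, p.2.1.1, p.2.2.1)) (by fun_prop)

theorem mem_mkE {V : Type} (vs : List V) (adj : V → V → Bool) (i j : ℕ) :
    (i, j) ∈ mkE vs adj ↔ ∃ (hi : i < vs.length) (hj : j < vs.length), adj vs[i] vs[j] = true := by
  simp only [mkE, List.mem_map, List.mem_filter, Prod.mk.injEq]
  constructor
  · rintro ⟨⟨⟨a, i'⟩, ⟨b, j'⟩⟩, ⟨h1, h2⟩, rfl, rfl⟩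
    obtain ⟨h3, h4⟩ := List.pair_mem_product.1 h1
    rw [List.mem_zipIdx_iff_getElem?, List.getElem?_eq_some_iff] at h3 h4
    obtain ⟨a1, a2⟩ := h3
    obtain ⟨b1, b2⟩ := h4
    exact ⟨a1, b1, by rw [show vs[i'] = a from a2, show vs[j'] = b from b2]; exact h2⟩
  · rintro ⟨hi, hj, h⟩
    refine ⟨((vs[i], i), (vs[j], j)), ⟨List.pair_mem_product.2 ⟨?_, ?_⟩, h⟩, rfl, rfl⟩ <;>
      rw [List.mem_zipIdx_iff_getElem?] <;> simp

theorem mkE_spec {V : Type} (vs : List V) (nd : vs.Nodup) (adj : V → V → Bool) :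
    ∃ p : Fin vs.length → V, Function.Injective p ∧ (∀ v, v ∈ vs ↔ ∃ i, p i = v) ∧
      (∀ i j : Fin vs.length, (i.val, j.val) ∈ mkE vs adj ↔ adj (p i) (p j) = true) ∧
      ∀ i j, (gr vs.length (mkE vs adj)).Adj i j ↔
        p i ≠ p j ∧ (adj (p i) (p j) = true ∨ adj (p j) (p i) = true) := by
  have hi : Function.Injective vs.get := List.nodup_iff_injective_get.1 nd
  have h : ∀ i j : Fin vs.length, (i.val, j.val) ∈ mkE vs adj ↔ adj (vs.get i) (vs.get j) = true := by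
    intro i j; simp [mem_mkE]
  refine ⟨vs.get, hi, fun v => List.mem_iff_get, h, fun i j => ?_⟩
  simp only [gr, SimpleGraph.fromRel_adj, h, hi.ne_iff]

end Pool.Agent.H11.PT
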