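import Mathlib

namespace Pool.Agent.H11.Girth

open SimpleGraph

theorem split_edge {V : Type} {G : SimpleGraph V} {e : Sym2 V} :
    ∀ {a b : V} (p : G.Walk a b), e ∈ p.edges →
      ∃ (x y : V) (p1 : G.Walk a x) (p2 : G.Walk y b), s(x, y) = e ∧
        p.edges = p1.edges ++ e :: p2.edges
  | _, _, .nil, h => by simp at h
  | a, _, .cons (v := c) h q, he => by
    rw [Walk.edges_cons, List.mem_cons] at he
    rcases he with rfl | he
    · exact ⟨a, c, .nil, q, rfl, by simp⟩
    · obtain ⟨x, y, p1, p2, h1, h2⟩ := split_edge q he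
      exact ⟨x, y, .cons h p1, p2, h1, by simp [h2]⟩

theorem girth_add_edge {V : Type} {G : SimpleGraph V} {g : ℕ} {u v : V}
    (hg : (g : ℕ∞) ≤ G.egirth) (hfar : ∀ p : G.Walk u v, g ≤ p.length) :
    (g : ℕ∞) ≤ (G ⊔ edge u v).egirth := by
  rw [le_egirth] at hg ⊢
  intro a w hw
  have hsub : ∀ f ∈ (G ⊔ edge u v).edgeSet, f ≠ s(u, v) → f ∈ G.edgeSet := by
    intro f hf hne
    rw [edgeSet_sup] at hf
    rcases hf with hf | hf
    · exact hf
    · exact absurd (edgeSet_edge_subset hf) hne
  by_cases he : s(u, v) ∈ w.edges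
  · obtain ⟨x, y, p1, p2, h1, h2⟩ := split_edge w he
    have hn := hw.edges_nodup
    rw [h2] at hn
    have hlen := congrArg List.length h2
    simp only [Walk.length_edges, List.length_append, List.length_cons] at hlen
    have hq : ∀ f ∈ (p2.append p1).edges, f ∈ G.edgeSet := by
      intro f hf
      refine hsub f (Walk.edges_subset_edgeSet _ hf) ?_
      rintro rfl
      rw [Walk.edges_append, List.mem_append] at hf
      rcases hf with hf | hf
      · exact (List.nodup_cons.mp (List.nodup_append.mp hn).2.1).1 hf
      · exact (List.nodup_append.mp hn).2.2 _ hf _ (by simp) rfl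
    have hl : ((p2.append p1).transfer G hq).length = p2.length + p1.length := by simp
    have : g ≤ w.length := by
      rcases Sym2.eq_iff.mp h1 with ⟨rfl, rfl⟩ | ⟨rfl, rfl⟩
      · have := hfar ((p2.append p1).transfer G hq).reverse
        rw [Walk.length_reverse] at this
        omega
      · have := hfar ((p2.append p1).transfer G hq)
        omega
    exact_mod_cast this
  · have hq : ∀ f ∈ w.edges, f ∈ G.edgeSet := fun f hf =>
      hsub f (Walk.edges_subset_edgeSet _ hf) (fun h => he (h ▸ hf))
    have := hg a (w.transfer G hq) (hw.transfer hq)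
    simpa using this

theorem ball_bound {V : Type} [Fintype V] [DecidableEq V] (G : SimpleGraph V) [DecidableRel G.Adj]
    (d : ℕ) (hd : ∀ v, G.degree v ≤ d) (u : V) (r : ℕ) :
    ∃ B : Finset V, B.card ≤ (d + 1) ^ r ∧ ∀ v (p : G.Walk v u), p.length ≤ r → v ∈ B := by
  induction r with
  | zero =>
    refine ⟨{u}, by simp, fun v p hp => ?_⟩
    simpa using p.eq_of_length_eq_zero (by omega)
  | succ r ih =>
    obtain ⟨B, hB1, hB2⟩ := ih
    refine ⟨B.biUnion (fun x => insert x (G.neighborFinset x)), ?_, fun v p hp => ?_⟩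
    · refine (Finset.card_biUnion_le_card_mul _ _ (d + 1) (fun x _ => ?_)).trans ?_
      · refine (Finset.card_insert_le _ _).trans ?_
        have := hd x
        rw [card_neighborFinset_eq_degree]
        omega
      · rw [pow_succ]
        exact Nat.mul_le_mul_right _ hB1
    · rw [Finset.mem_biUnion]
      cases p with
      | nil => exact ⟨u, hB2 u .nil (by simp), by simp⟩
      | cons h q => exact ⟨_, hB2 _ q (by simpa using hp), by simp [h.symm]⟩

/-- Graphs of large girth and many edges. -/
theorem exists_dense_girth (g d : ℕ) : ∃ (n : ℕ) (G : SimpleGraph (Fin n)), 0 < n ∧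
    (g : ℕ∞) ≤ G.egirth ∧ d * n ≤ 2 * G.edgeSet.ncard := by
  classical
  set n := (d + 1) * (d + 2) ^ (g + 1) with hn
  let P : SimpleGraph (Fin n) → Prop := fun G =>
    (g : ℕ∞) ≤ G.egirth ∧ ∀ v, (G.neighborSet v).ncard ≤ d + 1
  obtain ⟨G, -, hG⟩ := Finite.exists_le_maximal (p := P) (a := ⊥) ⟨by simp, by simp⟩
  have hdeg : ∀ v, (G.neighborSet v).ncard = G.degree v := by
    intro v
    rw [← card_neighborSet_eq_degree, Set.ncard_eq_toFinset_card', Set.toFinset_card]
  have hd : ∀ v, G.degree v ≤ d + 1 := fun v => hdeg v ▸ hG.prop.2 v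
  refine ⟨n, G, by positivity, hG.prop.1, ?_⟩
  let L := Finset.univ.filter (fun v => G.degree v ≤ d)
  have hL : L.card ≤ (d + 2) ^ (g + 1) := by
    rcases L.eq_empty_or_nonempty with h | ⟨u, hu⟩
    · simp [h]
    obtain ⟨B, hB1, hB2⟩ := ball_bound G (d + 1) hd u (g + 1)
    refine (Finset.card_le_card (fun v hv => ?_)).trans hB1
    by_contra hvB
    have hfar : ∀ p : G.Walk v u, g + 1 < p.length := fun p => by
      by_contra h
      exact hvB (hB2 v p (by omega))
    have hne : v ≠ u := by
      rintro rfl
      simpa using hfar .nil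
    have hP : P (G ⊔ edge v u) := by
      refine ⟨girth_add_edge hG.prop.1 (fun p => by have := hfar p; omega), fun x => ?_⟩
      have hu' := (Finset.mem_filter.mp hu).2
      have hv' := (Finset.mem_filter.mp hv).2
      by_cases hxv : x = v
      · subst hxv
        have : (G ⊔ edge x u).neighborSet x ⊆ insert u (G.neighborSet x) := by
          intro y hy
          simp only [mem_neighborSet, sup_adj, edge_adj, Set.mem_insert_iff] at hy ⊢
          grind
        have h1 := Set.ncard_le_ncard this
        have h2 := Set.ncard_insert_le u (G.neighborSet x)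
        rw [hdeg] at h2
        omega
      by_cases hxu : x = u
      · subst hxu
        have : (G ⊔ edge v x).neighborSet x ⊆ insert v (G.neighborSet x) := by
          intro y hy
          simp only [mem_neighborSet, sup_adj, edge_adj, Set.mem_insert_iff] at hy ⊢
          grind
        have h1 := Set.ncard_le_ncard this
        have h2 := Set.ncard_insert_le v (G.neighborSet x)
        rw [hdeg] at h2
        omega
      · have : (G ⊔ edge v u).neighborSet x = G.neighborSet x := by
          ext y
          simp only [mem_neighborSet, sup_adj, edge_adj]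
          grind
        rw [this]
        exact hG.prop.2 x
    have hle := hG.le_of_ge hP le_sup_left
    have hadj : G.Adj v u := hle (by simp [edge_adj, hne])
    have := hfar hadj.toWalk
    simp at this
  have hsum := G.sum_degrees_eq_twice_card_edges
  have he : G.edgeFinset.card = G.edgeSet.ncard := by
    rw [Set.ncard_eq_toFinset_card']
    rfl
  have h1 : ∑ v ∈ Lᶜ, (d + 1) ≤ ∑ v, G.degree v := by
    refine le_trans (Finset.sum_le_sum (fun v hv => ?_))
      (Finset.sum_le_sum_of_subset (Finset.subset_univ _))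
    simp only [L, Finset.mem_compl, Finset.mem_filter, Finset.mem_univ, true_and] at hv
    omega
  rw [Finset.sum_const, smul_eq_mul, Finset.card_compl, Fintype.card_fin] at h1
  rw [← he, ← hsum]
  refine le_trans ?_ h1
  have h2 : d * (d + 2) ^ (g + 1) ≤ n - L.card := by
    have h3 : n = d * (d + 2) ^ (g + 1) + (d + 2) ^ (g + 1) := hn.trans (by ring)
    omega
  calc d * n = d * (d + 2) ^ (g + 1) * (d + 1) := (congrArg (d * ·) hn).trans (by ring)
    _ ≤ _ := Nat.mul_le_mul_right _ h2

theorem acyclic_card {n : ℕ} (hn : 0 < n) {A : SimpleGraph (Fin n)} (hA : A.IsAcyclic) :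
    A.edgeSet.ncard + 1 ≤ n := by
  classical
  have : Nonempty (Fin n) := ⟨⟨0, hn⟩⟩
  obtain ⟨F, h1, -, h3⟩ := (connected_top (V := Fin n)).exists_isTree_le_of_le_of_isAcyclic
    le_top hA
  have h4 := h3.card_edgeFinset
  have h5 := Set.ncard_le_ncard (edgeSet_mono h1)
  have he : F.edgeFinset.card = F.edgeSet.ncard := by
    rw [Set.ncard_eq_toFinset_card']
    rfl
  simp only [Fintype.card_fin] at h4
  omega

end Pool.Agent.H11.Girth
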