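import Mathlib

set_option autoImplicit false

namespace Pool.Agent.H11

/-- branching test that no set of at most `k` further points dominates all targets below `m`;
`cl u v` says that point `u` (below `n`) covers target `v`. -/
def hitChk (n m : ℕ) (cl : ℕ → ℕ → Bool) : ℕ → List ℕ → Bool
  | 0, S => (List.range m).any (fun v => S.all (fun u => !(cl u v)))
  | k+1, S =>
    match (List.range m).find? (fun v => S.all (fun u => !(cl u v))) with
    | none => false
    | some v => ((List.range n).filter (fun u => cl u v)).all (fun u => hitChk n m cl k (u :: S))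

theorem hitChk_sound (n m : ℕ) (cl : ℕ → ℕ → Bool) (D : Finset ℕ)
    (hD : ∀ v < m, ∃ u ∈ D, u < n ∧ cl u v = true) :
    ∀ (k : ℕ) (S : List ℕ), hitChk n m cl k S = true → k < (D \ S.toFinset).card := by
  intro k
  induction k with
  | zero =>
    intro S h
    simp only [hitChk, List.any_eq_true, List.mem_range, List.all_eq_true] at h
    obtain ⟨v, hv, hS⟩ := h
    obtain ⟨u, hu, -, hc⟩ := hD v hv
    apply Finset.card_pos.mpr
    refine ⟨u, Finset.mem_sdiff.mpr ⟨hu, ?_⟩⟩
    intro hm
    have := hS u (List.mem_toFinset.mp hm)
    simp [hc] at this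
  | succ k ih =>
    intro S h
    simp only [hitChk] at h
    split at h
    · exact absurd h (by simp)
    · rename_i v hv
      have hv1 := List.find?_some hv
      have hv2 := List.mem_range.mp (List.mem_of_find?_eq_some hv)
      obtain ⟨u, hu, hun, hc⟩ := hD v hv2
      have hnot : u ∉ S.toFinset := by
        intro hm
        have := List.all_eq_true.mp hv1 u (List.mem_toFinset.mp hm)
        simp [hc] at this
      have h2 := List.all_eq_true.mp h u (by simp [hun, hc])
      have h3 := ih _ h2
      have h4 : D \ (u :: S).toFinset = (D \ S.toFinset).erase u := by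
        ext x; simp; tauto
      rw [h4, Finset.card_erase_of_mem (Finset.mem_sdiff.mpr ⟨hu, hnot⟩)] at h3
      omega

/-- Finite version: a set of `Fin n` points covering all `Fin m` targets has more than `k` elements. -/
theorem hit_card {n m k : ℕ} (cl : ℕ → ℕ → Bool) (h : hitChk n m cl k [] = true)
    (D : Finset (Fin n)) (hD : ∀ v : Fin m, ∃ u ∈ D, cl u.val v.val = true) : k < D.card := by
  have := hitChk_sound n m cl (D.map Fin.valEmbedding) (by
    intro v hv
    obtain ⟨u, hu, hc⟩ := hD ⟨v, hv⟩
    exact ⟨u.val, Finset.mem_map.mpr ⟨u, hu, rfl⟩, u.isLt, hc⟩) k [] h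
  simpa using this

/-- if every colour class has more than `k` elements then `j * (k+1) ≤ n`. -/
theorem classes_bound {n j k : ℕ} (g : Fin n → Fin j)
    (h : ∀ i, k < (Finset.univ.filter (fun v => g v = i)).card) : j * (k + 1) ≤ n := by
  have h2 := Finset.card_eq_sum_card_fiberwise (f := g) (s := Finset.univ) (t := Finset.univ)
    (fun _ _ => Finset.mem_univ _)
  have h3 : ∑ i : Fin j, (k + 1) ≤ ∑ i : Fin j, (Finset.univ.filter (fun v => g v = i)).card :=
    Finset.sum_le_sum (fun i _ => h i)
  rw [← h2] at h3
  simpa using h3

end Pool.Agent.H11
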