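import Mathlib

set_option autoImplicit false

namespace Pool.Agent.H11.IRG

def nb : List ℕ := [30, 341, 171, 229, 355, 412, 410, 364, 242]

/-- a graph on 9 vertices whose slide IR-graph is the path on 7 vertices -/
def G : SimpleGraph (Fin 9) where
  Adj a b := (nb.getD a.val 0).testBit b.val = true
  symm := ⟨by decide +kernel⟩
  loopless := ⟨by decide +kernel⟩

instance : DecidableRel G.Adj := fun a b =>
  inferInstanceAs (Decidable ((nb.getD a.val 0).testBit b.val = true))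

abbrev Irr (S : Finset (Fin 9)) : Prop :=
  ∀ v ∈ S, ∃ w, (w = v ∨ G.Adj v w) ∧ ∀ u ∈ S, u ≠ v → ¬ (w = u ∨ G.Adj u w)

def f : Fin 7 → Finset (Fin 9) :=
  ![{2, 5, 7}, {2, 3, 5}, {0, 3, 5}, {0, 5, 6}, {0, 4, 6}, {1, 4, 6}, {1, 6, 8}]

lemma h1 : ∀ S : Finset (Fin 9), Irr S → S.card ≤ 3 ∧ (3 ≤ S.card → ∃ i, f i = S) := by
  decide +kernel

lemma h2 : ∀ i, Irr (f i) ∧ (f i).card = 3 := by decide +kernel

lemma f_inj : ∀ i j, f i = f j → i = j := by decide +kernel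

def g (i : Fin 7) : {S : Finset (Fin 9) // Irr S ∧ ∀ T : Finset (Fin 9), Irr T → T.card ≤ S.card} :=
  ⟨f i, (h2 i).1, fun T hT => (h2 i).2 ▸ (h1 T hT).1⟩

lemma g_bij : Function.Bijective g := by
  constructor
  · intro i j h
    exact f_inj i j (congrArg Subtype.val h)
  · rintro ⟨S, hS, hm⟩
    obtain ⟨i, hi⟩ := (h1 S hS).2 ((h2 0).2 ▸ hm (f 0) (h2 0).1)
    exact ⟨i, Subtype.ext hi⟩

lemma g_val (i : Fin 7) : (g i).1 = f i := rfl

lemma g_ne (i j : Fin 7) : g i ≠ g j ↔ i ≠ j := g_bij.1.ne_iff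

end Pool.Agent.H11.IRG
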