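import Mathlib

set_option autoImplicit false

namespace Pool.Agent.H11.Iron
open Finset

lemma iron (f R : ℕ → ℝ) (m : ℕ) (hf : ∀ t < m, 0 < f t) :
    ∃ ψ : ℕ → ℝ, (∀ s t, s ≤ t → t < m → ψ s ≤ ψ t) ∧
      (∀ k ≤ m, R k - R m ≤ ∑ t ∈ Ico k m, ψ t * f t) ∧
      (∀ k < m, (∀ s < k, ψ s < ψ k) → R k - R m = ∑ t ∈ Ico k m, ψ t * f t) ∧
      (∀ s : ℝ, (∀ k < m, R k - R m ≤ s * ∑ t ∈ Ico k m, f t) → ∀ t < m, ψ t ≤ s) := by
  induction m using Nat.strong_induction_on with
  | _ m ih =>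
  rcases Nat.eq_zero_or_pos m with rfl | hm
  · refine ⟨fun _ => 0, fun _ _ _ _ => le_rfl, fun k hk => ?_, fun k hk => absurd hk (by omega),
      fun _ _ t ht => absurd ht (by omega)⟩
    obtain rfl : k = 0 := by omega
    simp
  have hpos : ∀ k < m, 0 < ∑ t ∈ Ico k m, f t := fun k hk =>
    sum_pos (fun t ht => hf t (mem_Ico.1 ht).2) ⟨k, mem_Ico.2 ⟨le_rfl, hk⟩⟩
  obtain ⟨a, ha, hmax⟩ := exists_max_image (range m)
    (fun k => (R k - R m) / ∑ t ∈ Ico k m, f t) ⟨0, mem_range.2 hm⟩
  have ha' := mem_range.1 ha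
  set s0 := (R a - R m) / ∑ t ∈ Ico a m, f t with hs0
  have hle : ∀ k < m, R k - R m ≤ s0 * ∑ t ∈ Ico k m, f t := fun k hk => by
    have := hmax k (mem_range.2 hk)
    rwa [div_le_iff₀ (hpos k hk)] at this
  have heq : R a - R m = s0 * ∑ t ∈ Ico a m, f t := by
    rw [hs0, div_mul_cancel₀ _ (hpos a ha').ne']
  obtain ⟨ψ, h1, h2, h3, h4⟩ := ih a ha' fun t ht => hf t (ht.trans ha')
  have hψ : ∀ t < a, ψ t ≤ s0 := by
    refine h4 s0 fun k hk => ?_
    have e := sum_Ico_consecutive f hk.le ha'.le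
    have := hle k (hk.trans ha')
    rw [← e, mul_add] at this
    linarith
  have hi : ∀ k, a ≤ k → ∑ t ∈ Ico k m, (if t < a then ψ t else s0) * f t =
      s0 * ∑ t ∈ Ico k m, f t := fun k hk => by
    rw [mul_sum]
    refine sum_congr rfl fun t ht => ?_
    rw [if_neg (by have := (mem_Ico.1 ht).1; omega)]
  have lo : ∀ k, k ≤ a → ∑ t ∈ Ico k m, (if t < a then ψ t else s0) * f t =
      ∑ t ∈ Ico k a, ψ t * f t + s0 * ∑ t ∈ Ico a m, f t := fun k hk => by
    rw [← sum_Ico_consecutive _ hk ha'.le, hi a le_rfl]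
    congr 1
    refine sum_congr rfl fun t ht => ?_
    rw [if_pos (mem_Ico.1 ht).2]
  refine ⟨fun t => if t < a then ψ t else s0, fun s t hst ht => ?_, fun k hk => ?_,
    fun k hk hs => ?_, fun s hs t ht => ?_⟩
  · by_cases h : t < a
    · simp only [if_pos h, if_pos (lt_of_le_of_lt hst h)]
      exact h1 s t hst h
    · simp only [if_neg h]
      split_ifs with h'
      · exact hψ s h'
      · exact le_rfl
  · rcases le_total k a with h | h
    · rw [lo k h]
      have := h2 k h
      linarith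
    · rw [hi k h]
      rcases hk.lt_or_eq with hk | rfl
      · exact hle k hk
      · simp
  · rcases lt_trichotomy k a with h | rfl | h
    · rw [lo k h.le]
      have := h3 k h fun s hsk => by
        have := hs s hsk
        simpa only [if_pos h, if_pos (hsk.trans h)] using this
      linarith
    · rw [hi k le_rfl, heq]
    · have := hs a h
      simp only [lt_irrefl, if_false, if_neg (not_lt.2 h.le)] at this
  · have h0 : s0 ≤ s := by
      have := hs a ha'
      rw [heq] at this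
      exact le_of_mul_le_mul_right this (hpos a ha')
    show (if t < a then ψ t else s0) ≤ s
    split_ifs with h
    · exact (hψ t h).trans h0
    · exact h0

lemma conv {m : ℕ} (h : ℕ → ℝ) (k : ℕ) :
    ∑ x : Fin m, (if k ≤ x.val then h x else 0) = ∑ t ∈ Ico k m, h t := by
  rw [Fin.sum_univ_eq_sum_range (fun t => if k ≤ t then h t else 0) m, ← sum_filter]
  refine sum_congr ?_ fun _ _ => rfl
  ext t
  simp [and_comm]

lemma iron' {m : ℕ} (F val : Fin m → ℝ) (hF : ∀ x, 0 < F x) (hv : Monotone val) :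
    ∃ ψ : Fin m → ℝ, Monotone ψ ∧ (∀ x, ψ x ≤ val x) ∧
      (∀ τ : ℝ, 0 ≤ ∑ x, F x * (if τ ≤ val x then ψ x - τ else 0)) ∧
      (∀ k, (∀ x < k, ψ x < ψ k) →
        ∑ x, F x * (if k ≤ x then val k else 0) = ∑ x, F x * (if k ≤ x then ψ x else 0)) := by
  let f : ℕ → ℝ := fun t => if h : t < m then F ⟨t, h⟩ else 0
  let w : ℕ → ℝ := fun t => if h : t < m then val ⟨t, h⟩ else 0
  have hf : ∀ x : Fin m, f x = F x := fun x => by simp [f]
  have hw : ∀ x : Fin m, w x = val x := fun x => by simp [w]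
  have hfp : ∀ t < m, 0 < f t := fun t ht => by
    rw [show f t = F ⟨t, ht⟩ from hf ⟨t, ht⟩]; exact hF _
  obtain ⟨ψ, h1, h2, h3, -⟩ := iron f (fun k => w k * ∑ t ∈ Ico k m, f t) m hfp
  simp only [Ico_self, sum_empty, mul_zero, sub_zero] at h2 h3
  have e1 : ∀ k : Fin m, ∑ x, F x * (if k ≤ x then val k else 0) =
      w k * ∑ t ∈ Ico k.val m, f t := fun k => by
    rw [← conv, mul_sum]
    refine sum_congr rfl fun x _ => ?_
    by_cases h : k ≤ x
    · rw [if_pos h, if_pos (Fin.le_def.1 h), hf, hw, mul_comm]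
    · rw [if_neg h, if_neg (fun h' => h (Fin.le_def.2 h')), mul_zero, mul_zero]
  have e2 : ∀ k : Fin m, ∑ x, F x * (if k ≤ x then ψ x else 0) =
      ∑ t ∈ Ico k.val m, ψ t * f t := fun k => by
    rw [← conv]
    refine sum_congr rfl fun x _ => ?_
    by_cases h : k ≤ x
    · rw [if_pos h, if_pos (Fin.le_def.1 h), hf, mul_comm]
    · rw [if_neg h, if_neg (fun h' => h (Fin.le_def.2 h')), mul_zero]
  refine ⟨fun x => ψ x, fun x y h => h1 x y h y.2, fun x => ?_, fun τ => ?_, fun k hk => ?_⟩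
  · have hex : ∃ a, ψ x ≤ ψ a := ⟨x, le_rfl⟩
    classical
    have ha := Nat.find_spec hex
    have hax : Nat.find hex ≤ x := Nat.find_min' hex le_rfl
    set a := Nat.find hex with had
    have ham : a < m := lt_of_le_of_lt hax x.2
    have h5 := h3 a ham fun s hs => lt_of_lt_of_le (not_le.1 (Nat.find_min hex hs)) ha
    have h6 := h2 (a + 1) ham
    rw [sum_eq_sum_Ico_succ_bot ham, sum_eq_sum_Ico_succ_bot ham] at h5
    have h7 : w a * ∑ t ∈ Ico (a + 1) m, f t ≤ w (a + 1) * ∑ t ∈ Ico (a + 1) m, f t := by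
      rcases (Nat.succ_le_of_lt ham).lt_or_eq with h | h
      · refine mul_le_mul_of_nonneg_right ?_
          (sum_nonneg fun t ht => (hfp t (mem_Ico.1 ht).2).le)
        rw [show w a = val ⟨a, ham⟩ from hw ⟨a, ham⟩,
          show w (a + 1) = val ⟨a + 1, h⟩ from hw ⟨a + 1, h⟩]
        exact hv (Fin.mk_le_mk.2 (Nat.le_succ a))
      · rw [show a + 1 = m from h]; simp
    have h8 : ψ a * f a ≤ w a * f a := by rw [mul_add] at h5; linarith
    have h9 := le_of_mul_le_mul_right h8 (hfp a ham)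
    have h10 : w a ≤ val x := by
      rw [show w a = val ⟨a, ham⟩ from hw ⟨a, ham⟩]
      exact hv (Fin.le_def.2 hax)
    show ψ x ≤ val x
    linarith
  · by_cases hex : (univ.filter fun x => τ ≤ val x).Nonempty
    · set k := (univ.filter fun x => τ ≤ val x).min' hex with hk
      have hk1 : τ ≤ val k := (mem_filter.1 (min'_mem _ hex)).2
      have hk2 : ∀ x, τ ≤ val x ↔ k ≤ x := fun x =>
        ⟨fun h => min'_le (univ.filter fun x => τ ≤ val x) x (mem_filter.2 ⟨mem_univ _, h⟩),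
          fun h => hk1.trans (hv h)⟩
      have h5 := h2 k k.2.le
      rw [← e1, ← e2] at h5
      have h6 : ∑ x, F x * (if k ≤ x then ψ x else 0) - ∑ x, F x * (if k ≤ x then val k else 0) ≤
          ∑ x, F x * (if τ ≤ val x then ψ x - τ else 0) := by
        rw [← sum_sub_distrib]
        refine sum_le_sum fun x _ => ?_
        rw [← mul_sub]
        refine mul_le_mul_of_nonneg_left ?_ (hF x).le
        by_cases h : k ≤ x
        · rw [if_pos h, if_pos h, if_pos ((hk2 x).2 h)]; linarith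
        · rw [if_neg h, if_neg h, if_neg (fun h' => h ((hk2 x).1 h'))]; simp
      linarith
    · refine le_of_eq (sum_eq_zero fun x _ => ?_).symm
      rw [if_neg (fun h => hex ⟨x, mem_filter.2 ⟨mem_univ _, h⟩⟩), mul_zero]
  · rw [e1, e2]
    exact h3 k k.2 fun s hs => hk ⟨s, hs.trans k.2⟩ (Fin.lt_def.2 hs)

lemma avg {n m : ℕ} (F : Fin n → Fin m → ℝ) (i : Fin n) (hF : ∑ x, F i x = 1)
    (h : (Fin n → Fin m) → ℝ) :
    ∑ v, (∏ j, F j (v j)) * h v =
      ∑ v : Fin n → Fin m, (∏ j, F j (v j)) * ∑ x, F i x * h (Function.update v i x) := by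
  have key : ∀ (v : Fin n → Fin m) (x : Fin m), (∏ j, F j (v j)) * F i x =
      (∏ j, F j (Function.update v i x j)) * F i (v i) := fun v x => by
    rw [← mul_prod_erase univ _ (mem_univ i), ← mul_prod_erase univ _ (mem_univ i)]
    have : ∏ j ∈ univ.erase i, F j (Function.update v i x j) = ∏ j ∈ univ.erase i, F j (v j) :=
      prod_congr rfl fun j hj => by rw [Function.update_of_ne (mem_erase.1 hj).1]
    rw [this, Function.update_self]; ring
  let e : ((Fin n → Fin m) × Fin m) → ((Fin n → Fin m) × Fin m) :=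
    fun p => (Function.update p.1 i p.2, p.1 i)
  have he : Function.Involutive e := fun p => by simp [e]
  calc ∑ v, (∏ j, F j (v j)) * h v
      = ∑ v, ∑ x, (∏ j, F j (v j)) * F i x * h v := by
        refine sum_congr rfl fun v _ => ?_
        rw [← sum_mul, ← mul_sum, hF, mul_one]
    _ = ∑ p : (Fin n → Fin m) × Fin m, (∏ j, F j (p.1 j)) * F i p.2 * h p.1 :=
        (Fintype.sum_prod_type' _).symm
    _ = ∑ p : (Fin n → Fin m) × Fin m, (∏ j, F j ((e p).1 j)) * F i (e p).2 * h (e p).1 :=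
        (Equiv.sum_comp he.toPerm
          (fun p : (Fin n → Fin m) × Fin m => (∏ j, F j (p.1 j)) * F i p.2 * h p.1)).symm
    _ = ∑ v : Fin n → Fin m, ∑ x, (∏ j, F j (Function.update v i x j)) * F i (v i) *
          h (Function.update v i x) := Fintype.sum_prod_type _
    _ = _ := by
        refine sum_congr rfl fun v _ => ?_
        rw [mul_sum]
        refine sum_congr rfl fun x _ => ?_
        rw [← key, mul_assoc]

end Pool.Agent.H11.Iron
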