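import Pool.Agent.H11.PTDefs

set_option autoImplicit false

namespace Pool.Agent.H11.PT

/-- The class PSPACE: a multi-stack Turing machine of Mathlib decides `L` and all its stacks stay
polynomially bounded during the run. -/
def InPSPACE {α : Type} [Enc α] (L : α → Prop) : Prop :=
  ∃ (V : α → Bool) (h : Turing.TM2Computable (bits : α → List Bool) (fun b => [b]) V)
    (q : Polynomial ℕ), (∀ x, L x ↔ V x = true) ∧
      ∀ (x : α) (t : ℕ) (c : h.tm.Cfg),
        (flip bind h.tm.step)^[t]
            (some (Turing.initList h.tm ((bits x).map h.inputAlphabet.invFun))) = some c →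
          ∀ k, (c.stk k).length ≤ q.eval (bits x).length

/-- PSPACE-hardness under polynomial-time many-one reductions. -/
def PSPACEHard {β : Type} [Enc β] (X : β → Prop) : Prop :=
  ∀ L : List Bool → Prop, InPSPACE L →
    ∃ f : List Bool → β, PolyTime id bits f ∧ ∀ x, L x ↔ X (f x)

end Pool.Agent.H11.PT
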