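import Pool.Agent.H11.CL3
import Pool.Agent.H11.PSDefs

set_option autoImplicit false
set_option linter.dupNamespace false

namespace Pool.Agent.H11.PT

open Polynomial Turing Turing.TM2

/-- hardness for a class, with a promise `Val` on the produced instances -/
def HardFor (𝒞 : (List Bool → Prop) → Prop) {β : Type} [Enc β] (Val X : β → Prop) : Prop :=
  ∀ L, 𝒞 L → ∃ f : List Bool → β, PT f ∧ ∀ x, Val (f x) ∧ (L x ↔ X (f x))

theorem HardFor.red {𝒞 : (List Bool → Prop) → Prop} {β γ : Type} [Enc β] [Enc γ]
    {Val X : β → Prop} {Val' Y : γ → Prop} (h : HardFor 𝒞 Val X) (g : β → γ) (hg : PT g)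
    (e : ∀ y, Val y → Val' (g y) ∧ (X y ↔ Y (g y))) : HardFor 𝒞 Val' Y := fun L hL => by
  obtain ⟨f, hf, e'⟩ := h L hL
  exact ⟨fun x => g (f x), hg.comp hf, fun x =>
    ⟨(e _ (e' x).1).1, (e' x).2.trans (e _ (e' x).1).2⟩⟩

theorem Hard.hardFor {β : Type} [Enc β] {X : β → Prop} (h : Hard X) :
    HardFor InNP (fun _ => True) X := fun L hL => by
  obtain ⟨f, hf, e⟩ := h L hL
  exact ⟨f, hf, fun x => ⟨trivial, e x⟩⟩

theorem HardFor.npHard {β : Type} [Enc β] {Val X : β → Prop} (h : HardFor InNP Val X) :
    NPHard fun y => Val y ∧ X y := fun L hL => by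
  obtain ⟨f, hf, e⟩ := h L hL
  exact ⟨f, hf.polyTime_raw, fun x => by simp [(e x).1, (e x).2]⟩

theorem HardFor.pspaceHard {β : Type} [Enc β] {Val X : β → Prop} (h : HardFor InPSPACE Val X) :
    PSPACEHard fun y => Val y ∧ X y := fun L hL => by
  obtain ⟨f, hf, e⟩ := h L hL
  exact ⟨f, hf.polyTime_raw, fun x => by simp [(e x).1, (e x).2]⟩

/-- transition table lookup -/
def dl (tb : List (List ℕ)) (q a : ℕ) : ℕ := (tb.getD q []).getD a 0

/-- automaton: table, start state, accepting states -/
abbrev Aut := List (List ℕ) × ℕ × List ℕ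

/-- all automata have states below `n` and letters below `m` -/
def DVal (y : ℕ × ℕ × List Aut) : Prop :=
  ∀ A ∈ y.2.2, A.2.1 < y.1 ∧ ∀ q < y.1, ∀ a < y.2.1, dl A.1 q a < y.1

/-- intersection non-emptiness for DFAs -/
def DFAI (y : ℕ × ℕ × List Aut) : Prop :=
  ∃ w : List ℕ, (∀ a ∈ w, a < y.2.1) ∧ ∀ A ∈ y.2.2, w.foldl (dl A.1) A.2.1 ∈ A.2.2

def mkT (n m : ℕ) (δ : ℕ → ℕ → ℕ) : List (List ℕ) :=
  (List.range n).map fun q => (List.range m).map fun a => δ q a

theorem dl_mkT {n m : ℕ} (δ : ℕ → ℕ → ℕ) {q a : ℕ} (hq : q < n) (ha : a < m) :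
    dl (mkT n m δ) q a = δ q a := by
  simp [dl, mkT, List.getD_eq_getElem?_getD, hq, ha]

theorem run_mkT {n m : ℕ} (δ : ℕ → ℕ → ℕ) (h : ∀ q < n, ∀ a < m, δ q a < n) (w : List ℕ) :
    (∀ a ∈ w, a < m) → ∀ q < n, w.foldl (dl (mkT n m δ)) q = w.foldl δ q := by
  induction w with
  | nil => intro _ _ _; rfl
  | cons a w ih =>
    intro hw q hq
    have ha := hw a List.mem_cons_self
    simp only [List.foldl_cons, dl_mkT δ hq ha]
    exact ih (fun b hb => hw b (List.mem_cons_of_mem _ hb)) _ (h q hq a ha)

section
variable (D N : ℕ) (tab : List Ent) (W : ℕ)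

def ent0 : Ent := (0, [], [], 0)

def dCtl (s a : ℕ) : ℕ :=
  if a = W * tab.length then (if s = W then 0 else W + N * N + 1)
  else if s = a / tab.length ∧ s < W ∧ (tab.getD (a % tab.length) ent0).1 = min s D then s + 1
  else W + N * N + 1

def chk (i j old : ℕ) (e : Ent) : Bool :=
  (e.2.1.zipIdx.all fun p => decide (¬ p.2 = i ∨ p.1 = old)) &&
    (e.2.2.1.zipIdx.all fun p => decide (¬ j + p.2 - D = i ∨ p.1 = old))

def dCell (i s a : ℕ) : ℕ :=
  if N * N ≤ s then W + N * N + 1
  else if a = W * tab.length then (s % N) * N + s % N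
  else if chk D i (a / tab.length) (s / N) (tab.getD (a % tab.length) ent0) = true ∧
      (tab.getD (a % tab.length) ent0).2.2.2 < N then
    (if a / tab.length = i then (s / N) * N + (tab.getD (a % tab.length) ent0).2.2.2 else s)
  else W + N * N + 1

def psInst (acc : ℕ) (u : List ℕ) : ℕ × ℕ × List Aut :=
  (W + N * N + 2, W * tab.length + 1,
    (mkT (W + N * N + 2) (W * tab.length + 1) (dCtl D N tab W), 0, [0]) ::
    (List.range (W + D)).map fun i =>
      (mkT (W + N * N + 2) (W * tab.length + 1) (dCell D N tab W i),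
        u.getD i 0 * N + u.getD i 0,
        (List.range (N * N)).filter fun s => decide (¬ i = 0 ∨ s / N = acc)))

theorem code_lt {N a b : ℕ} (ha : a < N) (hb : b < N) : a * N + b < N * N := by nlinarith
theorem code_div {N a b : ℕ} (hb : b < N) : (a * N + b) / N = a := by
  rw [Nat.add_comm, Nat.add_mul_div_right _ _ (by omega), Nat.div_eq_of_lt hb, Nat.zero_add]
theorem code_mod {N a b : ℕ} (hb : b < N) : (a * N + b) % N = b := by
  rw [Nat.add_comm, Nat.add_mul_mod_self_right, Nat.mod_eq_of_lt hb]

theorem dCtl_lt (s a : ℕ) : dCtl D N tab W s a < W + N * N + 2 := by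
  unfold dCtl; split_ifs <;> omega

theorem dCell_lt (i s a : ℕ) : dCell D N tab W i s a < W + N * N + 2 := by
  unfold dCell
  split_ifs with h1 h2 h3 h4
  · omega
  · have hN : 0 < N := by rcases N with _ | N <;> simp at h1 ⊢
    have := code_lt (Nat.mod_lt s hN) (Nat.mod_lt s hN); omega
  · have hN : 0 < N := by omega
    have := code_lt ((Nat.div_lt_iff_lt_mul hN).2 (not_le.1 h1)) h3.2; omega
  · omega
  · omega

end

theorem PT.psInst (D N : ℕ) (tab : List Ent) (acc : ℕ) {α : Type} [Enc α] {W : α → ℕ}
    {u : α → List ℕ} (hW : PT W) (hu : PT u) : PT fun x => psInst D N tab (W x) acc (u x) := by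
  unfold H11.PT.psInst mkT dCtl dCell chk
  fun_prop

theorem ps_sound {S : Type} (R : Rows S) (tab : List Ent)
    (htab : ∀ e, e ∈ tab ↔ ∃ c j, R.Valid c ∧ e = R.entry c j) (W : ℕ) (c : S) (hc : R.Valid c)
    (hb : ∀ t, ∀ i, W ≤ i → R.row (R.nxt^[t + 1] c) i = R.row (R.nxt^[t] c) i) (w : List ℕ) :
    (∀ a ∈ w, a < W * tab.length + 1) → w.foldl (dCtl R.D R.N tab W) 0 ≤ W →
    (∀ i < W + R.D, w.foldl (dCell R.D R.N tab W i) (R.row c i * R.N + R.row c i) < R.N * R.N) →
    ∃ t, ∀ i < W + R.D, w.foldl (dCell R.D R.N tab W i) (R.row c i * R.N + R.row c i) =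
      R.row (R.nxt^[t] c) i * R.N + (if i < w.foldl (dCtl R.D R.N tab W) 0 then
        R.row (R.nxt^[t + 1] c) i else R.row (R.nxt^[t] c) i) := by
  have hv : ∀ t, R.Valid (R.nxt^[t] c) := by
    intro t
    induction t with
    | zero => exact hc
    | succ t ih => rw [Function.iterate_succ_apply']; exact R.val_nxt _ ih
  induction w using List.reverseRecOn with
  | nil => intro _ _ _; exact ⟨0, fun i _ => by simp⟩
  | append_singleton w a ih =>
    intro hw h1 h2
    simp only [List.foldl_append, List.foldl_cons, List.foldl_nil] at h1 h2 ⊢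
    have g1 : w.foldl (dCtl R.D R.N tab W) 0 ≤ W := by
      revert h1; unfold dCtl; split_ifs <;> omega
    have g2 : ∀ i < W + R.D,
        w.foldl (dCell R.D R.N tab W i) (R.row c i * R.N + R.row c i) < R.N * R.N := by
      intro i hi
      have := h2 i hi
      by_contra hn
      rw [dCell, if_pos (not_lt.1 hn)] at this
      omega
    obtain ⟨t, ht⟩ := ih (fun b hb => hw b (by simp [hb])) g1 g2
    generalize w.foldl (dCtl R.D R.N tab W) 0 = s at *
    have hlt : ∀ i, (if i < s then R.row (R.nxt^[t + 1] c) i else R.row (R.nxt^[t] c) i) < R.N := by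
      intro i; split_ifs
      · exact R.lt _ (hv _) _
      · exact R.lt _ (hv _) _
    by_cases ha : a = W * tab.length
    · have hs : s = W := by
        by_contra hn
        rw [dCtl, if_pos ha, if_neg hn] at h1; omega
      refine ⟨t + 1, fun i hi => ?_⟩
      have := g2 i hi
      rw [dCell, if_neg (by omega), if_pos ha, ht i hi, code_mod (hlt i), dCtl, if_pos ha, if_pos hs]
      simp only [Nat.not_lt_zero, if_false]
      split_ifs with h
      · rfl
      · rw [hb t i (by omega)]
    · have hs : s = a / tab.length ∧ s < W ∧ (tab.getD (a % tab.length) ent0).1 = min s R.D := by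
        by_contra hn
        rw [dCtl, if_neg ha, if_neg hn] at h1; omega
      have hal : a < W * tab.length := by have := hw a (by simp); omega
      have hpos : 0 < tab.length := by
        rcases Nat.eq_zero_or_pos tab.length with h | h
        · rw [h] at hal; simp at hal
        · exact h
      have hmem : tab.getD (a % tab.length) ent0 ∈ tab := by
        rw [List.getD_eq_getElem _ _ (Nat.mod_lt _ hpos)]; exact List.getElem_mem _
      obtain ⟨c', j', hc', he⟩ := (htab _).1 hmem
      have hchk : ∀ i < W + R.D, chk R.D i s (R.row (R.nxt^[t] c) i) (R.entry c' j') = true := by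
        intro i hi
        have a1 := h2 i hi
        have a2 := g2 i hi
        by_contra hn
        rw [dCell, if_neg (by omega), if_neg ha, if_neg] at a1
        · omega
        · rw [ht i hi, code_div (hlt i), ← hs.1, he]; exact fun h => hn h.1
      have hout : R.row (R.nxt c') j' = R.row (R.nxt^[t + 1] c) s := by
        rw [Function.iterate_succ_apply']
        refine (R.loc _ _ s j' (hv t) hc' ?_ ?_ ?_).symm
        · have := hs.2.2; rw [he] at this; exact this.symm
        · intro i hi
          have := hchk i (by omega)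
          simp only [chk, Bool.and_eq_true, List.all_eq_true, decide_eq_true_eq] at this
          have := this.1 (R.row c' i, i) (by
            simp only [Rows.entry, Rows.view]; rw [mem_zipIdx_map]; exact ⟨hi, rfl⟩)
          simpa [eq_comm] using this
        · intro i hi
          have := hchk (s + i - R.D) (by omega)
          simp only [chk, Bool.and_eq_true, List.all_eq_true, decide_eq_true_eq] at this
          have := this.2 (R.row c' (j' + i - R.D), i) (by
            simp only [Rows.entry, Rows.win]; rw [mem_zipIdx_map]; exact ⟨by omega, rfl⟩)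
          exact (this.resolve_left (by simp)).symm
      refine ⟨t, fun i hi => ?_⟩
      have a2 := g2 i hi
      rw [dCell, if_neg (by omega), if_neg ha, dCtl, if_neg ha, if_pos hs, ht i hi, code_div (hlt i),
        ← hs.1, he, if_pos ⟨hchk i hi, R.lt _ (R.val_nxt _ hc') _⟩]
      by_cases h : s = i
      · subst h
        simp only [if_true, Nat.lt_add_one]
        exact congrArg _ hout
      · rw [if_neg h]
        have : i < s + 1 ↔ i < s := by omega
        simp only [this]

theorem ps_complete {S : Type} (R : Rows S) (tab : List Ent)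
    (htab : ∀ e, e ∈ tab ↔ ∃ c j, R.Valid c ∧ e = R.entry c j) (W : ℕ) (c : S) (hc : R.Valid c)
    (hb : ∀ t, ∀ i, W ≤ i → R.row (R.nxt^[t + 1] c) i = R.row (R.nxt^[t] c) i) (t : ℕ) :
    ∃ w : List ℕ, (∀ a ∈ w, a < W * tab.length + 1) ∧ w.foldl (dCtl R.D R.N tab W) 0 = 0 ∧
      ∀ i, w.foldl (dCell R.D R.N tab W i) (R.row c i * R.N + R.row c i) =
        R.row (R.nxt^[t] c) i * R.N + R.row (R.nxt^[t] c) i := by
  have hv : ∀ t, R.Valid (R.nxt^[t] c) := by
    intro t
    induction t with
    | zero => exact hc
    | succ t ih => rw [Function.iterate_succ_apply']; exact R.val_nxt _ ih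
  induction t with
  | zero => exact ⟨[], by simp, rfl, fun i => rfl⟩
  | succ t ih =>
    obtain ⟨w0, a0, b0, c0⟩ := ih
    have key : ∀ s ≤ W, ∃ w : List ℕ, (∀ a ∈ w, a < W * tab.length + 1) ∧
        w.foldl (dCtl R.D R.N tab W) 0 = s ∧
        ∀ i, w.foldl (dCell R.D R.N tab W i) (R.row c i * R.N + R.row c i) =
          R.row (R.nxt^[t] c) i * R.N + (if i < s then R.row (R.nxt^[t + 1] c) i
            else R.row (R.nxt^[t] c) i) := by
      intro s
      induction s with
      | zero => intro _; exact ⟨w0, a0, b0, fun i => by simpa using c0 i⟩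
      | succ s ih =>
        intro hs
        obtain ⟨w, a1, b1, c1⟩ := ih (by omega)
        obtain ⟨r, hr, he⟩ := List.getElem_of_mem ((htab _).2 ⟨_, s, hv t, rfl⟩)
        have e1 : (s * tab.length + r) / tab.length = s := code_div hr
        have e2 : (s * tab.length + r) % tab.length = r := code_mod hr
        have e3 : s * tab.length + r < W * tab.length := by nlinarith
        have e4 : tab.getD r ent0 = R.entry (R.nxt^[t] c) s := by
          rw [List.getD_eq_getElem _ _ hr, he]
        refine ⟨w ++ [s * tab.length + r], ?_, ?_, fun i => ?_⟩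
        · intro a ha
          rcases List.mem_append.1 ha with h | h
          · exact a1 a h
          · rw [List.mem_singleton.1 h]; omega
        · simp only [List.foldl_append, List.foldl_cons, List.foldl_nil, b1]
          rw [dCtl, if_neg (by omega), e1, e2, e4, if_pos ⟨rfl, by omega, rfl⟩]
        · simp only [List.foldl_append, List.foldl_cons, List.foldl_nil, c1]
          have hlt : (if i < s then R.row (R.nxt^[t + 1] c) i else R.row (R.nxt^[t] c) i) < R.N := by
            split_ifs
            · exact R.lt _ (hv _) _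
            · exact R.lt _ (hv _) _
          have := code_lt (R.lt _ (hv t) i) hlt
          rw [dCell, if_neg (by omega), if_neg (by omega), e1, e2, e4, code_div hlt, if_pos]
          · by_cases h : s = i
            · subst h
              simp only [if_true, Nat.lt_add_one, Function.iterate_succ_apply']; rfl
            · rw [if_neg h]
              have : i < s + 1 ↔ i < s := by omega
              simp only [this]
          · refine ⟨?_, R.lt _ (R.val_nxt _ (hv t)) _⟩
            simp only [chk, Bool.and_eq_true, List.all_eq_true, decide_eq_true_eq, Rows.entry,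
              Rows.view, Rows.win, mem_zipIdx_map]
            constructor
            · rintro ⟨x, y⟩ ⟨_, h⟩
              by_cases h2 : y = i
              · right; rw [← h2]; exact h
              · left; exact h2
            · rintro ⟨x, y⟩ ⟨_, h⟩
              by_cases h2 : s + y - R.D = i
              · right; rw [← h2]; exact h
              · left; exact h2
    obtain ⟨w, a1, b1, c1⟩ := key W le_rfl
    refine ⟨w ++ [W * tab.length], ?_, ?_, fun i => ?_⟩
    · intro a ha
      rcases List.mem_append.1 ha with h | h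
      · exact a1 a h
      · rw [List.mem_singleton.1 h]; omega
    · simp only [List.foldl_append, List.foldl_cons, List.foldl_nil, b1]
      rw [dCtl, if_pos rfl, if_pos rfl]
    · simp only [List.foldl_append, List.foldl_cons, List.foldl_nil, c1]
      have hlt : (if i < W then R.row (R.nxt^[t + 1] c) i else R.row (R.nxt^[t] c) i) < R.N := by
        split_ifs
        · exact R.lt _ (hv _) _
        · exact R.lt _ (hv _) _
      have := code_lt (R.lt _ (hv t) i) hlt
      rw [dCell, if_neg (by omega), if_pos rfl, code_mod hlt]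
      split_ifs with h
      · rfl
      · rw [hb t i (by omega)]

theorem evals_nxtC {K : Type} [DecidableEq K] {Γ : K → Type} {Λ σ : Type} (M : Λ → Stmt Γ Λ σ)
    (c : Cfg Γ Λ σ) (t : ℕ) : ∃ t', (flip bind (step M))^[t'] (some c) = some ((nxtC M)^[t] c) := by
  induction t with
  | zero => exact ⟨0, rfl⟩
  | succ t ih =>
    obtain ⟨t', h⟩ := ih
    rw [Function.iterate_succ_apply']
    cases hs : step M ((nxtC M)^[t] c) with
    | none => exact ⟨t', by rw [h]; simp only [nxtC, hs, Option.getD_none]⟩
    | some d =>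
      refine ⟨t' + 1, ?_⟩
      rw [Function.iterate_succ_apply', h]
      simp only [nxtC, hs, Option.getD_some]
      exact hs

theorem hard_DFAI : HardFor InPSPACE DVal DFAI := by
  rintro L ⟨V, h, q, e, hsp⟩
  obtain ⟨R, en, hn, hr, hv, hi⟩ := exists_rows h.tm
  obtain ⟨tab, htab⟩ := R.exists_tab
  let cd : Bool → Option Bool → ℕ := fun b o => en (ly h.tm h.inputAlphabet.invFun b o)
  let fin : Bool → h.tm.Cfg := fun b => haltList h.tm [h.outputAlphabet.invFun b]
  let ini : List Bool → h.tm.Cfg := fun x => initList h.tm ((bits x).map h.inputAlphabet.invFun)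
  let W : List Bool → ℕ := fun x => q.eval (sz x) + 1
  let u : List Bool → List ℕ := fun x =>
    (List.range (W x + R.D)).map fun j => cd (j == 0) (bits x)[j]?
  have hu : ∀ x, ∀ i < W x + R.D, (u x).getD i 0 = R.row (ini x) i := by
    intro x i hi
    rw [hr, lay_init]
    simp [u, List.getD_eq_getElem?_getD, hi, cd]
  have hval : ∀ t c, R.Valid c → R.Valid (R.nxt^[t] c) := by
    intro t c hc
    induction t with
    | zero => exact hc
    | succ t ih => rw [Function.iterate_succ_apply']; exact R.val_nxt _ ih
  have hb : ∀ x t, ∀ i, W x ≤ i → R.row (R.nxt^[t + 1] (ini x)) i = R.row (R.nxt^[t] (ini x)) i := by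
    intro x t i hi
    have key : ∀ t, lay (R.nxt^[t] (ini x)) i = (none, fun _ => none) := by
      intro t
      obtain ⟨t', ht'⟩ := evals_nxtC h.tm.m (ini x) t
      have := hsp x t' _ ht'
      rw [hn]
      refine Prod.ext ?_ (funext fun k => ?_)
      · have : i ≠ 0 := by simp only [W] at hi; omega
        simp [lay, this]
      · have h2 := this k
        simp only [lay]
        exact List.getElem?_eq_none (h2.trans (by simp only [W, sz] at hi; omega))
    rw [hr, hr, key, key]
  have hrun : ∀ x, ∃ n, R.nxt^[n] (ini x) = fin (V x) := by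
    intro x
    obtain ⟨n, h1⟩ := h.outputsFun x
    exact ⟨n, by rw [hn]; exact nxtC_of_evals h.tm.m n _ _ h1⟩
  refine ⟨fun x => psInst R.D R.N tab (W x) (R.row (fin true) 0) (u x), ?_, fun x => ⟨?_, (e x).trans
    ⟨?_, ?_⟩⟩⟩
  · have hW : PT W := by fun_prop
    refine PT.psInst _ _ _ _ hW ?_
    exact PT.map (by fun_prop) (PT.fin2 cd (by fun_prop) (by fun_prop))
  · intro A hA
    simp only [psInst, List.mem_cons, List.mem_map, List.mem_range] at hA ⊢
    rcases hA with rfl | ⟨i, hi, rfl⟩
    · exact ⟨by simp, fun s hs a ha => by rw [dl_mkT _ hs ha]; exact dCtl_lt _ _ _ _ _ _⟩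
    · refine ⟨?_, fun s hs a ha => by rw [dl_mkT _ hs ha]; exact dCell_lt _ _ _ _ _ _ _⟩
      have := R.lt _ (hv ((bits x).map h.inputAlphabet.invFun)) i
      have := code_lt this this
      simp only
      rw [hu x i hi]; simp only [ini]; omega
  · intro hV
    obtain ⟨n, hn'⟩ := hrun x
    obtain ⟨w, a1, b1, c1⟩ := ps_complete R tab htab (W x) (ini x) (hv _) (hb x) n
    refine ⟨w, a1, fun A hA => ?_⟩
    simp only [psInst, List.mem_cons, List.mem_map, List.mem_range] at hA
    rcases hA with rfl | ⟨i, hi, rfl⟩
    · simp only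
      rw [run_mkT _ (fun _ _ _ _ => dCtl_lt _ _ _ _ _ _) w a1 _ (by omega), b1]; simp
    · have l0 := R.lt _ (hv ((bits x).map h.inputAlphabet.invFun)) i
      have l1 := code_lt l0 l0
      have l2 := R.lt _ (hval n _ (hv ((bits x).map h.inputAlphabet.invFun))) i
      simp only
      rw [hu x i hi, run_mkT _ (fun _ _ _ _ => dCell_lt _ _ _ _ _ _ _) w a1 _ (by
        simp only [ini]; omega), c1]
      simp only [List.mem_filter, List.mem_range, decide_eq_true_eq]
      refine ⟨code_lt l2 l2, ?_⟩
      rw [code_div l2, hn', hV]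
      by_cases h0 : i = 0
      · right; rw [h0]
      · left; exact h0
  · rintro ⟨w, a1, hw⟩
    simp only [psInst, List.mem_cons, List.mem_map, List.mem_range] at hw a1
    have b1 := hw _ (Or.inl rfl)
    simp only at b1
    rw [run_mkT _ (fun _ _ _ _ => dCtl_lt _ _ _ _ _ _) w a1 _ (by omega), List.mem_singleton] at b1
    have c1 : ∀ i < W x + R.D, w.foldl (dCell R.D R.N tab (W x) i)
        (R.row (ini x) i * R.N + R.row (ini x) i) < R.N * R.N ∧ (¬ i = 0 ∨
        w.foldl (dCell R.D R.N tab (W x) i) (R.row (ini x) i * R.N + R.row (ini x) i) / R.N =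
          R.row (fin true) 0) := by
      intro i hi
      have := hw _ (Or.inr ⟨i, hi, rfl⟩)
      have l0 := R.lt _ (hv ((bits x).map h.inputAlphabet.invFun)) i
      have l1 := code_lt l0 l0
      simp only at this
      rw [hu x i hi, run_mkT _ (fun _ _ _ _ => dCell_lt _ _ _ _ _ _ _) w a1 _ (by
        simp only [ini]; omega)] at this
      simpa using this
    obtain ⟨t, ht⟩ := ps_sound R tab htab (W x) (ini x) (hv _) (hb x) w a1 (b1.le.trans (Nat.zero_le _))
      (fun i hi => (c1 i hi).1)
    have p0 : 0 < W x + R.D := by have := R.hD; omega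
    have d1 := (c1 0 p0).2.resolve_left (by simp)
    have l2 := hval t _ (hv ((bits x).map h.inputAlphabet.invFun))
    rw [ht 0 p0, b1, if_neg (by omega), code_div (R.lt _ l2 0)] at d1
    have d2 := hi _ _ _ _ l2 d1
    have d3 : (R.nxt^[t] (ini x)).l = none := by
      have := congrArg Prod.fst d2
      simp only [lay, if_true, Option.some.injEq, Prod.mk.injEq] at this
      exact this.1
    obtain ⟨n, hn'⟩ := hrun x
    have d4 : R.nxt^[t] (ini x) = fin (V x) := by
      have x1 : R.nxt^[n] (R.nxt^[t] (ini x)) = R.nxt^[t] (ini x) := by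
        rw [hn]; exact nxtC_halt _ _ (by rw [← hn]; exact d3) _
      rw [← x1, ← Function.iterate_add_apply, Nat.add_comm, Function.iterate_add_apply, hn', hn]
      exact nxtC_halt _ _ rfl _
    erw [d4] at d2
    have h4 := congrFun (congrArg Prod.snd d2) h.tm.k₁
    simpa [lay, fin, haltList] using h4

end Pool.Agent.H11.PT
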