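import Pool.Agent.H11.PTDefs

set_option autoImplicit false

namespace Pool.Agent.H11.PT

open Function

inductive Pg : Type
  | push : ℕ → Bool → Pg
  | pop : ℕ → Pg
  | seq : Pg → Pg → Pg
  | ite : ℕ → Option Bool → Pg → Pg → Pg
  | loop : ℕ → Option Bool → Pg → Pg

abbrev St := ℕ → List Bool

inductive Run : Pg → St → St → ℕ → Prop
  | push (k : ℕ) (b : Bool) (s : St) : Run (.push k b) s (update s k (b :: s k)) 1
  | pop (k : ℕ) (s : St) : Run (.pop k) s (update s k (s k).tail) 1
  | seq {p q : Pg} {s s' s'' : St} {t t' : ℕ} :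
      Run p s s' t → Run q s' s'' t' → Run (.seq p q) s s'' (t + t')
  | iteT {k : ℕ} {b : Option Bool} {p q : Pg} {s s' : St} {t : ℕ} :
      (s k).head? = b → Run p s s' t → Run (.ite k b p q) s s' (t + 1)
  | iteF {k : ℕ} {b : Option Bool} {p q : Pg} {s s' : St} {t : ℕ} :
      (s k).head? ≠ b → Run q s s' t → Run (.ite k b p q) s s' (t + 1)
  | loopD {k : ℕ} {b : Option Bool} {p : Pg} {s : St} :
      (s k).head? = b → Run (.loop k b p) s s 1
  | loopC {k : ℕ} {b : Option Bool} {p : Pg} {s s' s'' : St} {t t' : ℕ} :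
      (s k).head? ≠ b → Run p s s' t → Run (.loop k b p) s' s'' t' →
        Run (.loop k b p) s s'' (t + t' + 1)
  | mono {p : Pg} {s s' : St} {t t' : ℕ} : Run p s s' t → t ≤ t' → Run p s s' t'

theorem Run.len {p : Pg} {s s' : St} {t : ℕ} (h : Run p s s' t) (k : ℕ) :
    (s' k).length ≤ (s k).length + t := by
  induction h with
  | push j b s => by_cases h : k = j <;> simp [h]
  | pop j s => by_cases h : k = j <;> simp [h]; omega
  | seq _ _ a b => omega
  | iteT _ _ a => omega
  | iteF _ _ a => omega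
  | loopD _ => omega
  | loopC _ _ _ a b => omega
  | mono _ _ a => omega

def ren (ρ : ℕ → ℕ) : Pg → Pg
  | .push k b => .push (ρ k) b
  | .pop k => .pop (ρ k)
  | .seq p q => .seq (ren ρ p) (ren ρ q)
  | .ite k b p q => .ite (ρ k) b (ren ρ p) (ren ρ q)
  | .loop k b p => .loop (ρ k) b (ren ρ p)

theorem Run.ren {ρ : ℕ → ℕ} (φ : St → St) (h1 : ∀ s k, φ s (ρ k) = s k)
    (h2 : ∀ s k v, φ (update s k v) = update (φ s) (ρ k) v)
    {p : Pg} {s s' : St} {t : ℕ} (h : Run p s s' t) : Run (ren ρ p) (φ s) (φ s') t := by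
  induction h with
  | push j b s => rw [h2, ← h1 s j]; exact Run.push _ _ _
  | pop j s => rw [h2, ← h1 s j]; exact Run.pop _ _
  | seq _ _ a b => exact Run.seq a b
  | iteT h _ a => exact Run.iteT (by rw [h1]; exact h) a
  | iteF h _ a => exact Run.iteF (by rw [h1]; exact h) a
  | loopD h => exact Run.loopD (by rw [h1]; exact h)
  | loopC h _ _ a b => exact Run.loopC (by rw [h1]; exact h) a b
  | mono _ h a => exact Run.mono a h

def Lab : Pg → Type
  | .push _ _ => Unit
  | .pop _ => Unit
  | .seq p q => Lab p ⊕ Lab q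
  | .ite _ _ p q => Unit ⊕ (Lab p ⊕ Lab q)
  | .loop _ _ p => Unit ⊕ Lab p

theorem labFin : (p : Pg) → Finite (Lab p)
  | .push _ _ => inferInstanceAs (Finite Unit)
  | .pop _ => inferInstanceAs (Finite Unit)
  | .seq p q => by
      have := labFin p; have := labFin q
      exact inferInstanceAs (Finite (Lab p ⊕ Lab q))
  | .ite _ _ p q => by
      have := labFin p; have := labFin q
      exact inferInstanceAs (Finite (Unit ⊕ (Lab p ⊕ Lab q)))
  | .loop _ _ p => by
      have := labFin p
      exact inferInstanceAs (Finite (Unit ⊕ Lab p))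

def ent : (p : Pg) → Lab p
  | .push _ _ => ()
  | .pop _ => ()
  | .seq p _ => Sum.inl (ent p)
  | .ite _ _ _ _ => Sum.inl ()
  | .loop _ _ _ => Sum.inl ()

def bd : Pg → ℕ
  | .push k _ => k
  | .pop k => k
  | .seq p q => max (bd p) (bd q)
  | .ite k _ p q => max k (max (bd p) (bd q))
  | .loop k _ p => max k (bd p)

def kap (N k : ℕ) : Fin (N + 1) := ⟨min k N, by omega⟩

abbrev Stm (N : ℕ) (Λ : Type) := Turing.TM2.Stmt (fun _ : Fin (N + 1) => Bool) Λ Bool

def nx {N : ℕ} {Λ : Type} : Option Λ → Stm N Λ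
  | none => .halt
  | some l => .goto fun _ => l

def tst {N : ℕ} {Λ : Type} (k : ℕ) (b : Option Bool) (x y : Option Λ) : Stm N Λ :=
  .peek (kap N k) (fun _ o => decide (o = b)) (.branch id (.load (fun _ => false) (nx x)) (nx y))

def trn (N : ℕ) {Λ : Type} : (p : Pg) → (Lab p → Λ) → Option Λ → Lab p → Stm N Λ
  | .push k b, _, n, _ => .push (kap N k) (fun _ => b) (nx n)
  | .pop k, _, n, _ => .pop (kap N k) (fun v _ => v) (nx n)
  | .seq p q, e, _, Sum.inl l => trn N p (fun a => e (Sum.inl a)) (some (e (Sum.inr (ent q)))) l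
  | .seq _ q, e, n, Sum.inr l => trn N q (fun a => e (Sum.inr a)) n l
  | .ite k b p q, e, _, Sum.inl _ =>
      tst k b (some (e (Sum.inr (Sum.inl (ent p))))) (some (e (Sum.inr (Sum.inr (ent q)))))
  | .ite _ _ p _, e, n, Sum.inr (Sum.inl l) => trn N p (fun a => e (Sum.inr (Sum.inl a))) n l
  | .ite _ _ _ q, e, n, Sum.inr (Sum.inr l) => trn N q (fun a => e (Sum.inr (Sum.inr a))) n l
  | .loop k b p, e, n, Sum.inl _ => tst k b n (some (e (Sum.inr (ent p))))
  | .loop _ _ p, e, _, Sum.inr l => trn N p (fun a => e (Sum.inr a)) (some (e (Sum.inl ()))) l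

def cf (N : ℕ) {Λ : Type} (l : Option Λ) (s : St) :
    Turing.TM2.Cfg (fun _ : Fin (N + 1) => Bool) Λ Bool := ⟨l, false, fun j => s j⟩

theorem nx_step {N : ℕ} {Λ : Type} (n : Option Λ) (S : Fin (N + 1) → List Bool) :
    Turing.TM2.stepAux (nx n : Stm N Λ) false S = ⟨n, false, S⟩ := by
  cases n <;> rfl

theorem upd_kap {N k : ℕ} (hk : k ≤ N) (s : St) (v : List Bool) :
    update (fun j : Fin (N + 1) => s j) (kap N k) v = fun j : Fin (N + 1) => update s k v j := by
  funext j
  have : (kap N k).val = k := by simp [kap, hk]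
  by_cases h : j = kap N k
  · subst h; rw [update_self, this, update_self]
  · rw [update_of_ne h, update_of_ne]
    intro h'; apply h; ext; rw [this]; exact h'

theorem kap_val {N k : ℕ} (hk : k ≤ N) : ((kap N k : Fin (N + 1)) : ℕ) = k := by simp [kap, hk]

theorem tst_step {N : ℕ} {Λ : Type} {k : ℕ} (hk : k ≤ N) (b : Option Bool) (x y : Option Λ)
    (s : St) : Turing.TM2.stepAux (tst k b x y : Stm N Λ) false (fun j => s j) =
      cf N (if (s k).head? = b then x else y) s := by
  unfold tst
  simp only [Turing.TM2.stepAux, kap_val hk, id]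
  by_cases h : (s k).head? = b
  · simp only [h, decide_true, cond_true, if_true]; exact nx_step _ _
  · simp only [h, decide_false, cond_false, if_false]; exact nx_step _ _

def Goes {σ : Type} (f : σ → Option σ) (a b : σ) (t : ℕ) : Prop :=
  ∃ t0 ≤ t, (flip bind f)^[t0] (some a) = some b

theorem Goes.trans {σ : Type} {f : σ → Option σ} {a b c : σ} {t t' : ℕ} (h : Goes f a b t)
    (h' : Goes f b c t') : Goes f a c (t + t') := by
  obtain ⟨u, hu, e⟩ := h
  obtain ⟨u', hu', e'⟩ := h'
  exact ⟨u' + u, by omega, by rw [Function.iterate_add_apply, e, e']⟩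

theorem Goes.one {σ : Type} {f : σ → Option σ} {a b : σ} (h : f a = some b) : Goes f a b 1 :=
  ⟨1, le_rfl, h⟩

theorem Goes.mono {σ : Type} {f : σ → Option σ} {a b : σ} {t t' : ℕ} (h : Goes f a b t)
    (ht : t ≤ t') : Goes f a b t' := by
  obtain ⟨u, hu, e⟩ := h
  exact ⟨u, by omega, e⟩

theorem Run.sim {N : ℕ} {Λ : Type} (M : Λ → Stm N Λ) {p : Pg} {s s' : St} {t : ℕ}
    (h : Run p s s' t) : bd p ≤ N → ∀ (e : Lab p → Λ) (n : Option Λ),
      (∀ l, M (e l) = trn N p e n l) →
        Goes (Turing.TM2.step M) (cf N (some (e (ent p))) s) (cf N n s') t := by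
  induction h with
  | push k b s =>
    intro hb e n hM
    apply Goes.one
    simp only [bd] at hb
    simp only [cf, Turing.TM2.step, hM, trn, Turing.TM2.stepAux, nx_step, upd_kap hb, kap_val hb]
  | pop k s =>
    intro hb e n hM
    apply Goes.one
    simp only [bd] at hb
    simp only [cf, Turing.TM2.step, hM, trn, Turing.TM2.stepAux, nx_step, upd_kap hb, kap_val hb]
  | @seq p q s s' s'' t t' _ _ a b =>
    intro hb e n hM
    simp only [bd, max_le_iff] at hb
    exact (a hb.1 _ _ (fun l => hM (Sum.inl l))).trans (b hb.2 _ _ (fun l => hM (Sum.inr l)))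
  | @iteT k b p q s s' t h _ a =>
    intro hb e n hM
    simp only [bd, max_le_iff] at hb
    have h1 : Goes (Turing.TM2.step M) (cf N (some (e (ent (.ite k b p q)))) s)
        (cf N (some (e (Sum.inr (Sum.inl (ent p))))) s) 1 := by
      apply Goes.one
      have := hM (Sum.inl ())
      simp only [cf, Turing.TM2.step, ent, this, trn]
      rw [tst_step hb.1, if_pos h]; rfl
    exact (h1.trans (a hb.2.1 _ _ (fun l => hM (Sum.inr (Sum.inl l))))).mono (by omega)
  | @iteF k b p q s s' t h _ a =>
    intro hb e n hM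
    simp only [bd, max_le_iff] at hb
    have h1 : Goes (Turing.TM2.step M) (cf N (some (e (ent (.ite k b p q)))) s)
        (cf N (some (e (Sum.inr (Sum.inr (ent q))))) s) 1 := by
      apply Goes.one
      have := hM (Sum.inl ())
      simp only [cf, Turing.TM2.step, ent, this, trn]
      rw [tst_step hb.1, if_neg h]; rfl
    exact (h1.trans (a hb.2.2 _ _ (fun l => hM (Sum.inr (Sum.inr l))))).mono (by omega)
  | @loopD k b p s h =>
    intro hb e n hM
    simp only [bd, max_le_iff] at hb
    apply Goes.one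
    have := hM (Sum.inl ())
    simp only [cf, Turing.TM2.step, ent, this, trn]
    rw [tst_step hb.1, if_pos h]; rfl
  | @loopC k b p s s' s'' t t' h _ _ a c =>
    intro hb e n hM
    have hb' := hb
    simp only [bd, max_le_iff] at hb
    have h1 : Goes (Turing.TM2.step M) (cf N (some (e (ent (.loop k b p)))) s)
        (cf N (some (e (Sum.inr (ent p)))) s) 1 := by
      apply Goes.one
      have := hM (Sum.inl ())
      simp only [cf, Turing.TM2.step, ent, this, trn]
      rw [tst_step hb.1, if_neg h]; rfl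
    exact ((h1.trans (a hb.2 _ _ (fun l => hM (Sum.inr l)))).trans (c hb' e n hM)).mono (by omega)
  | mono _ h a =>
    intro hb e n hM
    exact (a hb e n hM).mono h

def cs (a : List Bool) (s : St) : St
  | 0 => a
  | n + 1 => s n

def E : St := fun _ => []

def RT {α β : Type} (ea : α → List Bool) (eb : β → List Bool) (f : α → β) : Prop :=
  ∃ (P : Pg) (q : Polynomial ℕ), ∀ x, Run P (cs (ea x) E) (cs (eb (f x)) E) (q.eval (ea x).length)

noncomputable def mach (P : Pg) : Turing.FinTM2 :=
  letI := labFin P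
  letI := Fintype.ofFinite (Lab P)
  { K := Fin (bd P + 1)
    k₀ := 0
    k₁ := 0
    Γ := fun _ => Bool
    Λ := Lab P
    main := ent P
    σ := Bool
    initialState := false
    m := trn (bd P) P id none }

theorem cs_E_eq (N : ℕ) (a : List Bool) (j : Fin (N + 1)) :
    cs a E j = if j = 0 then a else [] := by
  obtain ⟨j, hj⟩ := j
  cases j with
  | zero => simp [cs]
  | succ j => simp [cs, E]

theorem RT.polyTime {α β : Type} {ea : α → List Bool} {eb : β → List Bool} {f : α → β}
    (h : RT ea eb f) : PolyTime ea eb f := by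
  obtain ⟨P, q, h⟩ := h
  have key : ∀ x, Nonempty (Turing.TM2OutputsInTime (mach P) (ea x) (some (eb (f x)))
      (q.eval (ea x).length)) := by
    intro x
    obtain ⟨t0, ht, e⟩ := (h x).sim (N := bd P) (trn (bd P) P id none) le_rfl id none
      (fun _ => rfl)
    refine ⟨⟨⟨t0, ?_⟩, ht⟩⟩
    have h1 : Turing.initList (mach P) (ea x) = cf (bd P) (some (ent P)) (cs (ea x) E) := by
      unfold Turing.initList cf
      congr 1
      funext j
      rw [cs_E_eq]
      split_ifs with h1 h2 h2
      · rfl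
      · exact absurd h1 h2
      · exact absurd h2 h1
      · rfl
    have h2 : Turing.haltList (mach P) (eb (f x)) = cf (bd P) none (cs (eb (f x)) E) := by
      unfold Turing.haltList cf
      congr 1
      funext j
      rw [cs_E_eq]
      split_ifs with h1 h2 h2
      · rfl
      · exact absurd h1 h2
      · exact absurd h2 h1
      · rfl
    rw [h1, Option.map_some, h2]
    exact e
  refine ⟨⟨⟨mach P, Equiv.refl Bool, Equiv.refl Bool⟩, q, fun x => ?_⟩⟩
  have := (key x).some
  have e1 : ∀ l : List Bool, List.map (Equiv.refl Bool).invFun l = l := fun l => List.map_id l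
  exact (e1 (ea x)).symm ▸ (e1 (eb (f x))).symm ▸ this

end Pool.Agent.H11.PT
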