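import Pool.Agent.H11.PT1

set_option autoImplicit false

namespace Pool.Agent.H11.PT

open Polynomial

def s3 (a b c : List Bool) : St := cs a (cs b (cs c E))

theorem cs_nil_E : cs [] E = E := by
  funext n; cases n <;> rfl

theorem cs_E (a : List Bool) : cs a E = s3 a [] [] := by
  simp [s3, cs_nil_E]

@[simp] theorem s3_0 (a b c : List Bool) : s3 a b c 0 = a := rfl
@[simp] theorem s3_1 (a b c : List Bool) : s3 a b c 1 = b := rfl
@[simp] theorem s3_2 (a b c : List Bool) : s3 a b c 2 = c := rfl
@[simp] theorem up_0 (a b c v : List Bool) : Function.update (s3 a b c) 0 v = s3 v b c := by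
  funext n; rcases n with _ | _ | _ | n <;> simp [s3, cs, Function.update]
@[simp] theorem up_1 (a b c v : List Bool) : Function.update (s3 a b c) 1 v = s3 a v c := by
  funext n; rcases n with _ | _ | _ | n <;> simp [s3, cs, Function.update]
@[simp] theorem up_2 (a b c v : List Bool) : Function.update (s3 a b c) 2 v = s3 a b v := by
  funext n; rcases n with _ | _ | _ | n <;> simp [s3, cs, Function.update]

theorem Run.cast {p : Pg} {s s' u u' : St} {t t' : ℕ} (h : Run p s s' t) (h1 : u = s)
    (h2 : u' = s') (h3 : t ≤ t') : Run p u u' t' := by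
  subst h1 h2; exact h.mono h3

theorem push0 (x : Bool) (a b c : List Bool) : Run (.push 0 x) (s3 a b c) (s3 (x :: a) b c) 1 :=
  (Run.push 0 x _).cast rfl (by simp) le_rfl
theorem push1 (x : Bool) (a b c : List Bool) : Run (.push 1 x) (s3 a b c) (s3 a (x :: b) c) 1 :=
  (Run.push 1 x _).cast rfl (by simp) le_rfl
theorem push2 (x : Bool) (a b c : List Bool) : Run (.push 2 x) (s3 a b c) (s3 a b (x :: c)) 1 :=
  (Run.push 2 x _).cast rfl (by simp) le_rfl
theorem pop0 (a b c : List Bool) : Run (.pop 0) (s3 a b c) (s3 a.tail b c) 1 :=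
  (Run.pop 0 _).cast rfl (by simp) le_rfl
theorem pop1 (a b c : List Bool) : Run (.pop 1) (s3 a b c) (s3 a b.tail c) 1 :=
  (Run.pop 1 _).cast rfl (by simp) le_rfl
theorem pop2 (a b c : List Bool) : Run (.pop 2) (s3 a b c) (s3 a b c.tail) 1 :=
  (Run.pop 2 _).cast rfl (by simp) le_rfl

/-- generic loop that consumes register `i` bit by bit -/
def eat (i : ℕ) (pt pf : Pg) : Pg := .loop i none (.ite i (some true) pt pf)

theorem eat_run (i : ℕ) (pt pf : Pg) (σ : List Bool → List Bool → St) (c : ℕ)
    (h0 : ∀ l r, σ l r i = r)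
    (ht : ∀ l r, Run pt (σ l (true :: r)) (σ (true :: l) r) c)
    (hf : ∀ l r, Run pf (σ l (false :: r)) (σ (false :: l) r) c) (r : List Bool) :
    ∀ l, Run (eat i pt pf) (σ l r) (σ (r.reverse ++ l) []) ((c + 2) * r.length + 1) := by
  induction r with
  | nil => intro l; exact Run.loopD (by simp [h0])
  | cons b r ih =>
    intro l
    cases b
    · refine (Run.loopC (by simp [h0]) (Run.iteF (by simp [h0]) (hf l r)) (ih _)).cast rfl
        (by simp) ?_
      simp; ring_nf; omega
    · refine (Run.loopC (by simp [h0]) (Run.iteT (by simp [h0]) (ht l r)) (ih _)).cast rfl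
        (by simp) ?_
      simp; ring_nf; omega

def mv (i j : ℕ) : Pg := eat i (.seq (.pop i) (.push j true)) (.seq (.pop i) (.push j false))

theorem mv02 (a b c : List Bool) :
    Run (mv 0 2) (s3 a b c) (s3 [] b (a.reverse ++ c)) (4 * a.length + 1) :=
  eat_run 0 _ _ (fun l r => s3 r b l) 2 (fun _ _ => rfl)
    (fun _ _ => (pop0 _ _ _).seq (push2 _ _ _ _)) (fun _ _ => (pop0 _ _ _).seq (push2 _ _ _ _)) a c
theorem mv01 (a b c : List Bool) :
    Run (mv 0 1) (s3 a b c) (s3 [] (a.reverse ++ b) c) (4 * a.length + 1) :=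
  eat_run 0 _ _ (fun l r => s3 r l c) 2 (fun _ _ => rfl)
    (fun _ _ => (pop0 _ _ _).seq (push1 _ _ _ _)) (fun _ _ => (pop0 _ _ _).seq (push1 _ _ _ _)) a b
theorem mv12 (a b c : List Bool) :
    Run (mv 1 2) (s3 a b c) (s3 a [] (b.reverse ++ c)) (4 * b.length + 1) :=
  eat_run 1 _ _ (fun l r => s3 a r l) 2 (fun _ _ => rfl)
    (fun _ _ => (pop1 _ _ _).seq (push2 _ _ _ _)) (fun _ _ => (pop1 _ _ _).seq (push2 _ _ _ _)) b c
theorem mv10 (a b c : List Bool) :
    Run (mv 1 0) (s3 a b c) (s3 (b.reverse ++ a) [] c) (4 * b.length + 1) :=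
  eat_run 1 _ _ (fun l r => s3 l r c) 2 (fun _ _ => rfl)
    (fun _ _ => (pop1 _ _ _).seq (push0 _ _ _ _)) (fun _ _ => (pop1 _ _ _).seq (push0 _ _ _ _)) b a
theorem mv20 (a b c : List Bool) :
    Run (mv 2 0) (s3 a b c) (s3 (c.reverse ++ a) b []) (4 * c.length + 1) :=
  eat_run 2 _ _ (fun l r => s3 l b r) 2 (fun _ _ => rfl)
    (fun _ _ => (pop2 _ _ _).seq (push0 _ _ _ _)) (fun _ _ => (pop2 _ _ _).seq (push0 _ _ _ _)) c a

def clr (i : ℕ) : Pg := eat i (.pop i) (.pop i)

theorem clr0 (a b c : List Bool) : Run (clr 0) (s3 a b c) (s3 [] b c) (3 * a.length + 1) :=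
  eat_run 0 _ _ (fun _ r => s3 r b c) 1 (fun _ _ => rfl)
    (fun _ _ => pop0 _ _ _) (fun _ _ => pop0 _ _ _) a []
theorem clr1 (a b c : List Bool) : Run (clr 1) (s3 a b c) (s3 a [] c) (3 * b.length + 1) :=
  eat_run 1 _ _ (fun _ r => s3 a r c) 1 (fun _ _ => rfl)
    (fun _ _ => pop1 _ _ _) (fun _ _ => pop1 _ _ _) b []

def dup : Pg := .seq (mv 0 2) (eat 2 (.seq (.pop 2) (.seq (.push 0 true) (.push 1 true)))
  (.seq (.pop 2) (.seq (.push 0 false) (.push 1 false))))

theorem dup_run (a : List Bool) : Run dup (s3 a [] []) (s3 a a []) (9 * a.length + 2) := by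
  have := eat_run 2 (.seq (.pop 2) (.seq (.push 0 true) (.push 1 true)))
    (.seq (.pop 2) (.seq (.push 0 false) (.push 1 false))) (fun l r => s3 l l r) 3 (fun _ _ => rfl)
    (fun _ _ => (pop2 _ _ _).seq ((push0 _ _ _ _).seq (push1 _ _ _ _)))
    (fun _ _ => (pop2 _ _ _).seq ((push0 _ _ _ _).seq (push1 _ _ _ _))) (a.reverse ++ []) []
  refine ((mv02 a [] []).seq this).cast rfl (by simp) ?_
  simp; omega

def parseL : Pg := .loop 2 none (.ite 0 (some true)
  (.seq (.pop 0) (.seq (.push 1 true) (.push 2 true)))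
  (.seq (.pop 0) (.seq (.push 1 false) (.pop 2))))

theorem parseL_run (a : T) : ∀ (r acc c : List Bool) (s'' : St) (t : ℕ),
    Run parseL (s3 r ((ser a).reverse ++ acc) c) s'' t →
      Run parseL (s3 (ser a ++ r) acc (true :: c)) s'' (t + 5 * (ser a).length) := by
  induction a with
  | nil =>
    intro r acc c s'' t h
    refine (Run.loopC (by simp) (Run.iteF (by simp [ser])
      ((pop0 _ _ _).seq ((push1 _ _ _ _).seq (pop2 _ _ _)))) (h.cast (by simp [ser]) rfl le_rfl)).cast
      rfl rfl ?_
    simp [ser]; omega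
  | cons a b iha ihb =>
    intro r acc c s'' t h
    have h1 := ihb r ((ser a).reverse ++ true :: acc) c s'' t (h.cast (by simp [ser]) rfl le_rfl)
    have h2 := iha _ _ _ _ _ h1
    refine (Run.loopC (by simp) (Run.iteT (by simp [ser])
      ((pop0 _ _ _).seq ((push1 _ _ _ _).seq (push2 _ _ _ _)))) (h2.cast (by simp [ser]) rfl le_rfl)).cast
      rfl rfl ?_
    simp [ser]; omega

def parse : Pg := .seq (.push 2 true) parseL

theorem parse_run (a : T) (r : List Bool) :
    Run parse (s3 (ser a ++ r) [] []) (s3 r (ser a).reverse []) (5 * (ser a).length + 2) := by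
  have h := parseL_run a r [] [] (s3 r ((ser a).reverse ++ []) []) 1 (Run.loopD (by simp))
  refine ((push2 _ _ _ _).seq h).cast rfl (by simp) (by omega)

def skip : Pg := .seq (.push 0 true) (.pop 0)

theorem skip_run (a b c : List Bool) : Run skip (s3 a b c) (s3 a b c) 2 :=
  (push0 _ _ _ _).seq (pop0 _ _ _)

def T.hd : T → T
  | .nil => .nil
  | .cons a _ => a

def T.tl : T → T
  | .nil => .nil
  | .cons _ b => b

def pHd : Pg := .ite 0 (some true) (.seq (.pop 0) (.seq parse (.seq (clr 0) (mv 1 0)))) skip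
def pTl : Pg := .ite 0 (some true) (.seq (.pop 0) (.seq parse (clr 1))) skip

theorem pHd_run (t : T) :
    Run pHd (s3 (ser t) [] []) (s3 (ser t.hd) [] []) (9 * (ser t).length + 9) := by
  cases t with
  | nil => exact (Run.iteF (by simp [ser]) (skip_run _ _ _)).mono (by omega)
  | cons a b =>
    refine (Run.iteT (by simp [ser]) ((pop0 _ _ _).seq (((parse_run a (ser b)).cast
      (by simp [ser]) rfl le_rfl).seq ((clr0 _ _ _).seq (mv10 _ _ _))))).cast rfl
      (by simp [T.hd]) ?_
    simp [ser]; omega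

theorem pTl_run (t : T) :
    Run pTl (s3 (ser t) [] []) (s3 (ser t.tl) [] []) (9 * (ser t).length + 9) := by
  cases t with
  | nil => exact (Run.iteF (by simp [ser]) (skip_run _ _ _)).mono (by omega)
  | cons a b =>
    refine (Run.iteT (by simp [ser]) ((pop0 _ _ _).seq (((parse_run a (ser b)).cast
      (by simp [ser]) rfl le_rfl).seq (clr1 _ _ _)))).cast rfl
      (by simp [T.tl]) ?_
    simp [ser]; omega

def pushes (i : ℕ) : List Bool → Pg
  | [] => skip
  | b :: l => .seq (pushes i l) (.push i b)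

theorem pushes0 (l a b c : List Bool) :
    Run (pushes 0 l) (s3 a b c) (s3 (l ++ a) b c) (l.length + 2) := by
  induction l with
  | nil => exact skip_run _ _ _
  | cons x l ih => exact (ih.seq (push0 _ _ _ _)).cast rfl rfl (by simp)

theorem pushes1 (l a b c : List Bool) :
    Run (pushes 1 l) (s3 a b c) (s3 a (l ++ b) c) (l.length + 2) := by
  induction l with
  | nil => exact skip_run _ _ _
  | cons x l ih => exact (ih.seq (push1 _ _ _ _)).cast rfl rfl (by simp)

theorem ev_mono (q : ℕ[X]) {a b : ℕ} (h : a ≤ b) : q.eval a ≤ q.eval b := by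
  induction q using Polynomial.induction_on' with
  | add p q hp hq => simp only [eval_add]; omega
  | monomial n c => simp only [eval_monomial]; gcongr

theorem RT.out_len {α β : Type} {ea : α → List Bool} {eb : β → List Bool} {f : α → β}
    (h : RT ea eb f) : ∃ q : ℕ[X], ∀ x, (eb (f x)).length ≤ q.eval (ea x).length := by
  obtain ⟨P, q, h⟩ := h
  refine ⟨X + q, fun x => ?_⟩
  have := (h x).len 0
  simpa [cs] using this

theorem RT.comp {α β γ : Type} {ea : α → List Bool} {eb : β → List Bool} {ec : γ → List Bool}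
    {f : β → γ} {g : α → β} (hf : RT eb ec f) (hg : RT ea eb g) : RT ea ec (fun x => f (g x)) := by
  obtain ⟨r, hr⟩ := hg.out_len
  obtain ⟨P, q, h⟩ := hf
  obtain ⟨P', q', h'⟩ := hg
  refine ⟨.seq P' P, q' + q.comp r, fun x => ((h' x).seq (h (g x))).mono ?_⟩
  simp only [eval_add, eval_comp]
  have := ev_mono q (hr x)
  omega

theorem RT.of_eq {α β α' β' : Type} {ea : α → List Bool} {eb : β → List Bool} {f : α → β}
    {ea' : α' → List Bool} {eb' : β' → List Bool} {f' : α' → β'} (h : RT ea eb f) (φ : α' → α)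
    (h1 : ∀ y, ea (φ y) = ea' y) (h2 : ∀ y, eb (f (φ y)) = eb' (f' y)) : RT ea' eb' f' := by
  obtain ⟨P, q, h⟩ := h
  refine ⟨P, q, fun y => ?_⟩
  rw [← h1, ← h2]; exact h _

theorem RT.id {α : Type} (ea : α → List Bool) : RT ea ea (fun x => x) :=
  ⟨skip, C 2, fun x => by rw [cs_E]; simpa using skip_run _ _ _⟩

theorem RT.const {α β : Type} (ea : α → List Bool) (eb : β → List Bool) (b : β) :
    RT ea eb (fun _ => b) := by
  refine ⟨.seq (clr 0) (pushes 0 (eb b)), C 3 * X + C ((eb b).length + 3), fun x => ?_⟩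
  rw [cs_E, cs_E]
  refine ((clr0 _ _ _).seq (pushes0 _ _ _ _)).cast rfl (by simp) ?_
  simp; omega

theorem RT.hd : RT ser ser T.hd :=
  ⟨pHd, C 9 * X + C 9, fun t => by rw [cs_E, cs_E]; simpa using pHd_run t⟩

theorem RT.tl : RT ser ser T.tl :=
  ⟨pTl, C 9 * X + C 9, fun t => by rw [cs_E, cs_E]; simpa using pTl_run t⟩

theorem Run.sh1 {p : Pg} {s s' : St} {t : ℕ} (h : Run p s s' t) (a : List Bool) :
    Run (PT.ren Nat.succ p) (cs a s) (cs a s') t := by
  refine h.ren (cs a) (fun _ _ => rfl) ?_
  intro s k v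
  funext n
  cases n with
  | zero => simp [cs]
  | succ n => by_cases h : n = k <;> simp [cs, Function.update, h]

def sk (n : ℕ) : ℕ := if n = 0 then 0 else n + 1

theorem Run.sh0 {p : Pg} {s s' : St} {t : ℕ} (h : Run p s s' t) (b : List Bool) :
    Run (PT.ren sk p) (cs (s 0) (cs b fun n => s (n + 1)))
      (cs (s' 0) (cs b fun n => s' (n + 1))) t := by
  refine h.ren (fun s => cs (s 0) (cs b fun n => s (n + 1))) ?_ ?_
  · intro s k
    cases k <;> simp [sk, cs]
  · intro s k v
    funext n
    rcases n with _ | _ | n <;> rcases k with _ | k <;> simp [cs, Function.update, sk]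

theorem RT.pair {α β γ : Type} {ea : α → List Bool} {eb : β → List Bool} {ec : γ → List Bool}
    {f : α → β} {g : α → γ} (hf : RT ea eb f) (hg : RT ea ec g) :
    RT ea (fun p : β × γ => true :: (eb p.1 ++ ec p.2)) (fun x => (f x, g x)) := by
  obtain ⟨r, hr⟩ := hf.out_len
  obtain ⟨P, q, h⟩ := hf
  obtain ⟨P', q', h'⟩ := hg
  refine ⟨.seq dup (.seq (ren Nat.succ P) (.seq (ren sk P') (.seq (mv 1 2) (.seq (mv 2 0)
    (.push 0 true))))), C 9 * X + q + q' + C 8 * r + C 5, fun x => ?_⟩
  have a1 : Run (ren Nat.succ P) (s3 (ea x) (ea x) []) (s3 (ea x) (eb (f x)) []) _ :=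
    ((h x).sh1 (ea x)).cast (by simp [s3, cs_nil_E]) (by simp [s3, cs_nil_E]) le_rfl
  have a2 : Run (ren sk P') (s3 (ea x) (eb (f x)) []) (s3 (ec (g x)) (eb (f x)) []) _ :=
    ((h' x).sh0 (eb (f x))).cast (by simp [s3, cs_nil_E, cs]) (by simp [s3, cs_nil_E, cs]) le_rfl
  rw [cs_E, cs_E]
  refine ((dup_run _).seq (a1.seq (a2.seq ((mv12 _ _ _).seq ((mv20 _ _ _).seq
    (push0 _ _ _ _)))))).cast rfl (by simp) ?_
  have := hr x
  simp; omega

theorem ser_head (t : T) : (ser t).head? = some false ↔ t = .nil := by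
  cases t <;> simp [ser]

theorem RT.cond {α β : Type} {ea : α → List Bool} {eb : β → List Bool}
    {c : α → T} {f g : α → β} (hea : ∀ x, ∃ t, ea x = ser t)
    (hc : RT ea ser c) (hf : RT ea eb f) (hg : RT ea eb g) (h : α → β)
    (h1 : ∀ x, c x = .nil → h x = f x) (h2 : ∀ x, c x ≠ .nil → h x = g x) : RT ea eb h := by
  have hp := hc.pair (RT.id ea)
  obtain ⟨r, hr⟩ := hp.out_len
  obtain ⟨P0, q0, h0⟩ := hp
  obtain ⟨P, q, hP⟩ := hf
  obtain ⟨P', q', hP'⟩ := hg
  refine ⟨.seq P0 (.seq (.pop 0) (.ite 0 (some false) (.seq (.push 0 true) (.seq pTl P))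
    (.seq (.push 0 true) (.seq pTl P')))), q0 + q + q' + C 9 * r + C 12, fun x => ?_⟩
  obtain ⟨t, ht⟩ := hea x
  have b0 := h0 x
  have b1 := hP x
  have b2 := hP' x
  have hr' := hr x
  have b3 := pTl_run (.cons (c x) t)
  simp only [cs_E] at b0 b1 b2 ⊢
  simp only [ser, T.tl, ← ht] at b3
  by_cases hx : c x = .nil
  · rw [h1 x hx]
    refine (b0.seq ((pop0 _ _ _).seq (Run.iteT (by simp [hx, ser])
      ((push0 _ _ _ _).seq (b3.seq b1))))).mono ?_
    simp at hr' ⊢; omega
  · rw [h2 x hx]
    refine (b0.seq ((pop0 _ _ _).seq (Run.iteF ?_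
      ((push0 _ _ _ _).seq (b3.seq b2))))).mono ?_
    · cases hcx : c x with
      | nil => exact absurd hcx hx
      | cons a b => simp [ser]
    · simp at hr' ⊢; omega

def code (b : Bool) : List Bool := bif b then [true, true, false, false] else [true, false]

def raw : Pg := .seq (eat 0 (.seq (.pop 0) (pushes 1 (code true).reverse))
  (.seq (.pop 0) (pushes 1 (code false).reverse))) (.push 1 false)

theorem raw_run (w b : List Bool) :
    Run raw (s3 w b []) (s3 [] ((w.flatMap code ++ [false]).reverse ++ b) []) (9 * w.length + 2) := by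
  have := eat_run 0 (.seq (.pop 0) (pushes 1 (code true).reverse))
    (.seq (.pop 0) (pushes 1 (code false).reverse))
    (fun l r => s3 r ((l.reverse.flatMap code).reverse ++ b) []) 7 (fun _ _ => rfl)
    (fun _ _ => ((pop0 _ _ _).seq (pushes1 _ _ _ _)).cast rfl (by simp) (by simp [code]))
    (fun _ _ => ((pop0 _ _ _).seq (pushes1 _ _ _ _)).cast rfl (by simp) (by simp [code])) w []
  refine ((this.cast (by simp) rfl le_rfl).seq (push1 _ _ _ _)).cast rfl (by simp) (by omega)

theorem bits_nil {α : Type} [Enc α] : bits ([] : List α) = [false] := rfl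
theorem bits_cons {α : Type} [Enc α] (a : α) (l : List α) :
    bits (a :: l) = true :: (bits a ++ bits l) := rfl
theorem bits_pair {α β : Type} [Enc α] [Enc β] (a : α) (b : β) :
    bits (a, b) = true :: (bits a ++ bits b) := rfl

theorem bits_bools (w : List Bool) : bits w = w.flatMap code ++ [false] := by
  induction w with
  | nil => rfl
  | cons b w ih => rw [bits_cons, ih]; cases b <;> rfl

theorem RT.raw : RT (fun w : List Bool => w) bits (fun w => w) := by
  refine ⟨.seq PT.raw (mv 1 0), C 25 * X + C 7, fun w => ?_⟩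
  rw [cs_E, cs_E]
  refine ((raw_run w []).seq (mv10 _ _ _)).cast rfl (by simp [bits_bools]) ?_
  have : (w.flatMap code).length ≤ 4 * w.length := by
    induction w with
    | nil => simp
    | cons b w ih => cases b <;> simp [code] at ih ⊢ <;> omega
  simp only [List.append_nil, List.length_reverse, List.length_append, List.length_singleton,
    eval_add, eval_mul, eval_C, eval_X]
  omega

theorem RT.cert {α : Type} [Enc α] :
    RT (fun p : α × List Bool => bits p.1 ++ p.2) bits (fun p => p) := by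
  refine ⟨.seq parse (.seq PT.raw (.seq (mv 1 0) (.push 0 true))), C 25 * X + C 10, fun p => ?_⟩
  obtain ⟨x, w⟩ := p
  rw [cs_E, cs_E]
  refine ((parse_run (Enc.tr x) w).seq ((raw_run w _).seq ((mv10 _ _ _).seq
    (push0 _ _ _ _)))).cast rfl (by simp [bits_bools, bits_pair]; rfl) ?_
  have : (w.flatMap code).length ≤ 4 * w.length := by
    induction w with
    | nil => simp
    | cons b w ih => cases b <;> simp [code] at ih ⊢ <;> omega
  simp only [List.length_reverse, List.length_append, List.length_singleton,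
    eval_add, eval_mul, eval_C, eval_X, bits]
  omega

theorem RT.boolOut : RT (bits : Bool → List Bool) (fun b : Bool => [b]) (fun b => b) := by
  refine ⟨.ite 0 (some true) (.seq (clr 0) (.push 0 true)) skip, C 12, fun b => ?_⟩
  rw [cs_E, cs_E]
  cases b
  · exact (Run.iteF (by simp [bits, ser, Enc.tr]) (skip_run _ _ _)).mono (by simp)
  · exact (Run.iteT (by simp [bits, ser, Enc.tr]) ((clr0 _ _ _).seq (push0 _ _ _ _))).mono
      (by simp [bits, ser, Enc.tr])

/-- the loop behind `foldl` -/
theorem loop_run {β γ : Type} [Enc β] [Enc γ] (g : γ → β → γ) (P : Pg) (q : ℕ[X])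
    (h : ∀ (b : β) (l : List β) (c : γ), Run P (cs (bits (b :: l, c)) E) (cs (bits (l, g c b)) E)
      (q.eval (bits (b :: l, c)).length)) (M : ℕ) (l : List β) : ∀ c : γ,
      (∀ n, (bits l).length + (bits ((l.take n).foldl g c)).length + 1 ≤ M) →
      Run (.loop 0 (some false) (.seq (.push 0 true) (.seq P (.pop 0))))
        (s3 (bits l ++ bits c) [] []) (s3 (false :: bits (l.foldl g c)) [] [])
        (l.length * (q.eval M + 3) + 1) := by
  induction l with
  | nil => intro c _; exact (Run.loopD (by simp [bits_nil])).cast rfl rfl (by simp)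
  | cons b l ih =>
    intro c hM
    have a1 := h b l c
    simp only [cs_E] at a1
    have a2 := ih (g c b) (fun n => by
      have := hM (n + 1)
      simp only [List.take_succ_cons, List.foldl_cons, bits_cons, List.length_cons,
        List.length_append] at this
      omega)
    have a3 : q.eval (bits (b :: l, c)).length ≤ q.eval M := by
      apply ev_mono
      have := hM 0
      simp only [List.take_zero, List.foldl_nil] at this
      simp only [bits_pair, List.length_cons, List.length_append]; omega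
    have a4 : (s3 (bits (b :: l) ++ bits c) [] [] 0).head? ≠ some false := by simp [bits_cons]
    refine (Run.loopC a4 ((push0 _ _ _ _).seq (a1.seq (pop0 _ _ _))) a2).cast
      rfl rfl ?_
    simp only [List.length_cons]
    ring_nf; omega

theorem len_le_bits {β : Type} [Enc β] (l : List β) : l.length ≤ (bits l).length := by
  induction l with
  | nil => simp
  | cons b l ih => simp only [bits_cons, List.length_cons, List.length_append]; omega

theorem RT.fold {β γ : Type} [Enc β] [Enc γ] (g : γ → β → γ)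
    (hg : RT bits bits (fun p : (β × List β) × γ => (p.1.2, g p.2 p.1.1)))
    {α : Type} {ea : α → List Bool} {l : α → List β} {i : α → γ}
    (hp : RT ea bits (fun x => (l x, i x))) (r : ℕ[X])
    (hr : ∀ x n, (bits (((l x).take n).foldl g (i x))).length ≤ r.eval (ea x).length) :
    RT ea bits (fun x => (l x).foldl g (i x)) := by
  obtain ⟨u, hu⟩ := hp.out_len
  obtain ⟨P0, q0, h0⟩ := hp
  obtain ⟨P, q, h⟩ := hg
  refine ⟨.seq P0 (.seq (.pop 0) (.seq (.loop 0 (some false) (.seq (.push 0 true) (.seq P (.pop 0))))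
    (.pop 0))), q0 + u * (q.comp (u + r) + C 3) + C 3, fun x => ?_⟩
  have a0 := h0 x
  have hu' := hu x
  simp only [bits_pair, List.length_cons, List.length_append] at hu'
  have a1 := loop_run g P q (fun b l c => h ((b, l), c)) ((u + r).eval (ea x).length) (l x) (i x)
    (fun n => by have := hr x n; simp only [eval_add]; omega)
  simp only [cs_E] at a0 ⊢
  refine (a0.seq ((pop0 _ _ _).seq (a1.seq (pop0 _ _ _)))).cast rfl rfl ?_
  simp only [eval_add, eval_mul, eval_comp, eval_C]
  have := len_le_bits (l x)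
  have h2 : (l x).length * (q.eval (u.eval (ea x).length + r.eval (ea x).length) + 3) ≤
      u.eval (ea x).length * (q.eval (u.eval (ea x).length + r.eval (ea x).length) + 3) :=
    Nat.mul_le_mul_right _ (by omega)
  omega

end Pool.Agent.H11.PT
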