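import Pool.Agent.H11.PT2

set_option autoImplicit false
set_option linter.dupNamespace false
set_option linter.unusedSectionVars false

namespace Pool.Agent.H11.PT

open Polynomial

@[fun_prop] def PT {α β : Type} [Enc α] [Enc β] (f : α → β) : Prop := RT bits bits f

def sz {α : Type} [Enc α] (x : α) : ℕ := (bits x).length

variable {α β γ δ : Type} [Enc α] [Enc β] [Enc γ] [Enc δ]

@[simp] theorem sz_pair (a : α) (b : β) : sz (a, b) = sz a + sz b + 1 := by simp [sz, bits_pair]
@[simp] theorem sz_cons (a : α) (l : List α) : sz (a :: l) = sz a + sz l + 1 := by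
  simp [sz, bits_cons]
@[simp] theorem sz_nil : sz ([] : List α) = 1 := rfl
@[simp] theorem sz_unit (u : Unit) : sz u = 1 := rfl
theorem sz_bool (b : Bool) : sz b ≤ 3 := by cases b <;> decide
theorem tr_zero : Enc.tr (0 : ℕ) = .nil := rfl
theorem tr_succ (n : ℕ) : Enc.tr (n + 1) = .cons .nil (Enc.tr n) :=
  Function.iterate_succ_apply' _ _ _
@[simp] theorem sz_nat (n : ℕ) : sz n = 2 * n + 1 := by
  induction n with
  | zero => rfl
  | succ n ih => simp only [sz, bits, tr_succ, ser] at ih ⊢; simp [ih]; omega
theorem sz_pos (a : α) : 1 ≤ sz a := by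
  unfold sz bits; cases Enc.tr a <;> simp [ser]
@[simp] theorem sz_append (l l' : List α) : sz (l ++ l') + 1 = sz l + sz l' := by
  induction l with
  | nil => simp; omega
  | cons a l ih => simp; omega
@[simp] theorem sz_reverse (l : List α) : sz l.reverse = sz l := by
  induction l with
  | nil => simp
  | cons a l ih =>
    have := sz_append l.reverse [a]
    rw [List.reverse_cons]; simp only [sz_cons, sz_nil] at this ⊢; omega
theorem sz_mem {l : List α} {a : α} (h : a ∈ l) : sz a ≤ sz l := by
  induction l with
  | nil => simp at h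
  | cons b l ih => rcases List.mem_cons.1 h with rfl | h <;> simp <;> (try have := ih h) <;> omega
theorem sz_sublist {l l' : List α} (h : l.Sublist l') : sz l ≤ sz l' := by
  induction h with
  | slnil => simp
  | cons a _ ih => simp; omega
  | cons_cons a _ ih => simp; omega
theorem len_le_sz (l : List α) : l.length ≤ sz l := len_le_bits l

theorem PT.out {f : α → β} (h : PT f) : ∃ q : ℕ[X], ∀ x, sz (f x) ≤ q.eval (sz x) := RT.out_len h

theorem PT.cast {f : α → β} (h : PT f) {f' : γ → δ} (φ : γ → α)
    (h1 : ∀ y, Enc.tr (φ y) = Enc.tr y) (h2 : ∀ y, Enc.tr (f (φ y)) = Enc.tr (f' y)) : PT f' :=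
  RT.of_eq h φ (fun y => by simp [bits, h1]) (fun y => by simp [bits, h2])

theorem PT.of_eq {f g : α → β} (h : PT f) (e : ∀ x, f x = g x) : PT g := by
  rw [← funext e]; exact h

@[fun_prop] theorem PT.id : PT fun x : α => x := RT.id _
@[fun_prop] theorem PT.const (b : β) : PT fun _ : α => b := RT.const _ _ b
@[fun_prop] theorem PT.comp {f : β → γ} {g : α → β} (hf : PT f) (hg : PT g) :
    PT fun x => f (g x) := RT.comp hf hg
@[fun_prop] theorem PT.pair {f : α → β} {g : α → γ} (hf : PT f) (hg : PT g) :
    PT fun x => (f x, g x) := RT.pair hf hg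

theorem PT.ofHd {f : α → β} (h : ∀ x, (Enc.tr x).hd = Enc.tr (f x)) : PT f :=
  RT.hd.of_eq Enc.tr (fun _ => rfl) (fun y => by simp [bits, h])
theorem PT.ofTl {f : α → β} (h : ∀ x, (Enc.tr x).tl = Enc.tr (f x)) : PT f :=
  RT.tl.of_eq Enc.tr (fun _ => rfl) (fun y => by simp [bits, h])
theorem PT.ofId {f : α → β} (h : ∀ x, Enc.tr x = Enc.tr (f x)) : PT f :=
  (PT.id (α := α)).cast (fun x => x) (fun _ => rfl) h

@[fun_prop] theorem PT.fst {f : α → β × γ} (hf : PT f) : PT fun x => (f x).1 :=
  (PT.ofHd (f := Prod.fst) fun _ => rfl).comp hf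
@[fun_prop] theorem PT.snd {f : α → β × γ} (hf : PT f) : PT fun x => (f x).2 :=
  (PT.ofTl (f := Prod.snd) fun _ => rfl).comp hf
@[fun_prop] theorem PT.cons {f : α → β} {g : α → List β} (hf : PT f) (hg : PT g) :
    PT fun x => f x :: g x :=
  (PT.ofId (f := fun p : β × List β => p.1 :: p.2) fun _ => rfl).comp (hf.pair hg)
@[fun_prop] theorem PT.tail {f : α → List β} (hf : PT f) : PT fun x => (f x).tail :=
  (PT.ofTl (f := List.tail) fun l => by cases l <;> rfl).comp hf

theorem PT.caseT {c : α → δ} {f g : α → β} (hc : PT c) (hf : PT f) (hg : PT g) (h : α → β)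
    (h1 : ∀ x, Enc.tr (c x) = .nil → h x = f x) (h2 : ∀ x, Enc.tr (c x) ≠ .nil → h x = g x) :
    PT h :=
  RT.cond (c := fun x => Enc.tr (c x)) (fun x => ⟨Enc.tr x, rfl⟩)
    (RT.of_eq hc (fun x => x) (fun _ => rfl) (fun _ => rfl)) hf hg h h1 h2

@[fun_prop] theorem PT.cond {c : α → Bool} {f g : α → β} (hc : PT c) (hf : PT f) (hg : PT g) :
    PT fun x => bif c x then f x else g x :=
  PT.caseT hc hg hf _ (fun x => by cases c x <;> simp [Enc.tr])
    (fun x => by cases c x <;> simp [Enc.tr])
@[fun_prop] theorem PT.ite {c : α → Prop} [DecidablePred c] {f g : α → β}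
    (hc : PT fun x => decide (c x)) (hf : PT f) (hg : PT g) :
    PT fun x => if c x then f x else g x :=
  (PT.cond hc hf hg).of_eq fun x => by by_cases h : c x <;> simp [h]
@[fun_prop] theorem PT.isEmpty {f : α → List β} (hf : PT f) : PT fun x => (f x).isEmpty :=
  PT.caseT hf (PT.const true) (PT.const false) _ (fun x => by cases f x <;> simp [Enc.tr])
    (fun x => by cases f x <;> simp [Enc.tr])
@[fun_prop] theorem PT.headD {f : α → List β} {d : α → β} (hf : PT f) (hd : PT d) :
    PT fun x => (f x).headD (d x) := by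
  have h : RT (bits : α → List Bool) ser (fun x => (Enc.tr (f x)).hd) :=
    RT.hd.comp (RT.of_eq hf (fun x => x) (fun _ => rfl) (fun _ => rfl))
  have hd' : RT (bits : α → List Bool) ser (fun x => Enc.tr (d x)) :=
    RT.of_eq hd (fun x => x) (fun _ => rfl) (fun _ => rfl)
  have := RT.cond (c := fun x => Enc.tr (f x)) (fun x => ⟨Enc.tr x, rfl⟩)
    (RT.of_eq hf (fun x => x) (fun _ => rfl) (fun _ => rfl)) hd' h
    (fun x => Enc.tr ((f x).headD (d x))) (fun x => by cases f x <;> simp [Enc.tr])
    (fun x => by cases f x <;> simp [Enc.tr, T.hd])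
  exact this.of_eq (fun x => x) (fun _ => rfl) (fun _ => rfl)
@[fun_prop] theorem PT.and {f g : α → Bool} (hf : PT f) (hg : PT g) : PT fun x => (f x && g x) :=
  (PT.cond hf hg (PT.const false)).of_eq fun x => by cases f x <;> rfl
@[fun_prop] theorem PT.or {f g : α → Bool} (hf : PT f) (hg : PT g) : PT fun x => (f x || g x) :=
  (PT.cond hf (PT.const true) hg).of_eq fun x => by cases f x <;> rfl
@[fun_prop] theorem PT.not {f : α → Bool} (hf : PT f) : PT fun x => (!f x) :=
  (PT.cond hf (PT.const false) (PT.const true)).of_eq fun x => by cases f x <;> rfl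
@[fun_prop] theorem PT.xor {f g : α → Bool} (hf : PT f) (hg : PT g) : PT fun x => (f x ^^ g x) :=
  (PT.cond hf hg.not hg).of_eq fun x => by cases f x <;> simp
@[fun_prop] theorem PT.bits' {f : α → β} (hf : PT f) : PT fun x => bits (f x) :=
  PT.comp (RT.raw.of_eq bits (fun _ => rfl) (fun _ => rfl)) hf

theorem PT.foldl {l : α → List β} {i : α → γ} {g : α → γ → β → γ} (hl : PT l) (hi : PT i)
    (hg : PT fun p : α × γ × β => g p.1 p.2.1 p.2.2) (r : ℕ[X])
    (hr : ∀ x n, sz (((l x).take n).foldl (g x) (i x)) ≤ r.eval (sz x)) :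
    PT fun x => (l x).foldl (g x) (i x) := by
  have e : ∀ x (L : List β) (c : γ), L.foldl (fun (s : γ × α) b => (g s.2 s.1 b, s.2)) (c, x) =
      (L.foldl (g x) c, x) := by
    intro x L
    induction L with
    | nil => intro c; rfl
    | cons b L ih => intro c; simp [ih]
  have h1 : PT fun p : (β × List β) × (γ × α) => (p.1.2, (g p.2.2 p.2.1 p.1.1, p.2.2)) :=
    PT.pair (by fun_prop) (PT.pair (hg.comp (g := fun p : (β × List β) × (γ × α) =>
      (p.2.2, p.2.1, p.1.1)) (by fun_prop)) (by fun_prop))
  have h2 : PT fun x => (l x).foldl (fun (s : γ × α) b => (g s.2 s.1 b, s.2)) (i x, x) :=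
    RT.fold (fun (s : γ × α) b => (g s.2 s.1 b, s.2)) h1 (l := l) (i := fun x => (i x, x))
      (show PT fun x => (l x, (i x, x)) by fun_prop) (r + X + C 1) (fun x n => by
        have := hr x n
        rw [e]
        show sz _ ≤ eval (sz x) _
        simp only [sz_pair, eval_add, eval_X, eval_C]; omega)
  exact h2.fst.of_eq fun x => by rw [e]

/-- fold whose accumulator grows additively -/
theorem PT.foldl_add {l : α → List β} {i : α → γ} {g : α → γ → β → γ} (hl : PT l) (hi : PT i)
    (hg : PT fun p : α × γ × β => g p.1 p.2.1 p.2.2) (d : α → β → δ) (k : ℕ)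
    (hd : PT fun p : α × β => d p.1 p.2) (h : ∀ x c b, sz (g x c b) ≤ sz c + sz (d x b) + k) :
    PT fun x => (l x).foldl (g x) (i x) := by
  obtain ⟨q1, h1⟩ := hl.out
  obtain ⟨q2, h2⟩ := hi.out
  obtain ⟨q3, h3⟩ := hd.out
  refine PT.foldl hl hi hg (q2 + q1 * (q3.comp (X + q1 + C 1) + C k)) fun x n => ?_
  have key : ∀ (L : List β) (c : γ) (B : ℕ), (∀ b ∈ L, sz (d x b) + k ≤ B) →
      sz (L.foldl (g x) c) ≤ sz c + L.length * B := by
    intro L
    induction L with
    | nil => intro c B _; simp
    | cons b L ih =>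
      intro c B hB
      have a1 := ih (g x c b) B (fun b' hb' => hB b' (List.mem_cons_of_mem _ hb'))
      have a2 := h x c b
      have a3 := hB b List.mem_cons_self
      simp only [List.foldl_cons, List.length_cons]
      nlinarith
  have a := key ((l x).take n) (i x) (q3.eval (sz x + q1.eval (sz x) + 1) + k) (fun b hb => by
    have b1 := sz_mem (List.mem_of_mem_take hb)
    have b2 := h3 (x, b)
    have b3 := h1 x
    have b4 := ev_mono q3 (show sz (x, b) ≤ sz x + q1.eval (sz x) + 1 by simp; omega)
    simp only at b2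
    omega)
  have a2 : ((l x).take n).length ≤ q1.eval (sz x) := by
    have := len_le_sz (l x); have := h1 x; simp; omega
  have a3 := Nat.mul_le_mul_right (q3.eval (sz x + q1.eval (sz x) + 1) + k) a2
  have := h2 x
  simp only [eval_add, eval_mul, eval_comp, eval_X, eval_C]
  omega

/-- fold with an invariant that bounds the accumulator -/
theorem PT.foldl_inv {l : α → List β} {i : α → γ} {g : α → γ → β → γ} (hl : PT l) (hi : PT i)
    (hg : PT fun p : α × γ × β => g p.1 p.2.1 p.2.2) (I : α → γ → Prop) (d : α → δ) (hd : PT d)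
    (h0 : ∀ x, I x (i x)) (h1 : ∀ x c, ∀ b ∈ l x, I x c → I x (g x c b))
    (h2 : ∀ x c, I x c → sz c ≤ sz (d x)) : PT fun x => (l x).foldl (g x) (i x) := by
  obtain ⟨q, hq⟩ := hd.out
  refine PT.foldl hl hi hg q fun x n => (h2 x _ ?_).trans (hq x)
  have key : ∀ (L : List β) (c : γ), (∀ b ∈ L, b ∈ l x) → I x c → I x (L.foldl (g x) c) := by
    intro L
    induction L with
    | nil => intro c _ h; exact h
    | cons b L ih =>
      intro c hL h
      exact ih _ (fun b' hb' => hL b' (List.mem_cons_of_mem _ hb')) (h1 x c b (hL b List.mem_cons_self) h)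
  exact key _ _ (fun b hb => List.mem_of_mem_take hb) (h0 x)

theorem foldl_cons_map (f : β → γ) (l : List β) (c : List γ) :
    l.foldl (fun c b => f b :: c) c = (l.map f).reverse ++ c := by
  induction l generalizing c with
  | nil => rfl
  | cons b l ih => simp [ih]

theorem PT.revMap {l : α → List β} {c : α → List γ} {f : α → β → γ} (hl : PT l) (hc : PT c)
    (hf : PT fun p : α × β => f p.1 p.2) : PT fun x => ((l x).map (f x)).reverse ++ c x :=
  (PT.foldl_add (g := fun x c b => f x b :: c) hl hc
    (PT.cons (hf.comp (g := fun p : α × List γ × β => (p.1, p.2.2)) (by fun_prop)) (by fun_prop))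
    f 1 hf (fun x c b => by simp; omega)).of_eq fun x => foldl_cons_map _ _ _

@[fun_prop] theorem PT.reverse {l : α → List β} (hl : PT l) : PT fun x => (l x).reverse :=
  (PT.revMap (f := fun _ b => b) hl (PT.const []) (by fun_prop)).of_eq fun x => by simp
@[fun_prop] theorem PT.append {l l' : α → List β} (hl : PT l) (hl' : PT l') :
    PT fun x => l x ++ l' x :=
  (PT.revMap (f := fun _ b => b) hl.reverse hl' (by fun_prop)).of_eq fun x => by simp
@[fun_prop] theorem PT.map {l : α → List β} {f : α → β → γ} (hl : PT l)
    (hf : PT fun p : α × β => f p.1 p.2) : PT fun x => (l x).map (f x) :=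
  (PT.revMap hl (PT.const []) hf).reverse.of_eq fun x => by simp
@[fun_prop] theorem PT.flatMap {l : α → List β} {f : α → β → List γ} (hl : PT l)
    (hf : PT fun p : α × β => f p.1 p.2) : PT fun x => (l x).flatMap (f x) :=
  (PT.foldl_add (g := fun x c b => c ++ f x b) hl (PT.const [])
    (PT.append (by fun_prop) (hf.comp (g := fun p : α × List γ × β => (p.1, p.2.2)) (by fun_prop)))
    f 0 hf (fun x c b => by have := sz_append c (f x b); omega)).of_eq fun x => by
      have : ∀ (L : List β) (c : List γ), L.foldl (fun c b => c ++ f x b) c = c ++ L.flatMap (f x) := by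
        intro L
        induction L with
        | nil => simp
        | cons b L ih => intro c; simp [ih]
      simp [this]
@[fun_prop] theorem PT.flatten {l : α → List (List β)} (hl : PT l) : PT fun x => (l x).flatten :=
  (PT.flatMap (f := fun _ b => b) hl (by fun_prop)).of_eq fun x => by simp [List.flatMap]
@[fun_prop] theorem PT.filter {l : α → List β} {p : α → β → Bool} (hl : PT l)
    (hp : PT fun q : α × β => p q.1 q.2) : PT fun x => (l x).filter (p x) :=
  (PT.flatMap (f := fun x b => bif p x b then [b] else []) hl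
    (PT.cond hp (by fun_prop) (by fun_prop))).of_eq fun x => by
      induction l x with
      | nil => rfl
      | cons b L ih => cases h : p x b <;> simp [h, ih]
@[fun_prop] theorem PT.any {l : α → List β} {p : α → β → Bool} (hl : PT l)
    (hp : PT fun q : α × β => p q.1 q.2) : PT fun x => (l x).any (p x) :=
  (PT.filter hl hp).isEmpty.not.of_eq fun x => by
    induction l x with
    | nil => rfl
    | cons b L ih => cases h : p x b <;> simp [h, ih]
@[fun_prop] theorem PT.all {l : α → List β} {p : α → β → Bool} (hl : PT l)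
    (hp : PT fun q : α × β => p q.1 q.2) : PT fun x => (l x).all (p x) :=
  (PT.any (p := fun x b => !p x b) hl hp.not).not.of_eq fun x => by
    simp [List.all_eq_not_any_not]

theorem tr_units (l : List Unit) : Enc.tr l = Enc.tr l.length := by
  induction l with
  | nil => rfl
  | cons a l ih => rw [List.length_cons, tr_succ, ← ih]; rfl

theorem PT.units {f : α → ℕ} (hf : PT f) : PT fun x => List.replicate (f x) () :=
  (PT.ofId (f := fun n : ℕ => List.replicate n ()) fun n => by simp [tr_units]).comp hf
@[fun_prop] theorem PT.length {l : α → List β} (hl : PT l) : PT fun x => (l x).length :=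
  ((PT.ofId (f := fun l : List Unit => l.length) tr_units).comp
    (PT.map (f := fun _ _ => ()) hl (by fun_prop))).of_eq fun x => by simp
@[fun_prop] theorem PT.replicate {f : α → ℕ} {g : α → β} (hf : PT f) (hg : PT g) :
    PT fun x => List.replicate (f x) (g x) :=
  (PT.map (f := fun x _ => g x) hf.units (by fun_prop)).of_eq fun x => by simp
@[fun_prop] theorem PT.add {f g : α → ℕ} (hf : PT f) (hg : PT g) : PT fun x => f x + g x :=
  (hf.units.append hg.units).length.of_eq fun x => by simp
@[fun_prop] theorem PT.succ {f : α → ℕ} (hf : PT f) : PT fun x => Nat.succ (f x) :=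
  hf.add (PT.const 1)
@[fun_prop] theorem PT.mul {f g : α → ℕ} (hf : PT f) (hg : PT g) : PT fun x => f x * g x :=
  (hf.replicate hg.units).flatten.length.of_eq fun x => by simp
@[fun_prop] theorem PT.pow (k : ℕ) {f : α → ℕ} (hf : PT f) : PT fun x => f x ^ k := by
  induction k with
  | zero => exact (PT.const 1).of_eq fun x => by simp
  | succ k ih => exact (ih.mul hf).of_eq fun x => by rw [pow_succ]
@[fun_prop] theorem PT.eval' (q : ℕ[X]) {f : α → ℕ} (hf : PT f) : PT fun x => q.eval (f x) := by
  induction q using Polynomial.induction_on' with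
  | add p q hp hq => exact (hp.add hq).of_eq fun x => by simp
  | monomial n c => exact ((PT.const c).mul (hf.pow n)).of_eq fun x => by simp [eval_monomial]
@[fun_prop] theorem PT.sz' {f : α → β} (hf : PT f) : PT fun x => sz (f x) := hf.bits'.length

theorem foldl_units (f : γ → γ) (n : ℕ) (c : γ) :
    (List.replicate n ()).foldl (fun c _ => f c) c = f^[n] c := by
  induction n generalizing c with
  | zero => rfl
  | succ n ih => simp [List.replicate_succ, ih]

/-- iteration with an invariant that bounds the state -/
theorem PT.iterate {n : α → ℕ} {i : α → γ} {g : α → γ → γ} (hn : PT n) (hi : PT i)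
    (hg : PT fun p : α × γ => g p.1 p.2) (I : α → γ → Prop) (d : α → δ) (hd : PT d)
    (h0 : ∀ x, I x (i x)) (h1 : ∀ x c, I x c → I x (g x c))
    (h2 : ∀ x c, I x c → sz c ≤ sz (d x)) : PT fun x => (g x)^[n x] (i x) :=
  (PT.foldl_inv (g := fun x c _ => g x c) hn.units hi
    (hg.comp (g := fun p : α × γ × Unit => (p.1, p.2.1)) (by fun_prop)) I d hd h0
    (fun x c _ _ => h1 x c) h2).of_eq fun x => foldl_units _ _ _

/-- iteration with additive growth -/
theorem PT.iterate_add {n : α → ℕ} {i : α → γ} {g : α → γ → γ} (hn : PT n) (hi : PT i)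
    (hg : PT fun p : α × γ => g p.1 p.2) (d : α → δ) (k : ℕ) (hd : PT d)
    (h : ∀ x c, sz (g x c) ≤ sz c + sz (d x) + k) : PT fun x => (g x)^[n x] (i x) :=
  (PT.foldl_add (g := fun x c _ => g x c) hn.units hi
    (hg.comp (g := fun p : α × γ × Unit => (p.1, p.2.1)) (by fun_prop)) (fun x _ => d x) k
    (by fun_prop) (fun x c _ => h x c)).of_eq fun x => foldl_units _ _ _

@[fun_prop] theorem PT.drop {n : α → ℕ} {l : α → List β} (hn : PT n) (hl : PT l) :
    PT fun x => (l x).drop (n x) :=
  (PT.iterate_add (g := fun _ c => List.tail c) hn hl (by fun_prop) (fun _ => ()) 0 (by fun_prop)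
    (fun x c => by have := sz_sublist (List.tail_sublist c); omega)).of_eq fun x => by
      induction n x with
      | zero => rfl
      | succ m ih => rw [Function.iterate_succ_apply', ih]; simp
@[fun_prop] theorem PT.sub {f g : α → ℕ} (hf : PT f) (hg : PT g) : PT fun x => f x - g x :=
  (PT.drop hg hf.units).length.of_eq fun x => by simp
@[fun_prop] theorem PT.take {n : α → ℕ} {l : α → List β} (hn : PT n) (hl : PT l) :
    PT fun x => (l x).take (n x) :=
  (PT.drop (hl.length.sub hn) hl.reverse).reverse.of_eq fun x => by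
    rw [List.drop_reverse, List.reverse_reverse]
    rcases le_total (n x) (l x).length with h | h
    · congr 1; omega
    · rw [List.take_of_length_le h, List.take_of_length_le]; omega
@[fun_prop] theorem PT.getD {l : α → List β} {n : α → ℕ} {d : α → β} (hl : PT l) (hn : PT n)
    (hd : PT d) : PT fun x => (l x).getD (n x) (d x) :=
  ((PT.drop hn hl).headD hd).of_eq fun x => by simp [List.headD_eq_head?_getD]
@[fun_prop] theorem PT.decLe {f g : α → ℕ} (hf : PT f) (hg : PT g) :
    PT fun x => decide (f x ≤ g x) :=
  (hf.sub hg).units.isEmpty.of_eq fun x => by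
    rw [Bool.eq_iff_iff]; simp; omega
@[fun_prop] theorem PT.decLt {f g : α → ℕ} (hf : PT f) (hg : PT g) :
    PT fun x => decide (f x < g x) := hf.succ.decLe hg
@[fun_prop] theorem PT.min' {f g : α → ℕ} (hf : PT f) (hg : PT g) : PT fun x => min (f x) (g x) :=
  (hf.sub (hf.sub hg)).of_eq fun x => by omega
@[fun_prop] theorem PT.max' {f g : α → ℕ} (hf : PT f) (hg : PT g) : PT fun x => max (f x) (g x) :=
  (hf.add (hg.sub hf)).of_eq fun x => by omega
theorem sz_range (n m : ℕ) (h : n ≤ m) : sz (List.range n) ≤ n * (2 * m + 2) + 1 := by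
  induction n with
  | zero => simp
  | succ n ih =>
    have := sz_append (List.range n) [n]
    have h2 := ih (by omega)
    rw [List.range_succ]
    simp only [sz_cons, sz_nil, sz_nat] at this
    nlinarith

@[fun_prop] theorem PT.range {f : α → ℕ} (hf : PT f) : PT fun x => List.range (f x) := by
  have e : ∀ (L : List Unit) (n : ℕ), L.foldl (fun (c : List ℕ) _ => c ++ [c.length]) (List.range n) =
      List.range (n + L.length) := by
    intro L
    induction L with
    | nil => simp
    | cons a L ih =>
      intro n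
      simp only [List.foldl_cons, List.length_range, List.length_cons]
      rw [← List.range_succ, ih]; congr 1; omega
  obtain ⟨q, hq⟩ := hf.out
  refine (PT.foldl (g := fun _ (c : List ℕ) _ => c ++ [c.length]) hf.units (PT.const [])
    (by fun_prop) (q * (C 2 * q + C 2) + C 1) fun x n => ?_).of_eq fun x => ?_
  · have := e ((List.replicate (f x) ()).take n) 0
    simp only [List.range_zero] at this
    rw [this]
    have h1 := hq x
    simp only [sz_nat] at h1
    have h2 : 0 + ((List.replicate (f x) ()).take n).length ≤ q.eval (sz x) := by simp; omega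
    refine (sz_range _ _ h2).trans ?_
    simp only [eval_add, eval_mul, eval_C]
    have := Nat.mul_le_mul_right (2 * q.eval (sz x) + 2) h2
    omega
  · have := e (List.replicate (f x) ()) 0
    simpa using this

@[fun_prop] theorem PT.sum {l : α → List ℕ} (hl : PT l) : PT fun x => (l x).sum :=
  (PT.flatMap (f := fun _ n => List.replicate n ()) hl (by fun_prop)).length.of_eq fun x => by
    simp [List.length_flatMap]
@[fun_prop] theorem PT.countP {l : α → List β} {p : α → β → Bool} (hl : PT l)
    (hp : PT fun q : α × β => p q.1 q.2) : PT fun x => (l x).countP (p x) :=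
  (PT.filter hl hp).length.of_eq fun x => by rw [List.countP_eq_length_filter]
@[fun_prop] theorem PT.div {f g : α → ℕ} (hf : PT f) (hg : PT g) : PT fun x => f x / g x := by
  have : PT fun x => bif decide (g x ≤ 0) then 0 else
      (List.range (f x)).countP (fun i => decide ((i + 1) * g x ≤ f x)) := by fun_prop
  refine this.of_eq fun x => ?_
  rcases Nat.eq_zero_or_pos (g x) with h | h
  · simp [h]
  · have : ¬ g x ≤ 0 := by omega
    simp only [this, decide_false, cond_false]
    have e : ∀ n, (List.range n).countP (fun i => decide ((i + 1) * g x ≤ f x)) =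
        min n (f x / g x) := by
      intro n
      induction n with
      | zero => simp
      | succ n ih =>
        rw [List.range_succ, List.countP_append, ih]
        have := Nat.le_div_iff_mul_le (x := n + 1) (y := f x) h
        by_cases h2 : (n + 1) * g x ≤ f x
        · simp [h2]; omega
        · simp [h2]; omega
    rw [e]
    exact min_eq_right (Nat.div_le_self _ _)
@[fun_prop] theorem PT.mod {f g : α → ℕ} (hf : PT f) (hg : PT g) : PT fun x => f x % g x :=
  (hf.sub (hg.mul (hf.div hg))).of_eq fun x => by have := Nat.mod_add_div (f x) (g x); omega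
@[fun_prop] theorem PT.zip {l : α → List β} {l' : α → List γ} (hl : PT l) (hl' : PT l') :
    PT fun x => (l x).zip (l' x) := by
  have h1 : PT fun x => (List.range (min (l x).length (l' x).length)).flatMap fun i =>
      (((l x).drop i).take 1).flatMap fun a => (((l' x).drop i).take 1).map fun b => (a, b) := by
    fun_prop
  refine h1.of_eq fun x => ?_
  generalize l x = L
  generalize l' x = L'
  induction L generalizing L' with
  | nil => simp
  | cons a L ih =>
    cases L' with
    | nil => simp
    | cons b L' =>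
      simp only [List.length_cons, Nat.add_min_add_right, List.range_succ_eq_map, List.flatMap_cons,
        List.flatMap_map, List.zip_cons_cons, ← ih L']
      simp

theorem ser_inj : ∀ (a b : T) (r r' : List Bool), ser a ++ r = ser b ++ r' → a = b ∧ r = r'
  | .nil, .nil, _, _, h => by simpa [ser] using h
  | .nil, .cons _ _, _, _, h => by simp [ser] at h
  | .cons _ _, .nil, _, _, h => by simp [ser] at h
  | .cons a b, .cons c d, r, r', h => by
      simp only [ser, List.cons_append, List.append_assoc, List.cons.injEq, true_and] at h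
      obtain ⟨h1, h2⟩ := ser_inj a c _ _ h
      obtain ⟨h3, h4⟩ := ser_inj b d _ _ h2
      simp [h1, h3, h4]

class Inj (α : Type) [Enc α] : Prop where
  inj : ∀ a b : α, Enc.tr a = Enc.tr b → a = b

instance : Inj Unit := ⟨fun _ _ _ => rfl⟩
instance : Inj Bool := ⟨fun a b => by cases a <;> cases b <;> simp [Enc.tr]⟩
instance [Inj α] [Inj β] : Inj (α × β) := ⟨fun a b h => by
  simp only [Enc.tr, T.cons.injEq] at h
  exact Prod.ext (Inj.inj _ _ h.1) (Inj.inj _ _ h.2)⟩
instance [Inj α] : Inj (List α) := ⟨fun a => by
  induction a with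
  | nil => intro b; cases b <;> simp [Enc.tr]
  | cons x a ih =>
    intro b h
    cases b with
    | nil => simp [Enc.tr] at h
    | cons y b =>
      have h' : T.cons (Enc.tr x) (Enc.tr a) = T.cons (Enc.tr y) (Enc.tr b) := h
      simp only [T.cons.injEq] at h'
      rw [Inj.inj _ _ h'.1, ih b h'.2]⟩
instance : Inj ℕ := ⟨fun a b h => by
  have : List.replicate a () = List.replicate b () :=
    Inj.inj _ _ (by simp [tr_units, h])
  simpa using congrArg List.length this⟩
instance [Inj α] : Inj (Option α) := ⟨fun a b h => by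
  cases a <;> cases b <;> simp [Enc.tr] at h ⊢
  exact Inj.inj _ _ h⟩

theorem bits_inj [Inj α] {a b : α} (h : bits a = bits b) : a = b :=
  Inj.inj _ _ (ser_inj _ _ [] [] (by simpa [bits] using h)).1

theorem PT.eqBools {f g : α → List Bool} (hf : PT f) (hg : PT g) :
    PT fun x => decide (f x = g x) := by
  have h1 : PT fun x => (decide ((f x).length ≤ (g x).length) && decide ((g x).length ≤ (f x).length)
    && ((f x).zip (g x)).all fun p => !(p.1 ^^ p.2)) := by fun_prop
  refine h1.of_eq fun x => ?_
  generalize f x = L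
  generalize g x = L'
  rw [Bool.eq_iff_iff]
  induction L generalizing L' with
  | nil => cases L' <;> simp
  | cons a L ih =>
    cases L' with
    | nil => simp
    | cons b L' =>
      have := ih L'
      simp at this ⊢
      tauto
@[fun_prop] theorem PT.decEq [Inj β] {f g : α → β} [∀ x, Decidable (f x = g x)] (hf : PT f)
    (hg : PT g) : PT fun x => decide (f x = g x) :=
  (PT.eqBools hf.bits' hg.bits').of_eq fun x => by
    rw [Bool.eq_iff_iff]; simp only [decide_eq_true_eq]
    exact ⟨bits_inj, fun h => by rw [h]⟩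
@[fun_prop] theorem PT.beq [Inj β] [BEq β] [LawfulBEq β] {f g : α → β} (hf : PT f) (hg : PT g) :
    PT fun x => (f x == g x) := by
  classical
  exact (PT.decEq hf hg).of_eq fun x => by rw [Bool.eq_iff_iff]; simp
@[fun_prop] theorem PT.bne [Inj β] [BEq β] [LawfulBEq β] {f g : α → β} (hf : PT f) (hg : PT g) :
    PT fun x => (f x != g x) := (PT.beq hf hg).not
@[fun_prop] theorem PT.contains [Inj β] [BEq β] [LawfulBEq β] {l : α → List β} {g : α → β}
    (hl : PT l) (hg : PT g) : PT fun x => (l x).contains (g x) :=
  (PT.any (p := fun x b => g x == b) hl (by fun_prop)).of_eq fun x => by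
    rw [Bool.eq_iff_iff]; simp
@[fun_prop] theorem PT.decMem [Inj β] {l : α → List β} {g : α → β} [∀ x, Decidable (g x ∈ l x)]
    (hl : PT l) (hg : PT g) : PT fun x => decide (g x ∈ l x) := by
  classical
  exact (PT.contains hl hg).of_eq fun x => by rw [Bool.eq_iff_iff]; simp
@[fun_prop] theorem PT.count [Inj β] [BEq β] [LawfulBEq β] {l : α → List β} {g : α → β}
    (hl : PT l) (hg : PT g) : PT fun x => (l x).count (g x) :=
  PT.countP (p := fun x b => b == g x) hl (by fun_prop)
@[fun_prop] theorem PT.decAnd {p q : α → Prop} [DecidablePred p] [DecidablePred q]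
    [∀ x, Decidable (p x ∧ q x)] (hp : PT fun x => decide (p x)) (hq : PT fun x => decide (q x)) :
    PT fun x => decide (p x ∧ q x) := (hp.and hq).of_eq fun x => by simp
@[fun_prop] theorem PT.decOr {p q : α → Prop} [DecidablePred p] [DecidablePred q]
    [∀ x, Decidable (p x ∨ q x)] (hp : PT fun x => decide (p x)) (hq : PT fun x => decide (q x)) :
    PT fun x => decide (p x ∨ q x) := (hp.or hq).of_eq fun x => by simp
@[fun_prop] theorem PT.decNot {p : α → Prop} [DecidablePred p]
    [∀ x, Decidable (¬ p x)] (hp : PT fun x => decide (p x)) :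
    PT fun x => decide (¬ p x) := hp.not.of_eq fun x => by simp
@[fun_prop] theorem PT.decTrue {p : α → Bool} [∀ x, Decidable (p x = true)] (hp : PT p) :
    PT fun x => decide (p x = true) := hp.of_eq fun x => by simp
@[fun_prop] theorem PT.some' {f : α → β} (hf : PT f) : PT fun x => some (f x) :=
  (PT.ofId (f := fun p : β × Unit => some p.1) fun _ => rfl).comp (hf.pair (PT.const ()))
@[fun_prop] theorem PT.toList {f : α → Option β} (hf : PT f) : PT fun x => (f x).toList :=
  (PT.ofId (f := fun o : Option β => o.toList) fun o => by cases o <;> rfl).comp hf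
@[fun_prop] theorem PT.isSome {f : α → Option β} (hf : PT f) : PT fun x => (f x).isSome :=
  hf.toList.isEmpty.not.of_eq fun x => by cases f x <;> rfl
@[fun_prop] theorem PT.optGetD {f : α → Option β} {d : α → β} (hf : PT f) (hd : PT d) :
    PT fun x => (f x).getD (d x) :=
  (hf.toList.headD hd).of_eq fun x => by cases f x <;> rfl
@[fun_prop] theorem PT.head? {f : α → List β} (hf : PT f) : PT fun x => (f x).head? :=
  (PT.headD (PT.map (f := fun _ b => some b) hf (by fun_prop)) (PT.const none)).of_eq fun x => by
    cases f x <;> rfl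
@[fun_prop] theorem PT.getElem? {l : α → List β} {n : α → ℕ} (hl : PT l) (hn : PT n) :
    PT fun x => (l x)[n x]? :=
  (PT.drop hn hl).head?.of_eq fun x => by simp
@[fun_prop] theorem PT.find? {l : α → List β} {p : α → β → Bool} (hl : PT l)
    (hp : PT fun q : α × β => p q.1 q.2) : PT fun x => (l x).find? (p x) :=
  (PT.filter hl hp).head?.of_eq fun x => by simp
@[fun_prop] theorem PT.natPair {f g : α → ℕ} (hf : PT f) (hg : PT g) :
    PT fun x => Nat.pair (f x) (g x) := by
  unfold Nat.pair; fun_prop
@[fun_prop] theorem PT.zipIdx {l : α → List β} (hl : PT l) : PT fun x => (l x).zipIdx :=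
  (hl.zip hl.length.range).of_eq fun x => by
    rw [List.zipIdx_eq_zip_range', List.range_eq_range']
@[fun_prop] theorem PT.product {l : α → List β} {l' : α → List γ} (hl : PT l) (hl' : PT l') :
    PT fun x => (l x) ×ˢ (l' x) :=
  (show PT fun x => (l x).flatMap fun a => (l' x).map fun b => (a, b) by fun_prop)
@[fun_prop] theorem PT.getLast? {f : α → List β} (hf : PT f) : PT fun x => (f x).getLast? :=
  hf.reverse.head?.of_eq fun x => by simp
theorem PT.foldr_add {l : α → List β} {i : α → γ} {g : α → β → γ → γ} (hl : PT l) (hi : PT i)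
    (hg : PT fun p : α × γ × β => g p.1 p.2.2 p.2.1) (d : α → β → δ) (k : ℕ)
    (hd : PT fun p : α × β => d p.1 p.2) (h : ∀ x c b, sz (g x b c) ≤ sz c + sz (d x b) + k) :
    PT fun x => (l x).foldr (g x) (i x) :=
  (PT.foldl_add (g := fun x c b => g x b c) hl.reverse hi hg d k hd h).of_eq fun x => by
    rw [List.foldl_reverse]

theorem PT.polyTime {f : α → β} (h : PT f) : PolyTime bits bits f := RT.polyTime h
theorem PT.polyTime_raw {f : List Bool → β} (h : PT f) : PolyTime _root_.id bits f :=
  RT.polyTime (RT.comp h RT.raw)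
theorem PT.inP {L : α → Prop} {V : α → Bool} (h : PT V) (e : ∀ x, L x ↔ V x = true) : InP L :=
  ⟨V, RT.polyTime (RT.comp (f := fun b => b) RT.boolOut h), e⟩

theorem PT.inNP {L : α → Prop} {V : α × List Bool → Bool} (h : PT V) (q : ℕ[X])
    (e : ∀ x, L x ↔ ∃ w : List Bool, w.length = q.eval (sz x) ∧ V (x, w) = true) : InNP L :=
  ⟨V, q, RT.polyTime (RT.comp (f := fun b => b) RT.boolOut (RT.comp h RT.cert)), e⟩

def decN (w : List Bool) : List ℕ :=
  w.foldr (fun b c => bif b then (c.headD 0 + 1) :: c.tail else 0 :: c) []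

def encN (c : List ℕ) : List Bool := c.flatMap fun n => List.replicate n true ++ [false]

theorem decN_encN (c : List ℕ) (w : List Bool) : decN (encN c ++ w) = c ++ decN w := by
  induction c with
  | nil => rfl
  | cons n c ih =>
    have : ∀ (n : ℕ) (u : List Bool), decN (List.replicate n true ++ false :: u) = n :: decN u := by
      intro n u
      induction n with
      | zero => rfl
      | succ n ih => simp only [decN, List.replicate_succ, List.cons_append, List.foldr_cons] at ih ⊢
                     rw [ih]; rfl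
    simp only [encN, List.flatMap_cons, List.append_assoc, List.cons_append, List.nil_append] at ih ⊢
    rw [this, ih]

theorem len_encN (c : List ℕ) : (encN c).length = c.length + c.sum := by
  induction c with
  | nil => rfl
  | cons n c ih => simp only [encN, List.flatMap_cons, List.length_append] at ih ⊢; simp [ih]; omega

@[fun_prop] theorem PT.decN' {f : α → List Bool} (hf : PT f) : PT fun x => decN (f x) :=
  PT.foldr_add (g := fun _ b (c : List ℕ) => bif b then (c.headD 0 + 1) :: c.tail else 0 :: c) hf
    (PT.const []) (by fun_prop) (fun _ _ => ()) 4 (by fun_prop) (fun _ c b => by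
      cases b <;> cases c <;> simp <;> omega)

/-- NP membership with a list of naturals as certificate; `B` bounds length plus sum. -/
theorem PT.inNP_nats {L : α → Prop} {V : α → List ℕ → Bool} (h : PT fun p : α × List ℕ => V p.1 p.2)
    (B : α → ℕ) (hB : PT B) (e1 : ∀ x c, V x c = true → L x)
    (e2 : ∀ x, L x → ∃ c : List ℕ, c.length + c.sum ≤ B x ∧ V x c = true) : InNP L := by
  obtain ⟨q, hq⟩ := hB.out
  refine PT.inNP (V := fun p => V p.1 (((decN p.2).tail).take ((decN p.2).headD 0)))
    (h.comp (g := fun p : α × List Bool => (p.1, ((decN p.2).tail).take ((decN p.2).headD 0)))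
      (by fun_prop)) q fun x => ⟨fun hx => ?_, fun ⟨w, _, hw⟩ => e1 _ _ hw⟩
  obtain ⟨c, hc, hV⟩ := e2 x hx
  have h1 := hq x
  simp only [sz_nat] at h1
  refine ⟨encN (c.length :: c) ++ List.replicate (q.eval (sz x) - (2 * c.length + c.sum + 1)) false,
    ?_, ?_⟩
  · simp only [List.length_append, len_encN, List.length_cons, List.sum_cons,
      List.length_replicate]; omega
  · simp only [decN_encN]; simpa using hV

/-- hardness through reductions of the programming language; implies `NPHard` -/
def Hard (X : β → Prop) : Prop :=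
  ∀ L : List Bool → Prop, InNP L → ∃ f : List Bool → β, PT f ∧ ∀ x, L x ↔ X (f x)

theorem Hard.npHard {X : β → Prop} (h : Hard X) : NPHard X := fun L hL => by
  obtain ⟨f, hf, e⟩ := h L hL
  exact ⟨f, hf.polyTime_raw, e⟩

theorem Hard.red {X : β → Prop} {Y : γ → Prop} (h : Hard X) (f : β → γ) (hf : PT f)
    (e : ∀ y, X y ↔ Y (f y)) : Hard Y := fun L hL => by
  obtain ⟨g, hg, e'⟩ := h L hL
  exact ⟨fun x => f (g x), hf.comp hg, fun x => (e' x).trans (e _)⟩

end Pool.Agent.H11.PT
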