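import Mathlib

set_option autoImplicit false

namespace Pool.Agent.H11.PT

/-- Binary trees, used only to write structured data as bit strings. -/
inductive T : Type
  | nil : T
  | cons : T → T → T

/-- Self-delimiting serialisation of a binary tree (preorder, 1 = inner node, 0 = leaf). -/
def ser : T → List Bool
  | .nil => [false]
  | .cons a b => true :: (ser a ++ ser b)

/-- Data types that are written as binary trees. -/
class Enc (α : Type) where
  tr : α → T

/-- The bit string that encodes `x`. -/
def bits {α : Type} [Enc α] (x : α) : List Bool := ser (Enc.tr x)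

instance encUnit : Enc Unit := ⟨fun _ => .nil⟩
instance encBool : Enc Bool := ⟨fun b => bif b then .cons .nil .nil else .nil⟩
/-- natural numbers are written in unary -/
instance encNat : Enc ℕ := ⟨fun n => (fun t => T.cons .nil t)^[n] .nil⟩
instance encProd {α β : Type} [Enc α] [Enc β] : Enc (α × β) :=
  ⟨fun p => .cons (Enc.tr p.1) (Enc.tr p.2)⟩
instance encList {α : Type} [Enc α] : Enc (List α) :=
  ⟨fun l => l.foldr (fun a t => .cons (Enc.tr a) t) .nil⟩
instance encOption {α : Type} [Enc α] : Enc (Option α) :=
  ⟨fun o => o.elim .nil (fun a => .cons (Enc.tr a) .nil)⟩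

/-- `f` is computed in polynomial time by a multi-stack Turing machine of Mathlib,
with input encoding `ea` and output encoding `eb`. -/
def PolyTime {α β : Type} (ea : α → List Bool) (eb : β → List Bool) (f : α → β) : Prop :=
  Nonempty (Turing.TM2ComputableInPolyTime ea eb f)

/-- The class P. -/
def InP {α : Type} [Enc α] (L : α → Prop) : Prop :=
  ∃ V : α → Bool, PolyTime bits (fun b => [b]) V ∧ ∀ x, L x ↔ V x = true

/-- The class NP: polynomial-time verifier reading the code of `x` followed by a certificate
of polynomial length. -/
def InNP {α : Type} [Enc α] (L : α → Prop) : Prop :=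
  ∃ (V : α × List Bool → Bool) (q : Polynomial ℕ),
    PolyTime (fun p => bits p.1 ++ p.2) (fun b => [b]) V ∧
      ∀ x, L x ↔ ∃ w : List Bool, w.length = q.eval (bits x).length ∧ V (x, w) = true

/-- NP-hardness under polynomial-time many-one reductions. -/
def NPHard {β : Type} [Enc β] (X : β → Prop) : Prop :=
  ∀ L : List Bool → Prop, InNP L →
    ∃ f : List Bool → β, PolyTime id bits f ∧ ∀ x, L x ↔ X (f x)

/-- NP-completeness. -/
def NPComplete {β : Type} [Enc β] (X : β → Prop) : Prop := InNP X ∧ NPHard X

end Pool.Agent.H11.PT
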