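import Pool.Agent.H23.SS

set_option autoImplicit false

namespace Pool.Agent.H11.PT
open Finset Pool.Agent.H23.SS

theorem hard_SS3 : HardFor InNP (fun p : (List (List Bool) × List Bool) × List Bool =>
    bin p.1.2 + bin p.1.2 + bin p.2 = ∑ j ∈ range p.1.1.length, bin (p.1.1.getD j [])) fun p => SS p.1 := by
  refine hard_ONE3.red (fun φ => (red φ, num (φ.length + nv φ) fun t => decide (t < φ.length)))
    (by unfold red num mem nv; fun_prop) fun φ hd => ?_
  have n2 : 2 ≤ nv φ := by simp [nv]
  have hl : (red φ).1.length = 2 * nv φ := by simp [red]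
  have hb : ∀ j < 2 * nv φ, bin ((red φ).1.getD j []) =
      ∑ t ∈ range (φ.length + nv φ), (if mem φ j t then 1 else 0) * 4 ^ t := fun j h => by
    simp [red, List.getD_eq_getElem?_getD, h, bin_num]
  have ha : bin (red φ).2 = ∑ t ∈ range (φ.length + nv φ), 1 * 4 ^ t := by simp [red, bin_num]
  have hs : ∀ σ : ℕ → Bool, (∑ j ∈ range (2 * nv φ), if σ j then bin ((red φ).1.getD j []) else 0) =
      ∑ t ∈ range (φ.length + nv φ),
        (∑ j ∈ range (2 * nv φ), if mem φ j t then (σ j).toNat else 0) * 4 ^ t := fun σ => by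
    simp only [sum_mul]
    rw [sum_comm]
    refine sum_congr rfl fun j h => ?_
    rw [hb j (mem_range.1 h)]
    cases σ j <;> simp
  have one : ∀ (σ : ℕ → Bool) i, i < 2 * nv φ →
      ∑ j ∈ range (2 * nv φ), (if j = i then (σ j).toNat else 0) = (σ i).toNat := fun σ i h => by
    simp [h]
  have c1 : ∀ (σ : ℕ → Bool) t (h : t < φ.length), φ[t].1 + φ[t].2.1 + φ[t].2.2 < nv φ ∧
      (∑ j ∈ range (2 * nv φ), if mem φ j t then (σ j).toNat else 0) =
      (σ φ[t].1).toNat + (σ φ[t].2.1).toNat + (σ φ[t].2.2).toNat := fun σ t h => by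
    have a : φ[t].1 + φ[t].2.1 + φ[t].2.2 < nv φ := Nat.lt_succ_of_le (Nat.le_succ_of_le
      (List.single_le_sum (by simp) _ (List.mem_map.2 ⟨_, List.getElem_mem h, rfl⟩)))
    have := hd _ (List.getElem_mem h)
    refine ⟨a, ?_⟩
    rw [← one σ _ (show φ[t].1 < _ by omega), ← one σ _ (show φ[t].2.1 < _ by omega),
      ← one σ _ (show φ[t].2.2 < _ by omega), ← sum_add_distrib, ← sum_add_distrib]
    refine sum_congr rfl fun j _ => ?_
    simp only [mem, List.getD_eq_getElem _ _ h]
    split_ifs <;> omega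
  have c2 : ∀ (σ : ℕ → Bool) v, v < nv φ →
      (∑ j ∈ range (2 * nv φ), if mem φ j (φ.length + v) then (σ j).toNat else 0) =
      (σ v).toNat + (σ (nv φ + v)).toNat := fun σ v h => by
    rw [← one σ v (by omega), ← one σ (nv φ + v) (by omega), ← sum_add_distrib]
    refine sum_congr rfl fun j _ => ?_
    simp only [mem]
    split_ifs <;> omega
  refine ⟨?_, fun ⟨σ, h⟩ => ?_, fun ⟨σ, h⟩ => ?_⟩
  · have := hs fun _ => true
    simp only [if_true] at this
    dsimp only
    rw [hl, this, ha, bin_num, ← sum_add_distrib, ← sum_add_distrib]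
    refine sum_congr rfl fun t ht => ?_
    rw [← add_mul, ← add_mul]
    by_cases c : t < φ.length
    · rw [(c1 (fun _ => true) t c).2]; simp [c]
    · obtain ⟨v, rfl⟩ := Nat.exists_eq_add_of_le (not_lt.1 c)
      rw [c2 (fun _ => true) v (by simpa using ht)]; simp
  · refine ⟨fun j => if j < nv φ then σ j else !σ (j - nv φ), ?_⟩
    rw [hl, hs, ha]
    refine sum_congr rfl fun t ht => congrArg (· * 4 ^ t) ?_
    by_cases c : t < φ.length
    · obtain ⟨a, b⟩ := c1 (fun j => if j < nv φ then σ j else !σ (j - nv φ)) t c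
      rw [b, if_pos (by omega), if_pos (by omega), if_pos (by omega)]
      exact h _ (List.getElem_mem c)
    · obtain ⟨v, rfl⟩ := Nat.exists_eq_add_of_le (not_lt.1 c)
      have : v < nv φ := by simpa using ht
      rw [c2 _ v this, if_pos this, if_neg (by omega), Nat.add_sub_cancel_left]
      cases σ v <;> rfl
  · rw [hl, hs, ha] at h
    refine ⟨σ, fun c hc => ?_⟩
    obtain ⟨t, ht, rfl⟩ := List.getElem_of_mem hc
    rw [← (c1 σ t ht).2]
    refine digits _ _ (fun t ht => ?_) h t (by omega)
    have := fun j => Bool.toNat_le (σ j)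
    by_cases c : t < φ.length
    · rw [(c1 σ t c).2]
      exact add_le_add (add_le_add (this _) (this _)) (this _)
    · obtain ⟨v, rfl⟩ := Nat.exists_eq_add_of_le (not_lt.1 c)
      rw [c2 σ v (by omega)]
      exact (add_le_add (this _) (this _)).trans (by omega)

/-- PARTITION, numbers in binary -/
def PART (l : List (List Bool)) : Prop :=
  ∃ σ : ℕ → Bool, 2 * (∑ j ∈ range l.length, if σ j then bin (l.getD j []) else 0) =
    ∑ j ∈ range l.length, bin (l.getD j [])

theorem hard_PART : HardFor InNP (fun _ => True) PART := by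
  refine hard_SS3.red (fun p => p.2 :: p.1.1) (by fun_prop) fun ⟨⟨l, a⟩, g⟩ h => ⟨trivial, ?_⟩
  simp only [SS, PART, List.length_cons, sum_range_succ', List.getD_cons_succ,
    List.getD_cons_zero] at h ⊢
  constructor <;> rintro ⟨σ, e⟩
  · refine ⟨fun j => decide (j = 0) || σ (j - 1), ?_⟩
    simp only [Nat.add_eq_zero_iff, one_ne_zero, and_false, decide_false, Bool.false_or,
      Nat.add_sub_cancel, decide_true, Bool.true_or, if_true]
    omega
  · have k : (∑ j ∈ range l.length, if σ (j + 1) then bin (l.getD j []) else 0) +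
        (∑ j ∈ range l.length, if !σ (j + 1) then bin (l.getD j []) else 0) =
        ∑ j ∈ range l.length, bin (l.getD j []) := by
      rw [← sum_add_distrib]; exact sum_congr rfl fun j _ => by cases σ (j + 1) <;> simp
    cases c : σ 0
    · exact ⟨fun j => !σ (j + 1), by simp only [c, Bool.false_eq_true, if_false] at e ⊢; omega⟩
    · exact ⟨fun j => σ (j + 1), by simp only [c, if_true] at e ⊢; omega⟩

end Pool.Agent.H11.PT
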