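import Mathlib

set_option linter.unusedVariables false

open Classical

namespace Pool.Agent.H11.PermMu

abbrev X := Σ n : ℕ, Equiv.Perm (Fin n)

def Le (x y : X) : Prop :=
  ∃ e : Fin x.1 → Fin y.1, StrictMono e ∧ ∀ i j, x.2 i < x.2 j ↔ y.2 (e i) < y.2 (e j)

def val (x : X) (i : ℕ) : ℕ := if h : i < x.1 then (x.2 ⟨i, h⟩ : ℕ) else 0

lemma val_fin (x : X) (i : Fin x.1) : val x i = x.2 i := by simp [val]

lemma val_lt (x : X) {i : ℕ} (h : i < x.1) : val x i < x.1 := by
  simp only [val, h, dif_pos]; exact (x.2 _).2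

lemma val_inj (x : X) {i j : ℕ} (hi : i < x.1) (hj : j < x.1) (h : val x i = val x j) : i = j := by
  simp only [val, hi, hj, dif_pos] at h
  have := x.2.injective (Fin.ext h)
  simpa using this

lemma val_surj (x : X) {v : ℕ} (hv : v < x.1) : ∃ i < x.1, val x i = v :=
  ⟨x.2.symm ⟨v, hv⟩, (x.2.symm _).2, by rw [val_fin]; simp⟩

lemma val_card (x : X) {i : ℕ} (hi : i < x.1) :
    ((Finset.range x.1).filter fun j => val x j < val x i).card = val x i := by
  conv_rhs => rw [← Finset.card_range (val x i)]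
  apply Finset.card_bij (fun j _ => val x j)
  · intro j hj
    simpa using (Finset.mem_filter.1 hj).2
  · intro j hj k hk h
    exact val_inj x (by simpa using (Finset.mem_filter.1 hj).1)
      (by simpa using (Finset.mem_filter.1 hk).1) h
  · intro v hv
    have hv' : v < val x i := by simpa using hv
    obtain ⟨j, hj, e⟩ := val_surj x (hv'.trans (val_lt x hi))
    exact ⟨j, Finset.mem_filter.2 ⟨by simpa using hj, by omega⟩, e⟩

lemma ext' {x y : X} (h : x.1 = y.1) (hv : ∀ i < x.1, val x i = val y i) : x = y := by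
  obtain ⟨n, p⟩ := x
  obtain ⟨m, q⟩ := y
  simp only at h
  subst h
  congr
  ext i
  have := hv i i.2
  rw [val_fin ⟨n, p⟩ i, val_fin ⟨n, q⟩ i] at this
  exact this

noncomputable def mk (n : ℕ) (f : ℕ → ℕ) (h1 : ∀ i < n, f i < n)
    (h2 : ∀ i < n, ∀ j < n, f i = f j → i = j) : X :=
  ⟨n, Equiv.ofBijective (fun i : Fin n => (⟨f i, h1 i i.2⟩ : Fin n))
    (Finite.injective_iff_bijective.1 fun i j h =>
      Fin.ext (h2 i i.2 j j.2 (by simpa using h)))⟩

lemma mk_len (n f h1 h2) : (mk n f h1 h2).1 = n := rfl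

lemma val_mk (n f h1 h2) {i : ℕ} (hi : i < n) : val (mk n f h1 h2) i = f i := by
  unfold val
  rw [dif_pos (show i < (mk n f h1 h2).1 from hi)]
  rfl

def Occ (x y : X) (e : ℕ → ℕ) : Prop :=
  (∀ i j, i < j → j < x.1 → e i < e j) ∧ (∀ i < x.1, e i < y.1) ∧
    ∀ i < x.1, ∀ j < x.1, (val x i < val x j ↔ val y (e i) < val y (e j))

lemma occ_of_fin {x y : X} (e : Fin x.1 → Fin y.1) (h1 : StrictMono e)
    (h2 : ∀ i j, x.2 i < x.2 j ↔ y.2 (e i) < y.2 (e j)) :
    Occ x y (fun i => if h : i < x.1 then (e ⟨i, h⟩ : ℕ) else 0) := by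
  refine ⟨fun i j hij hj => ?_, fun i hi => ?_, fun i hi j hj => ?_⟩
  · simp only [hj, hij.trans hj, dif_pos]
    exact h1 (show (⟨i, _⟩ : Fin x.1) < ⟨j, _⟩ from hij)
  · simp only [hi, dif_pos]; exact (e _).2
  · simp only [hi, hj, dif_pos, val_fin]
    have := h2 ⟨i, hi⟩ ⟨j, hj⟩
    simp only [val, hi, hj, dif_pos]
    exact this

lemma le_iff {x y : X} : Le x y ↔ ∃ e, Occ x y e := by
  constructor
  · rintro ⟨e, h1, h2⟩
    exact ⟨_, occ_of_fin e h1 h2⟩
  · rintro ⟨e, h1, h2, h3⟩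
    refine ⟨fun i => ⟨e i, h2 i i.2⟩, fun i j h => h1 i j h j.2, fun i j => ?_⟩
    have := h3 i i.2 j j.2
    rw [val_fin, val_fin] at this
    simp only [val, h2 i i.2, h2 j j.2, dif_pos] at this
    exact this

lemma Occ.le {x y : X} {e} (h : Occ x y e) : Le x y := le_iff.2 ⟨e, h⟩

lemma Occ.comp {x y z : X} {e f} (h : Occ x y e) (k : Occ y z f) : Occ x z (fun i => f (e i)) :=
  ⟨fun i j hij hj => k.1 _ _ (h.1 i j hij hj) (h.2.1 j hj), fun i hi => k.2.1 _ (h.2.1 i hi),
    fun i hi j hj => (h.2.2 i hi j hj).trans (k.2.2 _ (h.2.1 i hi) _ (h.2.1 j hj))⟩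

lemma Le.refl (x : X) : Le x x := ⟨id, strictMono_id, fun _ _ => Iff.rfl⟩

lemma Le.trans {x y z : X} (h : Le x y) (k : Le y z) : Le x z := by
  obtain ⟨e, h⟩ := le_iff.1 h
  obtain ⟨f, k⟩ := le_iff.1 k
  exact (h.comp k).le

lemma Le.len {x y : X} (h : Le x y) : x.1 ≤ y.1 := by
  obtain ⟨e, h, -⟩ := h
  simpa using Fintype.card_le_of_injective e h.injective

lemma Occ.mono {x y : X} {e} (h : Occ x y e) {i j : ℕ} (hij : i ≤ j) (hj : j < x.1) :
    e i ≤ e j := by
  rcases hij.lt_or_eq with k | k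
  · exact (h.1 i j k hj).le
  · rw [k]

lemma Occ.val_eq {x y : X} {e} (h : Occ x y e) {i : ℕ} (hi : i < x.1) :
    val x i = ((Finset.range x.1).filter fun j => val y (e j) < val y (e i)).card := by
  rw [← val_card x hi]
  congr 1
  apply Finset.filter_congr
  intro j hj
  exact h.2.2 j (by simpa using hj) i hi

lemma Le.eq_of_len {x y : X} (h : Le x y) (k : x.1 = y.1) : x = y := by
  obtain ⟨n, p⟩ := x
  obtain ⟨m, q⟩ := y
  simp only at k
  subst k
  obtain ⟨e, h1, h2⟩ := h
  have he : ∀ i, e i = i := fun i => by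
    have := Subsingleton.elim (h1.orderIsoOfSurjective e
      (Finite.injective_iff_surjective.1 h1.injective)) (OrderIso.refl _)
    exact congrArg (fun f => f i) this
  have ho : Occ ⟨n, p⟩ ⟨n, q⟩ id := by
    refine ⟨fun _ _ h _ => h, fun _ h => h, fun i hi j hj => ?_⟩
    have := h2 ⟨i, hi⟩ ⟨j, hj⟩
    rw [he, he] at this
    simp only at hi hj
    simp only [val, hi, hj, dif_pos, id]
    exact this
  refine ext' (x := ⟨n, p⟩) (y := ⟨n, q⟩) rfl ?_
  intro i hi
  rw [ho.val_eq hi]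
  exact val_card ⟨n, q⟩ hi

noncomputable def I (x y : X) : Finset X :=
  ((Finset.range (y.1 + 1)).sigma fun _ => Finset.univ).filter fun r => Le x r ∧ Le r y

lemma mem_I {x y r : X} : r ∈ I x y ↔ Le x r ∧ Le r y := by
  simp only [I, Finset.mem_filter, Finset.mem_sigma, Finset.mem_range, Finset.mem_univ, and_true]
  exact ⟨fun h => h.2, fun h => ⟨Nat.lt_succ_of_le h.2.len, h⟩⟩

lemma sum_I (x y : X) (g : X → ℤ) :
    ∑ k ∈ Finset.range (y.1 + 1), ∑ r : Equiv.Perm (Fin k),
      (if Le x ⟨k, r⟩ ∧ Le ⟨k, r⟩ y then g ⟨k, r⟩ else 0) = ∑ r ∈ I x y, g r := by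
  rw [I, Finset.sum_filter, Finset.sum_sigma]

lemma lt_of_erase {x y r : X} (h : r ∈ (I x y).erase y) : r.1 < y.1 := by
  obtain ⟨h1, h2⟩ := Finset.mem_erase.1 h
  have := (mem_I.1 h2).2
  exact lt_of_le_of_ne this.len fun k => h1 (this.eq_of_len k)

noncomputable def mu (x y : X) : ℤ :=
  if x = y then 1 else if Le x y then - ∑ r ∈ ((I x y).erase y).attach, mu x r.1 else 0
termination_by y.1
decreasing_by exact lt_of_erase r.2

lemma mu_self (x : X) : mu x x = 1 := by rw [mu]; simp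

lemma mu_not {x y : X} (h : ¬ Le x y) : mu x y = 0 := by
  rw [mu, if_neg, if_neg h]
  rintro rfl
  exact h (Le.refl _)

lemma mu_sum {x y : X} (h : x ≠ y) (k : Le x y) : ∑ r ∈ I x y, mu x r = 0 := by
  rw [← Finset.add_sum_erase _ _ (mem_I.2 ⟨k, Le.refl y⟩)]
  rw [mu, if_neg h, if_pos k, Finset.sum_attach ((I x y).erase y) (fun r => mu x r)]
  ring

lemma mu_unique (x t : X) (g : X → ℤ) (h1 : g x = 1)
    (h2 : ∀ y, Le x y → Le y t → x ≠ y → ∑ r ∈ I x y, g r = 0) :
    ∀ n, ∀ y : X, y.1 < n → Le x y → Le y t → mu x y = g y := by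
  intro n
  induction n with
  | zero => intro y h; omega
  | succ n ih =>
    intro y hn a b
    by_cases hxy : x = y
    · subst hxy; rw [mu_self, h1]
    have e1 := mu_sum hxy a
    have e2 := h2 y a b hxy
    rw [← Finset.add_sum_erase _ _ (mem_I.2 ⟨a, Le.refl y⟩)] at e1 e2
    have : ∑ r ∈ (I x y).erase y, mu x r = ∑ r ∈ (I x y).erase y, g r := by
      apply Finset.sum_congr rfl
      intro r hr
      have k := mem_I.1 (Finset.mem_erase.1 hr).2
      have := lt_of_erase hr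
      exact ih r (by omega) k.1 (k.2.trans b)
    omega

/-! ### Direct sums -/

noncomputable def sum (a b : X) : X :=
  mk (a.1 + b.1) (fun i => if i < a.1 then val a i else a.1 + val b (i - a.1))
    (fun i hi => by
      split_ifs with h
      · have := val_lt a h; omega
      · have := val_lt b (i := i - a.1) (by omega); omega)
    (fun i hi j hj h => by
      split_ifs at h with h1 h2 h2
      · exact val_inj a h1 h2 h
      · have := val_lt a h1; omega
      · have := val_lt a h2; omega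
      · have := val_inj b (i := i - a.1) (j := j - a.1) (by omega) (by omega) (by omega)
        omega)

lemma sum_len (a b : X) : (sum a b).1 = a.1 + b.1 := rfl

lemma val_l (a b : X) {i : ℕ} (h : i < a.1) : val (sum a b) i = val a i := by
  rw [sum, val_mk _ _ _ _ (by omega), if_pos h]

lemma val_r (a b : X) {i : ℕ} (h : a.1 ≤ i) (k : i < a.1 + b.1) :
    val (sum a b) i = a.1 + val b (i - a.1) := by
  rw [sum, val_mk _ _ _ _ k, if_neg (by omega)]

lemma occ_sum {a b c d : X} {e f} (h : Occ a c e) (k : Occ b d f) :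
    Occ (sum a b) (sum c d) (fun i => if i < a.1 then e i else c.1 + f (i - a.1)) := by
  refine ⟨fun i j hij hj => ?_, fun i hi => ?_, fun i hi j hj => ?_⟩
  · rw [sum_len] at hj
    simp only
    split_ifs with h1 h2 h2
    · exact h.1 i j hij h2
    · have := h.2.1 i h1; omega
    · omega
    · have := k.1 (i - a.1) (j - a.1) (by omega) (by omega); omega
  · rw [sum_len] at hi ⊢
    simp only
    split_ifs with h1
    · have := h.2.1 i h1; omega
    · have := k.2.1 (i - a.1) (by omega); omega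
  · rw [sum_len] at hi hj
    simp only
    split_ifs with h1 h2 h2
    · rw [val_l _ _ h1, val_l _ _ h2, val_l _ _ (h.2.1 i h1), val_l _ _ (h.2.1 j h2)]
      exact h.2.2 i h1 j h2
    · have := k.2.1 (j - a.1) (by omega)
      rw [val_l _ _ h1, val_r _ _ (by omega) hj, val_l _ _ (h.2.1 i h1),
        val_r _ _ (by omega) (by omega)]
      have := val_lt a h1
      have := val_lt c (h.2.1 i h1)
      omega
    · have := k.2.1 (i - a.1) (by omega)
      rw [val_l _ _ h2, val_r _ _ (by omega) hi, val_l _ _ (h.2.1 j h2),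
        val_r _ _ (by omega) (by omega)]
      have := val_lt a h2
      have := val_lt c (h.2.1 j h2)
      omega
    · have := k.2.1 (i - a.1) (by omega)
      have := k.2.1 (j - a.1) (by omega)
      rw [val_r _ _ (by omega) hi, val_r _ _ (by omega) hj, val_r _ _ (by omega) (by omega),
        val_r _ _ (by omega) (by omega)]
      have := k.2.2 (i - a.1) (by omega) (j - a.1) (by omega)
      simp only [Nat.add_sub_cancel_left]
      omega

lemma occ_left {a b c d : X} {e} (h : Occ (sum a b) (sum c d) e) (k : ∀ i < a.1, e i < c.1) :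
    Occ a c e := by
  refine ⟨fun i j hij hj => h.1 i j hij (by rw [sum_len]; omega), k, fun i hi j hj => ?_⟩
  have := h.2.2 i (by rw [sum_len]; omega) j (by rw [sum_len]; omega)
  rwa [val_l _ _ hi, val_l _ _ hj, val_l _ _ (k i hi), val_l _ _ (k j hj)] at this

lemma occ_right {a b c d : X} {e} (h : Occ (sum a b) (sum c d) e)
    (k : ∀ i < b.1, c.1 ≤ e (a.1 + i)) : Occ b d (fun i => e (a.1 + i) - c.1) := by
  have hb : ∀ i < b.1, e (a.1 + i) < c.1 + d.1 := fun i hi =>
    h.2.1 _ (by rw [sum_len]; omega)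
  refine ⟨fun i j hij hj => ?_, fun i hi => ?_, fun i hi j hj => ?_⟩
  · have := h.1 (a.1 + i) (a.1 + j) (by omega) (by rw [sum_len]; omega)
    have := k i (by omega)
    simp only
    omega
  · have := hb i hi
    have := k i hi
    simp only
    omega
  · have := h.2.2 (a.1 + i) (by rw [sum_len]; omega) (a.1 + j) (by rw [sum_len]; omega)
    rw [val_r _ _ (by omega) (by omega), val_r _ _ (by omega) (by omega),
      val_r _ _ (k i hi) (hb i hi), val_r _ _ (k j hj) (hb j hj)] at this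
    simp only [Nat.add_sub_cancel_left] at this ⊢
    omega

lemma split {r a b : X} (h : Le r (sum a b)) : ∃ c d, r = sum c d ∧ Le c a ∧ Le d b := by
  obtain ⟨e, h⟩ := le_iff.1 h
  have hex : ∃ c, r.1 ≤ c ∨ a.1 ≤ e c := ⟨r.1, Or.inl le_rfl⟩
  obtain ⟨c, hc, hl, hr⟩ : ∃ c ≤ r.1, (∀ i < c, e i < a.1) ∧ ∀ i, c ≤ i → i < r.1 → a.1 ≤ e i := by
    refine ⟨Nat.find hex, Nat.find_min' hex (Or.inl le_rfl), fun i hi => ?_, fun i hi hj => ?_⟩
    · have := Nat.find_min hex hi
      omega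
    · have := Nat.find_spec hex
      have := h.mono hi hj
      omega
  have hlt : ∀ i < c, ∀ j, c ≤ j → j < r.1 → val r i < val r j := by
    intro i hi j hj hj'
    rw [h.2.2 i (by omega) j hj', val_l _ _ (hl i hi), val_r _ _ (hr j hj hj') (h.2.1 j hj')]
    have := val_lt a (hl i hi)
    omega
  have h1 : ∀ i < c, val r i < c := by
    intro i hi
    rw [← val_card r (by omega : i < r.1)]
    have : ((Finset.range r.1).filter fun j => val r j < val r i) ⊆ (Finset.range c).erase i := by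
      intro j hj
      simp only [Finset.mem_filter, Finset.mem_range, Finset.mem_erase] at hj ⊢
      refine ⟨by rintro rfl; omega, ?_⟩
      by_contra hh
      have := hlt i hi j (by omega) hj.1
      omega
    have := Finset.card_le_card this
    rw [Finset.card_erase_of_mem (by simpa using hi), Finset.card_range] at this
    omega
  have h2 : ∀ j, c ≤ j → j < r.1 → c ≤ val r j := by
    intro j hj hj'
    rw [← val_card r hj']
    conv_lhs => rw [← Finset.card_range c]
    apply Finset.card_le_card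
    intro i hi
    simp only [Finset.mem_filter, Finset.mem_range] at hi ⊢
    exact ⟨by omega, hlt i hi j hj hj'⟩
  let p : X := mk c (val r) h1 fun i hi j hj k => val_inj r (by omega) (by omega) k
  let q : X := mk (r.1 - c) (fun i => val r (c + i) - c)
    (fun i hi => by
      have := val_lt r (i := c + i) (by omega)
      have := h2 (c + i) (by omega) (by omega)
      omega)
    (fun i hi j hj k => by
      have := h2 (c + i) (by omega) (by omega)
      have := h2 (c + j) (by omega) (by omega)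
      have := val_inj r (i := c + i) (j := c + j) (by omega) (by omega) (by omega)
      omega)
  have hp : p.1 = c := rfl
  have hq : q.1 = r.1 - c := rfl
  have hE : r = sum p q := by
    apply ext' (by rw [sum_len]; omega)
    intro i hi
    by_cases k : i < c
    · rw [val_l _ _ k, val_mk _ _ _ _ k]
    · rw [val_r _ _ (by omega) (by omega), val_mk _ _ _ _ (by omega)]
      have := h2 i (by omega) hi
      simp only [hp, show c + (i - c) = i by omega]
      omega
  refine ⟨p, q, hE, ?_, ?_⟩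
  · rw [hE] at h
    exact (occ_left h hl).le
  · have hr' : ∀ i < q.1, a.1 ≤ e (p.1 + i) := fun i hi => hr _ (by omega) (by omega)
    rw [hE] at h
    exact (occ_right h hr').le

def Uniq (s t : X) : Prop := Le s t ∧ ∀ e f, Occ s t e → Occ s t f → ∀ i < s.1, e i = f i

def Inv (s t : X) : Prop :=
  Uniq s t ∧ ∀ e, Occ s t e → ∃ i < s.1, ∀ j < t.1, val t j ≤ val t (e i)

structure Gad (s t : X) : Prop where
  uniq : Uniq s t
  pos : 0 < s.1
  zero : ∀ e, Occ s t e → e 0 = 0
  top : ∀ j < t.1, val t j ≤ val t 0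

section
variable {s t s0 t0 : X}

lemma sep0 (hi : Inv s t) (hg : Gad s0 t0) {e} (h : Occ (sum s s0) (sum t t0) e) :
    e s.1 = t.1 := by
  have hp := hg.pos
  by_cases k : t.1 ≤ e s.1
  · have := hg.zero _ (occ_right h fun i hi' =>
      k.trans (h.mono (by omega) (by rw [sum_len]; omega)))
    simp only [add_zero] at this
    omega
  · have hl : ∀ i < s.1, e i < t.1 := fun i hi' => by
      have := h.1 i s.1 hi' (by rw [sum_len]; omega)
      omega
    obtain ⟨i, h1, h2⟩ := hi.2 e (occ_left h hl)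
    have := h.2.2 i (by rw [sum_len]; omega) s.1 (by rw [sum_len]; omega)
    rw [val_l _ _ h1, val_r _ _ le_rfl (by omega), val_l _ _ (hl i h1),
      val_l _ _ (by omega : e s.1 < t.1)] at this
    have := val_lt s h1
    have := h2 (e s.1) (by omega)
    omega

lemma sep (hi : Inv s t) (hg : Gad s0 t0) {a b : X} (ha : Le a t) (hb : Le b t0) {e}
    (h : Occ (sum s s0) (sum a b) e) : e s.1 = a.1 := by
  obtain ⟨f, hf⟩ := le_iff.1 ha
  obtain ⟨g, hg'⟩ := le_iff.1 hb
  have hp := hg.pos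
  have := sep0 hi hg (h.comp (occ_sum hf hg'))
  have hlt := h.2.1 s.1 (by rw [sum_len]; omega)
  rw [sum_len] at hlt
  split_ifs at this with k
  · have := hf.2.1 _ k
    omega
  · by_contra hne
    have := hg'.1 0 (e s.1 - a.1) (by omega) (by omega)
    omega

lemma sep_occ (hi : Inv s t) (hg : Gad s0 t0) {a b : X} (ha : Le a t) (hb : Le b t0) {e}
    (h : Occ (sum s s0) (sum a b) e) :
    Occ s a e ∧ Occ s0 b (fun i => e (s.1 + i) - a.1) ∧ ∀ i < s0.1, a.1 ≤ e (s.1 + i) := by
  have k := sep hi hg ha hb h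
  have hp := hg.pos
  have hr : ∀ i < s0.1, a.1 ≤ e (s.1 + i) := fun i hi' => by
    have := h.mono (show s.1 ≤ s.1 + i by omega) (by rw [sum_len]; omega)
    omega
  refine ⟨occ_left h fun i hi' => ?_, occ_right h hr, hr⟩
  have := h.1 i s.1 hi' (by rw [sum_len]; omega)
  omega

lemma le_sum {a b c d : X} (h : Le a c) (k : Le b d) : Le (sum a b) (sum c d) := by
  obtain ⟨e, h⟩ := le_iff.1 h
  obtain ⟨f, k⟩ := le_iff.1 k
  exact (occ_sum h k).le

lemma inv_step (hi : Inv s t) (hg : Gad s0 t0) : Inv (sum s s0) (sum t t0) := by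
  have hp := hg.pos
  have hq := hg.uniq.1.len
  refine ⟨⟨le_sum hi.1.1 hg.uniq.1, fun e f he hf i hi' => ?_⟩, fun e he => ?_⟩
  · obtain ⟨a1, a2, a3⟩ := sep_occ hi hg (Le.refl _) (Le.refl _) he
    obtain ⟨b1, b2, b3⟩ := sep_occ hi hg (Le.refl _) (Le.refl _) hf
    rw [sum_len] at hi'
    by_cases k : i < s.1
    · exact hi.1.2 e f a1 b1 i k
    · have c1 := hg.uniq.2 _ _ a2 b2 (i - s.1) (by omega)
      have c2 := a3 (i - s.1) (by omega)
      have c3 := b3 (i - s.1) (by omega)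
      simp only [show s.1 + (i - s.1) = i by omega] at c1 c2 c3
      omega
  · refine ⟨s.1, by rw [sum_len]; omega, fun j hj => ?_⟩
    rw [sum_len] at hj
    rw [sep0 hi hg he, val_r t t0 le_rfl (by omega), Nat.sub_self]
    by_cases k : j < t.1
    · rw [val_l _ _ k]
      have := val_lt t k
      omega
    · rw [val_r _ _ (by omega) hj]
      have := hg.top (j - t.1) (by omega)
      omega

lemma sum_inj (hi : Inv s t) (hg : Gad s0 t0) {a b c d : X} (ha : a ∈ I s t) (hb : b ∈ I s0 t0)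
    (hc : c ∈ I s t) (hd : d ∈ I s0 t0) (h : sum a b = sum c d) : a = c ∧ b = d := by
  rw [mem_I] at ha hb hc hd
  obtain ⟨e, he⟩ := le_iff.1 (le_sum ha.1 hb.1)
  have k1 := sep hi hg ha.2 hb.2 he
  have k2 := sep hi hg hc.2 hd.2 (h ▸ he)
  have k3 := congrArg (·.1) h
  simp only [sum_len] at k3
  refine ⟨ext' (by omega) fun i hi' => ?_, ext' (by omega) fun i hi' => ?_⟩
  · rw [← val_l a b hi', h, val_l _ _ (by omega)]
  · have e1 := val_r a b (i := a.1 + i) (by omega) (by omega)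
    have e2 := val_r c d (i := a.1 + i) (by omega) (by omega)
    rw [h] at e1
    simp only [show a.1 + i - a.1 = i by omega, show a.1 + i - c.1 = i by omega] at e1 e2
    omega

lemma I_sum (hi : Inv s t) (hg : Gad s0 t0) {a b : X} (ha : Le a t) (hb : Le b t0) :
    I (sum s s0) (sum a b) = (I s a ×ˢ I s0 b).image fun p => sum p.1 p.2 := by
  ext r
  simp only [Finset.mem_image, Finset.mem_product, mem_I]
  constructor
  · rintro ⟨h1, h2⟩
    obtain ⟨c, d, rfl, hc, hd⟩ := split h2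
    obtain ⟨e, he⟩ := le_iff.1 h1
    obtain ⟨a1, a2, -⟩ := sep_occ hi hg (hc.trans ha) (hd.trans hb) he
    exact ⟨(c, d), ⟨⟨a1.le, hc⟩, a2.le, hd⟩, rfl⟩
  · rintro ⟨⟨c, d⟩, ⟨⟨h1, h2⟩, h3, h4⟩, rfl⟩
    exact ⟨le_sum h1 h3, le_sum h2 h4⟩

lemma mu_mul (hi : Inv s t) (hg : Gad s0 t0) :
    mu (sum s s0) (sum t t0) = mu s t * mu s0 t0 := by
  let g : X → ℤ := fun r => ∑ p ∈ I s t ×ˢ I s0 t0,
    if sum p.1 p.2 = r then mu s p.1 * mu s0 p.2 else 0
  have hgv : ∀ a ∈ I s t, ∀ b ∈ I s0 t0, g (sum a b) = mu s a * mu s0 b := by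
    intro a ha b hb
    simp only [g]
    rw [Finset.sum_eq_single (a, b)]
    · simp
    · rintro ⟨c, d⟩ hp hne
      rw [if_neg]
      intro h
      obtain ⟨h1, h2⟩ := Finset.mem_product.1 hp
      obtain ⟨rfl, rfl⟩ := sum_inj hi hg h1 h2 ha hb h
      exact hne rfl
    · intro h
      exact absurd (Finset.mem_product.2 ⟨ha, hb⟩) h
  have hs : s ∈ I s t := mem_I.2 ⟨Le.refl _, hi.1.1⟩
  have hs0 : s0 ∈ I s0 t0 := mem_I.2 ⟨Le.refl _, hg.uniq.1⟩
  rw [mu_unique (sum s s0) (sum t t0) g _ _ _ _ (Nat.lt_succ_self _)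
    (le_sum hi.1.1 hg.uniq.1) (Le.refl _)]
  · exact hgv t (mem_I.2 ⟨hi.1.1, Le.refl _⟩) t0 (mem_I.2 ⟨hg.uniq.1, Le.refl _⟩)
  · rw [hgv s hs s0 hs0, mu_self, mu_self]; rfl
  · intro y h1 h2 h3
    have : y ∈ I (sum s s0) (sum t t0) := mem_I.2 ⟨h1, h2⟩
    rw [I_sum hi hg (Le.refl _) (Le.refl _)] at this
    obtain ⟨⟨a, b⟩, hp, rfl⟩ := Finset.mem_image.1 this
    obtain ⟨ha, hb⟩ := Finset.mem_product.1 hp
    simp only at ha hb h3 ⊢
    have ha' := mem_I.1 ha
    have hb' := mem_I.1 hb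
    have sub1 : ∀ c ∈ I s a, c ∈ I s t := fun c hc =>
      mem_I.2 ⟨(mem_I.1 hc).1, (mem_I.1 hc).2.trans ha'.2⟩
    have sub2 : ∀ c ∈ I s0 b, c ∈ I s0 t0 := fun c hc =>
      mem_I.2 ⟨(mem_I.1 hc).1, (mem_I.1 hc).2.trans hb'.2⟩
    rw [I_sum hi hg ha'.2 hb'.2, Finset.sum_image]
    · rw [Finset.sum_congr rfl (g := fun p => mu s p.1 * mu s0 p.2), Finset.sum_product,
        ← Finset.sum_mul_sum]
      · by_cases k : s = a
        · rw [mu_sum (x := s0) (y := b) (fun k' => h3 (by rw [← k, ← k'])) hb'.1, mul_zero]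
        · rw [mu_sum k ha'.1, zero_mul]
      · rintro ⟨c, d⟩ hp
        obtain ⟨h1, h2⟩ := Finset.mem_product.1 hp
        exact hgv c (sub1 c h1) d (sub2 d h2)
    · rintro ⟨c, d⟩ hp ⟨c', d'⟩ hp' h
      obtain ⟨h1, h2⟩ := Finset.mem_product.1 (Finset.mem_coe.1 hp)
      obtain ⟨h3, h4⟩ := Finset.mem_product.1 (Finset.mem_coe.1 hp')
      obtain ⟨rfl, rfl⟩ := sum_inj hi hg (sub1 _ h1) (sub2 _ h2) (sub1 _ h3) (sub2 _ h4) h
      rfl

lemma family (hg : Gad s0 t0) (n : ℕ) : ∃ s t, Inv s t ∧ mu s t = mu s0 t0 ^ (n + 1) := by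
  induction n with
  | zero =>
    refine ⟨s0, t0, ⟨hg.uniq, fun e he => ⟨0, hg.pos, ?_⟩⟩, by simp⟩
    rw [hg.zero e he]; exact hg.top
  | succ n ih =>
    obtain ⟨s, t, h1, h2⟩ := ih
    exact ⟨_, _, inv_step h1 hg, by rw [mu_mul h1 hg, h2]; ring⟩

end

lemma Uniq.ncard {s t : X} (h : Uniq s t) :
    {e : Fin s.1 → Fin t.1 | StrictMono e ∧
      ∀ i j, s.2 i < s.2 j ↔ t.2 (e i) < t.2 (e j)}.ncard = 1 := by
  obtain ⟨⟨e, he⟩, h2⟩ := h
  rw [Set.ncard_eq_one]
  refine ⟨e, Set.eq_singleton_iff_unique_mem.2 ⟨he, fun f hf => ?_⟩⟩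
  funext i
  have := h2 _ _ (occ_of_fin f hf.1 hf.2) (occ_of_fin e he.1 he.2) i i.2
  simp only [i.2, dif_pos] at this
  exact Fin.ext this

end Pool.Agent.H11.PermMu
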