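import Pool.Agent.H11.PermMu

namespace Pool.Agent.H11.PermMu

def key (x : X) : List ℕ := (List.range x.1).map (val x)

lemma key_inj {x y : X} (h : key x = key y) : x = y := by
  have hl : x.1 = y.1 := by simpa [key] using congrArg List.length h
  apply ext' hl
  intro i hi
  have := congrArg (fun l => l.getD i 0) h
  simpa [key, List.getD_eq_getElem?_getD, hi, hl ▸ hi] using this

def std (l : List ℕ) : List ℕ := l.map fun v => l.countP (· < v)

lemma key_occ {x y : X} {e} (h : Occ x y e) :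
    key x = std (((List.range x.1).map e).map (val y)) := by
  simp only [key, std, List.map_map]
  apply List.map_congr_left
  intro i hi
  simp only [Function.comp]
  rw [h.val_eq (List.mem_range.1 hi), List.countP_map, List.countP_eq_length_filter,
    ← List.toFinset_card_of_nodup (List.nodup_range.filter _)]
  congr 1
  ext j
  simp

lemma exists_pat (y : X) (c : ℕ) (e : ℕ → ℕ) (h1 : ∀ i j, i < j → j < c → e i < e j)
    (h2 : ∀ i < c, e i < y.1) : ∃ r : X, r.1 = c ∧ Occ r y e := by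
  let f : ℕ → ℕ := fun i => ((Finset.range c).filter fun j => val y (e j) < val y (e i)).card
  have hlt : ∀ i < c, ∀ j < c, val y (e i) < val y (e j) → f i < f j := by
    intro i hi j hj h
    apply Finset.card_lt_card
    refine ⟨fun k hk => ?_, fun hk => ?_⟩
    · simp only [Finset.mem_filter] at hk ⊢
      exact ⟨hk.1, by omega⟩
    · have := hk (Finset.mem_filter.2 ⟨Finset.mem_range.2 hi, h⟩)
      simp at this
  have hne : ∀ i < c, ∀ j < c, val y (e i) = val y (e j) → i = j := by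
    intro i hi j hj h
    have := val_inj y (h2 i hi) (h2 j hj) h
    rcases lt_trichotomy i j with k | k | k
    · have := h1 i j k hj; omega
    · exact k
    · have := h1 j i k hi; omega
  have hb : ∀ i < c, f i < c := by
    intro i hi
    conv_rhs => rw [← Finset.card_range c]
    apply Finset.card_lt_card
    refine ⟨Finset.filter_subset _ _, fun hk => ?_⟩
    have := hk (Finset.mem_range.2 hi)
    simp at this
  have hinj : ∀ i < c, ∀ j < c, f i = f j → i = j := by
    intro i hi j hj h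
    rcases lt_trichotomy (val y (e i)) (val y (e j)) with k | k | k
    · have := hlt i hi j hj k; omega
    · exact hne i hi j hj k
    · have := hlt j hj i hi k; omega
  refine ⟨mk c f hb hinj, rfl, h1, h2, fun i hi j hj => ?_⟩
  rw [val_mk c f hb hinj hi, val_mk c f hb hinj hj]
  refine ⟨fun h => ?_, hlt i hi j hj⟩
  rcases lt_trichotomy (val y (e i)) (val y (e j)) with k | k | k
  · exact k
  · have := hne i hi j hj k; subst this; omega
  · have := hlt j hj i hi k; omega

lemma occ_factor {s r t : X} {E e0} (h : Occ r t E) (k : Occ s t e0)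
    (hj : ∀ i < s.1, ∃ j < r.1, E j = e0 i) : Le s r := by
  choose! j hj1 hj2 using hj
  apply Occ.le (e := j)
  refine ⟨fun a b hab hb => ?_, hj1, fun a ha b hb => ?_⟩
  · have := k.1 a b hab hb
    rw [← hj2 a (by omega), ← hj2 b hb] at this
    by_contra hh
    have := h.mono (show j b ≤ j a by omega) (hj1 a (by omega))
    omega
  · rw [k.2.2 a ha b hb, h.2.2 _ (hj1 a ha) _ (hj1 b hb), hj2 a ha, hj2 b hb]

lemma pos_sub {x y : X} {e} (h : Occ x y e) :
    ((List.range x.1).map e).Sublist (List.range y.1) := by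
  apply List.sublist_of_subperm_of_pairwise (r := (· < ·))
  · apply List.subperm_of_subset
    · apply List.Nodup.map_on _ List.nodup_range
      intro a ha b hb k
      rcases lt_trichotomy a b with c | c | c
      · have := h.1 a b c (List.mem_range.1 hb); omega
      · exact c
      · have := h.1 b a c (List.mem_range.1 ha); omega
    · intro a ha
      obtain ⟨i, hi, rfl⟩ := List.mem_map.1 ha
      exact List.mem_range.2 (h.2.1 i (List.mem_range.1 hi))
  · rw [List.pairwise_map]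
    exact List.Pairwise.imp_of_mem (fun {a b} _ hb k => h.1 a b k (List.mem_range.1 hb))
      List.pairwise_lt_range
  · exact List.pairwise_lt_range

def sv (i : ℕ) : ℕ := [4, 3, 2, 0, 1].getD i 0

def tv (i : ℕ) : ℕ := [12, 1, 7, 2, 0, 4, 8, 5, 3, 11, 10, 6, 9].getD i 0

def e0 (i : ℕ) : ℕ := [0, 9, 10, 11, 12].getD i 0

noncomputable def s0 : X := mk 5 sv (by decide) (by decide)

noncomputable def t0 : X := mk 13 tv (by decide) (by decide +kernel)

lemma vs {i : ℕ} (h : i < 5) : val s0 i = sv i := val_mk _ _ _ _ h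

lemma vt {i : ℕ} (h : i < 13) : val t0 i = tv i := val_mk _ _ _ _ h

lemma occ0 : Occ s0 t0 e0 := by
  have k1 : ∀ j < 5, ∀ i < j, e0 i < e0 j := by decide
  have k2 : ∀ i < 5, e0 i < 13 := by decide
  have k3 : ∀ i < 5, ∀ j < 5, (sv i < sv j ↔ tv (e0 i) < tv (e0 j)) := by decide
  refine ⟨fun i j h hj => k1 j hj i h, k2, fun i hi j hj => ?_⟩
  rw [vs hi, vs hj, vt (k2 i hi), vt (k2 j hj)]
  exact k3 i hi j hj

def P4 (a b c d : ℕ) : Prop :=
  ∀ f < 13, (d < f ∧ tv d < tv f ∧ tv f < tv c) → [a, b, c, d, f] = [0, 9, 10, 11, 12]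

instance (a b c d : ℕ) : Decidable (P4 a b c d) := by unfold P4; infer_instance

def P3 (a b c : ℕ) : Prop := ∀ d < 13, c < d → tv d < tv c → P4 a b c d

instance (a b c : ℕ) : Decidable (P3 a b c) := by unfold P3; infer_instance

def P2 (a b : ℕ) : Prop := ∀ c < 13, b < c → tv c < tv b → P3 a b c

instance (a b : ℕ) : Decidable (P2 a b) := by unfold P2; infer_instance

lemma occ_eq {e} (h : Occ s0 t0 e) : ∀ i < 5, e i = e0 i := by
  have k : ∀ a < 13, ∀ b < 13, a < b → tv b < tv a → P2 a b := by decide +kernel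
  have b : ∀ i < 5, e i < 13 := h.2.1
  have m : ∀ i j, i < j → j < 5 → e i < e j := h.1
  have v : ∀ i < 5, ∀ j < 5, sv i < sv j → tv (e i) < tv (e j) := by
    intro i hi j hj hs
    have := h.2.2 i hi j hj
    rw [vs hi, vs hj, vt (b i hi), vt (b j hj)] at this
    exact this.1 hs
  have k2 := k (e 0) (b 0 (by omega)) (e 1) (b 1 (by omega))
    (m 0 1 (by omega) (by omega)) (v 1 (by omega) 0 (by omega) (by decide))
    (e 2) (b 2 (by omega)) (m 1 2 (by omega) (by omega)) (v 2 (by omega) 1 (by omega) (by decide))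
    (e 3) (b 3 (by omega)) (m 2 3 (by omega) (by omega)) (v 3 (by omega) 2 (by omega) (by decide))
    (e 4) (b 4 (by omega)) ⟨m 3 4 (by omega) (by omega), v 3 (by omega) 4 (by omega) (by decide),
    v 4 (by omega) 2 (by omega) (by decide)⟩
  simp only [List.cons.injEq, and_true] at k2
  obtain ⟨a0, a1, a2, a3, a4⟩ := k2
  intro i hi
  interval_cases i <;> assumption

lemma gad : Gad s0 t0 := by
  refine ⟨⟨occ0.le, fun e f he hf i hi => by rw [occ_eq he i hi, occ_eq hf i hi]⟩,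
    (by decide : 0 < 5), fun e he => occ_eq he 0 (by omega), fun j hj => ?_⟩
  have k : ∀ j < 13, tv j ≤ tv 0 := by decide
  rw [vt hj, vt (by omega)]
  exact k j hj

def tab : List (List ℕ × ℤ) :=
  [([4, 3, 2, 0, 1], 1),
   ([5, 0, 4, 3, 1, 2], -1),
   ([5, 1, 4, 3, 0, 2], -1),
   ([6, 0, 2, 5, 4, 1, 3], 1),
   ([6, 2, 0, 5, 4, 1, 3], 1),
   ([7, 0, 3, 1, 6, 5, 2, 4], -1),
   ([7, 1, 3, 0, 6, 5, 2, 4], -1),
   ([7, 2, 0, 3, 6, 5, 1, 4], -1),
   ([8, 1, 4, 2, 0, 7, 6, 3, 5], 1),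
   ([8, 0, 3, 1, 4, 7, 6, 2, 5], 1),
   ([8, 1, 4, 0, 2, 7, 6, 3, 5], 1),
   ([8, 1, 3, 0, 4, 7, 6, 2, 5], 1),
   ([8, 0, 2, 4, 1, 7, 6, 3, 5], 1),
   ([8, 3, 0, 4, 1, 7, 6, 2, 5], 1),
   ([8, 3, 1, 4, 0, 7, 6, 2, 5], 1),
   ([9, 1, 5, 2, 0, 3, 8, 7, 4, 6], -1),
   ([9, 1, 4, 2, 0, 5, 8, 7, 3, 6], -1),
   ([9, 0, 4, 1, 5, 2, 8, 7, 3, 6], -1),
   ([9, 1, 4, 0, 2, 5, 8, 7, 3, 6], -1),
   ([9, 1, 4, 0, 5, 2, 8, 7, 3, 6], -1),
   ([9, 0, 4, 2, 5, 1, 8, 7, 3, 6], -1),
   ([9, 0, 2, 5, 3, 1, 8, 7, 4, 6], -1),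
   ([9, 4, 0, 2, 5, 1, 8, 7, 3, 6], -1),
   ([9, 4, 1, 5, 2, 0, 8, 7, 3, 6], -1),
   ([10, 1, 5, 2, 0, 3, 6, 9, 8, 4, 7], 1),
   ([10, 1, 5, 2, 0, 6, 3, 9, 8, 4, 7], 1),
   ([10, 0, 5, 1, 3, 6, 2, 9, 8, 4, 7], 1),
   ([10, 1, 5, 0, 2, 6, 3, 9, 8, 4, 7], 1),
   ([10, 0, 5, 2, 6, 3, 1, 9, 8, 4, 7], 1),
   ([10, 5, 0, 2, 6, 3, 1, 9, 8, 4, 7], 1),
   ([11, 1, 6, 2, 0, 3, 7, 4, 10, 9, 5, 8], -1),
   ([11, 1, 6, 2, 0, 4, 7, 3, 10, 9, 5, 8], -1),
   ([11, 0, 6, 1, 3, 7, 4, 2, 10, 9, 5, 8], -1),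
   ([11, 1, 6, 0, 3, 7, 4, 2, 10, 9, 5, 8], -1),
   ([12, 1, 7, 2, 0, 4, 8, 5, 3, 11, 10, 6, 9], 2)]

def G (l : List ℕ) : ℤ := (tab.lookup l).getD 0

def hasS (l : List ℕ) : Bool :=
  l.contains 0 && l.contains 9 && l.contains 10 && l.contains 11 && l.contains 12

def K (l : List ℕ) : List ℕ := std (l.map tv)

def chk (L : List ℕ) : Bool :=
  !hasS L || L == [0, 9, 10, 11, 12] ||
    ((((L.sublists.filter hasS).map K).dedup.map G).sum == 0)

lemma chk_all : (List.range 13).sublists.all chk = true := by decide +kernel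

lemma key_K {y : X} {e} (h : Occ y t0 e) : key y = K ((List.range y.1).map e) := by
  rw [key_occ h, K]
  congr 1
  apply List.map_congr_left
  intro a ha
  obtain ⟨i, hi, rfl⟩ := List.mem_map.1 ha
  exact vt (h.2.1 i (List.mem_range.1 hi))

lemma hasS_iff {l : List ℕ} : hasS l = true ↔ ∀ i < 5, e0 i ∈ l := by
  simp only [hasS, Bool.and_eq_true, List.contains_iff_mem]
  constructor
  · rintro ⟨⟨⟨⟨a, b⟩, c⟩, d⟩, f⟩ i hi
    interval_cases i <;> assumption
  · intro h
    exact ⟨⟨⟨⟨h 0 (by omega), h 1 (by omega)⟩, h 2 (by omega)⟩, h 3 (by omega)⟩, h 4 (by omega)⟩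

lemma hasS_of {y : X} {e} (h : Occ y t0 e) (k : Le s0 y) :
    hasS ((List.range y.1).map e) = true := by
  obtain ⟨f, hf⟩ := le_iff.1 k
  rw [hasS_iff]
  intro i hi
  rw [← occ_eq (hf.comp h) i hi]
  exact List.mem_map.2 ⟨f i, List.mem_range.2 (hf.2.1 i hi), rfl⟩

lemma image_key {y : X} {e} (h : Occ y t0 e) :
    (I s0 y).image key = (((((List.range y.1).map e).sublists.filter hasS).map K)).toFinset := by
  ext l
  simp only [Finset.mem_image, mem_I, List.mem_toFinset, List.mem_map, List.mem_filter,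
    List.mem_sublists]
  constructor
  · rintro ⟨r, ⟨h1, h2⟩, rfl⟩
    obtain ⟨f, hf⟩ := le_iff.1 h2
    have hc := hf.comp h
    refine ⟨_, ⟨?_, hasS_of hc h1⟩, (key_K hc).symm⟩
    have := (pos_sub hf).map e
    rwa [List.map_map] at this
  · rintro ⟨L, ⟨h1, h2⟩, rfl⟩
    obtain ⟨M, hM, rfl⟩ := List.sublist_map_iff.1 h1
    have hp : M.Pairwise (· < ·) := List.pairwise_lt_range.sublist hM
    obtain ⟨r, hr, ho⟩ := exists_pat y M.length (fun i => M.getD i 0)
      (fun i j hij hj => by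
        simp only [List.getD_eq_getElem _ _ hj, List.getD_eq_getElem _ _ (hij.trans hj)]
        exact List.pairwise_iff_getElem.1 hp i j _ _ hij)
      (fun i hi => by
        simp only [List.getD_eq_getElem _ _ hi]
        exact List.mem_range.1 (hM.subset (List.getElem_mem hi)))
    have hc := ho.comp h
    have hE : (List.range r.1).map (fun i => e (M.getD i 0)) = M.map e := by
      apply List.ext_getElem
      · simp [hr]
      · intro i h1 h2
        have : i < M.length := by simpa using h2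
        simp [List.getD_eq_getElem?_getD, this]
    refine ⟨r, ⟨occ_factor hc occ0 fun i hi => ?_, ho.le⟩, by rw [key_K hc, hE]⟩
    have := hasS_iff.1 h2 i hi
    rw [← hE] at this
    obtain ⟨j, hj, k⟩ := List.mem_map.1 this
    exact ⟨j, List.mem_range.1 hj, k⟩

lemma mu0 : mu s0 t0 = 2 := by
  have k0 : key s0 = K [0, 9, 10, 11, 12] := key_K occ0
  have idt : Occ t0 t0 id := ⟨fun _ _ h _ => h, fun _ h => h, fun _ _ _ _ => Iff.rfl⟩
  rw [mu_unique s0 t0 (fun r => G (key r)) _ _ _ _ (Nat.lt_succ_self _) occ0.le (Le.refl _)]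
  · rw [key_K idt]
    exact (by decide +kernel : G (K ((List.range 13).map id)) = 2)
  · simp only [k0]
    decide +kernel
  · intro y h1 h2 h3
    obtain ⟨e, he⟩ := le_iff.1 h2
    rw [← Finset.sum_image (s := I s0 y) (g := key) (f := G) (fun a _ b _ h => key_inj h),
      image_key he]
    have := List.all_eq_true.1 chk_all _ (List.mem_sublists.2 (pos_sub he))
    simp only [chk, hasS_of he h1, Bool.not_true, Bool.false_or, Bool.or_eq_true,
      beq_iff_eq] at this
    rcases this with k | k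
    · exact absurd (key_inj (by rw [k0, key_K he, k])) h3
    · rw [← k, ← List.sum_toFinset _ (List.nodup_dedup _)]
      congr 1
      ext l
      simp only [List.mem_toFinset, List.mem_dedup]

end Pool.Agent.H11.PermMu
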