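import Pool.Agent.H11.Srch
import Pool.Agent.H11.GMk

set_option autoImplicit false
set_option linter.dupNamespace false

namespace Pool.Agent.H11.PT

theorem promise_iff {β : Type} [Enc β] {Val X : β → Prop} (h : HardFor InNP Val X) (hX : InNP X) :
    (∃ V : β → Bool, PolyTime bits (fun b => [b]) V ∧ ∀ y, Val y → (V y = true ↔ X y)) ↔ PeqNP := by
  refine ⟨fun ⟨V, hV, e⟩ L hL => ?_, fun H => ?_⟩
  · obtain ⟨f, hf, e'⟩ := h L hL
    obtain ⟨W, hW, e''⟩ := InP.pt (L := fun y => V y = true) ⟨V, hV, fun _ => Iff.rfl⟩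
    exact PT.inP (hW.comp hf) fun x => (e' x).2.trans ((e _ (e' x).1).symm.trans (e'' _))
  · obtain ⟨V, hV, e⟩ := hX.pt H
    obtain ⟨W, hW, e'⟩ := PT.inP hV e
    exact ⟨W, hW, fun y _ => (e' y).symm⟩

theorem HardFor.unfold {𝒞 : (List Bool → Prop) → Prop} {β : Type} [Enc β] {Val X : β → Prop}
    (h : HardFor 𝒞 Val X) (L : List Bool → Prop) (hL : 𝒞 L) :
    ∃ f : List Bool → β, PolyTime id bits f ∧ ∀ x, Val (f x) ∧ (L x ↔ X (f x)) := by
  obtain ⟨f, hf, e⟩ := h L hL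
  exact ⟨f, hf.polyTime_raw, e⟩

theorem refine_inj {E : Type} [DecidableEq E] (l : List E) (R : E → ℕ) :
    ∃ g : E → ℕ, (∀ a ∈ l, ∀ b ∈ l, g a = g b → a = b) ∧
      ∀ a ∈ l, ∀ b ∈ l, R a < R b → g a < g b := by
  have lt : ∀ a ∈ l, ∀ b, R a < R b →
      R a * l.length + l.idxOf a < R b * l.length + l.idxOf b := by
    intro a ha b h
    have := List.idxOf_lt_length_of_mem ha
    have := Nat.mul_le_mul_right l.length (show R a + 1 ≤ R b from h)
    nlinarith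
  refine ⟨fun a => R a * l.length + l.idxOf a, fun a ha b hb e => ?_, fun a ha b _ => lt a ha b⟩
  dsimp only at e
  rcases lt_trichotomy (R a) (R b) with h | h | h
  · have := lt a ha b h; omega
  · rw [h] at e; exact (List.idxOf_inj ha).1 (by omega)
  · have := lt b hb a h; omega

/-- a numbering of `Fin n` can be replaced by a list of small numbers with the same order -/
theorem small_num {n : ℕ} (f : Fin n → ℕ) : ∃ c : List ℕ, c.length + c.sum ≤ n + n * n ∧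
    ∀ i j : Fin n, c.getD i 0 < c.getD j 0 ↔ f i < f j := by
  let r : Fin n → ℕ := fun i => (Finset.univ.filter fun j => f j < f i).card
  have h1 : ∀ i, r i ≤ n := fun i => (Finset.card_filter_le _ _).trans (by simp)
  have h2 : ∀ i j, f i < f j → r i < r j := fun i j h =>
    Finset.card_lt_card ⟨fun x => by simp only [Finset.mem_filter]; exact And.imp id fun a => a.trans h,
      fun s => by simpa using s (x := i) (by simpa using h)⟩
  have h3 : ∀ i j, f i ≤ f j → r i ≤ r j := fun i j h =>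
    Finset.card_le_card fun x => by simp only [Finset.mem_filter]; exact And.imp id fun a => a.trans_le h
  refine ⟨List.ofFn r, ?_, fun i j => ?_⟩
  · have := List.sum_le_card_nsmul (List.ofFn r) n (by simpa [List.mem_ofFn] using h1)
    simp only [List.length_ofFn, smul_eq_mul] at this ⊢; omega
  · simp only [List.getD_eq_getElem?_getD, List.getElem?_ofFn, Fin.is_lt, dite_true, Option.getD_some]
    exact ⟨fun h => not_le.1 fun e => absurd (h3 _ _ e) (not_le.2 h), h2 i j⟩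

def In (u w x : ℕ) : Prop := (u < x ∧ x < w) ∨ (w < x ∧ x < u)
def NC (u w x y : ℕ) : Prop := In u w x ↔ In u w y

theorem NC.symm' {u w x y : ℕ} (h : NC u w x y) (a : u ≠ x) (b : u ≠ y) (c : w ≠ x) (d : w ≠ y) :
    NC x y u w := by
  unfold NC In at *; omega

abbrev El := ℕ × ℕ × ℕ
abbrev QI := List El × List (El × El × El × El)
def QVal (y : QI) : Prop := y.1.Nodup ∧ ∀ c ∈ y.2, (∀ a ∈ [c.1, c.2.1, c.2.2.1, c.2.2.2], a ∈ y.1) ∧
  [c.1, c.2.1, c.2.2.1, c.2.2.2].Nodup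
def QUART (y : QI) : Prop := ∃ g : El → ℕ, (∀ a ∈ y.1, ∀ b ∈ y.1, g a = g b → a = b) ∧
  ∀ c ∈ y.2, NC (g c.1) (g c.2.1) (g c.2.2.1) (g c.2.2.2)

namespace Qu
abbrev F := List (Lit × Lit × Lit)
def le (l : Lit) : El := (1, l.1, bif l.2 then 1 else 0)
def el (c : Lit × Lit × Lit) (r : ℕ) : El :=
  if r = 0 then le c.1 else if r = 1 then le c.2.1 else if r = 2 then le c.2.2 else (0, 0, 2)
def nv (φ : F) : ℕ := (φ.map fun c => c.1.1 + c.2.1.1 + c.2.2.1).sum + 1
abbrev Val (φ : F) (v : El) : Prop := (v.1 = 0 ∧ v.2.1 = 0 ∧ v.2.2 < 3) ∨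
  (v.1 = 1 ∧ v.2.1 < nv φ ∧ v.2.2 < 2) ∨ (v.1 = 2 ∧ v.2.1 < φ.length ∧ v.2.2 < 4)
def els (φ : F) : List El :=
  (List.range 3 ×ˢ List.range (nv φ + φ.length) ×ˢ List.range 4).filter fun v => decide (Val φ v)
def cs (φ : F) : List (El × El × El × El) :=
  ((List.range (nv φ) ×ˢ List.range 2).map fun o => ((1, o.1, 1 - o.2), (0, 0, 1), (1, o), (0, 0, 0))) ++
  (φ.zipIdx ×ˢ List.range 4).flatMap fun o => [((2, o.1.2, o.2), el o.1.1 o.2, (0, 0, 1), (0, 0, 0)),
    ((2, o.1.2, (o.2 + 1) % 4), (0, 0, 1), (2, o.1.2, o.2), (0, 0, 0))]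

theorem mem_els (φ : F) (v : El) : v ∈ els φ ↔ Val φ v := by
  obtain ⟨a, b, c⟩ := v
  have : 1 ≤ nv φ := by simp [nv]
  simp only [els, List.mem_filter, List.mem_product, List.mem_range, decide_eq_true_eq, Val]
  omega

theorem all_cs (φ : F) (P : El × El × El × El → Prop) : (∀ c ∈ cs φ, P c) ↔
    (∀ x < nv φ, ∀ b < 2, P ((1, x, 1 - b), (0, 0, 1), (1, x, b), (0, 0, 0))) ∧
    ∀ j (hj : j < φ.length), ∀ r < 4, P ((2, j, r), el φ[j] r, (0, 0, 1), (0, 0, 0)) ∧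
      P ((2, j, (r + 1) % 4), (0, 0, 1), (2, j, r), (0, 0, 0)) := by
  simp only [cs, List.forall_mem_append, List.forall_mem_map, List.forall_mem_flatMap,
    List.forall_mem_cons, List.mem_product, List.mem_range, Prod.forall, and_imp,
    List.mem_zipIdx_iff_getElem?, List.getElem?_eq_some_iff, List.not_mem_nil, false_imp_iff,
    implies_true, and_true]
  refine and_congr ⟨fun h x hx b hb => h x b hx hb, fun h x b hx hb => h x hx b hb⟩
    ⟨fun h j hj r hr => h _ _ _ _ _ _ j r ⟨hj, rfl⟩ hr, ?_⟩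
  rintro h a b c d e f j r ⟨hj, e'⟩ hr
  exact e' ▸ h j hj r hr

theorem el_val (φ : F) {j : ℕ} (hj : j < φ.length) (r : ℕ) :
    Val φ (el φ[j] r) ∧ (el φ[j] r).1 ≠ 2 ∧ el φ[j] r ≠ (0, 0, 1) ∧ el φ[j] r ≠ (0, 0, 0) := by
  have := List.single_le_sum (l := φ.map fun c => c.1.1 + c.2.1.1 + c.2.2.1) (by simp) _
    (List.mem_map_of_mem (List.getElem_mem hj))
  have h : ∀ l : Lit, l.1 < nv φ → Val φ (le l) ∧ (le l).1 ≠ 2 ∧ le l ≠ (0, 0, 1) ∧ le l ≠ (0, 0, 0) := by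
    rintro ⟨x, _ | _⟩ h <;> simpa [le, Val] using h
  simp only [el]
  split_ifs
  · exact h _ (by unfold nv; omega)
  · exact h _ (by unfold nv; omega)
  · exact h _ (by unfold nv; omega)
  · simp [Val]

theorem qval (φ : F) : QVal (els φ, cs φ) := by
  refine ⟨(List.nodup_range.product (List.nodup_range.product List.nodup_range)).filter _, ?_⟩
  simp only [mem_els]
  refine (all_cs φ _).2 ⟨fun x hx b hb => ?_, fun j hj r hr => ⟨?_, ?_⟩⟩
  · simp [Val, hx, hb]; omega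
  · obtain ⟨a, b, c, d⟩ := el_val φ hj r
    have : (2, j, r) ≠ el φ[j] r := fun e => b (e ▸ rfl)
    simp only [List.forall_mem_cons]
    refine ⟨⟨by simp [Val, hj, hr], a, by simp [Val], by simp [Val], by simp⟩, by simp [c, d, this]⟩
  · simp [Val, hj, hr]; omega

theorem t1 {z i p q r : ℕ} (n1 : p ≠ q) (n2 : q ≠ r) (n3 : p ≠ r) (n4 : p ≠ z) (n5 : q ≠ z) (n6 : r ≠ z)
    (n7 : p ≠ i) (n8 : q ≠ i) (n9 : r ≠ i) (n : z ≠ i) (s1 : NC z i p q) (s2 : NC z i q r)
    (a : NC q z p i) (b : NC r z q i) : NC r z p i := by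
  unfold NC In at *
  rcases n4.lt_or_gt with h4 | h4 <;> rcases n5.lt_or_gt with h5 | h5 <;>
  rcases n6.lt_or_gt with h6 | h6 <;> rcases n7.lt_or_gt with h7 | h7 <;>
  rcases n8.lt_or_gt with h8 | h8 <;> rcases n9.lt_or_gt with h9 | h9 <;>
  simp [h4, h5, h6, h7, h8, h9, h4.not_gt, h5.not_gt, h6.not_gt, h7.not_gt, h8.not_gt,
    h9.not_gt] at s1 s2 a b ⊢ <;> omega

theorem t2 {z i p q : ℕ} (n1 : p ≠ q) (n4 : p ≠ z) (n5 : q ≠ z) (n7 : p ≠ i) (n8 : q ≠ i) (n : z ≠ i)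
    (a : NC q z p i) (b : NC p z q i) : ¬ NC z i p q := by
  unfold NC In at *; omega

theorem t3 {a b c : Prop} (h : ¬ (a ↔ b)) (h' : ¬ (b ↔ c)) : a ↔ c := by tauto

theorem t4 {a b i z p q : ℕ} (c : a ≠ 5) (d : b ≠ 5) (e1 : i < p) (e2 : i < q) (e3 : i < z)
    (e4 : a < 5 → p < z) (e5 : 5 < a → z < p) (e6 : b < 5 → q < z) (e7 : 5 < b → z < q)
    (e8 : a < b → p < q) (e9 : b < a → q < p) : ((a < 5 ↔ b < 5) → NC p q z i) ∧
      ((a < 5 → b < 5 → a < b) → (5 < a → 5 < b → b < a) → NC q z p i) := by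
  unfold NC In
  rcases c.lt_or_gt with c | c <;> rcases d.lt_or_gt with d | d <;>
    [(have := e4 c; have := e6 d); (have := e4 c; have := e7 d); (have := e5 c; have := e6 d);
      (have := e5 c; have := e7 d)] <;> clear e4 e5 e6 e7 <;> omega

theorem sound (φ : F) (h : QUART (els φ, cs φ)) : SAT3 φ := by
  classical
  obtain ⟨g, g1, g2⟩ := h
  simp only [mem_els] at g1
  obtain ⟨h1, h2⟩ := (all_cs φ _).1 g2
  dsimp only at h1 h2
  have n : ∀ a b, Val φ a → Val φ b → a ≠ b → g a ≠ g b := fun a b x y e e' => e (g1 a x b y e')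
  have vz : Val φ (0, 0, 1) := by simp [Val]
  have vi : Val φ (0, 0, 0) := by simp [Val]
  have nz := n _ _ vz vi (by simp)
  refine ⟨fun x => decide (¬ NC (g (0, 0, 1)) (g (0, 0, 0)) (g (1, x, 1)) (g (0, 0, 2))), fun c hc => ?_⟩
  obtain ⟨j, hj, rfl⟩ := List.getElem_of_mem hc
  by_contra hn
  have v : ∀ r < 4, Val φ (2, j, r) := fun r a => by simp [Val, hj, a]
  have k1 : ∀ l : Lit, Val φ (le l) → ¬ decide (¬ NC (g (0, 0, 1)) (g (0, 0, 0)) (g (1, l.1, 1))
      (g (0, 0, 2))) = l.2 → NC (g (0, 0, 1)) (g (0, 0, 0)) (g (le l)) (g (0, 0, 2)) := by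
    rintro ⟨x, _ | _⟩ hl e
    · have hx : x < nv φ := by simpa [le, Val] using hl
      have a : Val φ (1, x, 1) := by simp [Val, hx]
      have := t2 (n _ _ hl a (by simp [le])) (n _ _ hl vz (by simp [le])) (n _ _ a vz (by simp))
        (n _ _ hl vi (by simp [le])) (n _ _ a vi (by simp)) nz (h1 x hx 0 (by omega))
        (h1 x hx 1 (by omega))
      simp only [decide_eq_false_iff_not, not_not] at e
      exact t3 this e
    · simpa [le] using e
  have k2 : ∀ r < 4, NC (g (0, 0, 1)) (g (0, 0, 0)) (g (2, j, r)) (g (0, 0, 2)) := by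
    intro r hr
    obtain ⟨a, b, c, d⟩ := el_val φ hj r
    refine ((h2 j hj r hr).1.symm' (n _ _ (v r hr) vz (by simp)) (n _ _ (v r hr) vi (by simp))
      (n _ _ a vz c) (n _ _ a vi d)).trans ?_
    simp only [not_or] at hn
    interval_cases r
    · exact k1 _ a hn.1
    · exact k1 _ a hn.2.1
    · exact k1 _ a hn.2.2
    · exact Iff.rfl
  have s : ∀ r < 4, ∀ r' < 4, NC (g (0, 0, 1)) (g (0, 0, 0)) (g (2, j, r)) (g (2, j, r')) :=
    fun r a r' b => (k2 r a).trans (k2 r' b).symm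
  have a : ∀ r < 4, ∀ r' < 4, r ≠ r' → g (2, j, r) ≠ g (2, j, r') := fun r a r' b e =>
    n _ _ (v r a) (v r' b) (by simpa using e)
  have b : ∀ r < 4, g (2, j, r) ≠ g (0, 0, 1) := fun r a => n _ _ (v r a) vz (by simp)
  have c : ∀ r < 4, g (2, j, r) ≠ g (0, 0, 0) := fun r a => n _ _ (v r a) vi (by simp)
  have tr : ∀ p < 4, ∀ q < 4, ∀ r < 4, p ≠ q → q ≠ r → p ≠ r →
      NC (g (2, j, q)) (g (0, 0, 1)) (g (2, j, p)) (g (0, 0, 0)) →
      NC (g (2, j, r)) (g (0, 0, 1)) (g (2, j, q)) (g (0, 0, 0)) →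
      NC (g (2, j, r)) (g (0, 0, 1)) (g (2, j, p)) (g (0, 0, 0)) := fun p x q y r z e1 e2 e3 =>
    t1 (a _ x _ y e1) (a _ y _ z e2) (a _ x _ z e3) (b _ x) (b _ y) (b _ z) (c _ x) (c _ y) (c _ z) nz
      (s _ x _ y) (s _ y _ z)
  exact t2 (a 0 (by omega) 2 (by omega) (by omega)) (b _ (by omega)) (b _ (by omega)) (c _ (by omega))
    (c _ (by omega)) nz
    (tr 0 (by omega) 1 (by omega) 2 (by omega) (by omega) (by omega) (by omega)
      (h2 j hj 0 (by omega)).2 (h2 j hj 1 (by omega)).2)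
    (tr 2 (by omega) 3 (by omega) 0 (by omega) (by omega) (by omega) (by omega)
      (h2 j hj 2 (by omega)).2 (h2 j hj 3 (by omega)).2) (s _ (by omega) _ (by omega))

theorem complete (φ : F) (h : SAT3 φ) : QUART (els φ, cs φ) := by
  classical
  obtain ⟨σ, hσ⟩ := h
  let T : El → Prop := fun v => v.1 = 1 ∧ (σ v.2.1).toNat = v.2.2
  have hT : ∀ l : Lit, σ l.1 = l.2 → T (le l) := by
    rintro ⟨x, _ | _⟩ e <;> simp_all [T, le]
  have : ∀ j, ∃ t < 3, ∀ hj : j < φ.length, T (el φ[j] t) ∧ ¬ T (el φ[j] (t + 1)) := by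
    intro j
    by_cases hj : j < φ.length
    · have a : ¬ T (el φ[j] 3) := by simp [T, el]
      by_cases h2 : T (el φ[j] 2)
      · exact ⟨2, by omega, fun _ => ⟨h2, a⟩⟩
      by_cases h1 : T (el φ[j] 1)
      · exact ⟨1, by omega, fun _ => ⟨h1, h2⟩⟩
      refine ⟨0, by omega, fun _ => ⟨?_, h1⟩⟩
      rcases hσ _ (List.getElem_mem hj) with h | h | h
      · exact hT _ h
      · exact absurd (hT _ h) h1
      · exact absurd (hT _ h) h2
    · exact ⟨0, by omega, fun h => absurd h hj⟩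
  choose t t1 t2 using this
  let R : El → ℕ := fun v => if v.1 = 2 then
      (if T (el (φ.getD v.2.1 ((0, true), (0, true), (0, true))) v.2.2) then
        9 - (v.2.2 + 3 - t v.2.1) % 4 else 1 + (v.2.2 + 3 - t v.2.1) % 4)
    else if v = (0, 0, 0) then 0 else if v = (0, 0, 1) then 5 else if T v then 6 else 4
  obtain ⟨g, g1, g2⟩ := refine_inj (els φ) R
  refine ⟨g, g1, ?_⟩
  simp only [mem_els] at g2
  have vz : Val φ (0, 0, 1) := by simp [Val]
  have vi : Val φ (0, 0, 0) := by simp [Val]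
  have rz : R (0, 0, 1) = 5 := by simp [R]
  have ri : R (0, 0, 0) = 0 := by simp [R]
  have key : ∀ p q, Val φ p → Val φ q → 0 < R p → 0 < R q → R p ≠ 5 → R q ≠ 5 →
      (((R p < 5 ↔ R q < 5) → NC (g p) (g q) (g (0, 0, 1)) (g (0, 0, 0))) ∧
      ((R p < 5 → R q < 5 → R p < R q) → (5 < R p → 5 < R q → R q < R p) →
        NC (g q) (g (0, 0, 1)) (g p) (g (0, 0, 0)))) := by
    intro p q vp vq a b c d
    exact t4 c d (g2 _ vi _ vp (by omega)) (g2 _ vi _ vq (by omega)) (g2 _ vi _ vz (by omega))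
      (rz ▸ g2 _ vp _ vz) (rz ▸ g2 _ vz _ vp) (rz ▸ g2 _ vq _ vz) (rz ▸ g2 _ vz _ vq)
      (g2 _ vp _ vq) (g2 _ vq _ vp)
  refine (all_cs φ _).2 ⟨fun x hx b hb => ?_, fun j hj r hr => ?_⟩
  · have := Bool.toNat_lt (σ x)
    have e : ∀ b, R (1, x, b) = if (σ x).toNat = b then 6 else 4 := fun b => by simp [R, T]
    refine (key (1, x, b) (1, x, 1 - b) (by simp [Val, hx, hb]) (Or.inr (Or.inl ⟨rfl, hx, by dsimp only; omega⟩))
      ?_ ?_ ?_ ?_).2 ?_ ?_ <;> simp only [e] <;> split_ifs <;> omega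
  · have e : ∀ r, R (2, j, r) = if T (el φ[j] r) then 9 - (r + 3 - t j) % 4 else 1 + (r + 3 - t j) % 4 :=
      fun r => by simp only [R, if_true, List.getD_eq_getElem _ _ hj]
    obtain ⟨a, b, c, d⟩ := el_val φ hj r
    have e' : R (el φ[j] r) = if T (el φ[j] r) then 6 else 4 := by simp only [R, b, c, d, if_false]
    have := t1 j
    have := t2 j hj
    constructor
    · refine (key _ _ (by simp [Val, hj, hr]) a ?_ ?_ ?_ ?_).1 ?_ <;> simp only [e, e'] <;>
        split_ifs <;> omega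
    · have f : r = t j → T (el φ[j] r) ∧ ¬ T (el φ[j] ((r + 1) % 4)) := fun h => by
        rwa [h, Nat.mod_eq_of_lt (by omega)]
      refine (key (2, j, r) (2, j, (r + 1) % 4) (by simp [Val, hj, hr]) (by simp [Val, hj]; omega)
        ?_ ?_ ?_ ?_).2 ?_ ?_ <;> simp only [e] <;> split_ifs <;>
        first | omega | (have : r ≠ t j := fun h => by simp_all); omega
end Qu

theorem hard_QUART : HardFor InNP QVal QUART :=
  hard_SAT3.hardFor.red (fun φ => (Qu.els φ, Qu.cs φ))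
    (by unfold Qu.els Qu.cs Qu.Val Qu.el Qu.le Qu.nv; fun_prop)
    fun φ _ => ⟨Qu.qval φ, Qu.complete φ, Qu.sound φ⟩

end Pool.Agent.H11.PT
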