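import Pool.Agent.H11.PTDefs

set_option autoImplicit false

namespace Pool.Agent.H11.PT

/-- The class Σ₂ᵖ: `∃ u ∀ w`, both of polynomial length, with a polynomial-time test reading the
code of `x` followed by `u` and `w`. -/
def InSigma2 {α : Type} [Enc α] (L : α → Prop) : Prop :=
  ∃ (V : α × List Bool → Bool) (q : Polynomial ℕ),
    PolyTime (fun p => bits p.1 ++ p.2) (fun b => [b]) V ∧
      ∀ x, L x ↔ ∃ u : List Bool, u.length = q.eval (bits x).length ∧
        ∀ w : List Bool, w.length = q.eval (bits x).length → V (x, u ++ w) = true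

/-- Σ₂ᵖ-completeness under polynomial-time many-one reductions. -/
def Sigma2Complete {β : Type} [Enc β] (X : β → Prop) : Prop :=
  InSigma2 X ∧ ∀ L : List Bool → Prop, InSigma2 L →
    ∃ f : List Bool → β, PolyTime id bits f ∧ ∀ x, L x ↔ X (f x)

/-- The class Π₂ᵖ: complements of Σ₂ᵖ languages. -/
def InPi2 {α : Type} [Enc α] (L : α → Prop) : Prop := InSigma2 fun x => ¬ L x

/-- Π₂ᵖ-completeness under polynomial-time many-one reductions. -/
def Pi2Complete {β : Type} [Enc β] (X : β → Prop) : Prop :=
  InPi2 X ∧ ∀ L : List Bool → Prop, InPi2 L →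
    ∃ f : List Bool → β, PolyTime id bits f ∧ ∀ x, L x ↔ X (f x)

/-- The statement NP = coNP: the complement of every NP language of bit strings is in NP. -/
def NPeqCoNP : Prop := ∀ L : List Bool → Prop, InNP L → InNP fun x => ¬ L x

end Pool.Agent.H11.PT
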