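import Pool.Agent.H11.PS1
import Pool.Agent.H11.S2Defs

set_option autoImplicit false
set_option linter.dupNamespace false

namespace Pool.Agent.H11.PT

open Polynomial Turing Turing.TM2

def Sat (σ : ℕ → Bool) (φ : List (List Lit)) : Prop := ∀ c ∈ φ, ∃ l ∈ c, σ l.1 = l.2

theorem tableau_complete' {S : Type} (R : Rows S) (tab : List Ent)
    (htab : ∀ e, e ∈ tab ↔ ∃ c j, R.Valid c ∧ e = R.entry c j) (rej : List ℕ) (T : ℕ)
    (al : List (List ℕ)) (c : S) (hc : R.Valid c)
    (h0 : ∀ j (h : j < al.length), R.row c j ∈ al[j]) (h1 : R.row (R.nxt^[T] c) 0 ∉ rej) :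
    ∃ σ, Sat σ (tableau R.D tab rej T al) ∧ ∀ j a, σ (vr 0 j a) = decide (R.row c j = a) := by
  have hv : ∀ t, R.Valid (R.nxt^[t] c) := by
    intro t
    induction t with
    | zero => exact hc
    | succ t ih => rw [Function.iterate_succ_apply']; exact R.val_nxt _ ih
  let σ : ℕ → Bool := fun v =>
    decide (R.row (R.nxt^[v.unpair.1] c) v.unpair.2.unpair.1 = v.unpair.2.unpair.2)
  have hσ : ∀ t j a, σ (vr t j a) = decide (R.row (R.nxt^[t] c) j = a) := by
    intro t j a; simp [σ, vr]
  refine ⟨σ, fun cl hcl => ?_, fun j a => hσ 0 j a⟩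
  simp only [tableau, List.mem_append, List.mem_map, List.mem_flatMap, List.mem_filter] at hcl
  rcases hcl with (⟨p, hp, rfl⟩ | ⟨t, _, j, _, e, ⟨he, hm⟩, rfl⟩) | ⟨a, ha, rfl⟩
  · obtain ⟨l, j⟩ := p
    rw [List.mem_zipIdx_iff_getElem?] at hp
    simp only [List.getElem?_eq_some_iff] at hp
    obtain ⟨hj, rfl⟩ := hp
    exact ⟨(vr 0 j (R.row c j), true), List.mem_map.2 ⟨_, h0 j hj, rfl⟩, by simp [hσ]⟩
  · obtain ⟨c', j', hc', rfl⟩ := (htab e).1 he
    by_contra hn
    push Not at hn
    simp only [stepClause, List.mem_append, List.mem_map, List.mem_singleton] at hn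
    have a1 : ∀ i < R.D, R.row (R.nxt^[t] c) i = R.row c' i := by
      intro i hi
      have := hn (vr t i (R.row c' i), false) (Or.inl (Or.inl ⟨(R.row c' i, i), by
        simp only [Rows.entry, Rows.view]; rw [mem_zipIdx_map]; exact ⟨hi, rfl⟩, rfl⟩))
      simpa [hσ] using this
    have a2 : ∀ i ≤ 2 * R.D, R.row (R.nxt^[t] c) (j + i - R.D) = R.row c' (j' + i - R.D) := by
      intro i hi
      have := hn (vr t (j + i - R.D) (R.row c' (j' + i - R.D)), false) (Or.inl (Or.inr
        ⟨(R.row c' (j' + i - R.D), i), by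
          simp only [Rows.entry, Rows.win]; rw [mem_zipIdx_map]; exact ⟨by omega, rfl⟩, rfl⟩))
      simpa [hσ] using this
    have a3 := hn _ (Or.inr rfl)
    have a4 := R.loc _ _ j j' (hv t) hc' (eq_of_beq hm).symm a1 a2
    apply a3
    simp only [hσ, Function.iterate_succ_apply', Rows.entry, a4, decide_true]
  · refine ⟨_, List.mem_singleton.2 rfl, ?_⟩
    simp only [hσ, decide_eq_false_iff_not]
    rintro rfl; exact h1 ha

theorem cook_str {α : Type} [Enc α] (V : α × List Bool → Bool)
    (h : PolyTime (fun p => bits p.1 ++ p.2) (fun b => [b]) V) (m : α → ℕ) (hm : PT m) (b0 : Bool) :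
    ∃ (f : α → List (List Lit)) (v : α → ℕ → ℕ), PT f ∧ PT (fun p : α × ℕ => v p.1 p.2) ∧
      ∀ x, Function.Injective (v x) ∧
        (∀ w, w.length = m x → V (x, w) = b0 →
          ∃ σ, Sat σ (f x) ∧ (List.range (m x)).map (fun i => σ (v x i)) = w) ∧
        ∀ σ, Sat σ (f x) → V (x, (List.range (m x)).map fun i => σ (v x i)) = b0 := by
  obtain ⟨h⟩ := h
  obtain ⟨R, en, hn, hr, hv, hi⟩ := exists_rows h.tm
  obtain ⟨tab, htab⟩ := R.exists_tab
  let cd : Bool → Option Bool → ℕ := fun b o => en (ly h.tm h.inputAlphabet.invFun b o)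
  let fin : Bool → h.tm.Cfg := fun b => haltList h.tm [h.outputAlphabet.invFun b]
  let ini : List Bool → h.tm.Cfg := fun u => initList h.tm (u.map h.inputAlphabet.invFun)
  let TT : α → ℕ := fun x => h.time.eval (sz x + m x)
  have hrun : ∀ x (w : List Bool), w.length = m x →
      R.nxt^[TT x] (ini (bits x ++ w)) = fin (V (x, w)) := by
    intro x w hw
    obtain ⟨⟨n, h1⟩, h2⟩ := h.outputsFun (x, w)
    have h3 := nxtC_of_evals h.tm.m n _ _ h1
    simp only [List.length_append, hw] at h2
    obtain ⟨d, hd⟩ := Nat.exists_eq_add_of_le' h2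
    have hd' : TT x = d + n := hd
    rw [hn, hd', Function.iterate_add_apply]
    exact (congrArg _ h3).trans (nxtC_halt _ _ rfl _)
  have hrow : ∀ u j, R.row (ini u) j = cd (j == 0) u[j]? := by
    intro u j; rw [hr, lay_init]
  have hval : ∀ t c, R.Valid c → R.Valid (R.nxt^[t] c) := by
    intro t c hc
    induction t with
    | zero => exact hc
    | succ t ih => rw [Function.iterate_succ_apply']; exact R.val_nxt _ ih
  have hcd : cd false (some false) ≠ cd false (some true) := by
    intro e
    have h4 := congrFun (congrArg Prod.snd (hi (ini [false, false]) (ini [true, true]) 1 1 (hv _)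
      (by rw [hrow, hrow]; exact e))) h.tm.k₀
    simp [lay, ini, initList] at h4
  refine ⟨fun x => tableau R.D tab [R.row (fin !b0) 0] (TT x)
    (alw cd (bits x) (m x) ((TT x + 1) * R.D)),
    fun x i => vr 0 (sz x + i) (cd false (some true)), ?_, by unfold vr; fun_prop,
    fun x => ⟨?_, ?_, ?_⟩⟩
  · have hT : PT TT := by fun_prop
    refine PT.tableau _ _ _ hT ?_
    unfold alw
    refine PT.map (by fun_prop) (PT.ite (by fun_prop) ?_ (by fun_prop))
    exact PT.cons (PT.fin2 cd (by fun_prop) (by fun_prop)) (by fun_prop)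
  · intro i j e
    simpa [vr] using e
  · intro w hw hV
    have := bits_len_pos x
    obtain ⟨σ, s1, s2⟩ := tableau_complete' R tab htab [R.row (fin !b0) 0] (TT x)
      (alw cd (bits x) (m x) ((TT x + 1) * R.D)) (ini (bits x ++ w)) (hv _) (by
      intro j hj
      simp only [alw, List.getElem_map, List.getElem_range, hrow]
      split_ifs with h1 h2
      · simp [List.getElem?_append_left h1]
      · have a : (j == 0) = false := by simp; omega
        have b : j - (bits x).length < w.length := by rw [hw]; omega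
        rw [a, List.getElem?_append_right (by omega), List.getElem?_eq_getElem b]
        cases w[j - (bits x).length] <;> simp
      · have a : (j == 0) = false := by simp; omega
        rw [a, List.getElem?_eq_none (by simp only [List.length_append, hw]; omega)]
        simp) (by
      have h1 := hrun x w hw
      have h2 := hval (TT x) _ (hv ((bits x ++ w).map h.inputAlphabet.invFun))
      rw [h1, hV]
      erw [h1, hV] at h2
      intro h3
      have h4 := congrFun (congrArg Prod.snd (hi _ _ _ _ h2 (List.mem_singleton.1 h3))) h.tm.k₁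
      simp [lay, fin, haltList] at h4)
    refine ⟨σ, s1, List.ext_getElem (by simp [hw]) fun i h1 h2 => ?_⟩
    have a : (sz x + i == 0) = false := by
      rw [beq_eq_false_iff_ne]; unfold sz; omega
    simp only [List.getElem_map, List.getElem_range, s2, hrow, a]
    rw [List.getElem?_append_right (by unfold sz; omega), show sz x + i - (bits x).length = i by
      unfold sz; omega, List.getElem?_eq_getElem h2]
    cases w[i] <;> simp [hcd]
  · intro σ hσ
    set w : List Bool := (List.range (m x)).map fun i =>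
      σ (vr 0 (sz x + i) (cd false (some true))) with hw0
    have hw : w.length = m x := by simp [w]
    have := tableau_sound R tab htab _ _ _ σ hσ (ini (bits x ++ w)) (hv _) ?_
    · rw [hrun x w hw] at this
      by_contra hV
      rw [show V (x, w) = !b0 by revert hV; cases V (x, w) <;> cases b0 <;> simp] at this
      simp at this
    · intro j hj
      obtain ⟨a, ha, hs⟩ := tableau_init _ _ _ _ _ σ hσ j (by simpa [alw] using hj)
      have := bits_len_pos x
      simp only [alw, List.getElem_map, List.getElem_range] at ha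
      rw [hrow]
      split_ifs at ha with h1 h2
      · rw [List.getElem?_append_left h1, ← List.mem_singleton.1 ha]; exact hs
      · have a' : (j == 0) = false := by simp; omega
        have b : j - (bits x).length < w.length := by rw [hw]; omega
        rw [a', List.getElem?_append_right (by omega), List.getElem?_eq_getElem b]
        have c : w[j - (bits x).length] = σ (vr 0 j (cd false (some true))) := by
          simp only [w, List.getElem_map, List.getElem_range]
          congr 2; unfold sz; omega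
        rw [c]
        cases hc : σ (vr 0 j (cd false (some true)))
        · simp only [List.mem_cons, List.not_mem_nil, or_false] at ha
          rcases ha with rfl | rfl
          · rw [hc] at hs; exact absurd hs (by simp)
          · exact hs
        · exact hc
      · have a' : (j == 0) = false := by simp; omega
        rw [a', List.getElem?_eq_none (by simp only [List.length_append, hw]; omega),
          ← List.mem_singleton.1 ha]
        exact hs

/-- ∃∀-UNSAT: some values of the listed variables leave the CNF unsatisfiable -/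
def ESAT (y : List ℕ × List (List Lit)) : Prop :=
  ∃ τ : ℕ → Bool, ∀ σ : ℕ → Bool, (∀ v ∈ y.1, σ v = τ v) → ¬ Sat σ y.2

theorem cook2 {α : Type} [Enc α] (L : α → Prop) (hL : InSigma2 L) :
    ∃ f : α → List ℕ × List (List Lit), PT f ∧ ∀ x, L x ↔ ESAT (f x) := by
  obtain ⟨V, q, h, e⟩ := hL
  obtain ⟨f, v, hf, hv, H⟩ := cook_str V h (fun x => q.eval (sz x) + q.eval (sz x)) (by fun_prop) false
  refine ⟨fun x => ((List.range (q.eval (sz x))).map (v x), f x),
    PT.pair (PT.map (by fun_prop) hv) hf, fun x => (e x).trans ⟨?_, ?_⟩⟩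
  · rintro ⟨u, hu, h1⟩
    obtain ⟨i1, -, i3⟩ := H x
    refine ⟨Function.extend (v x) (fun i => u.getD i false) (fun _ => false), fun σ hσ hs => ?_⟩
    have h2 := i3 σ hs
    rw [List.range_add, List.map_append] at h2
    have h3 : (List.range (q.eval (sz x))).map (fun i => σ (v x i)) = u := by
      refine List.ext_getElem (by simp [hu, sz]) fun i a1 a2 => ?_
      rw [List.getElem_map, List.getElem_range, hσ _ (List.mem_map_of_mem (by simpa using a1)),
        i1.extend_apply, List.getD_eq_getElem _ _ a2]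
    rw [h3, h1 _ (by simp [sz])] at h2
    exact absurd h2 (by simp)
  · rintro ⟨τ, h1⟩
    obtain ⟨-, i2, -⟩ := H x
    refine ⟨(List.range (q.eval (sz x))).map fun i => τ (v x i), by simp [sz], fun w hw => ?_⟩
    by_contra hV
    obtain ⟨σ, s1, s2⟩ := i2 _ (by simp [hw, sz]) (Bool.eq_false_iff.2 hV)
    refine h1 σ (fun a ha => ?_) s1
    obtain ⟨i, hi, rfl⟩ := List.mem_map.1 ha
    rw [List.range_add, List.map_append] at s2
    exact List.map_inj_left.1 (List.append_inj_left s2 (by simp)) i hi

theorem hard_ESAT : HardFor InSigma2 (fun _ => True) ESAT := fun L hL => by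
  obtain ⟨f, hf, e⟩ := cook2 L hL
  exact ⟨f, hf, fun x => ⟨trivial, e x⟩⟩

def dec1 (w : List Bool) : List ℕ := ((decN w).tail).take ((decN w).headD 0)

theorem exists_enc1 (c : List ℕ) (n : ℕ) (h : 2 * (c.length + c.sum) + 1 ≤ n) :
    ∃ w : List Bool, w.length = n ∧ dec1 w = c := by
  refine ⟨encN (c.length :: c) ++ List.replicate (n - (2 * c.length + c.sum + 1)) false, ?_, ?_⟩
  · simp only [List.length_append, len_encN, List.length_cons, List.sum_cons,
      List.length_replicate]; omega
  · simp [dec1, decN_encN]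

theorem PT.inSigma2_nats {α : Type} [Enc α] {L : α → Prop} {V : α → List ℕ → List ℕ → Bool}
    (h : PT fun p : α × List ℕ × List ℕ => V p.1 p.2.1 p.2.2) (B : α → ℕ) (hB : PT B)
    (e1 : ∀ x c, (∀ d : List ℕ, d.length + d.sum ≤ B x → V x c d = true) → L x)
    (e2 : ∀ x, L x → ∃ c : List ℕ, c.length + c.sum ≤ B x ∧ ∀ d, V x c d = true) : InSigma2 L := by
  obtain ⟨q, hq⟩ := hB.out
  have hV : PT fun p : α × List Bool => V p.1 (dec1 (p.2.take (q.eval (sz p.1))))
      (dec1 (p.2.drop (q.eval (sz p.1)))) :=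
    h.comp (g := fun p : α × List Bool => (p.1, dec1 (p.2.take (q.eval (sz p.1))),
      dec1 (p.2.drop (q.eval (sz p.1))))) (by unfold dec1; fun_prop)
  refine ⟨_, q, RT.polyTime (RT.comp (f := fun b => b) RT.boolOut (RT.comp hV RT.cert)),
    fun x => ⟨fun hx => ?_, ?_⟩⟩
  · obtain ⟨c, hc, h1⟩ := e2 x hx
    have h2 := hq x
    simp only [sz_nat] at h2
    obtain ⟨u, hu, e⟩ := exists_enc1 c (q.eval (sz x)) (by omega)
    refine ⟨u, hu, fun w _ => ?_⟩
    simp only [← hu, List.take_left', e, h1]
  · rintro ⟨u, hu, h1⟩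
    refine e1 x (dec1 u) fun d hd => ?_
    have h2 := hq x
    simp only [sz_nat] at h2
    obtain ⟨w, hw, e⟩ := exists_enc1 d (q.eval (sz x)) (by omega)
    have := h1 w hw
    have hu' : q.eval (sz x) = u.length := hu.symm
    simpa only [hu', List.take_left', List.drop_left', e] using this

def satB (φ : List (List Lit)) (c : List ℕ) : Bool :=
  φ.all fun cl => cl.any fun l => c.contains l.1 == l.2

@[fun_prop] theorem PT.satB {α : Type} [Enc α] {f : α → List (List Lit)} {g : α → List ℕ}
    (hf : PT f) (hg : PT g) : PT fun x => satB (f x) (g x) := by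
  unfold H11.PT.satB; fun_prop

theorem satB_iff (φ : List (List Lit)) (c : List ℕ) :
    satB φ c = true ↔ Sat (fun v => c.contains v) φ := by
  simp only [satB, Sat, List.all_eq_true, List.any_eq_true, beq_iff_eq]

theorem len_sum_le (c : List ℕ) : c.length + c.sum ≤ sz c := by
  induction c with
  | nil => simp
  | cons a c ih => simp; omega

theorem sat_cert {φ : List (List Lit)} {σ : ℕ → Bool} (h : Sat σ φ) :
    ∃ c : List ℕ, c.length + c.sum ≤ sz (φ.flatten.map Prod.fst) ∧ satB φ c = true := by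
  refine ⟨(φ.flatten.map Prod.fst).filter σ, (len_sum_le _).trans (sz_sublist List.filter_sublist),
    (satB_iff _ _).2 fun cl hcl => ?_⟩
  obtain ⟨l, hl, e⟩ := h cl hcl
  refine ⟨l, hl, ?_⟩
  have : l.1 ∈ φ.flatten.map Prod.fst := List.mem_map_of_mem (List.mem_flatten.2 ⟨cl, hcl, hl⟩)
  rw [← e]
  cases hs : σ l.1
  · simp [hs]
  · simp only [List.contains_iff_mem, List.mem_filter]; exact ⟨this, hs⟩

theorem inNP_ex {α : Type} [Enc α] {L : α → Prop} (g : α × List ℕ → List (List Lit)) (hg : PT g)
    (B : α → ℕ) (hB : PT B) (e1 : ∀ x c, SAT (g (x, c)) → L x)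
    (e2 : ∀ x, L x → ∃ c : List ℕ, c.length + c.sum ≤ B x ∧ SAT (g (x, c))) : InNP L := by
  have h3 : PT fun p : α × List ℕ => (g p).flatten.map Prod.fst :=
    PT.map (f := fun _ (l : Lit) => l.1) (by fun_prop) (by fun_prop)
  obtain ⟨q, hq⟩ := h3.out
  refine PT.inNP_nats (V := fun x c => satB (g (x, c.tail.take (c.headD 0))) (c.tail.drop (c.headD 0)))
    (by fun_prop) (fun x => 2 * B x + 1 + q.eval (sz x + (2 * B x + 1) + 1)) (by fun_prop)
    (fun x c h => e1 x _ ⟨_, (satB_iff _ _).1 h⟩) fun x hx => ?_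
  obtain ⟨c, hc, σ, hσ⟩ := e2 x hx
  obtain ⟨d, hd, hs⟩ := sat_cert hσ
  refine ⟨c.length :: (c ++ d), ?_, by simpa using hs⟩
  have h1 := hq (x, c)
  have h4 : ∀ c : List ℕ, sz c ≤ 2 * (c.length + c.sum) + 1 := by
    intro c
    induction c with
    | nil => simp
    | cons a c ih => simp; omega
  have h2 := ev_mono q (show sz (x, c) ≤ sz x + (2 * B x + 1) + 1 by
    have := h4 c; simp; omega)
  simp only [List.length_cons, List.length_append, List.sum_cons, List.sum_append] at h1 ⊢
  omega

theorem InNP.of_red {α β : Type} [Enc α] [Enc β] {L : α → Prop} {X : β → Prop} (hX : InNP X)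
    (f : α → β) (hf : PT f) (e : ∀ x, L x ↔ X (f x)) : InNP L := by
  obtain ⟨g, hg, e'⟩ := cook_gen X hX
  exact inNP_ex (fun p => g (f p.1)) (by fun_prop) (fun _ => 0) (by fun_prop)
    (fun x _ h => (e x).2 ((e' _).2 h)) fun x hx => ⟨[], by simp, (e' _).1 ((e x).1 hx)⟩

theorem InNP.co_sigma2 {α : Type} [Enc α] {L : α → Prop} (hL : InNP L) : InSigma2 fun x => ¬ L x := by
  obtain ⟨g, hg, e⟩ := cook_gen L hL
  refine PT.inSigma2_nats (V := fun x _ d => !satB (g x) d) (by fun_prop)
    (fun x => sz ((g x).flatten.map Prod.fst))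
    (PT.sz' (PT.map (f := fun _ (l : Lit) => l.1) (by fun_prop) (by fun_prop))) (fun x _ h hx => ?_)
    fun x hx => ⟨[], by simp, fun d => ?_⟩
  · obtain ⟨σ, hσ⟩ := (e x).1 hx
    obtain ⟨d, hd, hs⟩ := sat_cert hσ
    simpa [hs] using h d hd
  · cases hs : satB (g x) d
    · rfl
    · exact absurd ((e x).2 ⟨_, (satB_iff _ _).1 hs⟩) hx

def decF (c : List ℕ) : List (List Lit) :=
  (List.range (c.headD 0)).map fun i => ((List.range c.sum) ×ˢ [true, false]).filter fun l =>
    c.tail.contains (Nat.pair i (2 * l.1 + bif l.2 then 1 else 0))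

def encF (φ : List (List Lit)) : List ℕ :=
  φ.length :: φ.zipIdx.flatMap fun p => p.1.map fun l => Nat.pair p.2 (2 * l.1 + bif l.2 then 1 else 0)

theorem decF_encF (φ : List (List Lit)) : SAT (decF (encF φ)) ↔ SAT φ := by
  have key : ∀ i (hi : i < φ.length) (l : Lit), l ∈ (((List.range (encF φ).sum) ×ˢ
      [true, false]).filter fun l => (encF φ).tail.contains
        (Nat.pair i (2 * l.1 + bif l.2 then 1 else 0))) ↔ l ∈ φ[i] := by
    intro i hi l
    have h1 : Nat.pair i (2 * l.1 + bif l.2 then 1 else 0) ∈ (encF φ).tail ↔ l ∈ φ[i] := by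
      simp only [encF, List.tail_cons, List.mem_flatMap, List.mem_map, Nat.pair_eq_pair]
      constructor
      · rintro ⟨⟨cl, j⟩, hp, l', hl, rfl, e⟩
        rw [List.mem_zipIdx_iff_getElem?, List.getElem?_eq_some_iff] at hp
        obtain ⟨_, e2⟩ := hp
        have : l' = l := by
          obtain ⟨a, b⟩ := l; obtain ⟨a', b'⟩ := l'
          cases b <;> cases b' <;> simp at e ⊢ <;> omega
        subst this
        rw [show φ[j] = cl from e2]; exact hl
      · intro h
        exact ⟨(φ[i], i), by rw [List.mem_zipIdx_iff_getElem?]; simp, l, h, rfl, rfl⟩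
    rw [List.mem_filter, List.contains_iff_mem, h1]
    refine ⟨fun h => h.2, fun h => ⟨?_, h⟩⟩
    obtain ⟨a, b⟩ := l
    have h2 := List.single_le_sum (by simp) _ (h1.2 h)
    have h3 := Nat.right_le_pair i (2 * a + bif b then 1 else 0)
    have h4 : (encF φ).sum = φ.length + (encF φ).tail.sum := by simp [encF]
    refine List.pair_mem_product.2 ⟨List.mem_range.2 ?_, by cases b <;> simp⟩
    simp only at h2
    omega
  refine exists_congr fun σ => ⟨fun h cl hcl => ?_, fun h cl hcl => ?_⟩
  · obtain ⟨i, hi, rfl⟩ := List.getElem_of_mem hcl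
    obtain ⟨l, hl, e⟩ := h _ (List.mem_map.2 ⟨i, List.mem_range.2 hi, rfl⟩)
    exact ⟨l, (key i hi l).1 hl, e⟩
  · obtain ⟨i, hi, rfl⟩ := List.mem_map.1 hcl
    have hi' : i < φ.length := List.mem_range.1 hi
    obtain ⟨l, hl, e⟩ := h _ (List.getElem_mem hi')
    exact ⟨l, (key i hi' l).2 hl, e⟩

theorem InSigma2.inNP (H : NPeqCoNP) {α : Type} [Enc α] {L : α → Prop} (hL : InSigma2 L) :
    InNP L := by
  obtain ⟨f, hf, e⟩ := cook2 L hL
  have h1 : InNP fun u : List Bool => SAT (decF (decN u)) :=
    inNP_ex (fun p => decF (decN p.1)) (by unfold decF; fun_prop) (fun _ => 0) (by fun_prop)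
      (fun _ _ h => h) fun x hx => ⟨[], by simp, hx⟩
  obtain ⟨g, hg, e'⟩ := cook_gen _ (H _ h1)
  have h2 : ∀ φ, ¬ SAT φ ↔ SAT (g (encN (encF φ))) := by
    intro φ
    have := decN_encN (encF φ) []
    rw [← e', show decN (encN (encF φ)) = encF φ by simpa [decN] using this, decF_encF]
  have h3 : ∀ x (c : List ℕ) σ, Sat σ ((f x).2 ++ (f x).1.map fun v => [(v, c.contains v)]) ↔
      (∀ v ∈ (f x).1, σ v = c.contains v) ∧ Sat σ (f x).2 := by
    intro x c σ
    simp only [Sat, List.mem_append, List.mem_map, or_imp, forall_and, forall_exists_index, and_imp,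
      forall_apply_eq_imp_iff₂, List.mem_singleton, exists_eq_left]
    exact and_comm
  refine inNP_ex (fun p => g (encN (encF ((f p.1).2 ++ (f p.1).1.map fun v => [(v, p.2.contains v)]))))
    (hg.comp (by unfold encN encF; fun_prop)) (fun x => sz (f x).1) (by fun_prop)
    (fun x c h => (e x).2 ⟨fun v => c.contains v, fun σ hσ hs =>
      (h2 _).2 h ⟨σ, (h3 x c σ).2 ⟨hσ, hs⟩⟩⟩) fun x hx => ?_
  obtain ⟨τ, hτ⟩ := (e x).1 hx
  refine ⟨(f x).1.filter τ, (len_sum_le _).trans (sz_sublist List.filter_sublist), (h2 _).1 ?_⟩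
  rintro ⟨σ, hσ⟩
  obtain ⟨a, b⟩ := (h3 x _ σ).1 hσ
  refine hτ σ (fun v hv => ?_) b
  rw [a v hv]
  cases hs : τ v <;> simp [hs, hv]

theorem HardFor.sigma2 {β : Type} [Enc β] {X : β → Prop} (h : HardFor InSigma2 (fun _ => True) X)
    (hX : InSigma2 X) : Sigma2Complete X ∧ (InNP X ↔ NPeqCoNP) := by
  refine ⟨⟨hX, fun L hL => ?_⟩, fun h1 L hL => ?_, fun H => hX.inNP H⟩
  · obtain ⟨f, hf, e⟩ := h L hL
    exact ⟨f, hf.polyTime_raw, fun x => (e x).2⟩
  · obtain ⟨f, hf, e⟩ := h _ hL.co_sigma2
    exact h1.of_red f hf fun x => (e x).2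

theorem HardFor.pi2 {β : Type} [Enc β] {X : β → Prop}
    (h : HardFor InSigma2 (fun _ => True) fun y => ¬ X y)
    (hX : InPi2 X) : Pi2Complete X ∧ ((InNP fun y => ¬ X y) ↔ NPeqCoNP) := by
  refine ⟨⟨hX, fun L hL => ?_⟩, (h.sigma2 hX).2⟩
  obtain ⟨f, hf, e⟩ := h _ hL
  exact ⟨f, hf.polyTime_raw, fun x => not_iff_not.1 (e x).2⟩

end Pool.Agent.H11.PT
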