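import Pool.Agent.H11.PTDefs

set_option autoImplicit false

namespace Pool.Agent.H11.PT

/-- The statement P = NP: every NP language of bit strings is in P. -/
def PeqNP : Prop := ∀ L : List Bool → Prop, InNP L → InP L

end Pool.Agent.H11.PT
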