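import Pool.Agent.H11.S2
import Pool.Agent.H11.SrchDefs
import Pool.Agent.H21.Sim

set_option autoImplicit false
set_option linter.dupNamespace false

namespace Pool.Agent.H11.PT

open Pool.Agent.H21.Sim

variable {α β : Type} [Enc α] [Enc β]

theorem pt_of_poly {f : α → β} (h : PolyTime bits bits f) : PT f :=
  (RT.comp rt_unraw (sim (PT.bits' PT.id) h)).of_eq _root_.id (fun _ => rfl) fun _ => rfl

theorem InP.pt {L : α → Prop} (h : InP L) : ∃ V : α → Bool, PT V ∧ ∀ x, L x ↔ V x = true := by
  obtain ⟨V, hV, e⟩ := h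
  exact ⟨V, (PT.headD (sim (PT.bits' PT.id) hV) (PT.const false)).of_eq fun _ => rfl, e⟩

theorem InNP.pt (H : PeqNP) {L : α → Prop} (hL : InNP L) :
    ∃ V : α → Bool, PT V ∧ ∀ x, L x ↔ V x = true := by
  obtain ⟨f, hf, e⟩ := cook_gen L hL
  have h1 : InNP fun u : List Bool => SAT (decF (decN u)) :=
    inNP_ex (fun p => decF (decN p.1)) (by unfold decF; fun_prop) (fun _ => 0) (by fun_prop)
      (fun _ _ h => h) fun x hx => ⟨[], by simp, hx⟩
  obtain ⟨V, hV, e'⟩ := (H _ h1).pt
  refine ⟨fun x => V (encN (encF (f x))), hV.comp (by unfold encN encF; fun_prop), fun x => ?_⟩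
  have := decN_encN (encF (f x)) []
  rw [← e', show decN (encN (encF (f x))) = encF (f x) by simpa [decN] using this, decF_encF, e]

theorem Hard.peq {X : β → Prop} (h : Hard X) (hX : InP X) : PeqNP := fun L hL => by
  obtain ⟨f, hf, e⟩ := h L hL
  obtain ⟨V, hV, e'⟩ := hX.pt
  exact PT.inP (hV.comp hf) fun x => (e x).trans (e' _)

theorem search_of_peq (H : PeqNP) {chk : α → List ℕ → Bool}
    (hc : PT fun p : α × List ℕ => chk p.1 p.2) (B : α → ℕ) (hB : PT B)
    (hb : ∀ x c, chk x c = true → c.length ≤ B x ∧ ∀ a ∈ c, a < B x) :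
    ∃ A : α → List ℕ, PT A ∧ ∀ x, (∃ c, chk x c = true) → chk x (A x) = true := by
  have h1 : InNP fun p : α × List ℕ => ∃ c, chk p.1 (p.2 ++ c) = true := by
    refine PT.inNP_nats (V := fun p c => chk p.1 (p.2 ++ c))
      (hc.comp (g := fun q : (α × List ℕ) × List ℕ => (q.1.1, q.1.2 ++ q.2)) (by fun_prop))
      (fun p => B p.1 + B p.1 * B p.1) (by fun_prop) (fun _ c h => ⟨c, h⟩) fun p ⟨c, h⟩ => ⟨c, ?_, h⟩
    obtain ⟨a, b⟩ := hb _ _ h
    have := List.sum_le_card_nsmul c (B p.1) fun x hx => (b x (List.mem_append_right _ hx)).le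
    have l : c.length ≤ B p.1 := by simp at a; omega
    have := Nat.mul_le_mul_right (B p.1) l
    simp only [smul_eq_mul] at *
    omega
  obtain ⟨V, hV, e⟩ := h1.pt H
  let g : α → List ℕ → List ℕ := fun x p => bif chk x p then p else
    p ++ [((List.range (B x)).find? fun a => V (x, p ++ [a])).getD 0]
  have hg : PT fun q : α × List ℕ => g q.1 q.2 := by
    refine PT.cond hc (by fun_prop) (PT.append (by fun_prop) (PT.cons (PT.optGetD (PT.find?
      (by fun_prop) (hV.comp (by fun_prop))) (by fun_prop)) (by fun_prop)))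
  refine ⟨fun x => (g x)^[B x] [], PT.iterate_add hB (PT.const _) hg B 3 hB fun x p => ?_,
    fun x hx => ?_⟩
  · simp only [g]
    cases chk x p
    · have : ((List.range (B x)).find? fun a => V (x, p ++ [a])).getD 0 ≤ B x := by
        cases h : (List.range (B x)).find? fun a => V (x, p ++ [a])
        · simp
        · have := List.mem_range.1 (List.mem_of_find?_eq_some h); simp; omega
      have := sz_append p [((List.range (B x)).find? fun a => V (x, p ++ [a])).getD 0]
      simp only [sz_cons, sz_nil, sz_nat, cond_false] at this ⊢; omega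
    · simp; omega
  · have key : ∀ n, (∃ c, chk x ((g x)^[n] [] ++ c) = true) ∧
        (chk x ((g x)^[n] []) = true ∨ ((g x)^[n] []).length = n) := by
      intro n
      induction n with
      | zero => exact ⟨by simpa using hx, Or.inr rfl⟩
      | succ n ih =>
        rw [Function.iterate_succ_apply']
        generalize (g x)^[n] [] = p at ih ⊢
        obtain ⟨⟨c, h⟩, h'⟩ := ih
        simp only [g]
        cases hp : chk x p
        · refine ⟨?_, Or.inr (by simpa [hp] using h')⟩
          obtain _ | ⟨a, c⟩ := c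
          · simp [hp] at h
          · have ha := (hb _ _ h).2 a (by simp)
            cases hf : (List.range (B x)).find? fun a => V (x, p ++ [a])
            · exact absurd ((e (x, p ++ [a])).1 ⟨c, by simpa using h⟩)
                (List.find?_eq_none.1 hf a (List.mem_range.2 ha))
            · exact (e (x, _)).2 (List.find?_some (p := fun a => V (x, p ++ [a])) hf)
        · exact ⟨⟨[], by simpa using hp⟩, Or.inl hp⟩
    obtain ⟨⟨c, h⟩, h' | h'⟩ := key (B x)
    · exact h'
    · have := (hb _ _ h).1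
      obtain rfl : c = [] := List.length_eq_zero_iff.1 (by simp at this; omega)
      simpa using h

theorem search_iff {R : α → List ℕ → Prop} {chk : α → List ℕ → Bool}
    (hc : PT fun p : α × List ℕ => chk p.1 p.2) (hR : ∀ x c, R x c ↔ chk x c = true)
    (B : α → ℕ) (hB : PT B) (hb : ∀ x c, R x c → c.length ≤ B x ∧ ∀ a ∈ c, a < B x)
    (hard : Hard fun x => ∃ c, R x c) :
    (∃ A : α → List ℕ, PolyTime bits bits A ∧ ∀ x, (∃ c, R x c) → R x (A x)) ↔ PeqNP := by
  simp only [hR] at hb hard ⊢
  refine ⟨fun ⟨A, hA, e⟩ => hard.peq (PT.inP (V := fun x => chk x (A x))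
    (hc.comp (PT.id.pair (pt_of_poly hA))) fun x => ⟨e x, fun h => ⟨_, h⟩⟩), fun H => ?_⟩
  obtain ⟨A, hA, e⟩ := search_of_peq H hc B hB hb
  exact ⟨A, hA.polyTime, e⟩

end Pool.Agent.H11.PT
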