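import Mathlib

namespace Pool.Agent.H11.Stars

/-- Disjoint union of the stars `K_{1,m i}`: vertex `⟨i, none⟩` is the centre of star `i`,
the vertices `⟨i, some j⟩` are its leaves. -/
def stars {n : ℕ} (m : Fin n → ℕ) : SimpleGraph (Σ i : Fin n, Option (Fin (m i))) where
  Adj a b := a.1 = b.1 ∧ a.2.isNone ≠ b.2.isNone
  symm := ⟨fun _ _ h => ⟨h.1.symm, h.2.symm⟩⟩
  loopless := ⟨fun _ h => h.2 rfl⟩

/-- Equitable `k`-choosability. -/
def EqChoosable {V : Type} [Fintype V] (G : SimpleGraph V) (k : ℕ) : Prop :=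
  ∀ L : V → Finset ℕ, (∀ v, (L v).card = k) → ∃ c : V → ℕ, (∀ v, c v ∈ L v) ∧
    (∀ u v, G.Adj u v → c u ≠ c v) ∧
    ∀ a, (Finset.univ.filter (fun v => c v = a)).card ≤ ⌈(Fintype.card V : ℚ) / k⌉₊

theorem ceil_half (N : ℕ) : ⌈(N : ℚ) / (2 : ℕ)⌉₊ = (N + 1) / 2 := by
  apply le_antisymm
  · rw [Nat.ceil_le, div_le_iff₀ (by norm_num)]
    exact_mod_cast (by omega : N ≤ (N + 1) / 2 * 2)
  · by_contra h
    have h1 := Nat.le_ceil ((N : ℚ) / (2 : ℕ))
    rw [div_le_iff₀ (by norm_num)] at h1
    have h2 : N ≤ ⌈(N : ℚ) / (2 : ℕ)⌉₊ * 2 := by exact_mod_cast h1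
    omega

theorem card_V {n : ℕ} (m : Fin n → ℕ) :
    Fintype.card (Σ i : Fin n, Option (Fin (m i))) = ∑ i, (m i + 1) := by
  simp

theorem card_filter_sigma {n : ℕ} (m : Fin n → ℕ) (P : (Σ i : Fin n, Option (Fin (m i))) → Prop)
    [DecidablePred P] : (Finset.univ.filter P).card =
      ∑ i, ((if P ⟨i, none⟩ then 1 else 0) +
        (Finset.univ.filter (fun j : Fin (m i) => P ⟨i, some j⟩)).card) := by
  simp only [Finset.card_filter, Fintype.sum_sigma, Fintype.sum_option]

theorem hall {V : Type} [Fintype V] (av : V → Finset ℕ) (H : ℕ) (hN : Fintype.card V ≤ 2 * H)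
    (h0 : ∀ v, (av v).Nonempty)
    (h1 : ∀ a, (Finset.univ.filter (fun v => av v = {a})).card ≤ H) :
    ∃ c : V → ℕ, (∀ v, c v ∈ av v) ∧ ∀ a, (Finset.univ.filter (fun v => c v = a)).card ≤ H := by
  classical
  have := (Finset.all_card_le_biUnion_card_iff_exists_injective
    (fun v => av v ×ˢ Finset.range H)).mp (fun s => by
      have e : s.biUnion (fun v => av v ×ˢ Finset.range H) = s.biUnion av ×ˢ Finset.range H := by
        ext ⟨a, b⟩
        simp only [Finset.mem_biUnion, Finset.mem_product]
        tauto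
      rw [e, Finset.card_product, Finset.card_range]
      by_cases h2 : 2 ≤ (s.biUnion av).card
      · exact (s.card_le_univ.trans hN).trans (Nat.mul_le_mul_right _ h2)
      · rcases s.eq_empty_or_nonempty with rfl | ⟨v, hv⟩
        · simp
        obtain ⟨a, ha⟩ := h0 v
        have h3 : 0 < (s.biUnion av).card :=
          Finset.card_pos.mpr ⟨a, Finset.mem_biUnion.mpr ⟨v, hv, ha⟩⟩
        have h4 : (s.biUnion av).card = 1 := by omega
        obtain ⟨b, hb⟩ := Finset.card_eq_one.mp h4
        rw [h4, one_mul]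
        refine le_trans (Finset.card_le_card (fun u hu => ?_)) (h1 b)
        simp only [Finset.mem_filter, Finset.mem_univ, true_and]
        refine (Finset.subset_singleton_iff.mp ?_).resolve_left (h0 u).ne_empty
        rw [← hb]
        exact Finset.subset_biUnion_of_mem av hu)
  obtain ⟨f, hf, hf2⟩ := this
  refine ⟨fun v => (f v).1, fun v => (Finset.mem_product.mp (hf2 v)).1, fun a => ?_⟩
  rw [← Finset.card_range H]
  refine Finset.card_le_card_of_injOn (fun v => (f v).2)
    (fun v _ => (Finset.mem_product.mp (hf2 v)).2) (fun u hu v hv h => hf ?_)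
  simp only [Finset.coe_filter, Finset.mem_univ, true_and, Set.mem_ofPred_eq] at hu hv
  exact Prod.ext (hu.trans hv.symm) h

def cnt {M : ℕ} (p q : Fin M → ℕ) (t c : ℕ) : ℕ :=
  ∑ j, if t ≠ c ∧ (t = p j ∨ t = q j) ∧ (c = p j ∨ c = q j) then 1 else 0

def w {M : ℕ} (p q : Fin M → ℕ) (t c : ℕ) : ℕ := (if t = c then 1 else 0) + cnt p q t c

theorem le_M {M : ℕ} (f : Fin M → ℕ) (h : ∀ j, f j ≤ 1) : ∑ j, f j ≤ M := by
  simpa using Finset.sum_le_card_nsmul Finset.univ f 1 (fun j _ => h j)

theorem cnt_self {M : ℕ} (p q : Fin M → ℕ) (t : ℕ) : cnt p q t t = 0 := by simp [cnt]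

theorem cnt_le {M : ℕ} (p q : Fin M → ℕ) (t c : ℕ) : cnt p q t c ≤ M :=
  le_M _ (fun j => by split_ifs <;> omega)

theorem P2 {M : ℕ} (hM : 1 ≤ M) (p q : Fin M → ℕ) (t t' c c' : ℕ) (hc : c ≠ c')
    (h : t ≠ t' → ¬ (t = c' ∧ t' = c)) : w p q t c + w p q t' c' ≤ M + 1 := by
  unfold w
  by_cases h1 : t = c
  · subst h1
    rw [cnt_self]
    have := cnt_le p q t' c'
    by_cases h2 : t' = c'
    · subst h2; rw [cnt_self]; simp; omega
    · simp [h2]; omega
  by_cases h2 : t' = c'
  · subst h2
    rw [cnt_self]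
    have := cnt_le p q t c
    simp [h1]; omega
  have : cnt p q t c + cnt p q t' c' ≤ M := by
    unfold cnt
    rw [← Finset.sum_add_distrib]
    exact le_M _ (fun j => by split_ifs <;> omega)
  simp [h1, h2]; omega

theorem P3 {M : ℕ} (p q : Fin M → ℕ) (t t' c c' : ℕ) (hc : c ≠ c') (ht : t ≠ t')
    (h : ¬ ((t = c ∧ t' = c') ∨ (t = c' ∧ t' = c))) :
    w p q t c + w p q t c' + (w p q t' c + w p q t' c') ≤ M + 1 := by
  unfold w
  have : cnt p q t c + cnt p q t c' + (cnt p q t' c + cnt p q t' c') ≤ M := by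
    unfold cnt
    rw [← Finset.sum_add_distrib, ← Finset.sum_add_distrib, ← Finset.sum_add_distrib]
    exact le_M _ (fun j => by split_ifs <;> omega)
  split_ifs <;> omega

theorem core {n : ℕ} (m : Fin n → ℕ) (hm : ∀ i, 1 ≤ m i) (H : ℕ) (hH : ∑ i, (m i + 1) = 2 * H)
    (hcond : ∀ A : Fin n → Bool, ∃ ε : Fin n → Bool,
      2 * ∑ j, (if A j then (if ε j then m j else 1) else 0) ≤
        2 * ∑ j, (if A j then (if ε j then 1 else m j) else 0) +
          ∑ j, (if A j then 0 else m j + 1) ∧
      2 * ∑ j, (if A j then (if ε j then 1 else m j) else 0) ≤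
        2 * ∑ j, (if A j then (if ε j then m j else 1) else 0) +
          ∑ j, (if A j then 0 else m j + 1))
    (p q : ∀ i, Fin (m i) → ℕ) (ch : Fin n → Bool → ℕ) (hch : ∀ i b, ch i b ≠ ch i (!b)) :
    ∃ β : Fin n → Bool, ∀ c, ∑ i, w (p i) (q i) (ch i (β i)) c ≤ H := by
  classical
  by_contra hno
  push Not at hno
  choose col hcol using hno
  have star : ∀ β β', col β ≠ col β' → ∃ j, β j ≠ β' j ∧ ch j (β j) = col β' ∧
      ch j (β' j) = col β := by
    intro β β' hne
    by_contra h
    push Not at h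
    have h1 := hcol β
    have h2 := hcol β'
    have h3 : ∑ i, w (p i) (q i) (ch i (β i)) (col β) +
        ∑ i, w (p i) (q i) (ch i (β' i)) (col β') ≤ ∑ i, (m i + 1) := by
      rw [← Finset.sum_add_distrib]
      refine Finset.sum_le_sum (fun j _ => P2 (hm j) _ _ _ _ _ _ hne ?_)
      rintro h4 ⟨h5, h6⟩
      exact h j (fun e => h4 (by rw [e])) h5 h6
    omega
  have av : ∀ β z, (∀ j, ch j (z j) ≠ col β) → col z = col β := by
    intro β z hz
    by_contra h
    obtain ⟨j, -, -, h3⟩ := star β z (Ne.symm h)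
    exact hz j h3
  have two : ∀ (cyc β : Fin n → Bool) (c2 : ℕ), c2 ≠ col β →
      (∀ j, ch j (cyc j) = col β → ch j (!cyc j) = c2) → col cyc = col β ∨ col cyc = c2 := by
    intro cyc β c2 h2 h
    have h1 := av β (fun j => if ch j (cyc j) = col β then !cyc j else cyc j) (fun j => by
      split_ifs with h3
      · rw [h j h3]; exact h2
      · exact h3)
    by_contra h4
    push Not at h4
    obtain ⟨j, -, k2, k3⟩ := star cyc _ (h1 ▸ h4.1)
    rw [h1] at k2
    simp only [k2, if_true] at k3
    exact h4.2 (k3.symm.trans (h j k2))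
  have three : ∀ β1 β2 β3, col β1 ≠ col β2 → col β1 ≠ col β3 → col β2 ≠ col β3 → False := by
    intro β1 β2 β3 h12 h13 h23
    have : ∀ j, ∃ b, (ch j b = col β1 → ch j (!b) = col β2) ∧
        (ch j b = col β2 → ch j (!b) = col β3) ∧ (ch j b = col β3 → ch j (!b) = col β1) := by
      intro j
      have := hch j true
      simp only [Bool.exists_bool, Bool.not_true, Bool.not_false] at this ⊢
      omega
    choose cyc hcyc using this
    have a1 := two cyc β1 _ h12.symm (fun j => (hcyc j).1)
    have a2 := two cyc β2 _ h23.symm (fun j => (hcyc j).2.1)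
    have a3 := two cyc β3 _ h13 (fun j => (hcyc j).2.2)
    omega
  obtain ⟨c1, c2, hc, hall⟩ : ∃ c1 c2, c1 ≠ c2 ∧ ∀ β, col β = c1 ∨ col β = c2 := by
    by_cases h : ∀ β, col β = col (fun _ => true)
    · exact ⟨_, col (fun _ => true) + 1, by omega, fun β => Or.inl (h β)⟩
    · push Not at h
      obtain ⟨β', hβ'⟩ := h
      refine ⟨_, _, hβ', fun β => ?_⟩
      by_contra h4
      push Not at h4
      exact three β β' _ h4.1 h4.2 hβ'
  let A : Fin n → Bool := fun j =>
    decide ((ch j true = c1 ∧ ch j false = c2) ∨ (ch j true = c2 ∧ ch j false = c1))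
  obtain ⟨ε, h1, h2⟩ := hcond A
  let X : Bool → ℕ → ℕ := fun z c => ∑ j, if A j then 0 else w (p j) (q j) (ch j z) c
  have hX : X true c1 + X true c2 + (X false c1 + X false c2) ≤
      ∑ j, (if A j then 0 else m j + 1) := by
    simp only [X, ← Finset.sum_add_distrib]
    refine Finset.sum_le_sum (fun j _ => ?_)
    split_ifs with h
    · simp
    · exact P3 _ _ _ _ _ _ hc (hch j true) (by simpa [A] using h)
  have hS : ∑ j, (if A j then (if ε j then m j else 1) else 0) +
      ∑ j, (if A j then (if ε j then 1 else m j) else 0) +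
      ∑ j, (if A j then 0 else m j + 1) = 2 * H := by
    rw [← hH, ← Finset.sum_add_distrib, ← Finset.sum_add_distrib]
    refine Finset.sum_congr rfl (fun j _ => ?_)
    split_ifs <;> omega
  have main : ∀ (z : Bool) (d1 d2 : ℕ), d1 ≠ d2 → ((d1 = c1 ∧ d2 = c2) ∨ (d1 = c2 ∧ d2 = c1)) →
      H < ∑ j, (if A j then (if ε j then m j else 1) else 0) + X z d1 ∨
      H < ∑ j, (if A j then (if ε j then 1 else m j) else 0) + X z d2 := by
    intro z d1 d2 hd hdc
    let β : Fin n → Bool := fun j =>
      if A j then decide (ch j true = (if ε j then d2 else d1)) else z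
    have hβ : ∀ j, A j = true → ch j (β j) = if ε j then d2 else d1 := by
      intro j hj
      have hj' : (ch j true = c1 ∧ ch j false = c2) ∨ (ch j true = c2 ∧ ch j false = c1) := by
        simpa [A] using hj
      simp only [β, hj, if_true]
      by_cases h : ch j true = (if ε j then d2 else d1)
      · simp [h]
      · simp only [h, decide_false]
        split_ifs at h ⊢ <;> omega
    have h3 := hcol β
    have : col β = d1 ∨ col β = d2 := by have := hall β; omega
    rcases this with h4 | h4
    · left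
      refine h3.trans_le ?_
      simp only [X, ← Finset.sum_add_distrib, h4]
      refine Finset.sum_le_sum (fun j _ => ?_)
      by_cases hj : A j = true
      · rw [hβ j hj]
        have := cnt_le (p j) (q j) d2 d1
        cases ε j <;> simp [hj, w, cnt_self, hd.symm, this]
      · simp [β, hj]
    · right
      refine h3.trans_le ?_
      simp only [X, ← Finset.sum_add_distrib, h4]
      refine Finset.sum_le_sum (fun j _ => ?_)
      by_cases hj : A j = true
      · rw [hβ j hj]
        have := cnt_le (p j) (q j) d1 d2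
        cases ε j <;> simp [hj, w, cnt_self, hd, this]
      · simp [β, hj]
  have m1 := main true c1 c2 hc (by simp)
  have m2 := main true c2 c1 hc.symm (by simp)
  have m3 := main false c1 c2 hc (by simp)
  have m4 := main false c2 c1 hc.symm (by simp)
  omega

theorem suff {n : ℕ} (m : Fin n → ℕ) (hm : ∀ i, 1 ≤ m i) (H : ℕ) (hH : ∑ i, (m i + 1) = 2 * H)
    (hcond : ∀ A : Fin n → Bool, ∃ ε : Fin n → Bool,
      2 * ∑ j, (if A j then (if ε j then m j else 1) else 0) ≤
        2 * ∑ j, (if A j then (if ε j then 1 else m j) else 0) +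
          ∑ j, (if A j then 0 else m j + 1) ∧
      2 * ∑ j, (if A j then (if ε j then 1 else m j) else 0) ≤
        2 * ∑ j, (if A j then (if ε j then m j else 1) else 0) +
          ∑ j, (if A j then 0 else m j + 1)) : EqChoosable (stars m) 2 := by
  classical
  intro L hL
  have hL2 := fun v => Finset.card_eq_two.mp (hL v)
  choose x y hxy hLxy using hL2
  let ch : Fin n → Bool → ℕ := fun i b => if b then x ⟨i, none⟩ else y ⟨i, none⟩
  obtain ⟨β, hβ⟩ := core m hm H hH hcond (fun i j => x ⟨i, some j⟩) (fun i j => y ⟨i, some j⟩) ch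
    (fun i b => by
      have := hxy ⟨i, none⟩
      cases b <;> simp [ch] <;> omega)
  let av : (Σ i : Fin n, Option (Fin (m i))) → Finset ℕ := fun v =>
    if v.2.isNone then {ch v.1 (β v.1)} else (L v).erase (ch v.1 (β v.1))
  obtain ⟨c, hc1, hc2⟩ := hall av H (by rw [card_V, hH]) (fun v => by
      simp only [av]
      split_ifs
      · simp
      · rw [← Finset.card_pos]
        have := Finset.pred_card_le_card_erase (s := L v) (a := ch v.1 (β v.1))
        have := hL v
        omega) (fun a => by
      rw [card_filter_sigma]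
      refine le_trans (Finset.sum_le_sum (fun i _ => ?_)) (hβ a)
      unfold w cnt
      refine Nat.add_le_add (by simp [av]) ?_
      rw [Finset.card_filter]
      refine Finset.sum_le_sum (fun j _ => ?_)
      split_ifs with h1 h2
      · rfl
      · exfalso
        apply h2
        simp only [av, Option.isNone_some, Bool.false_eq_true, if_false, hLxy] at h1
        have k1 := Finset.ext_iff.mp h1 a
        have k2 := Finset.ext_iff.mp h1 (x ⟨i, some j⟩)
        have k3 := Finset.ext_iff.mp h1 (y ⟨i, some j⟩)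
        have k4 := hxy ⟨i, some j⟩
        simp only [Finset.mem_erase, Finset.mem_insert, Finset.mem_singleton] at k1 k2 k3
        grind
      · simp
      · simp)
  refine ⟨c, ?_, ?_, fun a => ?_⟩
  · rintro ⟨i, _ | j⟩
    · have := hc1 ⟨i, none⟩
      simp only [av, Option.isNone_none, if_true, Finset.mem_singleton] at this
      rw [this, hLxy]
      cases β i <;> simp [ch]
    · have := hc1 ⟨i, some j⟩
      simp only [av, Option.isNone_some, Bool.false_eq_true, if_false] at this
      exact Finset.mem_of_mem_erase this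
  · have key : ∀ i j, c ⟨i, none⟩ ≠ c ⟨i, some j⟩ := by
      intro i j
      have h1 := hc1 ⟨i, none⟩
      have h2 := hc1 ⟨i, some j⟩
      simp only [av, Option.isNone_none, if_true, Finset.mem_singleton, Option.isNone_some,
        Bool.false_eq_true, if_false, Finset.mem_erase] at h1 h2
      rw [h1]
      exact h2.1.symm
    rintro ⟨i, a⟩ ⟨i', b⟩ ⟨h1, h2⟩
    obtain rfl : i = i' := h1
    rcases a with _ | a <;> rcases b with _ | b
    · simp at h2
    · exact key _ _
    · exact (key _ _).symm
    · simp at h2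
  · rw [ceil_half, card_V, hH]
    have := hc2 a
    omega

theorem quarter (M r : ℕ) (hr : r < 4) (P : Fin M → Prop) [DecidablePred P]
    (h : ∀ t : Fin M, t.val % 4 = r → P t) : M / 4 ≤ (Finset.univ.filter P).card := by
  have := Finset.card_le_card_of_injOn (s := (Finset.univ : Finset (Fin (M / 4))))
    (t := Finset.univ.filter P) (fun u => ⟨4 * u.val + r, by omega⟩)
    (fun u _ => by
      simp only [Finset.coe_filter, Finset.mem_univ, true_and, Set.mem_ofPred_eq]
      exact h _ (by simp only; omega))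
    (fun u _ v _ huv => by
      simp only [Fin.mk.injEq] at huv
      exact Fin.ext (by omega))
  simpa using this

theorem nec {n : ℕ} (m : Fin n → ℕ) (h : EqChoosable (stars m) 2) (T : Fin n → Prop)
    [DecidablePred T] : ∃ ε : Fin n → Bool,
      ∑ i, (if T i then m i / 4 else if ε i then m i else 1) ≤ (∑ i, (m i + 1) + 1) / 2 ∧
      ∑ i, (if T i then m i / 4 else if ε i then 1 else m i) ≤ (∑ i, (m i + 1) + 1) / 2 := by
  let L : (Σ i : Fin n, Option (Fin (m i))) → Finset ℕ := fun v =>
    if T v.1 then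
      match v.2 with
      | none => {2, 3}
      | some t => {2 + t.val % 4 / 2, t.val % 2}
    else {0, 1}
  obtain ⟨c, hc1, hc2, hc3⟩ := h L (by
    rintro ⟨i, _ | t⟩
    · simp only [L]; split_ifs <;> simp
    · simp only [L]
      split_ifs
      · exact Finset.card_pair (by omega)
      · simp)
  have adj : ∀ i j, c ⟨i, none⟩ ≠ c ⟨i, some j⟩ := fun i j => hc2 _ _ ⟨rfl, by simp⟩
  have key : ∀ a : ℕ, a < 2 → ∑ i, (if T i then m i / 4 else
      if c ⟨i, none⟩ = a then 1 else m i) ≤ (∑ i, (m i + 1) + 1) / 2 := by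
    intro a ha
    have := hc3 a
    rw [ceil_half, card_V, card_filter_sigma] at this
    refine le_trans (Finset.sum_le_sum (fun i _ => ?_)) this
    have h0 := hc1 ⟨i, none⟩
    by_cases hT : T i
    · simp only [L, hT, if_true, Finset.mem_insert, Finset.mem_singleton] at h0 ⊢
      refine le_trans (quarter (m i) (2 * (c ⟨i, none⟩ - 2) + a) (by omega) _ (fun t ht => ?_))
        (Nat.le_add_left _ _)
      have h1 := hc1 ⟨i, some t⟩
      have h2 := adj i t
      simp only [L, hT, if_true, Finset.mem_insert, Finset.mem_singleton] at h1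
      omega
    · simp only [L, hT, if_false, Finset.mem_insert, Finset.mem_singleton] at h0 ⊢
      split_ifs with h1
      · omega
      · rw [Finset.filter_true_of_mem]
        · simp
        · intro t _
          have h1 := hc1 ⟨i, some t⟩
          have h2 := adj i t
          simp only [L, hT, if_false, Finset.mem_insert, Finset.mem_singleton] at h1
          omega
  refine ⟨fun i => decide (c ⟨i, none⟩ = 1), ?_, ?_⟩
  · refine le_trans (Finset.sum_le_sum (fun i _ => ?_)) (key 0 (by omega))
    have h0 := hc1 ⟨i, none⟩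
    by_cases hT : T i
    · simp [hT]
    · simp only [L, hT, if_false, Finset.mem_insert, Finset.mem_singleton] at h0 ⊢
      rcases h0 with h0 | h0 <;> simp [h0]
  · simpa using key 1 (by omega)

end Pool.Agent.H11.Stars
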