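import Mathlib

namespace Pool.Agent.H11.Woody

/-- Woody edge colouring: no cycle is monochromatic. -/
def IsWoody {V : Type} (G : SimpleGraph V) (c : Sym2 V → ℕ) : Prop :=
  ∀ (v : V) (w : G.Walk v v), w.IsCycle → ∃ f ∈ w.edges, ∃ g ∈ w.edges, c f ≠ c g

/-- Strongly woody edge colouring: no broken cycle `C - e` is monochromatic. -/
def IsStronglyWoody {V : Type} (G : SimpleGraph V) (c : Sym2 V → ℕ) : Prop :=
  ∀ (v : V) (w : G.Walk v v), w.IsCycle → ∀ e ∈ w.edges,
    ∃ f ∈ w.edges, ∃ g ∈ w.edges, f ≠ e ∧ g ≠ e ∧ c f ≠ c g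

/-- Arboricity: least `k` such that some woody colouring uses only colours `< k` on edges. -/
noncomputable def arb {V : Type} (G : SimpleGraph V) : ℕ :=
  sInf {k | ∃ c : Sym2 V → ℕ, (∀ e ∈ G.edgeSet, c e < k) ∧ IsWoody G c}

/-- Strong arboricity. -/
noncomputable def strongArb {V : Type} (G : SimpleGraph V) : ℕ :=
  sInf {k | ∃ c : Sym2 V → ℕ, (∀ e ∈ G.edgeSet, c e < k) ∧ IsStronglyWoody G c}

theorem strong_nonempty {V : Type} [Finite V] (G : SimpleGraph V) :
    {k | ∃ c : Sym2 V → ℕ, (∀ e ∈ G.edgeSet, c e < k) ∧ IsStronglyWoody G c}.Nonempty := by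
  classical
  obtain ⟨n, ⟨φ⟩⟩ := Finite.exists_equiv_fin (Sym2 V)
  refine ⟨n, fun e => (φ e).val, fun e _ => (φ e).2, fun v w hw e _ => ?_⟩
  have h1 : 1 < (w.edges.toFinset.erase e).card := by
    have h2 := Finset.pred_card_le_card_erase (s := w.edges.toFinset) (a := e)
    rw [List.toFinset_card_of_nodup hw.edges_nodup, SimpleGraph.Walk.length_edges] at h2
    have := hw.three_le_length
    omega
  obtain ⟨f, hf, g, hg, hfg⟩ := Finset.one_lt_card.mp h1
  simp only [Finset.mem_erase, List.mem_toFinset] at hf hg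
  exact ⟨f, hf.2, g, hg.2, hf.1, hg.1, fun h => hfg (φ.injective (Fin.ext h))⟩

theorem IsStronglyWoody.woody {V : Type} {G : SimpleGraph V} {c : Sym2 V → ℕ}
    (h : IsStronglyWoody G c) : IsWoody G c := by
  intro v w hw
  obtain ⟨e, he⟩ := List.exists_mem_of_length_pos (l := w.edges)
    (by rw [SimpleGraph.Walk.length_edges]; have := hw.three_le_length; omega)
  obtain ⟨f, hf, g, hg, -, -, h3⟩ := h v w hw e he
  exact ⟨f, hf, g, hg, h3⟩

theorem four {V : Type} {G : SimpleGraph V} {c : Sym2 V → ℕ} (h : IsStronglyWoody G c)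
    {a b x d : V} (h1 : G.Adj a b) (h2 : G.Adj b x) (h3 : G.Adj x d) (h4 : G.Adj d a)
    (n1 : a ≠ x) (n2 : b ≠ d) (e1 : c s(a, b) = c s(b, x)) (e2 : c s(b, x) = c s(x, d)) : False := by
  have := h1.ne
  have := h2.ne
  have := h3.ne
  have := h4.ne
  obtain ⟨f, hf, g, hg, k1, k2, k3⟩ := h a
    (.cons h1 (.cons h2 (.cons h3 (.cons h4 .nil))))
    (by
      simp only [SimpleGraph.Walk.isCycle_def, SimpleGraph.Walk.isTrail_def]
      simp
      grind) s(d, a) (by simp)
  simp at hf hg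
  grind

theorem six {V : Type} {G : SimpleGraph V} {c : Sym2 V → ℕ} (h : IsWoody G c)
    {a b x d y z : V} (h1 : G.Adj a b) (h2 : G.Adj b x) (h3 : G.Adj x d) (h4 : G.Adj d y)
    (h5 : G.Adj y z) (h6 : G.Adj z a) (hn : [a, b, x, d, y, z].Nodup)
    (e1 : c s(a, b) = c s(b, x)) (e2 : c s(b, x) = c s(x, d)) (e3 : c s(x, d) = c s(d, y))
    (e4 : c s(d, y) = c s(y, z)) (e5 : c s(y, z) = c s(z, a)) : False := by
  simp at hn
  obtain ⟨f, hf, g, hg, k3⟩ := h a
    (.cons h1 (.cons h2 (.cons h3 (.cons h4 (.cons h5 (.cons h6 .nil))))))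
    (by
      simp only [SimpleGraph.Walk.isCycle_def, SimpleGraph.Walk.isTrail_def]
      simp
      grind)
  simp at hf hg
  rcases hf with rfl | rfl | rfl | rfl | rfl | rfl <;>
    rcases hg with rfl | rfl | rfl | rfl | rfl | rfl <;> omega

end Pool.Agent.H11.Woody
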